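import Pool.Agent.Lib_helper26.SDN.Defs
import Pool.Agent.Lib_helper15.KZF.BD

/-! Block AV (project SDN): counts of sets all of whose labels are in `Λ`. -/

namespace Pool.Agent.SDN

open Finset

open Classical in
theorem bd_cnt {V L ι : Type} [Fintype V] [DecidableEq V] (J : Finset ι) (Q : ι → Finset V)
    (Λ : Finset L) (Δ : ℝ) (hΔ : ∀ i, ((J.filter fun j => i ∈ Q j).card : ℝ) ≤ Δ) :
    KZ.BD (fun _ => Δ)
      (fun ω : V → L => ((J.filter fun j => ∀ i ∈ Q j, ω i ∈ Λ).card : ℝ)) := by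
  intro i ω l
  simp only [Finset.card_filter, Nat.cast_sum]
  rw [← Finset.sum_sub_distrib]
  refine (Finset.abs_sum_le_sum_abs _ _).trans ?_
  refine le_trans ?_ (hΔ i)
  rw [Finset.card_filter, Nat.cast_sum]
  refine Finset.sum_le_sum fun j _ => ?_
  by_cases h : i ∈ Q j
  · rw [if_pos h]
    split_ifs <;> simp
  · have : (∀ k ∈ Q j, Function.update ω i l k ∈ Λ) ↔ (∀ k ∈ Q j, ω k ∈ Λ) := by
      refine forall₂_congr fun k hk => ?_
      have hki : k ≠ i := fun e => h (e ▸ hk)
      rw [Function.update_of_ne hki]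
    simp [this, h]

open Classical in
theorem avg_cnt {V L ι : Type} [Fintype V] [DecidableEq V] [Fintype L] [Nonempty L]
    (J : Finset ι) (Q : ι → Finset V) (Λ : Finset L) :
    KZ.avg (fun ω : V → L => ((J.filter fun j => ∀ i ∈ Q j, ω i ∈ Λ).card : ℝ)) =
      ∑ j ∈ J, ((Λ.card : ℝ) / Fintype.card L) ^ (Q j).card := by
  simp only [Finset.card_filter, Nat.cast_sum]
  rw [KZ.avg_sum]
  refine Finset.sum_congr rfl fun j _ => ?_
  have hL : (Fintype.card L : ℝ) ≠ 0 := by exact_mod_cast Fintype.card_ne_zero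
  have h1 : (∑ ω : V → L, (((if ∀ i ∈ Q j, ω i ∈ Λ then 1 else 0 : ℕ)) : ℝ)) =
      ∏ i : V, (((if i ∈ Q j then Λ else univ : Finset L)).card : ℝ) := by
    rw [← Nat.cast_sum, ← Nat.cast_prod, ← Fintype.card_piFinset, ← Finset.card_filter]
    congr 2
    ext ω
    simp only [Finset.mem_filter, Finset.mem_univ, true_and, Fintype.mem_piFinset]
    refine forall_congr' fun i => ?_
    by_cases h : i ∈ Q j <;> simp [h]
  unfold KZ.avg
  rw [h1, Fintype.card_fun, Nat.cast_pow, ← Finset.card_univ (α := V), ← Finset.prod_const,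
    ← Finset.prod_div_distrib, ← Finset.prod_const, ← Finset.prod_subset (Finset.subset_univ (Q j))]
  · refine Finset.prod_congr rfl fun i hi => ?_
    rw [if_pos hi]
  · intro i _ hi
    rw [if_neg hi, Finset.card_univ, div_self hL]

end Pool.Agent.SDN
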