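import Pool.Agent.Lib_helper26.SDN.Defs

/-! Block VX (project SDN). -/

namespace Pool.Agent.SDN

open Finset

variable {V : Type*} [AddCommGroup V]

theorem vs_append (c : V) (l₁ l₂ : List V) :
    vs c (l₁ ++ l₂) = vs c l₁ ++ vs (c + l₁.sum) l₂ := by
  induction l₁ generalizing c with
  | nil => simp [vs]
  | cons a l ih => simp only [List.cons_append, vs, ih, List.sum_cons, add_assoc]

theorem vs_translate (c d : V) (l : List V) : vs (c + d) l = (vs c l).map (· + d) := by
  induction l generalizing c with
  | nil => simp [vs]
  | cons a l ih =>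
    have h : c + d + a = c + a + d := by abel
    simp only [vs, List.map_cons, h, ih]

theorem vs_length (c : V) (l : List V) : (vs c l).length = l.length := by
  induction l generalizing c with
  | nil => simp [vs]
  | cons a l ih => simp only [vs, List.length_cons, ih]

theorem vs_last (c : V) (l : List V) (hl : l ≠ []) :
    vs c l = (vs c l).dropLast ++ [c + l.sum] := by
  obtain ⟨l', a, rfl⟩ := (List.eq_nil_or_concat' l).resolve_left hl
  have h : vs c (l' ++ [a]) = vs c l' ++ [c + (l' ++ [a]).sum] := by
    rw [vs_append]
    simp [vs, add_assoc]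
  rw [h, List.dropLast_concat]

lemma VX_vs_map (c : V) (l : List V) :
    vs c l = (List.range l.length).map (fun j => c + (l.take (j + 1)).sum) := by
  induction l generalizing c with
  | nil => simp [vs]
  | cons a l ih =>
    simp only [vs, List.length_cons, List.range_succ_eq_map, List.map_cons, List.map_map, ih]
    congr 1
    · simp
    · apply List.map_congr_left
      intro j _
      simp [List.take_succ_cons, add_assoc]

theorem vs_mem (c : V) (l : List V) (u : V) :
    u ∈ vs c l ↔ ∃ j, 1 ≤ j ∧ j ≤ l.length ∧ u = c + (l.take j).sum := by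
  rw [VX_vs_map]
  simp only [List.mem_map, List.mem_range]
  constructor
  · rintro ⟨j, hj, rfl⟩
    exact ⟨j + 1, by omega, by omega, rfl⟩
  · rintro ⟨j, hj1, hj2, rfl⟩
    refine ⟨j - 1, by omega, ?_⟩
    rw [Nat.sub_add_cancel hj1]

theorem rv_append {s m : ℕ} (Z : Fin s → Fin m → V) (c : V)
    (L₁ L₂ : List (V × Option (Fin s))) :
    rv Z c (L₁ ++ L₂) = rv Z c L₁ ++ rv Z (c + (cl L₁).sum) L₂ := by
  induction L₁ generalizing c with
  | nil => simp [rv, cl]
  | cons x L ih =>
    obtain ⟨a, o⟩ := x
    cases o with
    | none =>
      simp only [List.cons_append, rv, ih, cl, List.map_cons, List.sum_cons, add_assoc]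
    | some z =>
      simp only [List.cons_append, rv, ih, cl, List.map_cons, List.sum_cons, List.append_assoc,
        add_assoc]

theorem rv_none {s m : ℕ} (Z : Fin s → Fin m → V) (c : V) (l : List V) :
    rv Z c (l.map fun a => (a, none)) = vs c l := by
  induction l generalizing c with
  | nil => simp [rv, vs]
  | cons a l ih => simp only [List.map_cons, rv, vs, ih]

theorem rv_last {s m : ℕ} (Z : Fin s → Fin m → V) (c : V) (L : List (V × Option (Fin s)))
    (hL : L ≠ []) : rv Z c L = (rv Z c L).dropLast ++ [c + (cl L).sum] := by
  obtain ⟨L', x, rfl⟩ := (List.eq_nil_or_concat' L).resolve_left hL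
  obtain ⟨a, o⟩ := x
  have hs : c + (cl (L' ++ [(a, o)])).sum = c + (cl L').sum + a := by
    simp [cl, add_assoc]
  have h : ∃ T, rv Z c (L' ++ [(a, o)]) = T ++ [c + (cl (L' ++ [(a, o)])).sum] := by
    rw [rv_append, hs]
    cases o with
    | none => exact ⟨rv Z c L', by simp [rv]⟩
    | some z =>
      refine ⟨rv Z c L' ++ ((List.range (m - 1)).map
        (fun j => c + (cl L').sum + P (Z z) (j + 1)) ++
        [c + (cl L').sum + a + P (Z z) (m - 1)]), ?_⟩
      simp [rv]
  obtain ⟨T, hT⟩ := h
  rw [hT, List.dropLast_concat]

theorem ex_append {s m : ℕ} (Z : Fin s → Fin m → V) (U : Finset (Fin s))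
    (L₁ L₂ : List (V × Option (Fin s))) : ex Z U (L₁ ++ L₂) = ex Z U L₁ ++ ex Z U L₂ := by
  induction L₁ with
  | nil => simp [ex]
  | cons x L ih =>
    obtain ⟨a, o⟩ := x
    cases o with
    | none => simp only [List.cons_append, ex, ih]
    | some z => simp only [List.cons_append, ex, ih, List.append_assoc]

theorem take_ofFn_sum {m : ℕ} (y : Fin m → V) (j : ℕ) :
    ((List.ofFn y).take j).sum = P y j := by
  rw [List.sum_take_ofFn, Finset.sum_filter]
  rfl

lemma VX_sum_ofFn {m : ℕ} (y : Fin m → V) : (List.ofFn y).sum = P y m := by
  rw [← take_ofFn_sum, List.take_of_length_le (by simp)]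

theorem ex_sum {s m : ℕ} (Z : Fin s → Fin m → V) (U : Finset (Fin s)) (hZ : ∀ z, P (Z z) m = 0)
    (L : List (V × Option (Fin s))) : (ex Z U L).sum = (cl L).sum := by
  induction L with
  | nil => simp [ex, cl]
  | cons x L ih =>
    obtain ⟨a, o⟩ := x
    cases o with
    | none =>
      simp only [ex, cl, List.sum_cons, List.map_cons] at ih ⊢
      rw [ih]
    | some z =>
      have h1 : ((List.ofFn (Z z)).take (m - 1)).sum + ((List.ofFn (Z z)).drop (m - 1)).sum = 0 := by
        rw [← List.sum_append, List.take_append_drop, VX_sum_ofFn, hZ]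
      simp only [ex, cl, List.map_cons, List.sum_cons, List.sum_append] at ih ⊢
      rw [ih]
      split_ifs with hz
      · rw [List.sum_append, List.sum_cons]
        have h2 : ((List.ofFn (Z z)).take (m - 1)).sum +
            (a + ((List.ofFn (Z z)).drop (m - 1)).sum) = a := by
          calc _ = a + (((List.ofFn (Z z)).take (m - 1)).sum +
                ((List.ofFn (Z z)).drop (m - 1)).sum) := by abel
            _ = a := by rw [h1, add_zero]
        rw [h2]
      · simp

lemma VX_vs_take {m : ℕ} (c : V) (y : Fin m → V) (k : ℕ) (hk : k ≤ m) :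
    vs c ((List.ofFn y).take k) = (List.range k).map (fun j => c + P y (j + 1)) := by
  rw [VX_vs_map]
  have hl : ((List.ofFn y).take k).length = k := by simp [hk]
  rw [hl]
  apply List.map_congr_left
  intro j hj
  rw [List.mem_range] at hj
  rw [List.take_take, min_eq_left (by omega), take_ofFn_sum]

lemma VX_drop {m : ℕ} (hm : 1 ≤ m) (y : Fin m → V) :
    (List.ofFn y).drop (m - 1) = [((List.ofFn y).drop (m - 1)).sum] := by
  have hl : ((List.ofFn y).drop (m - 1)).length = 1 := by
    simp only [List.length_drop, List.length_ofFn]
    omega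
  obtain ⟨b, hb⟩ := List.length_eq_one_iff.1 hl
  rw [hb]
  simp

theorem vs_ex {s m : ℕ} (hm : 1 ≤ m) (Z : Fin s → Fin m → V) (U : Finset (Fin s))
    (hZ : ∀ z, P (Z z) m = 0) (c : V) (L : List (V × Option (Fin s))) :
    List.Sublist (vs c (ex Z U L)) (rv Z c L) := by
  induction L generalizing c with
  | nil => simp [ex, rv, vs]
  | cons x L ih =>
    obtain ⟨a, o⟩ := x
    cases o with
    | none =>
      simp only [ex, rv, vs]
      exact (ih (c + a)).cons_cons _
    | some z =>
      simp only [ex, rv]
      split_ifs with hz
      · have h1 : ((List.ofFn (Z z)).take (m - 1)).sum +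
            ((List.ofFn (Z z)).drop (m - 1)).sum = 0 := by
          rw [← List.sum_append, List.take_append_drop, VX_sum_ofFn, hZ]
        have h2 := VX_drop hm (Z z)
        rw [List.append_assoc, vs_append, VX_vs_take c (Z z) (m - 1) (by omega)]
        refine List.Sublist.append (List.Sublist.refl _) ?_
        rw [List.cons_append, vs, vs_append, h2]
        have h3 : c + ((List.ofFn (Z z)).take (m - 1)).sum + a +
            ((List.ofFn (Z z)).drop (m - 1)).sum = c + a := by
          calc _ = c + a + (((List.ofFn (Z z)).take (m - 1)).sum +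
                ((List.ofFn (Z z)).drop (m - 1)).sum) := by abel
            _ = c + a := by rw [h1, add_zero]
        have h4 : c + ((List.ofFn (Z z)).take (m - 1)).sum + a = c + a + P (Z z) (m - 1) := by
          rw [take_ofFn_sum]
          abel
        simp only [vs, List.sum_cons, List.sum_nil, add_zero, List.cons_append, List.nil_append]
        rw [h3, h4]
        exact ((ih (c + a)).cons_cons _).cons_cons _
      · rw [List.singleton_append, vs]
        exact List.Sublist.trans ((ih (c + a)).cons_cons _)
          ((List.sublist_cons_self _ _).trans (List.sublist_append_right _ _))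

theorem ex_perm {s m : ℕ} (Z : Fin s → Fin m → V) (U : Finset (Fin s))
    (L : List (V × Option (Fin s))) : (ex Z U L).Perm
      (cl L ++ ((sk L).filter fun z => z ∈ U).flatMap fun z => List.ofFn (Z z)) := by
  induction L with
  | nil => simp [ex, cl, sk]
  | cons x L ih =>
    obtain ⟨a, o⟩ := x
    cases o with
    | none =>
      have h : sk ((a, none) :: L) = sk L := by simp [sk]
      rw [h]
      simp only [ex, cl, List.map_cons, List.cons_append]
      exact ih.cons a
    | some z =>
      have h : sk ((a, some z) :: L) = z :: sk L := by simp [sk]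
      rw [h]
      simp only [ex]
      by_cases hz : z ∈ U
      · rw [if_pos hz, List.filter_cons_of_pos (by simpa using hz), List.flatMap_cons]
        have h1 : ((List.ofFn (Z z)).take (m - 1) ++ a :: (List.ofFn (Z z)).drop (m - 1)).Perm
            (a :: List.ofFn (Z z)) := by
          refine List.perm_middle.trans ?_
          rw [List.take_append_drop]
        have h2 : (cl ((a, some z) :: L) ++ (List.ofFn (Z z) ++
            ((sk L).filter fun z => z ∈ U).flatMap fun z => List.ofFn (Z z))) =
            a :: (cl L ++ (List.ofFn (Z z) ++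
            ((sk L).filter fun z => z ∈ U).flatMap fun z => List.ofFn (Z z))) := by
          simp [cl]
        rw [h2]
        refine (h1.append ih).trans ?_
        rw [List.cons_append]
        refine List.Perm.cons a ?_
        rw [← List.append_assoc, ← List.append_assoc]
        exact (List.perm_append_comm).append_right _
      · rw [if_neg hz, List.filter_cons_of_neg (by simpa using hz)]
        simp only [cl, List.map_cons, List.cons_append, List.nil_append]
        exact ih.cons a

end Pool.Agent.SDN
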