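import Pool.Agent.Lib_helper26.SDN.Defs
import Pool.Agent.Lib_helper26.SDN.VX

/-! Block CH (project SDN). -/

namespace Pool.Agent.SDN

open Finset

theorem CH_rv_ne {V : Type*} [AddCommGroup V] {s m : ℕ} (Z : Fin s → Fin m → V) (c : V)
    (L : List (V × Option (Fin s))) (hL : L ≠ []) : rv Z c L ≠ [] := by
  rw [rv_last Z c L hL]
  simp

theorem chain_one {V : Type*} [AddCommGroup V] {s m : ℕ} (Z : Fin s → Fin m → V) (n : ℕ)
    (A0 A1 : V) (v : Fin n → V) (L : Fin n → List (V × Option (Fin s)))
    (l : Fin (n + 1) → List V) (hl : ∀ i, l i ≠ [])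
    (A E : Fin (n + 1) → V) (hA0 : A 0 = A0)
    (hA : ∀ i : Fin n, A i.succ = v i + (cl (L i)).sum)
    (hE : ∀ i : Fin n, E i.castSucc = v i) (hE1 : E (Fin.last n) = A1)
    (hs : ∀ i, (l i).sum = E i - A i) :
    ∃ Tm : List (V × Option (Fin s)), Tm ≠ [] ∧ (cl Tm).sum = A1 - A0 ∧
      (cl Tm).Perm ((List.ofFn l).flatten ++ (List.ofFn fun i => cl (L i)).flatten) ∧
      (sk Tm).Perm (List.ofFn fun i => sk (L i)).flatten ∧
      (rv Z A0 Tm).dropLast.Perm ((List.ofFn fun i => (vs (A i) (l i)).dropLast).flatten ++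
        (List.ofFn fun i => v i :: rv Z (v i) (L i)).flatten) := by
  have hcl : ∀ q : List V, cl (q.map fun a => (a, (none : Option (Fin s)))) = q := by
    intro q
    simp [cl, Function.comp_def]
  have hsk : ∀ q : List V, sk (q.map fun a => (a, (none : Option (Fin s)))) = [] := by
    intro q
    simp [sk, List.filterMap_map]
  have hclapp : ∀ L₁ L₂ : List (V × Option (Fin s)), cl (L₁ ++ L₂) = cl L₁ ++ cl L₂ := by
    intro L₁ L₂
    simp [cl]
  have hskapp : ∀ L₁ L₂ : List (V × Option (Fin s)), sk (L₁ ++ L₂) = sk L₁ ++ sk L₂ := by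
    intro L₁ L₂
    simp [sk]
  induction n generalizing A0 with
  | zero =>
    refine ⟨(l 0).map fun a => (a, none), ?_, ?_, ?_, ?_, ?_⟩
    · simpa using hl 0
    · rw [hcl, hs 0, hA0]
      congr 1
    · rw [hcl]
      simp
    · rw [hsk]
      simp
    · rw [rv_none, hA0.symm]
      simp
  | succ n ih =>
    obtain ⟨T', hne, hsum, hp1, hp2, hp3⟩ := ih (A 1) (fun i => v i.succ) (fun i => L i.succ)
      (fun i => l i.succ) (fun i => hl _) (fun i => A i.succ) (fun i => E i.succ) rfl
      (fun i => hA i.succ)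
      (fun i => by
        have := hE i.succ
        rw [← Fin.succ_castSucc] at this
        exact this)
      (by rw [Fin.succ_last]; exact hE1) (fun i => hs i.succ)
    have hv0 : E 0 = v 0 := hE 0
    have hA1 : A 1 = v 0 + (cl (L 0)).sum := hA 0
    have hs0 : A 0 + (l 0).sum = v 0 := by rw [hs 0, hv0]; abel
    refine ⟨((l 0).map fun a => (a, none)) ++ (L 0 ++ T'), ?_, ?_, ?_, ?_, ?_⟩
    · simp [hne]
    · rw [hclapp, hclapp, hcl, List.sum_append, List.sum_append, hsum, hs 0, hv0, hA1, hA0]
      abel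
    · rw [hclapp, hclapp, hcl, List.ofFn_succ (f := l),
        List.ofFn_succ (f := fun i => cl (L i)), List.flatten_cons,
        List.flatten_cons, List.append_assoc]
      refine List.Perm.append_left _ ?_
      refine (List.Perm.append_left _ hp1).trans ?_
      exact List.perm_append_comm_assoc _ _ _
    · rw [hskapp, hskapp, hsk, List.nil_append, List.ofFn_succ, List.flatten_cons]
      exact List.Perm.append_left _ hp2
    · rw [rv_append, rv_none, hcl, ← hA0, hs0, rv_append, ← hA1]
      have h1 : (vs (A 0) (l 0) ++ (rv Z (v 0) (L 0) ++ rv Z (A 1) T')).dropLast =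
          (vs (A 0) (l 0)).dropLast ++ ((v 0 :: rv Z (v 0) (L 0)) ++ (rv Z (A 1) T').dropLast) := by
        conv_lhs => rw [vs_last (A 0) (l 0) (hl 0), hs0]
        rw [List.append_assoc, List.dropLast_append_of_ne_nil (by simp)]
        congr 1
        rw [List.singleton_append, List.dropLast_cons_of_ne_nil, List.dropLast_append_of_ne_nil]
        · simp
        · exact CH_rv_ne Z _ _ hne
        · intro h
          exact CH_rv_ne Z (A 1) T' hne (List.append_eq_nil_iff.mp h).2
      rw [h1, List.ofFn_succ (f := fun i => (vs (A i) (l i)).dropLast),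
        List.ofFn_succ (f := fun i => v i :: rv Z (v i) (L i)), List.flatten_cons,
        List.flatten_cons, List.append_assoc]
      refine List.Perm.append_left _ ?_
      refine (List.Perm.append_left _ hp3).trans ?_
      exact List.perm_append_comm_assoc _ _ _

end Pool.Agent.SDN
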