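import Pool.Agent.Lib_helper26.SDN.Defs
import Pool.Agent.Lib_helper26.SDN.VX

/-! Block LK (project SDN): greedy choice of links; helper99. -/

namespace Pool.Agent.SDN

open Finset

open Classical in
/-- a union of at most `M` sets with at most one element each -/
theorem LK_card {V : Type*} {s M : ℕ} (l : List V) (hl : l.length ≤ M) (G : V → Finset (Fin s))
    (hG : ∀ a, (G a).card ≤ 1) : (l.toFinset.biUnion G).card ≤ M := by
  calc (l.toFinset.biUnion G).card ≤ l.toFinset.card * 1 :=
        Finset.card_biUnion_le_card_mul _ _ _ fun a _ => hG a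
    _ = l.toFinset.card := mul_one _
    _ ≤ l.length := List.toFinset_card_le l
    _ ≤ M := hl

open Classical in
theorem linking {V : Type*} [AddCommGroup V] {s M k₀ : ℕ} (R Φ : Finset V)
    (L : V → Fin s → List V) (hL : ∀ y, y ≠ 0 → Lnk R y M (L y))
    (hΦ : ∀ u y : V, y ≠ 0 →
      k₀ ≤ (univ.filter fun z => ∀ i ∈ (vs u (L y z)).dropLast, i ∈ Φ).card)
    {ι : Type*} [Fintype ι] (hn : 2 * M * Fintype.card ι < k₀) (A E : ι → V)
    (hAE : ∀ i, A i ≠ E i) :
    ∃ z : ι → Fin s,
      (∀ i, ∀ u ∈ (vs (A i) (L (E i - A i) (z i))).dropLast, u ∈ Φ) ∧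
      ∀ i j, i ≠ j → List.Disjoint (L (E i - A i) (z i)) (L (E j - A j) (z j)) ∧
        List.Disjoint (vs (A i) (L (E i - A i) (z i))).dropLast
          (vs (A j) (L (E j - A j) (z j))).dropLast := by
  have hy : ∀ i, E i - A i ≠ 0 := fun i h => hAE i (sub_eq_zero.1 h).symm
  have key : ∀ S : Finset ι, ∃ z : ι → Fin s,
      (∀ i ∈ S, ∀ u ∈ (vs (A i) (L (E i - A i) (z i))).dropLast, u ∈ Φ) ∧
      ∀ i ∈ S, ∀ j ∈ S, i ≠ j →
        List.Disjoint (L (E i - A i) (z i)) (L (E j - A j) (z j)) ∧
        List.Disjoint (vs (A i) (L (E i - A i) (z i))).dropLast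
          (vs (A j) (L (E j - A j) (z j))).dropLast := by
    intro S
    induction S using Finset.induction_on with
    | empty =>
      rcases isEmpty_or_nonempty ι with hι | ⟨⟨i⟩⟩
      · exact ⟨fun i => (hι.false i).elim, by simp, by simp⟩
      · have h0 : 0 < (univ.filter fun z =>
            ∀ v ∈ (vs (A i) (L (E i - A i) z)).dropLast, v ∈ Φ).card :=
          lt_of_lt_of_le (by omega) (hΦ (A i) (E i - A i) (hy i))
        obtain ⟨z0, _⟩ := Finset.card_pos.1 h0
        exact ⟨fun _ => z0, by simp, by simp⟩
    | insert i S hi ih =>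
      obtain ⟨z, h1, h2⟩ := ih
      -- forbidden choices
      let G1 : V → Finset (Fin s) := fun a => univ.filter fun w => a ∈ L (E i - A i) w
      let G2 : V → Finset (Fin s) := fun u =>
        univ.filter fun w => u ∈ (vs (A i) (L (E i - A i) w)).dropLast
      have hG1 : ∀ a, (G1 a).card ≤ 1 := by
        intro a
        rw [Finset.card_le_one]
        intro w hw w' hw'
        simp only [G1, mem_filter, mem_univ, true_and] at hw hw'
        by_contra hne
        exact (hL _ (hy i)).disj w w' hne hw hw'
      have htr : ∀ w, (vs (A i) (L (E i - A i) w)).dropLast =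
          ((vs 0 (L (E i - A i) w)).dropLast).map (· + A i) := by
        intro w
        have h := vs_translate 0 (A i) (L (E i - A i) w)
        rw [zero_add] at h
        rw [h, List.map_dropLast]
      have hG2 : ∀ u, (G2 u).card ≤ 1 := by
        intro u
        rw [Finset.card_le_one]
        intro w hw w' hw'
        simp only [G2, mem_filter, mem_univ, true_and, htr, List.mem_map] at hw hw'
        obtain ⟨a, ha, hau⟩ := hw
        obtain ⟨b, hb, hbu⟩ := hw'
        have hab : a = b := add_right_cancel (hau.trans hbu.symm)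
        by_contra hne
        exact (hL _ (hy i)).vdisj w w' hne ha (hab ▸ hb)
      let Bad : Finset (Fin s) := S.biUnion fun j =>
        (L (E j - A j) (z j)).toFinset.biUnion G1 ∪
          ((vs (A j) (L (E j - A j) (z j))).dropLast).toFinset.biUnion G2
      have hBad : Bad.card < k₀ := by
        have h3 : Bad.card ≤ S.card * (2 * M) := by
          refine Finset.card_biUnion_le_card_mul _ _ _ fun j _ => ?_
          refine (Finset.card_union_le _ _).trans ?_
          have h4 := LK_card (L (E j - A j) (z j)) ((hL _ (hy j)).len (z j)) G1 hG1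
          have h5 := LK_card ((vs (A j) (L (E j - A j) (z j))).dropLast) (M := M) (by
            rw [List.length_dropLast, vs_length]
            exact (Nat.sub_le _ _).trans ((hL _ (hy j)).len (z j))) G2 hG2
          omega
        refine lt_of_le_of_lt h3 (lt_of_le_of_lt ?_ hn)
        rw [mul_comm]
        exact Nat.mul_le_mul_left _ (Finset.card_le_univ S)
      obtain ⟨w, hw, hwB⟩ : ∃ w ∈ (univ.filter fun w =>
          ∀ u ∈ (vs (A i) (L (E i - A i) w)).dropLast, u ∈ Φ), w ∉ Bad := by
        by_contra hcon
        push Not at hcon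
        exact absurd (Finset.card_le_card hcon)
          (not_le.2 (lt_of_lt_of_le hBad (hΦ (A i) (E i - A i) (hy i))))
      simp only [mem_filter, mem_univ, true_and] at hw
      have hd : ∀ j ∈ S, List.Disjoint (L (E j - A j) (z j)) (L (E i - A i) w) ∧
          List.Disjoint (vs (A j) (L (E j - A j) (z j))).dropLast
            (vs (A i) (L (E i - A i) w)).dropLast := by
        intro j hj
        constructor
        · intro a ha hb
          refine hwB (mem_biUnion.2 ⟨j, hj, mem_union_left _ (mem_biUnion.2
            ⟨a, List.mem_toFinset.2 ha, ?_⟩)⟩)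
          simpa [G1] using hb
        · intro a ha hb
          refine hwB (mem_biUnion.2 ⟨j, hj, mem_union_right _ (mem_biUnion.2
            ⟨a, List.mem_toFinset.2 ha, ?_⟩)⟩)
          simpa [G2] using hb
      have hzi : Function.update z i w i = w := Function.update_self ..
      have hzj : ∀ j ∈ S, Function.update z i w j = z j := by
        intro j hj
        have hji : j ≠ i := fun h => hi (by rw [← h]; exact hj)
        exact Function.update_of_ne hji w z
      refine ⟨Function.update z i w, ?_, ?_⟩
      · intro j hj0
        rcases mem_insert.1 hj0 with hj | hj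
        · rw [hj, hzi]; exact hw
        · rw [hzj j hj]; exact h1 j hj
      · intro j hj0 j' hj0' hne
        rcases mem_insert.1 hj0 with hj | hj <;> rcases mem_insert.1 hj0' with hj' | hj'
        · exact absurd (hj.trans hj'.symm) hne
        · rw [hj, hzi, hzj j' hj']
          exact ⟨(hd j' hj').1.symm, (hd j' hj').2.symm⟩
        · rw [hj', hzi, hzj j hj]
          exact hd j hj
        · rw [hzj j hj, hzj j' hj']
          exact h2 j hj j' hj' hne
  obtain ⟨z, h1, h2⟩ := key univ
  exact ⟨z, fun i => h1 i (mem_univ _), fun i j => h2 i (mem_univ _) j (mem_univ _)⟩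

end Pool.Agent.SDN
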