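import Pool.Agent.Lib_helper26.SDN.Defs

/-! Block TP (project SDN), helper83. -/

namespace Pool.Agent.SDN

open Finset

theorem TP_zero {V : Type*} [AddCommGroup V] {n : ℕ} (y : Fin n → V) : P y 0 = 0 := by
  simp [P]

theorem TP_succ {V : Type*} [AddCommGroup V] {n : ℕ} (y : Fin n → V) (i : ℕ) (h : i < n) :
    P y (i + 1) = P y i + y ⟨i, h⟩ := by
  unfold P
  have h1 : ∀ x : Fin n, (if (x : ℕ) < i + 1 then y x else 0) =
      (if (x : ℕ) < i then y x else 0) + if x = ⟨i, h⟩ then y x else 0 := by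
    intro x
    by_cases h2 : (x : ℕ) < i
    · have h3 : x ≠ ⟨i, h⟩ := fun h4 => by rw [h4] at h2; exact lt_irrefl _ h2
      rw [if_pos h2, if_pos (by omega), if_neg h3, add_zero]
    · by_cases h3 : x = ⟨i, h⟩
      · have h4 : (x : ℕ) < i + 1 := by rw [h3]; exact Nat.lt_succ_self i
        rw [if_pos h4, if_neg h2, if_pos h3, zero_add]
      · have h4 : ¬ (x : ℕ) < i + 1 := by
          intro h5
          exact h3 (Fin.ext (by show (x : ℕ) = i; omega))
        rw [if_neg h4, if_neg h2, if_neg h3, add_zero]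
  rw [Finset.sum_congr rfl fun x _ => h1 x, Finset.sum_add_distrib]
  simp

/-- the steps of the template as a function on the naturals -/
def TP_F {V : Type*} [AddCommGroup V] {g t nC s : ℕ} (c : Fin nC → V) (τ : Tp g t nC s)
    (i : ℕ) : V × Option (Fin s) :=
  if h : i < g * t then
    (c (τ.1 ⟨i, h⟩), if h : i / t < g ∧ t ∣ i then some (τ.2 ⟨i / t, h.1⟩) else none)
  else (0, none)

theorem TP_tpl {V : Type*} [AddCommGroup V] {g t nC s : ℕ} (c : Fin nC → V)
    (τ : Tp g t nC s) : tpl c τ = (List.range' 0 (g * t)).map (TP_F c τ) := by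
  rw [← List.range_eq_range', ← List.map_coe_finRange_eq_range, List.map_map]
  unfold tpl
  refine List.map_congr_left fun i _ => ?_
  simp only [Function.comp, TP_F, i.2, dif_pos, Fin.eta]

/-- the indices of one step -/
def TP_I (t m i : ℕ) : List (ℕ × ℕ × ℕ) :=
  if t ∣ i then (List.range (m - 1)).map (fun j => (i, i / t, j + 1)) ++
    [(i + 1, i / t, m - 1), (i + 1, 0, 0)]
  else [(i + 1, 0, 0)]

theorem TP_mem {t m i : ℕ} {p : ℕ × ℕ × ℕ} (hp : p ∈ TP_I t m i) :
    (t ∣ i ∧ ∃ j, j < m - 1 ∧ p = (i, i / t, j + 1)) ∨ (t ∣ i ∧ p = (i + 1, i / t, m - 1)) ∨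
      p = (i + 1, 0, 0) := by
  unfold TP_I at hp
  split_ifs at hp with h
  · rcases List.mem_append.1 hp with h1 | h1
    · obtain ⟨j, hj, rfl⟩ := List.mem_map.1 h1
      exact Or.inl ⟨h, j, List.mem_range.1 hj, rfl⟩
    · simp only [List.mem_cons, List.not_mem_nil, or_false] at h1
      rcases h1 with h1 | h1
      · exact Or.inr (Or.inl ⟨h, h1⟩)
      · exact Or.inr (Or.inr h1)
  · simp only [List.mem_cons, List.not_mem_nil, or_false] at hp
    exact Or.inr (Or.inr hp)

theorem TP_nodup1 {t m i : ℕ} (hm : 2 ≤ m) : (TP_I t m i).Nodup := by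
  unfold TP_I
  split_ifs with h
  · rw [List.nodup_append]
    refine ⟨?_, ?_, ?_⟩
    · refine List.Nodup.map ?_ List.nodup_range
      intro a b hab
      simp only [Prod.mk.injEq, true_and] at hab
      omega
    · simp only [List.nodup_cons, List.mem_cons, Prod.mk.injEq, true_and, List.not_mem_nil,
        or_false, not_false_eq_true, List.nodup_nil, and_true]
      omega
    · intro a ha b hb hab
      obtain ⟨j, hj, rfl⟩ := List.mem_map.1 ha
      simp only [List.mem_cons, List.not_mem_nil, or_false] at hb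
      rcases hb with rfl | rfl
      · simp only [Prod.mk.injEq] at hab
        omega
      · simp only [Prod.mk.injEq] at hab
        omega
  · exact List.nodup_singleton _

theorem TP_disj {t m i i' : ℕ} (hm : 2 ≤ m) (hi : i ≠ i') :
    List.Disjoint (TP_I t m i) (TP_I t m i') := by
  have key : t ∣ i → t ∣ i' → i / t = i' / t → False := by
    intro h1 h2 h3
    apply hi
    rw [← Nat.mul_div_cancel' h1, ← Nat.mul_div_cancel' h2, h3]
  intro p hp hp'
  rcases TP_mem hp with ⟨h1, j, hj, h2⟩ | ⟨h1, h2⟩ | h2 <;>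
  rcases TP_mem hp' with ⟨h1', j', hj', h2'⟩ | ⟨h1', h2'⟩ | h2' <;>
  · rw [h2] at h2'
    simp only [Prod.mk.injEq] at h2'
    first
      | exact key h1 h1' h2'.2.1
      | omega

theorem TP_nodup {t m n : ℕ} (hm : 2 ≤ m) :
    ((0, 0, 0) :: (List.range' 0 n).flatMap (TP_I t m)).Nodup := by
  rw [List.nodup_cons]
  refine ⟨?_, ?_⟩
  · intro h
    obtain ⟨i, hi, hp⟩ := List.mem_flatMap.1 h
    rcases TP_mem hp with ⟨h1, j, hj, h2⟩ | ⟨h1, h2⟩ | h2 <;>
    · simp only [Prod.mk.injEq] at h2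
      omega
  · rw [List.nodup_flatMap]
    refine ⟨fun i _ => TP_nodup1 hm, ?_⟩
    refine List.Pairwise.imp ?_ (List.nodup_range' (s := 0) (n := n))
    intro a b hab
    exact TP_disj hm hab

theorem TP_ix {g t m : ℕ} (hm : 2 ≤ m) {p : ℕ × ℕ × ℕ}
    (hp : p ∈ (0, 0, 0) :: (List.range' 0 (g * t)).flatMap (TP_I t m)) : p ∈ ix g t m := by
  unfold ix
  simp only [Finset.mem_union, Finset.mem_image, Finset.mem_range, Finset.mem_product,
    Finset.mem_Ico]
  rcases List.mem_cons.1 hp with rfl | hp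
  · exact Or.inl (Or.inl ⟨0, Nat.succ_pos _, rfl⟩)
  · obtain ⟨i, hi, hp⟩ := List.mem_flatMap.1 hp
    rw [← List.range_eq_range', List.mem_range] at hi
    have hg : i / t < g := Nat.div_lt_of_lt_mul (by rw [mul_comm]; exact hi)
    rcases TP_mem hp with ⟨h1, j, hj, rfl⟩ | ⟨h1, rfl⟩ | rfl
    · refine Or.inl (Or.inr ⟨(i / t, j + 1), ⟨hg, by omega, by omega⟩, ?_⟩)
      simp only [Nat.mul_div_cancel' h1]
    · refine Or.inr ⟨i / t, hg, ?_⟩
      simp only [Nat.mul_div_cancel' h1]
    · exact Or.inl (Or.inl ⟨i + 1, by omega, rfl⟩)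

theorem TP_rv {V : Type*} [AddCommGroup V] {g t m nC s : ℕ} (hg : 2 ≤ g)
    (c : Fin nC → V) (Z : Fin s → Fin m → V) (τ : Tp g t nC s) (v : V) (k : ℕ) :
    ∀ n, n + k = g * t →
      rv Z (v + off c Z τ (n, 0, 0)) ((List.range' n k).map (TP_F c τ)) =
        ((List.range' n k).flatMap (TP_I t m)).map (fun p => v + off c Z τ p) := by
  have h0 : ∀ n, off c Z τ (n, 0, 0) = P (fun i => c (τ.1 i)) n := by
    intro n
    unfold off
    simp only [dif_pos (show 0 < g by omega), TP_zero, add_zero]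
    rfl
  induction k with
  | zero => intro n _; simp [rv]
  | succ k ih =>
    intro n hn
    have hlt : n < g * t := by omega
    have hgn : n / t < g := Nat.div_lt_of_lt_mul (by rw [mul_comm]; exact hlt)
    have hs : v + off c Z τ (n, 0, 0) + c (τ.1 ⟨n, hlt⟩) = v + off c Z τ (n + 1, 0, 0) := by
      rw [h0, h0, TP_succ _ n hlt]
      abel
    rw [List.range'_succ, List.map_cons, List.flatMap_cons, List.map_append,
      ← ih (n + 1) (by omega)]
    by_cases hd : t ∣ n
    · have hF : TP_F c τ n = (c (τ.1 ⟨n, hlt⟩), some (τ.2 ⟨n / t, hgn⟩)) := by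
        unfold TP_F
        rw [dif_pos hlt, dif_pos ⟨hgn, hd⟩]
      rw [hF]
      simp only [rv, TP_I, if_pos hd, List.map_append, List.map_map, List.map_cons, List.map_nil,
        List.append_assoc, List.cons_append, List.nil_append]
      rw [hs]
      have h1 : ∀ l, off c Z τ (n, n / t, l) =
          off c Z τ (n, 0, 0) + P (Z (τ.2 ⟨n / t, hgn⟩)) l := by
        intro l
        rw [h0]
        unfold off
        simp only [dif_pos hgn]
        rfl
      have h2 : ∀ l, off c Z τ (n + 1, n / t, l) =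
          off c Z τ (n + 1, 0, 0) + P (Z (τ.2 ⟨n / t, hgn⟩)) l := by
        intro l
        rw [h0]
        unfold off
        simp only [dif_pos hgn]
        rfl
      congr 1
      · refine List.map_congr_left fun j _ => ?_
        simp only [Function.comp]
        rw [h1, add_assoc]
      · congr 1
        rw [h2, add_assoc]
    · have hF : TP_F c τ n = (c (τ.1 ⟨n, hlt⟩), none) := by
        unfold TP_F
        rw [dif_pos hlt, dif_neg fun h => hd h.2]
      rw [hF]
      simp only [rv, TP_I, if_neg hd, List.map_cons, List.map_nil, List.cons_append,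
        List.nil_append]
      rw [hs]

theorem tpl_facts {V : Type*} [AddCommGroup V] {g t m nC s : ℕ} (hg : 2 ≤ g) (ht : 2 ≤ t)
    (hm : 2 ≤ m) (c : Fin nC → V) (hc : Function.Injective c) (hc0 : ∀ i, c i ≠ 0)
    (Z : Fin s → Fin m → V) (B : Finset V) (hZ : Fam B 0 Z) (τ : Tp g t nC s) (hτ : Good c Z τ) (v : V) :
    (cl (tpl c τ)).Nodup ∧ (∀ a, a ∈ cl (tpl c τ) ↔ ∃ i, a = c (τ.1 i)) ∧
    (sk (tpl c τ)).Nodup ∧ (∀ z, z ∈ sk (tpl c τ) ↔ ∃ j, z = τ.2 j) ∧
    (v :: rv Z v (tpl c τ)).Nodup ∧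
    ∀ u ∈ v :: rv Z v (tpl c τ), ∃ o ∈ offs c Z τ, u = v + o := by
  obtain ⟨h1, h2, h3⟩ := hτ
  have hcl : cl (tpl c τ) = (List.finRange (g * t)).map fun i => c (τ.1 i) := by
    unfold cl tpl
    rw [List.map_map]
    rfl
  have hsk : sk (tpl c τ) = (List.finRange (g * t)).filterMap fun i : Fin (g * t) =>
      if h : (i : ℕ) / t < g ∧ t ∣ (i : ℕ) then some (τ.2 ⟨(i : ℕ) / t, h.1⟩) else none := by
    unfold sk tpl
    rw [List.filterMap_map]
    rfl
  have h0 : off c Z τ (0, 0, 0) = 0 := by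
    unfold off
    simp [dif_pos (show 0 < g by omega), TP_zero]
  have hrv : v :: rv Z v (tpl c τ) =
      ((0, 0, 0) :: (List.range' 0 (g * t)).flatMap (TP_I t m)).map
        (fun p => v + off c Z τ p) := by
    have h4 := TP_rv hg c Z τ v (g * t) 0 (by omega)
    rw [h0, add_zero] at h4
    rw [TP_tpl, h4, List.map_cons, h0, add_zero]
  refine ⟨?_, ?_, ?_, ?_, ?_, ?_⟩
  · rw [hcl]
    exact List.Nodup.map (hc.comp h1) (List.nodup_finRange _)
  · intro a
    rw [hcl, List.mem_map]
    constructor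
    · rintro ⟨i, -, rfl⟩
      exact ⟨i, rfl⟩
    · rintro ⟨i, rfl⟩
      exact ⟨i, List.mem_finRange i, rfl⟩
  · rw [hsk]
    refine List.Nodup.filterMap ?_ (List.nodup_finRange _)
    intro i i' z hz hz'
    split_ifs at hz hz' with h4 h5
    · simp only [Option.mem_def, Option.some.injEq] at hz hz'
      have h6 := h2 (hz.trans hz'.symm)
      simp only [Fin.mk.injEq] at h6
      refine Fin.ext ?_
      rw [← Nat.mul_div_cancel' h4.2, ← Nat.mul_div_cancel' h5.2, h6]
    all_goals simp at hz hz'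
  · intro z
    rw [hsk, List.mem_filterMap]
    constructor
    · rintro ⟨i, -, h4⟩
      split_ifs at h4 with h5
      simp only [Option.some.injEq] at h4
      exact ⟨_, h4.symm⟩
    · rintro ⟨j, rfl⟩
      have htp : 0 < t := by omega
      have h4 : t * (j : ℕ) < g * t := by
        rw [mul_comm g t]
        exact Nat.mul_lt_mul_of_pos_left j.2 htp
      have h5 : t * (j : ℕ) / t = j := Nat.mul_div_cancel_left _ htp
      refine ⟨⟨t * (j : ℕ), h4⟩, List.mem_finRange _, ?_⟩
      rw [dif_pos (show ((⟨t * (j : ℕ), h4⟩ : Fin (g * t)) : ℕ) / t < g ∧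
        t ∣ ((⟨t * (j : ℕ), h4⟩ : Fin (g * t)) : ℕ) from
          ⟨by show t * (j : ℕ) / t < g; rw [h5]; exact j.2, Dvd.intro _ rfl⟩)]
      exact congrArg some (congrArg τ.2 (Fin.ext h5))
  · rw [hrv]
    refine List.Nodup.map_on ?_ (TP_nodup hm)
    intro p hp q hq hpq
    exact h3 (by exact_mod_cast TP_ix hm hp) (by exact_mod_cast TP_ix hm hq)
      (add_left_cancel hpq)
  · intro u hu
    rw [hrv] at hu
    obtain ⟨p, hp, rfl⟩ := List.mem_map.1 hu
    refine ⟨off c Z τ p, ?_, rfl⟩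
    unfold offs
    simp only [Finset.mem_image]
    exact ⟨p, TP_ix hm hp, rfl⟩

end Pool.Agent.SDN
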