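import Pool.Agent.Lib_helper26.SDN.Defs
import Pool.Agent.Lib_helper26.SDN.VX
import Pool.Agent.Lib_helper26.SDN.TP
import Pool.Agent.Lib_helper26.SDN.LK
import Pool.Agent.Lib_helper26.SDN.CH

/-! Block CN (project SDN), helper58. -/

namespace Pool.Agent.SDN

open Finset

theorem CN_nodup_flatten {α : Type*} {n : ℕ} (f : Fin n → List α) (h1 : ∀ i, (f i).Nodup)
    (h2 : ∀ i j, i ≠ j → List.Disjoint (f i) (f j)) : (List.ofFn f).flatten.Nodup := by
  rw [List.nodup_flatten]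
  refine ⟨?_, ?_⟩
  · intro l hl
    rw [List.mem_ofFn] at hl
    obtain ⟨i, rfl⟩ := hl
    exact h1 i
  · rw [List.pairwise_ofFn]
    intro i j hij
    exact h2 i j (ne_of_lt hij)

theorem CN_mem_flatten {α : Type*} {n : ℕ} (f : Fin n → List α) (a : α) :
    a ∈ (List.ofFn f).flatten ↔ ∃ i, a ∈ f i := by
  rw [List.mem_flatten]
  constructor
  · rintro ⟨l, hl, ha⟩
    rw [List.mem_ofFn] at hl
    obtain ⟨i, rfl⟩ := hl
    exact ⟨i, ha⟩
  · rintro ⟨i, ha⟩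
    exact ⟨f i, by rw [List.mem_ofFn]; exact ⟨i, rfl⟩, ha⟩

open Classical in
theorem chains (g t m ν N M k₀ : ℕ) (hg : 2 ≤ g) (ht : 2 ≤ t) (hm : 3 ≤ m)
    (Λ : Fin ν → Finset (Fin N)) (hΛ : ∀ κ, ∀ l ∈ Λ κ, 2 ≤ (l : ℕ))
    {V : Type} [AddCommGroup V] [Fintype V] {s s₂ : ℕ} (Z : Fin s → Fin m → V)
    (B : Finset V) (hZ : Fam B 0 Z) (c : Fin (t * s) → V) (hc : Function.Injective c)
    (hc0 : ∀ i, c i ≠ 0) (R : Finset V) (hcR : ∀ i, c i ∉ R) (L : V → Fin s₂ → List V)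
    (hL : ∀ y, y ≠ 0 → Lnk R y M (L y)) (lab : V → Fin N) (wy : Finset V)
    (hk : ∀ u y, y ≠ 0 → k₀ ≤ (univ.filter fun z => ∀ i ∈ (vs u (L y z)).dropLast,
      ((lab i : Fin N) : ℕ) = 1 ∧ i ∉ wy).card)
    (A0 A1 : Fin ν → V) (hA0 : ∀ κ, A0 κ ∈ wy) (hA1 : ∀ κ, A1 κ ∈ wy)
    (hA : ∀ κ, A0 κ ≠ A1 κ) (𝓓 : Finset (Fin ν × V × Tp g t (t * s) s))
    (h1 : ∀ e ∈ 𝓓, Good c Z e.2.2 ∧ ∀ o ∈ offs c Z e.2.2,
      lab (e.2.1 + o) ∈ Λ e.1 ∧ e.2.1 + o ∉ wy)
    (h2 : ∀ e ∈ 𝓓, ∀ e' ∈ 𝓓, e ≠ e' → Disjoint (res e.2.2) (res e'.2.2) ∧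
      (e.1 = e'.1 → ∀ o ∈ offs c Z e.2.2, ∀ o' ∈ offs c Z e'.2.2,
        e.2.1 + o ≠ e'.2.1 + o'))
    (hn : 2 * M * (𝓓.card + ν) < k₀) :
    ∃ Tm : Fin ν → List (V × Option (Fin s)),
      (∀ κ, Tm κ ≠ [] ∧ (cl (Tm κ)).sum = A1 κ - A0 κ ∧ (rv Z (A0 κ) (Tm κ)).dropLast.Nodup ∧
        ∀ u ∈ (rv Z (A0 κ) (Tm κ)).dropLast,
          (lab u ∈ Λ κ ∨ ((lab u : Fin N) : ℕ) = 1) ∧ u ∉ wy) ∧
      (∀ κ κ', κ ≠ κ' → ∀ u ∈ (rv Z (A0 κ) (Tm κ)).dropLast,
        u ∈ (rv Z (A0 κ') (Tm κ')).dropLast → ((lab u : Fin N) : ℕ) ≠ 1) ∧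
      (∀ κ, (cl (Tm κ)).Nodup ∧ (sk (Tm κ)).Nodup ∧
        ∀ a ∈ cl (Tm κ), a ∈ R ∨ ∃ i, a = c i) ∧
      (∀ κ κ', κ ≠ κ' → List.Disjoint (cl (Tm κ)) (cl (Tm κ')) ∧
        List.Disjoint (sk (Tm κ)) (sk (Tm κ'))) ∧
      (∀ i, (∃ e ∈ 𝓓, Sum.inl i ∈ res e.2.2) → ∃ κ, c i ∈ cl (Tm κ)) ∧
      (∀ z, (∃ κ, z ∈ sk (Tm κ)) ↔ ∃ e ∈ 𝓓, Sum.inr z ∈ res e.2.2) := by
  -- enumeration of the edges of each kind
  let D : Fin ν → Finset (Fin ν × V × Tp g t (t * s) s) := fun κ => 𝓓.filter fun e => e.1 = κ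
  let n : Fin ν → ℕ := fun κ => (D κ).card
  let ed : (κ : Fin ν) → Fin (n κ) → Fin ν × V × Tp g t (t * s) s :=
    fun κ i => ((D κ).equivFin.symm i : _)
  have edD : ∀ κ i, ed κ i ∈ 𝓓 ∧ (ed κ i).1 = κ := by
    intro κ i
    have := ((D κ).equivFin.symm i).2
    exact Finset.mem_filter.mp this
  have edinj : ∀ κ i j, i ≠ j → ed κ i ≠ ed κ j := by
    intro κ i j hij h
    apply hij
    exact (D κ).equivFin.symm.injective (Subtype.ext h)
  have ednek : ∀ κ κ' i j, κ ≠ κ' → ed κ i ≠ ed κ' j := by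
    intro κ κ' i j hne h
    apply hne
    rw [← (edD κ i).2, ← (edD κ' j).2, h]
  have edsur : ∀ e ∈ 𝓓, ∃ i, ed e.1 i = e := by
    intro e he
    have heD : e ∈ D e.1 := Finset.mem_filter.mpr ⟨he, rfl⟩
    refine ⟨(D e.1).equivFin ⟨e, heD⟩, ?_⟩
    simp [ed]
  let v : (κ : Fin ν) → Fin (n κ) → V := fun κ i => (ed κ i).2.1
  let τ : (κ : Fin ν) → Fin (n κ) → Tp g t (t * s) s := fun κ i => (ed κ i).2.2
  have hgt : 0 < g * t := Nat.mul_pos (by omega) (by omega)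
  have tplne : ∀ κ i, tpl c (τ κ i) ≠ [] := by
    intro κ i h
    have h' := congrArg List.length h
    simp only [tpl, List.length_map, List.length_finRange, List.length_nil] at h'
    omega
  have hfac := fun κ i => tpl_facts hg ht (by omega : 2 ≤ m) c hc hc0 Z B hZ (τ κ i)
    (h1 _ (edD κ i).1).1 (v κ i)
  let blk : (κ : Fin ν) → Fin (n κ) → List V := fun κ i => v κ i :: rv Z (v κ i) (tpl c (τ κ i))
  have B1 : ∀ κ i, (blk κ i).Nodup := fun κ i => (hfac κ i).2.2.2.2.1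
  have Boff : ∀ κ i, ∀ u ∈ blk κ i, ∃ o ∈ offs c Z (τ κ i), u = v κ i + o :=
    fun κ i => (hfac κ i).2.2.2.2.2
  have B2 : ∀ κ i, ∀ u ∈ blk κ i, lab u ∈ Λ κ ∧ u ∉ wy := by
    intro κ i u hu
    obtain ⟨o, ho, rfl⟩ := Boff κ i u hu
    have := (h1 _ (edD κ i).1).2 o ho
    rw [(edD κ i).2] at this
    exact this
  have B3 : ∀ κ i j, i ≠ j → List.Disjoint (blk κ i) (blk κ j) := by
    intro κ i j hij u hu hu'
    obtain ⟨o, ho, hu1⟩ := Boff κ i u hu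
    obtain ⟨o', ho', hu2⟩ := Boff κ j u hu'
    exact (h2 _ (edD κ i).1 _ (edD κ j).1 (edinj κ i j hij)).2
      ((edD κ i).2.trans (edD κ j).2.symm) o ho o' ho' (hu1.symm.trans hu2)
  have B4 : ∀ κ i, v κ i ∈ blk κ i := fun κ i => List.mem_cons_self
  have B5 : ∀ κ i, v κ i + (cl (tpl c (τ κ i))).sum ∈ blk κ i := by
    intro κ i
    apply List.mem_cons_of_mem
    rw [rv_last Z (v κ i) (tpl c (τ κ i)) (tplne κ i)]
    simp
  -- the ends of the links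
  let A : (κ : Fin ν) → Fin (n κ + 1) → V := fun κ =>
    Fin.cons (A0 κ) fun i => v κ i + (cl (tpl c (τ κ i))).sum
  let E : (κ : Fin ν) → Fin (n κ + 1) → V := fun κ => Fin.snoc (fun i => v κ i) (A1 κ)
  have hAE : ∀ x : (Σ κ, Fin (n κ + 1)), A x.1 x.2 ≠ E x.1 x.2 := by
    rintro ⟨κ, i⟩
    simp only
    induction i using Fin.lastCases with
    | last =>
      have hE : E κ (Fin.last (n κ)) = A1 κ := by simp [E]
      rw [hE]
      rcases Fin.eq_zero_or_eq_succ (Fin.last (n κ)) with h0 | ⟨j, hj⟩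
      · have : A κ (Fin.last (n κ)) = A0 κ := by rw [h0]; simp [A]
        rw [this]; exact hA κ
      · have : A κ (Fin.last (n κ)) = v κ j + (cl (tpl c (τ κ j))).sum := by
          rw [hj]; simp [A]
        rw [this]
        intro h
        apply (B2 κ j _ (B5 κ j)).2
        rw [h]; exact hA1 κ
    | cast i =>
      have hE : E κ i.castSucc = v κ i := by simp [E]
      rw [hE]
      rcases Fin.eq_zero_or_eq_succ i.castSucc with h0 | ⟨j, hj⟩
      · have : A κ i.castSucc = A0 κ := by rw [h0]; simp [A]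
        rw [this]
        intro h
        apply (B2 κ i _ (B4 κ i)).2
        rw [← h]; exact hA0 κ
      · have : A κ i.castSucc = v κ j + (cl (tpl c (τ κ j))).sum := by
          rw [hj]; simp [A]
        rw [this]
        intro h
        have hne : j ≠ i := by
          intro e
          subst e
          have := congrArg Fin.val hj
          simp at this
        apply B3 κ j i hne (B5 κ j)
        rw [h]; exact B4 κ i
  have hcard : Fintype.card (Σ κ, Fin (n κ + 1)) = 𝓓.card + ν := by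
    rw [Fintype.card_sigma]
    simp only [Fintype.card_fin]
    rw [Finset.sum_add_distrib]
    have : ∑ κ, n κ = 𝓓.card := by
      symm
      apply Finset.card_eq_sum_card_fiberwise
      intro e _; simp
    rw [this]; simp
  let Φ : Finset V := Finset.univ.filter fun u => ((lab u : Fin N) : ℕ) = 1 ∧ u ∉ wy
  have hΦ : ∀ u y : V, y ≠ 0 →
      k₀ ≤ (univ.filter fun z => ∀ i ∈ (vs u (L y z)).dropLast, i ∈ Φ).card := by
    intro u y hy
    refine (hk u y hy).trans ?_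
    apply Finset.card_le_card
    intro z hz
    rw [Finset.mem_filter] at hz ⊢
    refine ⟨hz.1, fun i hi => ?_⟩
    rw [Finset.mem_filter]
    exact ⟨Finset.mem_univ _, hz.2 i hi⟩
  obtain ⟨z, hz1, hz2⟩ := linking (M := M) (k₀ := k₀) R Φ L hL
    (fun u y hy => by convert hΦ u y hy)
    (ι := Σ κ, Fin (n κ + 1)) (by rw [hcard]; exact hn)
    (fun x => A x.1 x.2) (fun x => E x.1 x.2) hAE
  -- the links
  let lk : (κ : Fin ν) → Fin (n κ + 1) → List V := fun κ i => L (E κ i - A κ i) (z ⟨κ, i⟩)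
  have lkL : ∀ κ i, Lnk R (E κ i - A κ i) M (L (E κ i - A κ i)) := fun κ i =>
    hL _ (sub_ne_zero.mpr (hAE ⟨κ, i⟩).symm)
  have lkne : ∀ κ i, lk κ i ≠ [] := fun κ i => (lkL κ i).ne _
  have lksum : ∀ κ i, (lk κ i).sum = E κ i - A κ i := fun κ i => (lkL κ i).sum _
  have lkR : ∀ κ i, ∀ a ∈ lk κ i, a ∈ R := fun κ i => (lkL κ i).mem _
  have lknd : ∀ κ i, (lk κ i).Nodup := fun κ i => (lkL κ i).nodup _
  have lkdisj : ∀ κ i κ' i', (⟨κ, i⟩ : Σ κ, Fin (n κ + 1)) ≠ ⟨κ', i'⟩ →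
      List.Disjoint (lk κ i) (lk κ' i') := fun κ i κ' i' h => (hz2 _ _ h).1
  let it : (κ : Fin ν) → Fin (n κ + 1) → List V := fun κ i => (vs (A κ i) (lk κ i)).dropLast
  have itnd : ∀ κ i, (it κ i).Nodup := by
    intro κ i
    have h := (lkL κ i).vnodup (z ⟨κ, i⟩)
    have h' : vs (A κ i) (lk κ i) = (vs 0 (lk κ i)).map (· + A κ i) := by
      have := vs_translate 0 (A κ i) (lk κ i)
      rwa [zero_add] at this
    have h3 : (vs (A κ i) (lk κ i)).Nodup := by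
      rw [h']
      exact h.map (add_left_injective _)
    exact h3.sublist (List.dropLast_sublist _)
  have itdisj : ∀ κ i κ' i', (⟨κ, i⟩ : Σ κ, Fin (n κ + 1)) ≠ ⟨κ', i'⟩ →
      List.Disjoint (it κ i) (it κ' i') := fun κ i κ' i' h => (hz2 _ _ h).2
  have itΦ : ∀ κ i, ∀ u ∈ it κ i, ((lab u : Fin N) : ℕ) = 1 ∧ u ∉ wy := by
    intro κ i u hu
    exact (Finset.mem_filter.mp (hz1 ⟨κ, i⟩ u hu)).2
  have hch := fun κ => chain_one Z (n κ) (A0 κ) (A1 κ) (v κ) (fun i => tpl c (τ κ i)) (lk κ)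
    (lkne κ) (A κ) (E κ) (by simp [A]) (by intro i; simp [A]) (by intro i; simp [E])
    (by simp [E]) (lksum κ)
  choose Tm T1 T2 T3 T4 T5 using hch
  have mcl : ∀ κ a, a ∈ cl (Tm κ) ↔ (∃ i, a ∈ lk κ i) ∨ ∃ i, a ∈ cl (tpl c (τ κ i)) := by
    intro κ a
    rw [(T3 κ).mem_iff, List.mem_append, CN_mem_flatten, CN_mem_flatten]
  have msk : ∀ κ a, a ∈ sk (Tm κ) ↔ ∃ i, a ∈ sk (tpl c (τ κ i)) := by
    intro κ a
    rw [(T4 κ).mem_iff, CN_mem_flatten]
  have mrv : ∀ κ u, u ∈ (rv Z (A0 κ) (Tm κ)).dropLast ↔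
      (∃ i, u ∈ it κ i) ∨ ∃ i, u ∈ blk κ i := by
    intro κ u
    rw [(T5 κ).mem_iff, List.mem_append, CN_mem_flatten, CN_mem_flatten]
  have mcol : ∀ κ i a, a ∈ cl (tpl c (τ κ i)) ↔ ∃ k, a = c ((τ κ i).1 k) :=
    fun κ i => (hfac κ i).2.1
  have mset : ∀ κ i a, a ∈ sk (tpl c (τ κ i)) ↔ ∃ k, a = (τ κ i).2 k :=
    fun κ i => (hfac κ i).2.2.2.1
  have coldisj : ∀ κ i κ' i', ed κ i ≠ ed κ' i' →
      List.Disjoint (cl (tpl c (τ κ i))) (cl (tpl c (τ κ' i'))) := by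
    intro κ i κ' i' hne a ha ha'
    obtain ⟨k, hk1⟩ := (mcol κ i a).mp ha
    obtain ⟨k', hk2⟩ := (mcol κ' i' a).mp ha'
    have hcc := hc (hk1.symm.trans hk2)
    have hd := (h2 _ (edD κ i).1 _ (edD κ' i').1 hne).1
    rw [Finset.disjoint_left] at hd
    apply hd (a := Sum.inl ((τ κ i).1 k))
    · exact Finset.mem_union_left _ (Finset.mem_image_of_mem _ (Finset.mem_univ k))
    · rw [hcc]
      exact Finset.mem_union_left _ (Finset.mem_image_of_mem _ (Finset.mem_univ k'))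
  have setdisj : ∀ κ i κ' i', ed κ i ≠ ed κ' i' →
      List.Disjoint (sk (tpl c (τ κ i))) (sk (tpl c (τ κ' i'))) := by
    intro κ i κ' i' hne a ha ha'
    obtain ⟨k, hk1⟩ := (mset κ i a).mp ha
    obtain ⟨k', hk2⟩ := (mset κ' i' a).mp ha'
    have hcc := hk1.symm.trans hk2
    have hd := (h2 _ (edD κ i).1 _ (edD κ' i').1 hne).1
    rw [Finset.disjoint_left] at hd
    apply hd (a := Sum.inr ((τ κ i).2 k))
    · exact Finset.mem_union_right _ (Finset.mem_image_of_mem _ (Finset.mem_univ k))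
    · rw [hcc]
      exact Finset.mem_union_right _ (Finset.mem_image_of_mem _ (Finset.mem_univ k'))
  have lkcol : ∀ κ i κ' i', List.Disjoint (lk κ i) (cl (tpl c (τ κ' i'))) := by
    intro κ i κ' i' a ha ha'
    obtain ⟨k, hk1⟩ := (mcol κ' i' a).mp ha'
    apply hcR ((τ κ' i').1 k)
    rw [← hk1]; exact lkR κ i a ha
  refine ⟨Tm, ?_, ?_, ?_, ?_, ?_, ?_⟩
  · intro κ
    refine ⟨T1 κ, T2 κ, ?_, ?_⟩
    · rw [(T5 κ).nodup_iff, List.nodup_append]
      refine ⟨CN_nodup_flatten _ (itnd κ) ?_, CN_nodup_flatten _ (B1 κ) (B3 κ), ?_⟩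
      · intro i j hij
        apply itdisj κ i κ j
        intro h
        apply hij
        simpa using h
      · intro a ha b hb hab
        subst hab
        rw [CN_mem_flatten] at ha hb
        obtain ⟨i, hi⟩ := ha
        obtain ⟨j, hj⟩ := hb
        have e1 := (itΦ κ i a hi).1
        have e2 := hΛ κ _ (B2 κ j a hj).1
        omega
    · intro u hu
      rw [mrv] at hu
      rcases hu with ⟨i, hi⟩ | ⟨i, hi⟩
      · exact ⟨Or.inr (itΦ κ i u hi).1, (itΦ κ i u hi).2⟩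
      · exact ⟨Or.inl (B2 κ i u hi).1, (B2 κ i u hi).2⟩
  · intro κ κ' hne u hu hu' hlab
    rw [mrv] at hu hu'
    rcases hu with ⟨i, hi⟩ | ⟨i, hi⟩
    · rcases hu' with ⟨i', hi'⟩ | ⟨i', hi'⟩
      · refine itdisj κ i κ' i' ?_ hi hi'
        intro h
        exact hne (congrArg Sigma.fst h)
      · have e2 := hΛ κ' _ (B2 κ' i' u hi').1
        omega
    · have e2 := hΛ κ _ (B2 κ i u hi).1
      omega
  · intro κ
    refine ⟨?_, ?_, ?_⟩
    · rw [(T3 κ).nodup_iff, List.nodup_append]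
      refine ⟨CN_nodup_flatten _ (lknd κ) ?_, CN_nodup_flatten _ (fun i => (hfac κ i).1) ?_, ?_⟩
      · intro i j hij
        apply lkdisj κ i κ j
        intro h
        apply hij
        simpa using h
      · intro i j hij
        exact coldisj κ i κ j (edinj κ i j hij)
      · intro a ha b hb hab
        subst hab
        rw [CN_mem_flatten] at ha hb
        obtain ⟨i, hi⟩ := ha
        obtain ⟨j, hj⟩ := hb
        exact lkcol κ i κ j hi hj
    · rw [(T4 κ).nodup_iff]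
      refine CN_nodup_flatten _ (fun i => (hfac κ i).2.2.1) ?_
      intro i j hij
      exact setdisj κ i κ j (edinj κ i j hij)
    · intro a ha
      rw [mcl] at ha
      rcases ha with ⟨i, hi⟩ | ⟨i, hi⟩
      · exact Or.inl (lkR κ i a hi)
      · obtain ⟨k, hk1⟩ := (mcol κ i a).mp hi
        exact Or.inr ⟨_, hk1⟩
  · intro κ κ' hne
    refine ⟨?_, ?_⟩
    · intro a ha ha'
      rw [mcl] at ha ha'
      rcases ha with ⟨i, hi⟩ | ⟨i, hi⟩
      · rcases ha' with ⟨i', hi'⟩ | ⟨i', hi'⟩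
        · refine lkdisj κ i κ' i' ?_ hi hi'
          intro h
          exact hne (congrArg Sigma.fst h)
        · exact lkcol κ i κ' i' hi hi'
      · rcases ha' with ⟨i', hi'⟩ | ⟨i', hi'⟩
        · exact lkcol κ' i' κ i hi' hi
        · exact coldisj κ i κ' i' (ednek κ κ' i i' hne) hi hi'
    · intro a ha ha'
      rw [msk] at ha ha'
      obtain ⟨i, hi⟩ := ha
      obtain ⟨i', hi'⟩ := ha'
      exact setdisj κ i κ' i' (ednek κ κ' i i' hne) hi hi'
  · rintro i ⟨e, he, hi⟩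
    obtain ⟨j, hj⟩ := edsur e he
    refine ⟨e.1, ?_⟩
    rw [mcl]
    right
    refine ⟨j, ?_⟩
    rw [mcol]
    rw [res, Finset.mem_union, Finset.mem_image, Finset.mem_image] at hi
    rcases hi with ⟨k, _, hk1⟩ | ⟨k, _, hk1⟩
    · refine ⟨k, ?_⟩
      have : (τ e.1 j) = e.2.2 := by simp only [τ, hj]
      rw [this]
      rw [Sum.inl.injEq] at hk1
      rw [hk1]
    · simp at hk1
  · intro x
    constructor
    · rintro ⟨κ, hκ⟩
      rw [msk] at hκ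
      obtain ⟨i, hi⟩ := hκ
      obtain ⟨k, hk1⟩ := (mset κ i x).mp hi
      refine ⟨ed κ i, (edD κ i).1, ?_⟩
      rw [hk1]
      exact Finset.mem_union_right _ (Finset.mem_image_of_mem _ (Finset.mem_univ k))
    · rintro ⟨e, he, hi⟩
      obtain ⟨j, hj⟩ := edsur e he
      refine ⟨e.1, ?_⟩
      rw [msk]
      refine ⟨j, ?_⟩
      rw [mset]
      rw [res, Finset.mem_union, Finset.mem_image, Finset.mem_image] at hi
      rcases hi with ⟨k, _, hk1⟩ | ⟨k, _, hk1⟩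
      · simp at hk1
      · refine ⟨k, ?_⟩
        have : (τ e.1 j) = e.2.2 := by simp only [τ, hj]
        rw [this]
        rw [Sum.inr.injEq] at hk1
        rw [hk1]

end Pool.Agent.SDN
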