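import Pool.Agent.Lib_helper26.SDN.Defs

/-! Block G1 (project SDN): coincidences of offsets. -/

namespace Pool.Agent.SDN

open Finset

/-- sum of the first colours -/
def G1_F {V : Type*} [AddCommGroup V] {n nC : ℕ} (c : Fin nC → V) (f : Fin n → Fin nC) (A : ℕ) : V :=
  ∑ i : Fin n, if (i : ℕ) < A then c (f i) else 0

theorem G1_F_lt {V : Type*} [AddCommGroup V] {n nC : ℕ} (c : Fin nC → V) (f f' : Fin n → Fin nC)
    (A : ℕ) (k : Fin n) (hk : (k : ℕ) < A) (h : ∀ i, i ≠ k → f i = f' i) :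
    G1_F c f A - G1_F c f' A = c (f k) - c (f' k) := by
  unfold G1_F
  rw [← Finset.sum_sub_distrib, Finset.sum_eq_single k]
  · simp [hk]
  · intro i _ hi
    rw [h i hi, sub_self]
  · intro h'
    exact absurd (Finset.mem_univ k) h'

theorem G1_F_ge {V : Type*} [AddCommGroup V] {n nC : ℕ} (c : Fin nC → V) (f f' : Fin n → Fin nC)
    (A : ℕ) (k : Fin n) (hk : A ≤ (k : ℕ)) (h : ∀ i, i ≠ k → f i = f' i) :
    G1_F c f A = G1_F c f' A := by
  unfold G1_F
  apply Finset.sum_congr rfl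
  intro i _
  by_cases hi : i = k
  · subst hi
    rw [if_neg (by omega), if_neg (by omega)]
  · rw [h i hi]

/-- stock part of an offset -/
def G1_S {V : Type*} [AddCommGroup V] {g s m : ℕ} (Z : Fin s → Fin m → V) (f : Fin g → Fin s)
    (q : ℕ × ℕ) : V := if h : q.1 < g then P (Z (f ⟨q.1, h⟩)) q.2 else 0

theorem G1_off {V : Type*} [AddCommGroup V] {g t m nC s : ℕ} (c : Fin nC → V)
    (Z : Fin s → Fin m → V) (τ : Tp g t nC s) (p : ℕ × ℕ × ℕ) :
    off c Z τ p = G1_F c τ.1 p.1 + G1_S Z τ.2 p.2 := rfl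

theorem G1_P_zero {V : Type*} [AddCommGroup V] {m : ℕ} (y : Fin m → V) : P y 0 = 0 := by
  unfold P
  simp

theorem G1_mem {g t m : ℕ} {p : ℕ × ℕ × ℕ} (hp : p ∈ ix g t m) :
    (p.1 ≤ g * t ∧ p.2 = (0, 0)) ∨ (∃ j, j < g ∧ ∃ l, 1 ≤ l ∧ l < m ∧ p = (t * j, j, l)) ∨
      (∃ j, j < g ∧ p = (t * j + 1, j, m - 1)) := by
  unfold ix at hp
  simp only [Finset.mem_union, Finset.mem_image, Finset.mem_range, Finset.mem_product,
    Finset.mem_Ico, Prod.exists] at hp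
  rcases hp with (⟨i, hi, rfl⟩ | ⟨j, l, ⟨hj, hl1, hl2⟩, rfl⟩) | ⟨j, hj, rfl⟩
  · left; exact ⟨by simpa using Nat.lt_succ_iff.mp hi, rfl⟩
  · right; left; exact ⟨j, hj, l, hl1, hl2, rfl⟩
  · right; right; exact ⟨j, hj, rfl⟩

theorem G1_le {g t m : ℕ} (ht : 2 ≤ t) {p : ℕ × ℕ × ℕ} (hp : p ∈ ix g t m) : p.1 ≤ g * t := by
  rcases G1_mem hp with ⟨h, _⟩ | ⟨j, hj, l, _, _, rfl⟩ | ⟨j, hj, rfl⟩
  · exact h
  · show t * j ≤ g * t
    nlinarith
  · show t * j + 1 ≤ g * t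
    nlinarith

/-- normal form of a stock part -/
theorem G1_norm {V : Type*} [AddCommGroup V] {g t m s : ℕ} (hg : 2 ≤ g) (hm : 2 ≤ m)
    (Z : Fin s → Fin m → V) {p : ℕ × ℕ × ℕ} (hp : p ∈ ix g t m) :
    (p.2 = (0, 0) ∧ ∀ f : Fin g → Fin s, G1_S Z f p.2 = 0) ∨
    ∃ (j : Fin g) (l : ℕ), 1 ≤ l ∧ l < m ∧ p.2 = ((j : ℕ), l) ∧
      (p.1 = t * j ∨ (p.1 = t * j + 1 ∧ l = m - 1)) ∧
      ∀ f : Fin g → Fin s, G1_S Z f p.2 = P (Z (f j)) l := by
  rcases G1_mem hp with ⟨_, h2⟩ | ⟨j, hj, l, hl1, hl2, rfl⟩ | ⟨j, hj, rfl⟩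
  · left
    refine ⟨h2, fun f => ?_⟩
    rw [h2]
    unfold G1_S
    split_ifs with h
    · exact G1_P_zero _
    · rfl
  · right
    refine ⟨⟨j, hj⟩, l, hl1, hl2, rfl, Or.inl rfl, fun f => ?_⟩
    unfold G1_S
    simp only
    rw [dif_pos hj]
  · right
    refine ⟨⟨j, hj⟩, m - 1, by omega, by omega, rfl, Or.inr ⟨rfl, rfl⟩, fun f => ?_⟩
    unfold G1_S
    simp only
    rw [dif_pos hj]

/-- two indices with the same first component use one stock set -/
theorem G1_struct {V : Type*} [AddCommGroup V] {g t m s : ℕ} (hg : 2 ≤ g) (ht : 2 ≤ t)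
    (hm : 2 ≤ m) (Z : Fin s → Fin m → V) (p p' : ℕ × ℕ × ℕ) (hp : p ∈ ix g t m)
    (hp' : p' ∈ ix g t m) (hne : p ≠ p') (hA : p.1 = p'.1) :
    ∃ (j : Fin g) (l l' : ℕ), l ≠ l' ∧ l < m ∧ l' < m ∧ ∀ f : Fin g → Fin s,
      G1_S Z f p.2 = P (Z (f j)) l ∧ G1_S Z f p'.2 = P (Z (f j)) l' := by
  rcases G1_norm (V := V) hg hm Z hp with ⟨h0, h1⟩ | ⟨j, l, hl1, hl2, h2, h3, h4⟩
  · rcases G1_norm (V := V) hg hm Z hp' with ⟨h0', h1'⟩ | ⟨j', l', hl1', hl2', h2', h3', h4'⟩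
    · exact absurd (Prod.ext hA (h0.trans h0'.symm)) hne
    · exact ⟨j', 0, l', by omega, by omega, hl2', fun f => ⟨by rw [h1 f, G1_P_zero], h4' f⟩⟩
  · rcases G1_norm (V := V) hg hm Z hp' with ⟨h0', h1'⟩ | ⟨j', l', hl1', hl2', h2', h3', h4'⟩
    · exact ⟨j, l, 0, by omega, hl2, by omega, fun f => ⟨h4 f, by rw [h1' f, G1_P_zero]⟩⟩
    · have hj : (j : ℕ) = j' := by
        rcases h3 with h3 | ⟨h3, _⟩ <;> rcases h3' with h3' | ⟨h3', _⟩
        · exact Nat.eq_of_mul_eq_mul_left (by omega) (h3.symm.trans (hA.trans h3'))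
        · exfalso
          have h : t * (j : ℕ) = t * j' + 1 := by omega
          have hd : t ∣ 1 := by
            have h5 : t ∣ t * (j' : ℕ) + 1 := ⟨j, h.symm⟩
            exact (Nat.dvd_add_right (Dvd.intro _ rfl)).mp h5
          have := Nat.le_of_dvd one_pos hd
          omega
        · exfalso
          have h : t * (j : ℕ) + 1 = t * j' := by omega
          have hd : t ∣ 1 := by
            have h5 : t ∣ t * (j : ℕ) + 1 := ⟨j', h⟩
            exact (Nat.dvd_add_right (Dvd.intro _ rfl)).mp h5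
          have := Nat.le_of_dvd one_pos hd
          omega
        · have h6 : t * (j : ℕ) = t * j' := by omega
          exact Nat.eq_of_mul_eq_mul_left (by omega) h6
      have hj' : j = j' := Fin.ext hj
      subst hj'
      refine ⟨j, l, l', ?_, hl2, hl2', fun f => ⟨h4 f, h4' f⟩⟩
      intro hl
      apply hne
      refine Prod.ext hA ?_
      rw [h2, h2', hl]

/-- windows determine the stock set -/
theorem G1_cross {V : Type*} [AddCommGroup V] {m s : ℕ} (Z : Fin s → Fin m → V) (B : Finset V)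
    (hZ : Fam B 0 Z) (l l' : ℕ) (hne : l ≠ l') (hl : l < m) (hl' : l' < m) (z z' : Fin s)
    (h : P (Z z) l' - P (Z z) l = P (Z z') l' - P (Z z') l) : z = z' := by
  by_contra hz
  rcases lt_or_gt_of_ne hne with h1 | h1
  · exact hZ.cross z z' l l' hz h1 hl'.le (by omega) h
  · apply hZ.cross z z' l' l hz h1 hl.le (by omega)
    have := congrArg Neg.neg h
    simpa using this

theorem G1_win {V : Type*} [AddCommGroup V] {m s : ℕ} (Z : Fin s → Fin m → V) (B : Finset V)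
    (hZ : Fam B 0 Z) (l l' : ℕ) (hne : l ≠ l') (hl : l < m) (hl' : l' < m) (z : Fin s) :
    P (Z z) l ≠ P (Z z) l' := by
  rcases lt_or_gt_of_ne hne with h1 | h1
  · exact hZ.win z l l' h1 hl'.le (by omega)
  · exact (hZ.win z l' l h1 hl.le (by omega)).symm

/-- counting when coordinates are determined by the others -/
theorem G1_count {g t nC s : ℕ} (S : Finset (Tp g t nC s)) (I : Finset (Fin (g * t)))
    (J : Finset (Fin g)) (h : ∀ τ ∈ S, ∀ τ' ∈ S, (∀ i, i ∉ I → τ.1 i = τ'.1 i) →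
      (∀ j, j ∉ J → τ.2 j = τ'.2 j) → τ = τ') :
    S.card ≤ nC ^ (g * t - I.card) * s ^ (g - J.card) := by
  classical
  let Φ : Tp g t nC s → ({i // i ∉ I} → Fin nC) × ({j // j ∉ J} → Fin s) :=
    fun τ => (fun i => τ.1 i.1, fun j => τ.2 j.1)
  have h1 : S.card ≤ (Finset.univ : Finset (({i // i ∉ I} → Fin nC) × ({j // j ∉ J} → Fin s))).card := by
    apply Finset.card_le_card_of_injOn Φ (fun _ _ => Finset.mem_coe.mpr (Finset.mem_univ _))
    intro τ hτ τ' hτ' he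
    apply h τ hτ τ' hτ'
    · intro i hi
      exact congrFun (congrArg Prod.fst he) ⟨i, hi⟩
    · intro j hj
      exact congrFun (congrArg Prod.snd he) ⟨j, hj⟩
  refine h1.trans (le_of_eq ?_)
  rw [Finset.card_univ, Fintype.card_prod, Fintype.card_fun, Fintype.card_fun, Fintype.card_fin,
    Fintype.card_fin]
  congr 2
  · rw [Fintype.card_subtype_compl]
    simp
  · rw [Fintype.card_subtype_compl]
    simp

/-- a free colour between the two first components is determined -/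
theorem G1_det {V : Type*} [AddCommGroup V] {g t m nC s : ℕ} (c : Fin nC → V)
    (hc : Function.Injective c) (Z : Fin s → Fin m → V) (p p' : ℕ × ℕ × ℕ) (k : Fin (g * t))
    (h1 : p.1 ≤ k) (h2 : (k : ℕ) < p'.1) (τ τ' : Tp g t nC s)
    (he : off c Z τ p' - off c Z τ p = off c Z τ' p' - off c Z τ' p)
    (hi : ∀ i, i ≠ k → τ.1 i = τ'.1 i) (hj : τ.2 = τ'.2) : τ = τ' := by
  simp only [G1_off, hj] at he
  have e1 := G1_F_lt c τ.1 τ'.1 p'.1 k h2 hi
  have e2 := G1_F_ge c τ.1 τ'.1 p.1 k h1 hi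
  rw [e2] at he
  have e3 : G1_F c τ.1 p'.1 - G1_F c τ'.1 p'.1 = 0 := by
    have : G1_F c τ.1 p'.1 = G1_F c τ'.1 p'.1 := by
      have h := he
      have h' := congrArg (fun x => x + (G1_F c τ'.1 p.1 + G1_S Z τ'.2 p.2) - G1_S Z τ'.2 p'.2) h
      simpa using h'
    rw [this, sub_self]
  rw [e3] at e1
  have e4 : τ.1 k = τ'.1 k := hc (sub_eq_zero.mp e1.symm)
  refine Prod.ext (funext fun i => ?_) hj
  by_cases hik : i = k
  · rw [hik, e4]
  · exact hi i hik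

theorem off_same {V : Type*} [AddCommGroup V] {g t m nC s : ℕ} (hg : 2 ≤ g) (ht : 2 ≤ t)
    (hm : 2 ≤ m) (c : Fin nC → V) (hc : Function.Injective c) (hc0 : ∀ i, c i ≠ 0)
    (Z : Fin s → Fin m → V) (B : Finset V) (hZ : Fam B 0 Z) (p p' : ℕ × ℕ × ℕ) (hp : p ∈ ix g t m) (hp' : p' ∈ ix g t m)
    (hne : p ≠ p') (hA : p.1 = p'.1) (τ : Tp g t nC s) : off c Z τ p ≠ off c Z τ p' := by
  obtain ⟨j, l, l', h1, h2, h3, h4⟩ := G1_struct hg ht hm Z p p' hp hp' hne hA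
  rw [G1_off, G1_off, hA, (h4 τ.2).1, (h4 τ.2).2]
  intro h
  exact G1_win Z B hZ l l' h1 h2 h3 (τ.2 j) (add_left_cancel h)

open Classical in
theorem off_diff {V : Type*} [AddCommGroup V] {g t m nC s : ℕ} (hg : 2 ≤ g) (ht : 2 ≤ t)
    (hm : 2 ≤ m) (c : Fin nC → V) (hc : Function.Injective c) (hc0 : ∀ i, c i ≠ 0)
    (Z : Fin s → Fin m → V) (B : Finset V) (hZ : Fam B 0 Z) (p p' : ℕ × ℕ × ℕ) (hp : p ∈ ix g t m) (hp' : p' ∈ ix g t m)
    (hne : p ≠ p') (y : V) :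
    (univ.filter fun τ : Tp g t nC s => off c Z τ p' - off c Z τ p = y).card ≤
      nC ^ (g * t - 1) * s ^ g + nC ^ (g * t) * s ^ (g - 1) := by
  rcases lt_trichotomy p.1 p'.1 with hA | hA | hA
  · have hk : p.1 < g * t := lt_of_lt_of_le hA (G1_le ht hp')
    refine le_trans (G1_count _ {⟨p.1, hk⟩} ∅ ?_) (by simp)
    intro τ hτ τ' hτ' h1 h2
    simp only [Finset.mem_filter, Finset.mem_univ, true_and] at hτ hτ'
    exact G1_det c hc Z p p' ⟨p.1, hk⟩ le_rfl hA τ τ' (hτ.trans hτ'.symm)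
      (fun i hi => h1 i (by simpa using hi)) (funext fun j => h2 j (by simp))
  · obtain ⟨j, l, l', h1, h2, h3, h4⟩ := G1_struct hg ht hm Z p p' hp hp' hne hA
    refine le_trans (G1_count _ ∅ {j} ?_) (by simp)
    intro τ hτ τ' hτ' e1 e2
    simp only [Finset.mem_filter, Finset.mem_univ, true_and, G1_off, hA, (h4 _).1, (h4 _).2,
      add_sub_add_left_eq_sub] at hτ hτ'
    have h5 := G1_cross Z B hZ l l' h1 h2 h3 _ _ (hτ.trans hτ'.symm)
    refine Prod.ext (funext fun i => e1 i (by simp)) (funext fun i => ?_)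
    by_cases hij : i = j
    · rw [hij, h5]
    · exact e2 i (by simpa using hij)
  · have hk : p'.1 < g * t := lt_of_lt_of_le hA (G1_le ht hp)
    refine le_trans (G1_count _ {⟨p'.1, hk⟩} ∅ ?_) (by simp)
    intro τ hτ τ' hτ' h1 h2
    simp only [Finset.mem_filter, Finset.mem_univ, true_and] at hτ hτ'
    refine G1_det c hc Z p' p ⟨p'.1, hk⟩ le_rfl hA τ τ' ?_
      (fun i hi => h1 i (by simpa using hi)) (funext fun j => h2 j (by simp))
    have := congrArg Neg.neg (hτ.trans hτ'.symm)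
    simpa using this

end Pool.Agent.SDN
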