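import Pool.Agent.Lib_helper26.SDN.Defs
import Pool.Agent.Lib_helper26.SDN.G1

/-! Block G2 (project SDN): coincidences of offsets with one resource fixed. -/

namespace Pool.Agent.SDN

open Finset

/-- one colour fixed, first components increasing -/
theorem G2_col {V : Type*} [AddCommGroup V] {g t m nC s : ℕ} (hg : 2 ≤ g) (ht : 2 ≤ t)
    (hm : 2 ≤ m) (c : Fin nC → V) (hc : Function.Injective c) (hc0 : ∀ i, c i ≠ 0)
    (Z : Fin s → Fin m → V) (B : Finset V) (hZ : Fam B 0 Z) (p p' : ℕ × ℕ × ℕ) (hp : p ∈ ix g t m)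
    (hp' : p' ∈ ix g t m) (hA : p.1 < p'.1) (i : Fin (g * t)) (a : Fin nC)
    (S : Finset (Tp g t nC s)) (hS : ∀ τ ∈ S, τ.1 i = a ∧ off c Z τ p' = off c Z τ p) :
    S.card ≤ nC ^ (g * t - 2) * s ^ g + nC ^ (g * t - 1) * s ^ (g - 1) := by
  have hle : p'.1 ≤ g * t := G1_le ht hp'
  by_cases hex : ∃ k : Fin (g * t), p.1 ≤ k ∧ (k : ℕ) < p'.1 ∧ k ≠ i
  · obtain ⟨k, hk1, hk2, hk3⟩ := hex
    have hcard : ({k, i} : Finset (Fin (g * t))).card = 2 := Finset.card_pair hk3
    refine le_trans (G1_count S {k, i} ∅ ?_) (by rw [hcard]; simp)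
    intro τ hτ τ' hτ' h1 h2
    obtain ⟨e1, e2⟩ := hS τ hτ
    obtain ⟨e1', e2'⟩ := hS τ' hτ'
    refine G1_det c hc Z p p' k hk1 hk2 τ τ' (by rw [e2, e2', sub_self, sub_self]) (fun x hx => ?_)
      (funext fun j => h2 j (by simp))
    by_cases hxi : x = i
    · rw [hxi, e1, e1']
    · exact h1 x (by simp [hx, hxi])
  · push Not at hex
    have hk : p.1 < g * t := by omega
    have hi : (⟨p.1, hk⟩ : Fin (g * t)) = i := hex ⟨p.1, hk⟩ le_rfl hA
    have hi' : (i : ℕ) = p.1 := by rw [← hi]
    have hA' : p'.1 = p.1 + 1 := by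
      by_contra hcon
      have h1 : p.1 + 1 < g * t := by omega
      have h2 := hex ⟨p.1 + 1, h1⟩ (Nat.le_succ _) (show p.1 + 1 < p'.1 by omega)
      have h3 : p.1 + 1 = (i : ℕ) := congrArg Fin.val h2
      omega
    -- the equation
    have heq : ∀ τ ∈ S, c a + G1_S Z τ.2 p'.2 = G1_S Z τ.2 p.2 := by
      intro τ hτ
      obtain ⟨e1, e2⟩ := hS τ hτ
      rw [G1_off, G1_off] at e2
      have e3 : G1_F c τ.1 p'.1 = G1_F c τ.1 p.1 + c a := by
        unfold G1_F
        rw [← e1, ← sub_eq_iff_eq_add', ← Finset.sum_sub_distrib, Finset.sum_eq_single i]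
        · rw [if_pos (by omega), if_neg (by omega), sub_zero]
        · intro x _ hx
          have hx' : (x : ℕ) ≠ i := fun h => hx (Fin.ext h)
          by_cases hlt : (x : ℕ) < p.1
          · rw [if_pos (by omega), if_pos hlt, sub_self]
          · rw [if_neg (by omega), if_neg hlt, sub_self]
        · intro h
          exact absurd (Finset.mem_univ i) h
      rw [e3, add_assoc] at e2
      exact add_left_cancel e2
    -- one stock set is determined
    have key : ∀ (j : Fin g), (∀ τ ∈ S, ∀ τ' ∈ S, (∀ x, x ≠ j → τ.2 x = τ'.2 x) → τ.2 j = τ'.2 j) →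
        S.card ≤ nC ^ (g * t - 2) * s ^ g + nC ^ (g * t - 1) * s ^ (g - 1) := by
      intro j hj
      refine le_trans (G1_count S {i} {j} ?_) (by simp)
      intro τ hτ τ' hτ' h1 h2
      refine Prod.ext (funext fun x => ?_) (funext fun x => ?_)
      · by_cases hx : x = i
        · rw [hx, (hS τ hτ).1, (hS τ' hτ').1]
        · exact h1 x (by simpa using hx)
      · by_cases hx : x = j
        · rw [hx]
          exact hj τ hτ τ' hτ' (fun y hy => h2 y (by simpa using hy))
        · exact h2 x (by simpa using hx)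
    have empty : (∀ τ ∈ S, False) →
        S.card ≤ nC ^ (g * t - 2) * s ^ g + nC ^ (g * t - 1) * s ^ (g - 1) := by
      intro h
      rw [Finset.eq_empty_of_forall_notMem h, Finset.card_empty]
      exact Nat.zero_le _
    rcases G1_norm (V := V) hg hm Z hp with ⟨h0, h1⟩ | ⟨j, l, hl1, hl2, h2, h3, h4⟩
    · rcases G1_norm (V := V) hg hm Z hp' with ⟨h0', h1'⟩ | ⟨j', l', hl1', hl2', h2', h3', h4'⟩
      · apply empty
        intro τ hτ
        have h := heq τ hτ
        rw [h1, h1', add_zero] at h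
        exact hc0 a h
      · apply key j'
        intro τ hτ τ' hτ' _
        have e := heq τ hτ
        have e' := heq τ' hτ'
        rw [h1, h4'] at e e'
        apply G1_cross Z B hZ 0 l' (by omega) (by omega) hl2'
        rw [G1_P_zero, G1_P_zero, sub_zero, sub_zero]
        exact add_left_cancel (e.trans e'.symm)
    · rcases G1_norm (V := V) hg hm Z hp' with ⟨h0', h1'⟩ | ⟨j', l', hl1', hl2', h2', h3', h4'⟩
      · apply key j
        intro τ hτ τ' hτ' _
        have e := heq τ hτ
        have e' := heq τ' hτ'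
        rw [h1', h4] at e e'
        apply G1_cross Z B hZ 0 l (by omega) (by omega) hl2
        rw [G1_P_zero, G1_P_zero, sub_zero, sub_zero]
        exact e.symm.trans e'
      · by_cases hjj : j = j'
        · subst hjj
          by_cases hll : l = l'
          · subst hll
            apply empty
            intro τ hτ
            have e := heq τ hτ
            rw [h4, h4'] at e
            apply hc0 a
            exact left_eq_add.mp (by rw [add_comm] at e; exact e.symm)
          · apply key j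
            intro τ hτ τ' hτ' _
            have e := heq τ hτ
            have e' := heq τ' hτ'
            rw [h4, h4'] at e e'
            apply G1_cross Z B hZ l' l (Ne.symm hll) hl2' hl2
            rw [← e, ← e']
            simp
        · apply key j'
          intro τ hτ τ' hτ' hx
          have e := heq τ hτ
          have e' := heq τ' hτ'
          rw [h4, h4'] at e e'
          rw [← hx j hjj, ← e] at e'
          apply G1_cross Z B hZ 0 l' (by omega) (by omega) hl2'
          rw [G1_P_zero, G1_P_zero, sub_zero, sub_zero]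
          exact (add_left_cancel e').symm

open Classical in
theorem off_fix_col {V : Type*} [AddCommGroup V] {g t m nC s : ℕ} (hg : 2 ≤ g) (ht : 2 ≤ t)
    (hm : 2 ≤ m) (c : Fin nC → V) (hc : Function.Injective c) (hc0 : ∀ i, c i ≠ 0)
    (Z : Fin s → Fin m → V) (B : Finset V) (hZ : Fam B 0 Z) (p p' : ℕ × ℕ × ℕ) (hp : p ∈ ix g t m) (hp' : p' ∈ ix g t m)
    (hne : p ≠ p') (i : Fin (g * t)) (a : Fin nC) :
    (univ.filter fun τ : Tp g t nC s => τ.1 i = a ∧ off c Z τ p' = off c Z τ p).card ≤
      nC ^ (g * t - 2) * s ^ g + nC ^ (g * t - 1) * s ^ (g - 1) := by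
  rcases lt_trichotomy p.1 p'.1 with hA | hA | hA
  · exact G2_col hg ht hm c hc hc0 Z B hZ p p' hp hp' hA i a _ (fun τ hτ => by simpa using hτ)
  · rw [Finset.card_eq_zero.mpr]
    · exact Nat.zero_le _
    · apply Finset.filter_eq_empty_iff.mpr
      rintro τ _ ⟨_, h⟩
      exact off_same hg ht hm c hc hc0 Z B hZ p p' hp hp' hne hA τ h.symm
  · exact G2_col hg ht hm c hc hc0 Z B hZ p' p hp' hp hA i a _
      (fun τ hτ => by simp only [Finset.mem_filter, Finset.mem_univ, true_and] at hτ; exact ⟨hτ.1, hτ.2.symm⟩)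

open Classical in
theorem off_fix_stk {V : Type*} [AddCommGroup V] {g t m nC s : ℕ} (hg : 2 ≤ g) (ht : 2 ≤ t)
    (hm : 2 ≤ m) (c : Fin nC → V) (hc : Function.Injective c) (hc0 : ∀ i, c i ≠ 0)
    (Z : Fin s → Fin m → V) (B : Finset V) (hZ : Fam B 0 Z) (p p' : ℕ × ℕ × ℕ) (hp : p ∈ ix g t m) (hp' : p' ∈ ix g t m)
    (hne : p ≠ p') (j : Fin g) (z : Fin s) :
    (univ.filter fun τ : Tp g t nC s => τ.2 j = z ∧ off c Z τ p' = off c Z τ p).card ≤
      nC ^ (g * t - 1) * s ^ (g - 1) := by
  have main : ∀ (q q' : ℕ × ℕ × ℕ), q ∈ ix g t m → q' ∈ ix g t m → q.1 < q'.1 →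
      (univ.filter fun τ : Tp g t nC s => τ.2 j = z ∧ off c Z τ q' = off c Z τ q).card ≤
      nC ^ (g * t - 1) * s ^ (g - 1) := by
    intro q q' hq hq' hA
    have hk : q.1 < g * t := lt_of_lt_of_le hA (G1_le ht hq')
    refine le_trans (G1_count _ {⟨q.1, hk⟩} {j} ?_) (by simp)
    intro τ hτ τ' hτ' h1 h2
    simp only [Finset.mem_filter, Finset.mem_univ, true_and] at hτ hτ'
    refine G1_det c hc Z q q' ⟨q.1, hk⟩ le_rfl hA τ τ' (by rw [hτ.2, hτ'.2, sub_self, sub_self])
      (fun i hi => h1 i (by simpa using hi)) (funext fun x => ?_)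
    by_cases hx : x = j
    · rw [hx, hτ.1, hτ'.1]
    · exact h2 x (by simpa using hx)
  rcases lt_trichotomy p.1 p'.1 with hA | hA | hA
  · exact main p p' hp hp' hA
  · rw [Finset.card_eq_zero.mpr]
    · exact Nat.zero_le _
    · apply Finset.filter_eq_empty_iff.mpr
      rintro τ _ ⟨_, h⟩
      exact off_same hg ht hm c hc hc0 Z B hZ p p' hp hp' hne hA τ h.symm
  · have h := main p' p hp' hp hA
    refine le_trans (le_of_eq ?_) h
    congr 1
    apply Finset.filter_congr
    intro τ _
    constructor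
    · rintro ⟨h1, h2⟩; exact ⟨h1, h2.symm⟩
    · rintro ⟨h1, h2⟩; exact ⟨h1, h2.symm⟩

end Pool.Agent.SDN
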