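import Pool.Agent.Lib_helper26.SDN.Defs
import Pool.Agent.Lib_helper26.SDN.G1
import Pool.Agent.Lib_helper26.SDN.G2

/-! Block G3 (project SDN): counting the good patterns. -/

namespace Pool.Agent.SDN

open Finset

/-- sets of patterns determined by the coordinates outside `J`, `J'` -/
theorem G3_det {G g nC s : ℕ} (S : Finset ((Fin G → Fin nC) × (Fin g → Fin s)))
    (J : Finset (Fin G)) (J' : Finset (Fin g))
    (h : ∀ τ ∈ S, ∀ τ' ∈ S, (∀ i, i ∉ J → τ.1 i = τ'.1 i) →
      (∀ j, j ∉ J' → τ.2 j = τ'.2 j) → τ = τ') :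
    S.card ≤ nC ^ (G - J.card) * s ^ (g - J'.card) := by
  classical
  have h1 : S.card ≤
      (univ : Finset (({i // i ∉ J} → Fin nC) × ({j // j ∉ J'} → Fin s))).card := by
    refine Finset.card_le_card_of_injOn (fun τ => (fun i => τ.1 i.1, fun j => τ.2 j.1))
      (fun _ _ => by simp) ?_
    intro τ hτ τ' hτ' he
    simp only [Prod.mk.injEq] at he
    exact h τ hτ τ' hτ' (fun i hi => congrFun he.1 ⟨i, hi⟩) (fun j hj => congrFun he.2 ⟨j, hj⟩)
  have h2 : Fintype.card {i // i ∉ J} = G - J.card := by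
    rw [Fintype.card_subtype_compl]; simp
  have h3 : Fintype.card {j // j ∉ J'} = g - J'.card := by
    rw [Fintype.card_subtype_compl]; simp
  rw [Finset.card_univ, Fintype.card_prod, Fintype.card_fun, Fintype.card_fun, h2, h3,
    Fintype.card_fin, Fintype.card_fin] at h1
  exact h1

theorem G3_col {G g nC s : ℕ} (hG : 1 ≤ G) (i : Fin G) (a : Fin nC) :
    ((univ : Finset ((Fin G → Fin nC) × (Fin g → Fin s))).filter fun τ => τ.1 i = a).card =
      nC ^ (G - 1) * s ^ g := by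
  classical
  have hle : ∀ a ∈ (univ : Finset (Fin nC)),
      ((univ : Finset ((Fin G → Fin nC) × (Fin g → Fin s))).filter fun τ => τ.1 i = a).card ≤
      nC ^ (G - 1) * s ^ g := by
    intro a _
    have := G3_det ((univ : Finset ((Fin G → Fin nC) × (Fin g → Fin s))).filter
      fun τ => τ.1 i = a) {i} ∅ ?_
    · simpa using this
    · intro τ hτ τ' hτ' h1 h2
      simp only [mem_filter, mem_univ, true_and] at hτ hτ'
      refine Prod.ext (funext fun k => ?_) (funext fun k => h2 k (by simp))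
      by_cases hk : k = i
      · rw [hk, hτ, hτ']
      · exact h1 k (by simpa using hk)
  have hsum : ∑ a : Fin nC, ((univ : Finset ((Fin G → Fin nC) × (Fin g → Fin s))).filter
      fun τ => τ.1 i = a).card = ∑ _a : Fin nC, nC ^ (G - 1) * s ^ g := by
    rw [← Finset.card_eq_sum_card_fiberwise (f := fun τ : (Fin G → Fin nC) × (Fin g → Fin s) =>
      τ.1 i) (s := univ) (t := univ) (by simp [Set.MapsTo])]
    rw [Finset.card_univ, Fintype.card_prod, Fintype.card_fun, Fintype.card_fun,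
      Finset.sum_const, Finset.card_univ, smul_eq_mul]
    simp only [Fintype.card_fin]
    obtain ⟨k, rfl⟩ : ∃ k, G = k + 1 := ⟨G - 1, by omega⟩
    rw [Nat.add_sub_cancel, pow_succ]
    ring
  exact (Finset.sum_eq_sum_iff_of_le hle).mp hsum a (mem_univ a)

theorem G3_stk {G g nC s : ℕ} (hg : 1 ≤ g) (j : Fin g) (z : Fin s) :
    ((univ : Finset ((Fin G → Fin nC) × (Fin g → Fin s))).filter fun τ => τ.2 j = z).card =
      nC ^ G * s ^ (g - 1) := by
  classical
  have hle : ∀ z ∈ (univ : Finset (Fin s)),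
      ((univ : Finset ((Fin G → Fin nC) × (Fin g → Fin s))).filter fun τ => τ.2 j = z).card ≤
      nC ^ G * s ^ (g - 1) := by
    intro z _
    have := G3_det ((univ : Finset ((Fin G → Fin nC) × (Fin g → Fin s))).filter
      fun τ => τ.2 j = z) ∅ {j} ?_
    · simpa using this
    · intro τ hτ τ' hτ' h1 h2
      simp only [mem_filter, mem_univ, true_and] at hτ hτ'
      refine Prod.ext (funext fun k => h1 k (by simp)) (funext fun k => ?_)
      by_cases hk : k = j
      · rw [hk, hτ, hτ']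
      · exact h2 k (by simpa using hk)
  have hsum : ∑ z : Fin s, ((univ : Finset ((Fin G → Fin nC) × (Fin g → Fin s))).filter
      fun τ => τ.2 j = z).card = ∑ _z : Fin s, nC ^ G * s ^ (g - 1) := by
    rw [← Finset.card_eq_sum_card_fiberwise (f := fun τ : (Fin G → Fin nC) × (Fin g → Fin s) =>
      τ.2 j) (s := univ) (t := univ) (by simp [Set.MapsTo])]
    rw [Finset.card_univ, Fintype.card_prod, Fintype.card_fun, Fintype.card_fun,
      Finset.sum_const, Finset.card_univ, smul_eq_mul]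
    simp only [Fintype.card_fin]
    obtain ⟨k, rfl⟩ : ∃ k, g = k + 1 := ⟨g - 1, by omega⟩
    rw [Nat.add_sub_cancel, pow_succ]
    ring
  exact (Finset.sum_eq_sum_iff_of_le hle).mp hsum z (mem_univ z)

theorem G3_ix (g t m : ℕ) (hm : 2 ≤ m) : (ix g t m).card = g * t + 1 + g * m := by
  classical
  unfold ix
  have h1 : ((range (g * t + 1)).image (fun i => ((i, 0, 0) : ℕ × ℕ × ℕ))).card = g * t + 1 := by
    rw [Finset.card_image_of_injective, card_range]
    intro a b hab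
    simpa using hab
  have h2 : ((range g ×ˢ Ico 1 m).image fun p : ℕ × ℕ =>
      ((t * p.1, p.1, p.2) : ℕ × ℕ × ℕ)).card = g * (m - 1) := by
    rw [Finset.card_image_of_injective, card_product, card_range, Nat.card_Ico]
    rintro ⟨a, b⟩ ⟨a', b'⟩ hab
    simp only [Prod.mk.injEq] at hab ⊢
    exact hab.2
  have h3 : ((range g).image fun j => ((t * j + 1, j, m - 1) : ℕ × ℕ × ℕ)).card = g := by
    rw [Finset.card_image_of_injective, card_range]
    intro a b hab
    simp only [Prod.mk.injEq] at hab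
    exact hab.2.1
  rw [Finset.card_union_of_disjoint, Finset.card_union_of_disjoint, h1, h2, h3]
  · obtain ⟨k, rfl⟩ : ∃ k, m = k + 1 := ⟨m - 1, by omega⟩
    rw [Nat.add_sub_cancel]; ring
  · rw [Finset.disjoint_left]
    intro x hx hy
    simp only [mem_image, mem_range, mem_product, mem_Ico] at hx hy
    obtain ⟨i, _, rfl⟩ := hx
    obtain ⟨p, hp, he⟩ := hy
    simp only [Prod.mk.injEq] at he
    omega
  · rw [Finset.disjoint_left]
    intro x hx hy
    simp only [mem_union, mem_image, mem_range, mem_product, mem_Ico] at hx hy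
    obtain ⟨j, hj, rfl⟩ := hy
    rcases hx with ⟨i, _, he⟩ | ⟨p, hp, he⟩
    · simp only [Prod.mk.injEq] at he
      omega
    · simp only [Prod.mk.injEq] at he
      obtain ⟨e1, e2, e3⟩ := he
      rw [e2] at e1
      omega

open Classical in
theorem G3_bad {V : Type*} [AddCommGroup V] {g t m nC s : ℕ}
    (c : Fin nC → V) (Z : Fin s → Fin m → V) (Q : Tp g t nC s → Prop) (b1 b2 b3 : ℕ)
    (h1 : ∀ i i' : Fin (g * t), i ≠ i' →
      (univ.filter fun τ : Tp g t nC s => Q τ ∧ τ.1 i = τ.1 i').card ≤ b1)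
    (h2 : ∀ i i' : Fin g, i ≠ i' →
      (univ.filter fun τ : Tp g t nC s => Q τ ∧ τ.2 i = τ.2 i').card ≤ b2)
    (h3 : ∀ p ∈ ix g t m, ∀ p' ∈ ix g t m, p ≠ p' →
      (univ.filter fun τ : Tp g t nC s => Q τ ∧ off c Z τ p' = off c Z τ p).card ≤ b3) :
    (univ.filter fun τ : Tp g t nC s => Q τ ∧ ¬ Good c Z τ).card ≤
      (g * t) * (g * t) * b1 + g * g * b2 + (ix g t m).card * (ix g t m).card * b3 := by
  have hsub : (univ.filter fun τ : Tp g t nC s => Q τ ∧ ¬ Good c Z τ) ⊆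
      (((univ ×ˢ univ : Finset (Fin (g * t) × Fin (g * t))).filter fun p => p.1 ≠ p.2).biUnion
        fun p => univ.filter fun τ : Tp g t nC s => Q τ ∧ τ.1 p.1 = τ.1 p.2) ∪
      (((univ ×ˢ univ : Finset (Fin g × Fin g)).filter fun p => p.1 ≠ p.2).biUnion
        fun p => univ.filter fun τ : Tp g t nC s => Q τ ∧ τ.2 p.1 = τ.2 p.2) ∪
      (((ix g t m ×ˢ ix g t m).filter fun p => p.1 ≠ p.2).biUnion
        fun p => univ.filter fun τ : Tp g t nC s => Q τ ∧ off c Z τ p.2 = off c Z τ p.1) := by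
    intro τ hτ
    simp only [mem_filter, mem_univ, true_and] at hτ
    obtain ⟨hQ, hb⟩ := hτ
    simp only [mem_union, mem_biUnion, mem_filter, mem_product, mem_univ, true_and]
    by_contra hcon
    push Not at hcon
    obtain ⟨⟨c1, c2⟩, c3⟩ := hcon
    apply hb
    refine ⟨fun i i' he => ?_, fun i i' he => ?_, fun p hp p' hp' he => ?_⟩
    · by_contra hne
      exact c1 (i, i') hne hQ he
    · by_contra hne
      exact c2 (i, i') hne hQ he
    · by_contra hne
      exact c3 (p, p') ⟨⟨Finset.mem_coe.mp hp, Finset.mem_coe.mp hp'⟩, hne⟩ hQ he.symm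
  refine (Finset.card_le_card hsub).trans ?_
  refine (Finset.card_union_le _ _).trans (Nat.add_le_add ((Finset.card_union_le _ _).trans
    (Nat.add_le_add ?_ ?_)) ?_)
  · refine (Finset.card_biUnion_le_card_mul _ _ b1 ?_).trans ?_
    · intro p hp
      simp only [mem_filter] at hp
      exact h1 p.1 p.2 hp.2
    · refine Nat.mul_le_mul_right _ ((Finset.card_filter_le _ _).trans ?_)
      simp
  · refine (Finset.card_biUnion_le_card_mul _ _ b2 ?_).trans ?_
    · intro p hp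
      simp only [mem_filter] at hp
      exact h2 p.1 p.2 hp.2
    · refine Nat.mul_le_mul_right _ ((Finset.card_filter_le _ _).trans ?_)
      simp
  · refine (Finset.card_biUnion_le_card_mul _ _ b3 ?_).trans ?_
    · intro p hp
      simp only [mem_filter, mem_product] at hp
      exact h3 p.1 hp.1.1 p.2 hp.1.2 hp.2
    · refine Nat.mul_le_mul_right _ ((Finset.card_filter_le _ _).trans ?_)
      rw [card_product]

theorem G3_arith {g t nC s : ℕ} (hg : 2 ≤ g) (ht : 2 ≤ t) (hnC : nC = t * s) :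
    nC ^ (g * t - 2) * s ^ g * s ≤ nC ^ (g * t - 1) * s ^ g ∧
    nC ^ (g * t - 1) * s ^ (g - 1) * s = nC ^ (g * t - 1) * s ^ g ∧
    nC ^ (g * t) * s ^ (g - 1) = t * (nC ^ (g * t - 1) * s ^ g) ∧
    nC ^ (g * t) * s ^ (g - 2) * s = t * (nC ^ (g * t - 1) * s ^ g) := by
  have hG : 2 ≤ g * t := by nlinarith
  obtain ⟨k, hk⟩ : ∃ k, g * t = k + 2 := ⟨g * t - 2, by omega⟩
  obtain ⟨l, hl⟩ : ∃ l, g = l + 2 := ⟨g - 2, by omega⟩
  rw [hk]
  have e1 : k + 2 - 2 = k := by omega
  have e2 : k + 2 - 1 = k + 1 := by omega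
  rw [e1, e2]
  have e3 : g - 1 = l + 1 := by omega
  have e4 : g - 2 = l := by omega
  rw [e3, e4, hl]
  have hs : s ≤ nC := by rw [hnC]; nlinarith
  refine ⟨?_, ?_, ?_, ?_⟩
  · rw [pow_succ nC k]
    calc nC ^ k * s ^ (l + 2) * s = (nC ^ k * s ^ (l + 2)) * s := rfl
      _ ≤ (nC ^ k * s ^ (l + 2)) * nC := Nat.mul_le_mul_left _ hs
      _ = _ := by ring
  · ring
  · rw [pow_succ nC (k + 1)]
    nth_rewrite 2 [hnC]
    ring
  · rw [pow_succ nC (k + 1)]
    nth_rewrite 2 [hnC]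
    ring

theorem G3_resl {g t nC s : ℕ} (τ : Tp g t nC s) (a : Fin nC) :
    Sum.inl a ∈ res τ ↔ ∃ i, τ.1 i = a := by
  simp [res]

theorem G3_resr {g t nC s : ℕ} (τ : Tp g t nC s) (z : Fin s) :
    Sum.inr z ∈ res τ ↔ ∃ j, τ.2 j = z := by
  simp [res]

theorem G3_rescard {g t nC s : ℕ} {τ : Tp g t nC s} (h1 : Function.Injective τ.1)
    (h2 : Function.Injective τ.2) : (res τ).card = g * t + g := by
  unfold res
  rw [Finset.card_union_of_disjoint]
  · rw [Finset.card_image_of_injective univ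
        (f := fun i => (Sum.inl (τ.1 i) : Fin nC ⊕ Fin s)) (Sum.inl_injective.comp h1),
      Finset.card_image_of_injective univ
        (f := fun j => (Sum.inr (τ.2 j) : Fin nC ⊕ Fin s)) (Sum.inr_injective.comp h2)]
    simp
  · rw [Finset.disjoint_left]
    intro x hx hy
    simp only [mem_image, mem_univ, true_and] at hx hy
    obtain ⟨i, rfl⟩ := hx
    obtain ⟨j, hj⟩ := hy
    cases hj

open Classical in
theorem G3_split {α : Type*} [Fintype α] (Q P : α → Prop) :
    (univ.filter fun x => P x ∧ Q x).card + (univ.filter fun x => Q x ∧ ¬ P x).card =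
      (univ.filter Q).card := by
  have e1 : (univ.filter fun x => P x ∧ Q x) = (univ.filter Q).filter P := by
    ext x; simp only [mem_filter, mem_univ, true_and]; tauto
  have e2 : (univ.filter fun x => Q x ∧ ¬ P x) = (univ.filter Q).filter fun x => ¬ P x := by
    ext x; simp only [mem_filter, mem_univ, true_and]
  rw [e1, e2]
  exact Finset.card_filter_add_card_filter_not _

open Classical in
theorem G3_cntl {V : Type*} [AddCommGroup V] {g t m nC s : ℕ}
    (c : Fin nC → V) (Z : Fin s → Fin m → V) (a : Fin nC) :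
    (univ.filter fun τ : Tp g t nC s => Good c Z τ ∧ Sum.inl a ∈ res τ).card +
      ∑ i, (univ.filter fun τ : Tp g t nC s => τ.1 i = a ∧ ¬ Good c Z τ).card =
      ∑ i, (univ.filter fun τ : Tp g t nC s => τ.1 i = a).card := by
  have h1 : (univ.filter fun τ : Tp g t nC s => Good c Z τ ∧ Sum.inl a ∈ res τ) =
      (univ : Finset (Fin (g * t))).biUnion fun i =>
        univ.filter fun τ : Tp g t nC s => Good c Z τ ∧ τ.1 i = a := by
    ext τ
    simp only [mem_filter, mem_univ, true_and, mem_biUnion, G3_resl]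
    constructor
    · rintro ⟨h, i, hi⟩
      exact ⟨i, h, hi⟩
    · rintro ⟨i, h, hi⟩
      exact ⟨h, i, hi⟩
  rw [h1, Finset.card_biUnion]
  · rw [← Finset.sum_add_distrib]
    refine Finset.sum_congr rfl fun i _ => ?_
    convert G3_split (fun τ : Tp g t nC s => τ.1 i = a) (fun τ => Good c Z τ)
  · intro i _ i' _ hne
    change Disjoint _ _
    rw [Finset.disjoint_left]
    intro τ hτ hτ'
    simp only [mem_filter, mem_univ, true_and] at hτ hτ'
    exact hne (hτ.1.1 (hτ.2.trans hτ'.2.symm))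

open Classical in
theorem G3_cntr {V : Type*} [AddCommGroup V] {g t m nC s : ℕ}
    (c : Fin nC → V) (Z : Fin s → Fin m → V) (z : Fin s) :
    (univ.filter fun τ : Tp g t nC s => Good c Z τ ∧ Sum.inr z ∈ res τ).card +
      ∑ j, (univ.filter fun τ : Tp g t nC s => τ.2 j = z ∧ ¬ Good c Z τ).card =
      ∑ j, (univ.filter fun τ : Tp g t nC s => τ.2 j = z).card := by
  have h1 : (univ.filter fun τ : Tp g t nC s => Good c Z τ ∧ Sum.inr z ∈ res τ) =
      (univ : Finset (Fin g)).biUnion fun j =>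
        univ.filter fun τ : Tp g t nC s => Good c Z τ ∧ τ.2 j = z := by
    ext τ
    simp only [mem_filter, mem_univ, true_and, mem_biUnion, G3_resr]
    constructor
    · rintro ⟨h, i, hi⟩
      exact ⟨i, h, hi⟩
    · rintro ⟨i, h, hi⟩
      exact ⟨h, i, hi⟩
  rw [h1, Finset.card_biUnion]
  · rw [← Finset.sum_add_distrib]
    refine Finset.sum_congr rfl fun i _ => ?_
    convert G3_split (fun τ : Tp g t nC s => τ.2 i = z) (fun τ => Good c Z τ)
  · intro i _ i' _ hne
    change Disjoint _ _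
    rw [Finset.disjoint_left]
    intro τ hτ hτ'
    simp only [mem_filter, mem_univ, true_and] at hτ hτ'
    exact hne (hτ.1.2.1 (hτ.2.trans hτ'.2.symm))

/-- the number of patterns with two constraints on the colours -/
theorem G3_c2 {G g nC s : ℕ} (i i' : Fin G) (hne : i ≠ i')
    (S : Finset ((Fin G → Fin nC) × (Fin g → Fin s)))
    (h : ∀ τ ∈ S, ∀ τ' ∈ S, (∀ k, k ≠ i → k ≠ i' → τ.1 k = τ'.1 k) → τ.2 = τ'.2 →
      τ.1 i = τ'.1 i ∧ τ.1 i' = τ'.1 i') :
    S.card ≤ nC ^ (G - 2) * s ^ g := by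
  classical
  have := G3_det S {i, i'} ∅ ?_
  · rw [Finset.card_pair hne] at this
    simpa using this
  · intro τ hτ τ' hτ' h1 h2
    have h3 := h τ hτ τ' hτ' (fun k hk hk' => h1 k (by simp [hk, hk']))
      (funext fun k => h2 k (by simp))
    refine Prod.ext (funext fun k => ?_) (funext fun k => h2 k (by simp))
    by_cases hk : k = i
    · rw [hk]; exact h3.1
    by_cases hk' : k = i'
    · rw [hk']; exact h3.2
    exact h1 k (by simp [hk, hk'])

/-- the number of patterns with two constraints on the stock sets -/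
theorem G3_s2 {G g nC s : ℕ} (i i' : Fin g) (hne : i ≠ i')
    (S : Finset ((Fin G → Fin nC) × (Fin g → Fin s)))
    (h : ∀ τ ∈ S, ∀ τ' ∈ S, (∀ k, k ≠ i → k ≠ i' → τ.2 k = τ'.2 k) → τ.1 = τ'.1 →
      τ.2 i = τ'.2 i ∧ τ.2 i' = τ'.2 i') :
    S.card ≤ nC ^ G * s ^ (g - 2) := by
  classical
  have := G3_det S ∅ {i, i'} ?_
  · rw [Finset.card_pair hne] at this
    simpa using this
  · intro τ hτ τ' hτ' h1 h2
    have h3 := h τ hτ τ' hτ' (fun k hk hk' => h2 k (by simp [hk, hk']))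
      (funext fun k => h1 k (by simp))
    refine Prod.ext (funext fun k => h1 k (by simp)) (funext fun k => ?_)
    by_cases hk : k = i
    · rw [hk]; exact h3.1
    by_cases hk' : k = i'
    · rw [hk']; exact h3.2
    exact h2 k (by simp [hk, hk'])

/-- the number of patterns with one constraint on the colours and one on the stock sets -/
theorem G3_cs {G g nC s : ℕ} (i : Fin G) (j : Fin g)
    (S : Finset ((Fin G → Fin nC) × (Fin g → Fin s)))
    (h : ∀ τ ∈ S, ∀ τ' ∈ S, (∀ k, k ≠ i → τ.1 k = τ'.1 k) → (∀ k, k ≠ j → τ.2 k = τ'.2 k) →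
      τ.1 i = τ'.1 i ∧ τ.2 j = τ'.2 j) :
    S.card ≤ nC ^ (G - 1) * s ^ (g - 1) := by
  classical
  have := G3_det S {i} {j} ?_
  · simpa using this
  · intro τ hτ τ' hτ' h1 h2
    have h3 := h τ hτ τ' hτ' (fun k hk => h1 k (by simp [hk])) (fun k hk => h2 k (by simp [hk]))
    refine Prod.ext (funext fun k => ?_) (funext fun k => ?_)
    · by_cases hk : k = i
      · rw [hk]; exact h3.1
      · exact h1 k (by simp [hk])
    · by_cases hk : k = j
      · rw [hk]; exact h3.2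
      · exact h2 k (by simp [hk])

open Classical in
theorem G3_colbad {V : Type*} [AddCommGroup V] {g t m nC s : ℕ} (hg : 2 ≤ g) (ht : 2 ≤ t)
    (hm : 2 ≤ m) (hnC : nC = t * s) (c : Fin nC → V) (hc : Function.Injective c)
    (hc0 : ∀ i, c i ≠ 0) (Z : Fin s → Fin m → V) (B : Finset V) (hZ : Fam B 0 Z)
    (i : Fin (g * t)) (a : Fin nC) :
    (univ.filter fun τ : Tp g t nC s => τ.1 i = a ∧ ¬ Good c Z τ).card * s ≤
      ((g * t) * (g * t) + g * g + 2 * (g * t + 1 + g * m) * (g * t + 1 + g * m)) *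
        (nC ^ (g * t - 1) * s ^ g) := by
  obtain ⟨a1, a2, a3, a4⟩ := G3_arith hg ht hnC
  have hb := G3_bad (m := m) c Z (fun τ : Tp g t nC s => τ.1 i = a)
    (nC ^ (g * t - 2) * s ^ g) (nC ^ (g * t - 1) * s ^ (g - 1))
    (nC ^ (g * t - 2) * s ^ g + nC ^ (g * t - 1) * s ^ (g - 1)) ?_ ?_ ?_
  · rw [G3_ix g t m hm] at hb
    have hb' : (univ.filter fun τ : Tp g t nC s => τ.1 i = a ∧ ¬ Good c Z τ).card ≤
        ((g * t) * (g * t) * (nC ^ (g * t - 2) * s ^ g) +
          g * g * (nC ^ (g * t - 1) * s ^ (g - 1)) +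
          (g * t + 1 + g * m) * (g * t + 1 + g * m) *
          (nC ^ (g * t - 2) * s ^ g + nC ^ (g * t - 1) * s ^ (g - 1))) := by
      convert hb
    refine (Nat.mul_le_mul_right s hb').trans ?_
    calc ((g * t) * (g * t) * (nC ^ (g * t - 2) * s ^ g) +
          g * g * (nC ^ (g * t - 1) * s ^ (g - 1)) +
          (g * t + 1 + g * m) * (g * t + 1 + g * m) *
          (nC ^ (g * t - 2) * s ^ g + nC ^ (g * t - 1) * s ^ (g - 1))) * s
      _ = (g * t) * (g * t) * (nC ^ (g * t - 2) * s ^ g * s) +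
          g * g * (nC ^ (g * t - 1) * s ^ (g - 1) * s) +
          (g * t + 1 + g * m) * (g * t + 1 + g * m) *
          (nC ^ (g * t - 2) * s ^ g * s + nC ^ (g * t - 1) * s ^ (g - 1) * s) := by ring
      _ ≤ (g * t) * (g * t) * (nC ^ (g * t - 1) * s ^ g) +
          g * g * (nC ^ (g * t - 1) * s ^ g) +
          (g * t + 1 + g * m) * (g * t + 1 + g * m) *
          (nC ^ (g * t - 1) * s ^ g + nC ^ (g * t - 1) * s ^ g) := by
          rw [a2]
          gcongr
      _ = ((g * t) * (g * t) + g * g + 2 * (g * t + 1 + g * m) * (g * t + 1 + g * m)) *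
        (nC ^ (g * t - 1) * s ^ g) := by ring
  · intro k k' hkk
    by_cases hik : k = i
    · have hik' : k' ≠ i := fun h => hkk (hik.trans h.symm)
      refine G3_c2 i k' hik'.symm _ ?_
      intro τ hτ τ' hτ' _ _
      simp only [mem_filter, mem_univ, true_and] at hτ hτ'
      rw [← hτ.2, ← hτ'.2, hik, hτ.1, hτ'.1]
      exact ⟨rfl, rfl⟩
    · refine G3_c2 i k (fun h => hik h.symm) _ ?_
      intro τ hτ τ' hτ' h1 _
      simp only [mem_filter, mem_univ, true_and] at hτ hτ'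
      refine ⟨by rw [hτ.1, hτ'.1], ?_⟩
      rw [hτ.2, hτ'.2]
      by_cases h2 : k' = i
      · rw [h2, hτ.1, hτ'.1]
      · exact h1 k' h2 (fun h => hkk h.symm)
  · intro k k' hkk
    refine G3_cs i k _ ?_
    intro τ hτ τ' hτ' _ h2
    simp only [mem_filter, mem_univ, true_and] at hτ hτ'
    refine ⟨by rw [hτ.1, hτ'.1], ?_⟩
    rw [hτ.2, hτ'.2]
    exact h2 k' (fun h => hkk h.symm)
  · intro p hp p' hp' hne
    convert off_fix_col hg ht hm c hc hc0 Z B hZ p p' hp hp' hne i a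

open Classical in
theorem G3_stkbad {V : Type*} [AddCommGroup V] {g t m nC s : ℕ} (hg : 2 ≤ g) (ht : 2 ≤ t)
    (hm : 2 ≤ m) (hnC : nC = t * s) (c : Fin nC → V) (hc : Function.Injective c)
    (hc0 : ∀ i, c i ≠ 0) (Z : Fin s → Fin m → V) (B : Finset V) (hZ : Fam B 0 Z)
    (j : Fin g) (z : Fin s) :
    (univ.filter fun τ : Tp g t nC s => τ.2 j = z ∧ ¬ Good c Z τ).card * s ≤
      ((g * t) * (g * t) + g * g * t + (g * t + 1 + g * m) * (g * t + 1 + g * m)) *
        (nC ^ (g * t - 1) * s ^ g) := by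
  obtain ⟨a1, a2, a3, a4⟩ := G3_arith hg ht hnC
  have hb := G3_bad (m := m) c Z (fun τ : Tp g t nC s => τ.2 j = z)
    (nC ^ (g * t - 1) * s ^ (g - 1)) (nC ^ (g * t) * s ^ (g - 2))
    (nC ^ (g * t - 1) * s ^ (g - 1)) ?_ ?_ ?_
  · rw [G3_ix g t m hm] at hb
    have hb' : (univ.filter fun τ : Tp g t nC s => τ.2 j = z ∧ ¬ Good c Z τ).card ≤
        ((g * t) * (g * t) * (nC ^ (g * t - 1) * s ^ (g - 1)) +
          g * g * (nC ^ (g * t) * s ^ (g - 2)) +
          (g * t + 1 + g * m) * (g * t + 1 + g * m) *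
          (nC ^ (g * t - 1) * s ^ (g - 1))) := by
      convert hb
    refine (Nat.mul_le_mul_right s hb').trans (le_of_eq ?_)
    calc ((g * t) * (g * t) * (nC ^ (g * t - 1) * s ^ (g - 1)) +
          g * g * (nC ^ (g * t) * s ^ (g - 2)) +
          (g * t + 1 + g * m) * (g * t + 1 + g * m) *
          (nC ^ (g * t - 1) * s ^ (g - 1))) * s
      _ = (g * t) * (g * t) * (nC ^ (g * t - 1) * s ^ (g - 1) * s) +
          g * g * (nC ^ (g * t) * s ^ (g - 2) * s) +
          (g * t + 1 + g * m) * (g * t + 1 + g * m) *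
          (nC ^ (g * t - 1) * s ^ (g - 1) * s) := by ring
      _ = ((g * t) * (g * t) + g * g * t + (g * t + 1 + g * m) * (g * t + 1 + g * m)) *
        (nC ^ (g * t - 1) * s ^ g) := by rw [a2, a4]; ring
  · intro k k' hkk
    refine G3_cs k j _ ?_
    intro τ hτ τ' hτ' h1 _
    simp only [mem_filter, mem_univ, true_and] at hτ hτ'
    refine ⟨?_, by rw [hτ.1, hτ'.1]⟩
    rw [hτ.2, hτ'.2]
    exact h1 k' (fun h => hkk h.symm)
  · intro k k' hkk
    by_cases hik : k = j
    · have hik' : k' ≠ j := fun h => hkk (hik.trans h.symm)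
      refine G3_s2 j k' hik'.symm _ ?_
      intro τ hτ τ' hτ' _ _
      simp only [mem_filter, mem_univ, true_and] at hτ hτ'
      rw [← hτ.2, ← hτ'.2, hik, hτ.1, hτ'.1]
      exact ⟨rfl, rfl⟩
    · refine G3_s2 j k (fun h => hik h.symm) _ ?_
      intro τ hτ τ' hτ' h1 _
      simp only [mem_filter, mem_univ, true_and] at hτ hτ'
      refine ⟨by rw [hτ.1, hτ'.1], ?_⟩
      rw [hτ.2, hτ'.2]
      by_cases h2 : k' = j
      · rw [h2, hτ.1, hτ'.1]
      · exact h1 k' h2 (fun h => hkk h.symm)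
  · intro p hp p' hp' hne
    convert off_fix_stk hg ht hm c hc hc0 Z B hZ p p' hp hp' hne j z

theorem G3_fin {X Bd N T s Cn : ℕ} (hs : 0 < s) (h : X + Bd = N * T) (hb : Bd * s ≤ Cn * T) :
    |(X : ℝ) - (N : ℝ) * T| ≤ (Cn : ℝ) * T / s := by
  have h1 : (X : ℝ) + Bd = (N : ℝ) * T := by exact_mod_cast h
  have h2 : (Bd : ℝ) * s ≤ (Cn : ℝ) * T := by exact_mod_cast hb
  have h3 : (X : ℝ) - (N : ℝ) * T = -(Bd : ℝ) := by linarith
  have hs' : (0 : ℝ) < s := by exact_mod_cast hs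
  rw [h3, abs_neg, abs_of_nonneg (Nat.cast_nonneg _), le_div_iff₀ hs']
  exact h2

open Classical in
theorem G3_pair {g t nC s : ℕ} (hg : 2 ≤ g) (ht : 2 ≤ t)
    (hnC : nC = t * s) (a a' : Fin nC ⊕ Fin s) (hne : a ≠ a') :
    (univ.filter fun τ : Tp g t nC s => a ∈ res τ ∧ a' ∈ res τ).card * s ≤
      ((g * t + g) * (g * t + g) * (t + 1)) * (nC ^ (g * t - 1) * s ^ g) := by
  obtain ⟨a1, a2, a3, a4⟩ := G3_arith hg ht hnC
  obtain ⟨T, hT⟩ : ∃ T, T = nC ^ (g * t - 1) * s ^ g := ⟨_, rfl⟩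
  rw [← hT] at a1 a2 a3 a4 ⊢
  have key : ∀ (κ κ' : Type) [Fintype κ] [Fintype κ'] (S : Finset (Tp g t nC s))
      (F : κ → κ' → Finset (Tp g t nC s)) (b : ℕ), Fintype.card κ ≤ g * t + g →
      Fintype.card κ' ≤ g * t + g → (∀ τ ∈ S, ∃ i i', τ ∈ F i i') →
      (∀ i i', (F i i').card ≤ b) → b * s ≤ (t + 1) * T →
      S.card * s ≤ (g * t + g) * (g * t + g) * (t + 1) * T := by
    intro κ κ' _ _ S F b h1 h2 h3 h4 h5
    have h6 : S ⊆ (univ : Finset (κ × κ')).biUnion fun p => F p.1 p.2 := by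
      intro τ hτ
      obtain ⟨i, i', hi⟩ := h3 τ hτ
      simp only [mem_biUnion, mem_univ, true_and]
      exact ⟨(i, i'), hi⟩
    have h7 : S.card ≤ (g * t + g) * (g * t + g) * b := by
      refine (Finset.card_le_card h6).trans
        ((Finset.card_biUnion_le_card_mul _ _ b fun p _ => h4 _ _).trans ?_)
      refine Nat.mul_le_mul_right _ ?_
      rw [Finset.card_univ, Fintype.card_prod]
      exact Nat.mul_le_mul h1 h2
    calc S.card * s ≤ (g * t + g) * (g * t + g) * b * s := Nat.mul_le_mul_right _ h7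
      _ = (g * t + g) * (g * t + g) * (b * s) := by ring
      _ ≤ (g * t + g) * (g * t + g) * ((t + 1) * T) := Nat.mul_le_mul_left _ h5
      _ = _ := by ring
  have c1 : Fintype.card (Fin (g * t)) ≤ g * t + g := by simp
  have c2 : Fintype.card (Fin g) ≤ g * t + g := by simp
  rcases a with a | z <;> rcases a' with a' | z'
  · refine key (Fin (g * t)) (Fin (g * t)) _
      (fun i i' => univ.filter fun τ => τ.1 i = a ∧ τ.1 i' = a') (nC ^ (g * t - 2) * s ^ g)
      c1 c1 ?_ ?_ (by nlinarith)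
    · intro τ hτ
      simp only [mem_filter, mem_univ, true_and, G3_resl] at hτ ⊢
      obtain ⟨⟨i, hi⟩, ⟨i', hi'⟩⟩ := hτ
      exact ⟨i, i', hi, hi'⟩
    · intro i i'
      by_cases hi : i = i'
      · rw [Finset.card_eq_zero.mpr]
        · exact Nat.zero_le _
        · rw [Finset.filter_eq_empty_iff]
          rintro τ _ ⟨h1, h2⟩
          rw [hi, h2] at h1
          exact hne (by rw [h1])
      · refine G3_c2 i i' hi _ ?_
        intro τ hτ τ' hτ' _ _
        simp only [mem_filter, mem_univ, true_and] at hτ hτ'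
        rw [hτ.1, hτ.2, hτ'.1, hτ'.2]
        exact ⟨rfl, rfl⟩
  · refine key (Fin (g * t)) (Fin g) _
      (fun i i' => univ.filter fun τ => τ.1 i = a ∧ τ.2 i' = z') (nC ^ (g * t - 1) * s ^ (g - 1))
      c1 c2 ?_ ?_ (by nlinarith)
    · intro τ hτ
      simp only [mem_filter, mem_univ, true_and, G3_resl, G3_resr] at hτ ⊢
      obtain ⟨⟨i, hi⟩, ⟨i', hi'⟩⟩ := hτ
      exact ⟨i, i', hi, hi'⟩
    · intro i i'
      refine G3_cs i i' _ ?_
      intro τ hτ τ' hτ' _ _
      simp only [mem_filter, mem_univ, true_and] at hτ hτ'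
      rw [hτ.1, hτ.2, hτ'.1, hτ'.2]
      exact ⟨rfl, rfl⟩
  · refine key (Fin (g * t)) (Fin g) _
      (fun i i' => univ.filter fun τ => τ.1 i = a' ∧ τ.2 i' = z) (nC ^ (g * t - 1) * s ^ (g - 1))
      c1 c2 ?_ ?_ (by nlinarith)
    · intro τ hτ
      simp only [mem_filter, mem_univ, true_and, G3_resl, G3_resr] at hτ ⊢
      obtain ⟨⟨i', hi'⟩, ⟨i, hi⟩⟩ := hτ
      exact ⟨i, i', hi, hi'⟩
    · intro i i'
      refine G3_cs i i' _ ?_
      intro τ hτ τ' hτ' _ _
      simp only [mem_filter, mem_univ, true_and] at hτ hτ'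
      rw [hτ.1, hτ.2, hτ'.1, hτ'.2]
      exact ⟨rfl, rfl⟩
  · refine key (Fin g) (Fin g) _
      (fun i i' => univ.filter fun τ => τ.2 i = z ∧ τ.2 i' = z') (nC ^ (g * t) * s ^ (g - 2))
      c2 c2 ?_ ?_ (by nlinarith)
    · intro τ hτ
      simp only [mem_filter, mem_univ, true_and, G3_resr] at hτ ⊢
      obtain ⟨⟨i, hi⟩, ⟨i', hi'⟩⟩ := hτ
      exact ⟨i, i', hi, hi'⟩
    · intro i i'
      by_cases hi : i = i'
      · rw [Finset.card_eq_zero.mpr]
        · exact Nat.zero_le _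
        · rw [Finset.filter_eq_empty_iff]
          rintro τ _ ⟨h1, h2⟩
          rw [hi, h2] at h1
          exact hne (by rw [h1])
      · refine G3_s2 i i' hi _ ?_
        intro τ hτ τ' hτ' _ _
        simp only [mem_filter, mem_univ, true_and] at hτ hτ'
        rw [hτ.1, hτ.2, hτ'.1, hτ'.2]
        exact ⟨rfl, rfl⟩

open Classical in
theorem G3_dif {V : Type*} [AddCommGroup V] {g t m nC s : ℕ} (hg : 2 ≤ g) (ht : 2 ≤ t)
    (hm : 2 ≤ m) (hnC : nC = t * s) (c : Fin nC → V) (hc : Function.Injective c)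
    (hc0 : ∀ i, c i ≠ 0) (Z : Fin s → Fin m → V) (B : Finset V) (hZ : Fam B 0 Z) (y : V)
    (hy : y ≠ 0) (S : Finset (Tp g t nC s)) :
    ∑ τ ∈ S, ((offs c Z τ ×ˢ offs c Z τ).filter fun p => p.2 - p.1 = y).card ≤
      ((g * t + 1 + g * m) * (g * t + 1 + g * m) * (t + 1)) * (nC ^ (g * t - 1) * s ^ g) := by
  obtain ⟨a1, a2, a3, a4⟩ := G3_arith hg ht hnC
  have h1 : ∀ τ ∈ S, ((offs c Z τ ×ˢ offs c Z τ).filter fun p => p.2 - p.1 = y).card ≤
      ∑ p ∈ ix g t m ×ˢ ix g t m,
        if p.1 ≠ p.2 ∧ off c Z τ p.2 - off c Z τ p.1 = y then 1 else 0 := by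
    intro τ _
    rw [← Finset.sum_filter, ← Finset.card_eq_sum_ones]
    refine (Finset.card_le_card ?_).trans (Finset.card_image_le
      (f := fun p : (ℕ × ℕ × ℕ) × (ℕ × ℕ × ℕ) => (off c Z τ p.1, off c Z τ p.2)))
    intro q hq
    simp only [mem_filter, mem_product, offs, mem_image] at hq ⊢
    obtain ⟨⟨⟨p, hp, hpq⟩, ⟨p', hp', hpq'⟩⟩, hy'⟩ := hq
    refine ⟨(p, p'), ⟨⟨hp, hp'⟩, ?_, ?_⟩, ?_⟩
    · intro he
      change p = p' at he
      apply hy
      rw [← hy', ← hpq, ← hpq', he, sub_self]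
    · rw [hpq, hpq', hy']
    · rw [hpq, hpq']
  refine (Finset.sum_le_sum h1).trans ?_
  rw [Finset.sum_comm]
  have h2 : ∀ p ∈ ix g t m ×ˢ ix g t m, (∑ τ ∈ S,
      if p.1 ≠ p.2 ∧ off c Z τ p.2 - off c Z τ p.1 = y then 1 else 0) ≤
      (t + 1) * (nC ^ (g * t - 1) * s ^ g) := by
    intro p hp
    rw [mem_product] at hp
    by_cases hpp : p.1 = p.2
    · simp [hpp]
    · rw [← Finset.sum_filter, ← Finset.card_eq_sum_ones]
      have h3 := off_diff hg ht hm c hc hc0 Z B hZ p.1 p.2 hp.1 hp.2 hpp y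
      rw [a3] at h3
      have h4 : (S.filter fun τ => p.1 ≠ p.2 ∧ off c Z τ p.2 - off c Z τ p.1 = y) ⊆
          (univ.filter fun τ : Tp g t nC s => off c Z τ p.2 - off c Z τ p.1 = y) := by
        intro τ hτ
        simp only [mem_filter, mem_univ, true_and] at hτ ⊢
        exact hτ.2.2
      refine (Finset.card_le_card h4).trans ?_
      calc _ ≤ nC ^ (g * t - 1) * s ^ g + t * (nC ^ (g * t - 1) * s ^ g) := by convert h3
        _ = _ := by ring
  refine (Finset.sum_le_sum h2).trans (le_of_eq ?_)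
  rw [Finset.sum_const, card_product, G3_ix g t m hm, smul_eq_mul]
  ring

open Classical in
theorem good_counts (g t m : ℕ) (hg : 2 ≤ g) (ht : 2 ≤ t) (hm : 2 ≤ m) : ∃ C : ℝ, 0 < C ∧
    ∀ {V : Type*} [AddCommGroup V] {nC s : ℕ} (hs : 0 < s) (hnC : nC = t * s)
      (c : Fin nC → V) (hc : Function.Injective c) (hc0 : ∀ i, c i ≠ 0)
      (Z : Fin s → Fin m → V) (B : Finset V) (hZ : Fam B 0 Z),
      (∀ τ : Tp g t nC s, Good c Z τ → (res τ).card = g * t + g ∧
        (offs c Z τ).card = g * t + 1 + g * m) ∧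
      (∀ a : Fin nC ⊕ Fin s, |(((univ.filter fun τ : Tp g t nC s => Good c Z τ).filter
        fun τ => a ∈ res τ).card : ℝ) - g * t * (nC : ℝ) ^ (g * t - 1) * (s : ℝ) ^ g| ≤
          C * ((nC : ℝ) ^ (g * t - 1) * (s : ℝ) ^ g) / s) ∧
      (∀ a a' : Fin nC ⊕ Fin s, a ≠ a' →
        (((univ.filter fun τ : Tp g t nC s => Good c Z τ).filter
          fun τ => a ∈ res τ ∧ a' ∈ res τ).card : ℝ) ≤
          C * ((nC : ℝ) ^ (g * t - 1) * (s : ℝ) ^ g) / s) ∧
      (∀ y : V, y ≠ 0 → (∑ τ ∈ (univ.filter fun τ : Tp g t nC s => Good c Z τ),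
        (((offs c Z τ ×ˢ offs c Z τ).filter fun p => p.2 - p.1 = y).card : ℝ)) ≤
          C * ((nC : ℝ) ^ (g * t - 1) * (s : ℝ) ^ g)) := by
  obtain ⟨C1, hC1⟩ : ∃ C1 : ℕ, C1 = (g * t) * (g * t) + g * g +
    2 * (g * t + 1 + g * m) * (g * t + 1 + g * m) := ⟨_, rfl⟩
  obtain ⟨C2, hC2⟩ : ∃ C2 : ℕ, C2 = (g * t) * (g * t) + g * g * t +
    (g * t + 1 + g * m) * (g * t + 1 + g * m) := ⟨_, rfl⟩
  obtain ⟨C3, hC3⟩ : ∃ C3 : ℕ, C3 = (g * t + g) * (g * t + g) * (t + 1) := ⟨_, rfl⟩
  obtain ⟨C4, hC4⟩ : ∃ C4 : ℕ, C4 = (g * t + 1 + g * m) * (g * t + 1 + g * m) * (t + 1) :=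
    ⟨_, rfl⟩
  obtain ⟨Cn, hCn⟩ : ∃ Cn : ℕ, Cn = (g * t) * C1 + g * C2 + C3 + C4 + 1 := ⟨_, rfl⟩
  have k1 : (g * t) * C1 ≤ Cn := by omega
  have k2 : g * C2 ≤ Cn := by omega
  have k3 : C3 ≤ Cn := by omega
  have k4 : C4 ≤ Cn := by omega
  have hG : 1 ≤ g * t := by nlinarith
  refine ⟨Cn, Nat.cast_pos.mpr (by omega), ?_⟩
  intro V _ nC s hs hnC c hc hc0 Z B hZ
  obtain ⟨T, hT⟩ : ∃ T, T = nC ^ (g * t - 1) * s ^ g := ⟨_, rfl⟩
  have hTr : (nC : ℝ) ^ (g * t - 1) * (s : ℝ) ^ g = (T : ℝ) := by rw [hT]; push_cast; rfl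
  have hs' : (0 : ℝ) < s := by exact_mod_cast hs
  rw [hTr]
  refine ⟨?_, ?_, ?_, ?_⟩
  · intro τ hτ
    refine ⟨G3_rescard hτ.1 hτ.2.1, ?_⟩
    unfold offs
    rw [Finset.card_image_of_injOn hτ.2.2, G3_ix g t m hm]
  · intro a
    rw [mul_assoc, hTr, Finset.filter_filter]
    rcases a with a | z
    · have h1 := G3_cntl (m := m) c Z a (g := g) (t := t)
      have h2 : ∑ i, (univ.filter fun τ : Tp g t nC s => τ.1 i = a).card = (g * t) * T := by
        rw [Finset.sum_congr rfl fun i _ => ?_, Finset.sum_const, Finset.card_univ,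
          Fintype.card_fin, smul_eq_mul]
        rw [hT]
        convert G3_col (G := g * t) (g := g) (nC := nC) (s := s) hG i a
      have h3 : (∑ i, (univ.filter fun τ : Tp g t nC s => τ.1 i = a ∧
          ¬ Good c Z τ).card) * s ≤ Cn * T := by
        rw [Finset.sum_mul]
        refine (Finset.sum_le_sum fun i _ =>
          G3_colbad hg ht hm hnC c hc hc0 Z B hZ i a).trans ?_
        rw [Finset.sum_const, Finset.card_univ, Fintype.card_fin, smul_eq_mul, ← hC1, ← hT,
          ← mul_assoc]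
        exact Nat.mul_le_mul_right _ k1
      have h4 := G3_fin hs (h1.trans h2) h3
      push_cast at h4
      convert h4
    · have h1 := G3_cntr (m := m) c Z z (g := g) (t := t)
      have h2 : ∑ i, (univ.filter fun τ : Tp g t nC s => τ.2 i = z).card = (g * t) * T := by
        have h2' : ∀ i ∈ (univ : Finset (Fin g)),
            (univ.filter fun τ : Tp g t nC s => τ.2 i = z).card =
              nC ^ (g * t) * s ^ (g - 1) := by
          intro i _
          convert G3_stk (G := g * t) (g := g) (nC := nC) (s := s) (by omega) i z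
        rw [Finset.sum_congr rfl h2', Finset.sum_const, Finset.card_univ,
          Fintype.card_fin, smul_eq_mul, (G3_arith hg ht hnC).2.2.1, ← hT, mul_assoc]
      have h3 : (∑ i, (univ.filter fun τ : Tp g t nC s => τ.2 i = z ∧
          ¬ Good c Z τ).card) * s ≤ Cn * T := by
        rw [Finset.sum_mul]
        refine (Finset.sum_le_sum fun i _ =>
          G3_stkbad hg ht hm hnC c hc hc0 Z B hZ i z).trans ?_
        rw [Finset.sum_const, Finset.card_univ, Fintype.card_fin, smul_eq_mul, ← hC2, ← hT,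
          ← mul_assoc]
        exact Nat.mul_le_mul_right _ k2
      have h4 := G3_fin hs (h1.trans h2) h3
      push_cast at h4
      convert h4
  · intro a a' hne
    rw [Finset.filter_filter, le_div_iff₀ hs']
    have h1 := G3_pair hg ht hnC a a' hne
    rw [← hC3, ← hT] at h1
    have h2 : (univ.filter fun τ : Tp g t nC s => Good c Z τ ∧ a ∈ res τ ∧ a' ∈ res τ).card ≤
        (univ.filter fun τ : Tp g t nC s => a ∈ res τ ∧ a' ∈ res τ).card := by
      refine Finset.card_le_card ?_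
      intro τ hτ
      simp only [mem_filter, mem_univ, true_and] at hτ ⊢
      exact hτ.2
    have h3 : (univ.filter fun τ : Tp g t nC s => Good c Z τ ∧ a ∈ res τ ∧ a' ∈ res τ).card * s
        ≤ Cn * T :=
      ((Nat.mul_le_mul_right _ h2).trans h1).trans (Nat.mul_le_mul_right _ k3)
    exact_mod_cast h3
  · intro y hy
    have h1 := G3_dif hg ht hm hnC c hc hc0 Z B hZ y hy
      (univ.filter fun τ : Tp g t nC s => Good c Z τ)
    rw [← hC4, ← hT] at h1
    have h2 := h1.trans (Nat.mul_le_mul_right T k4)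
    exact_mod_cast h2

end Pool.Agent.SDN
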