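import Pool.Agent.Lib_helper26.SDN.Defs
import Pool.Agent.Lib_helper26.SDN.AV
import Pool.Agent.Lib_helper15.KZF.BD

/-! Block T1 (project SDN), helper83. -/

namespace Pool.Agent.SDN

open Finset

open Classical in
theorem T1_key {V L ι : Type} [Fintype V] [DecidableEq V] [Fintype L] [Nonempty L]
    (J : Finset ι) (Q : ι → Finset V) (Λ : Finset L) (Δ : ℝ)
    (hΔ : ∀ i, ((J.filter fun j => i ∈ Q j).card : ℝ) ≤ Δ) (f : (V → L) → ℝ)
    (hf : ∀ ω, f ω = ((J.filter fun j => ∀ i ∈ Q j, ω i ∈ Λ).card : ℝ)) :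
    KZ.BD (fun _ => Δ) f ∧ KZ.avg f = ∑ j ∈ J, ((Λ.card : ℝ) / Fintype.card L) ^ (Q j).card := by
  obtain rfl : f = fun ω => ((J.filter fun j => ∀ i ∈ Q j, ω i ∈ Λ).card : ℝ) := funext hf
  exact ⟨bd_cnt J Q Λ Δ hΔ, avg_cnt J Q Λ⟩

open Classical in
theorem t_size {V : Type} [Fintype V] [DecidableEq V] (N : ℕ) [NeZero N] (l : Fin N) :
    KZ.BD (fun _ => 1) (fun ω : V → Fin N => ((univ.filter fun u => ω u = l).card : ℝ)) ∧
    KZ.avg (fun ω : V → Fin N => ((univ.filter fun u => ω u = l).card : ℝ)) =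
      (Fintype.card V : ℝ) / N := by
  have hb : ∀ i : V, (((univ : Finset V).filter fun j => i ∈ ({j} : Finset V)).card : ℝ) ≤ 1 := by
    intro i
    have h1 : ((univ : Finset V).filter fun j => i ∈ ({j} : Finset V)) = {i} := by
      ext j; simp [eq_comm]
    rw [h1]; simp
  have h := T1_key (univ : Finset V) (fun j => {j}) ({l} : Finset (Fin N)) 1 hb
    (fun ω : V → Fin N => ((univ.filter fun u => ω u = l).card : ℝ)) (fun ω => by
      refine congrArg Nat.cast (congrArg Finset.card ?_)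
      ext u
      simp only [Finset.mem_filter, Finset.mem_univ, true_and, Finset.mem_singleton, forall_eq])
  refine ⟨h.1, h.2.trans ?_⟩
  simp only [Finset.card_singleton, pow_one, Fintype.card_fin, Finset.sum_const,
    Finset.card_univ, nsmul_eq_mul, Nat.cast_one]
  ring

open Classical in
theorem t_pat {V : Type} [AddCommGroup V] [Fintype V] [DecidableEq V] (N : ℕ) [NeZero N]
    (Λ : Finset (Fin N)) (O : Finset V) :
    KZ.BD (fun _ => (O.card : ℝ)) (fun ω : V → Fin N =>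
      ((univ.filter fun v => ∀ o ∈ O, ω (v + o) ∈ Λ).card : ℝ)) ∧
    KZ.avg (fun ω : V → Fin N => ((univ.filter fun v => ∀ o ∈ O, ω (v + o) ∈ Λ).card : ℝ)) =
      ((Λ.card : ℝ) / N) ^ O.card * Fintype.card V := by
  have hb : ∀ i : V, (((univ : Finset V).filter fun j => i ∈ O.image (fun o => j + o)).card : ℝ) ≤
      (O.card : ℝ) := by
    intro i
    have h1 : ((univ : Finset V).filter fun j => i ∈ O.image (fun o => j + o)) ⊆
        O.image (fun o => i - o) := by
      intro j hj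
      simp only [Finset.mem_filter, Finset.mem_univ, true_and, Finset.mem_image] at hj ⊢
      obtain ⟨o, ho, h⟩ := hj
      exact ⟨o, ho, by rw [← h]; abel⟩
    exact_mod_cast (Finset.card_le_card h1).trans Finset.card_image_le
  have h := T1_key (univ : Finset V) (fun j => O.image fun o => j + o) Λ O.card hb
    (fun ω : V → Fin N => ((univ.filter fun v => ∀ o ∈ O, ω (v + o) ∈ Λ).card : ℝ)) (fun ω => by
      refine congrArg Nat.cast (congrArg Finset.card ?_)
      ext u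
      simp only [Finset.mem_filter, Finset.mem_univ, true_and, Finset.mem_image]
      constructor
      · rintro h1 _ ⟨o, ho, rfl⟩
        exact h1 o ho
      · intro h1 o ho
        exact h1 _ ⟨o, ho, rfl⟩)
  refine ⟨h.1, h.2.trans ?_⟩
  have h2 : ∀ j : V, (O.image fun o => j + o).card = O.card := fun j =>
    Finset.card_image_of_injective _ (add_right_injective j)
  simp only [h2, Fintype.card_fin, Finset.sum_const, Finset.card_univ, nsmul_eq_mul]
  ring

open Classical in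
theorem t_load {V : Type} [AddCommGroup V] [Fintype V] [DecidableEq V] (N : ℕ) [NeZero N]
    (Λ : Finset (Fin N)) {ι : Type} (𝒢 : Finset ι) (O : ι → Finset V) (q : ℕ)
    (hO : ∀ τ ∈ 𝒢, (O τ).card = q) (Δ : ℝ) (hΔ0 : 0 ≤ Δ)
    (hΔ : ∀ y : V, y ≠ 0 →
      (∑ τ ∈ 𝒢, (((O τ ×ˢ O τ).filter fun p => p.2 - p.1 = y).card : ℝ)) ≤ Δ) (u : V) :
    KZ.BD (fun _ => Δ) (fun ω : V → Fin N => ∑ τ ∈ 𝒢,
      (((O τ).filter fun o => ∀ o' ∈ O τ, o' ≠ o → ω (u - o + o') ∈ Λ).card : ℝ)) ∧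
    KZ.avg (fun ω : V → Fin N => ∑ τ ∈ 𝒢,
      (((O τ).filter fun o => ∀ o' ∈ O τ, o' ≠ o → ω (u - o + o') ∈ Λ).card : ℝ)) =
      ((Λ.card : ℝ) / N) ^ (q - 1) * (q * 𝒢.card) := by
  set J : Finset (Σ _ : ι, V) := 𝒢.sigma O with hJ
  set Q : (Σ _ : ι, V) → Finset V := fun j => ((O j.1).erase j.2).image fun o' => u - j.2 + o'
    with hQ
  have hb : ∀ i, ((J.filter fun j => i ∈ Q j).card : ℝ) ≤ Δ := by
    intro i
    by_cases hi : i - u = 0
    · have h1 : (J.filter fun j => i ∈ Q j) = ∅ := by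
        refine Finset.filter_eq_empty_iff.2 ?_
        rintro ⟨τ, o⟩ _ h2
        simp only [hQ, Finset.mem_image, Finset.mem_erase] at h2
        obtain ⟨o', ⟨hne, -⟩, h3⟩ := h2
        apply hne
        have h4 : o' - o = i - u := by rw [← h3]; abel
        rw [hi] at h4
        exact sub_eq_zero.1 h4
      rw [h1, Finset.card_empty, Nat.cast_zero]
      exact hΔ0
    · refine le_trans ?_ (hΔ (i - u) hi)
      have h1 : (J.filter fun j => i ∈ Q j) ⊆ 𝒢.sigma fun τ =>
          ((O τ ×ˢ O τ).filter fun p => p.2 - p.1 = i - u).image Prod.fst := by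
        rintro ⟨τ, o⟩ h2
        simp only [hJ, hQ, Finset.mem_filter, Finset.mem_sigma, Finset.mem_image,
          Finset.mem_erase, Finset.mem_product] at h2 ⊢
        obtain ⟨⟨h3, h4⟩, o', ⟨hne, ho'⟩, h5⟩ := h2
        exact ⟨h3, ⟨o, o'⟩, ⟨⟨h4, ho'⟩, by rw [← h5]; abel⟩, rfl⟩
      have h2 := Finset.card_le_card h1
      rw [Finset.card_sigma] at h2
      have h3 : ∑ τ ∈ 𝒢, (((O τ ×ˢ O τ).filter fun p => p.2 - p.1 = i - u).image Prod.fst).card ≤
          ∑ τ ∈ 𝒢, ((O τ ×ˢ O τ).filter fun p => p.2 - p.1 = i - u).card :=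
        Finset.sum_le_sum fun τ _ => Finset.card_image_le
      exact_mod_cast h2.trans h3
  have h := T1_key J Q Λ Δ hb (fun ω : V → Fin N => ∑ τ ∈ 𝒢,
      (((O τ).filter fun o => ∀ o' ∈ O τ, o' ≠ o → ω (u - o + o') ∈ Λ).card : ℝ)) (fun ω => by
    have h1 : (J.filter fun j => ∀ i ∈ Q j, ω i ∈ Λ) = 𝒢.sigma fun τ =>
        (O τ).filter fun o => ∀ o' ∈ O τ, o' ≠ o → ω (u - o + o') ∈ Λ := by
      ext ⟨τ, o⟩
      simp only [hJ, hQ, Finset.mem_filter, Finset.mem_sigma, Finset.mem_image, Finset.mem_erase]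
      constructor
      · rintro ⟨⟨h2, h3⟩, h4⟩
        exact ⟨h2, h3, fun o' ho' hne => h4 _ ⟨o', ⟨hne, ho'⟩, rfl⟩⟩
      · rintro ⟨h2, h3, h4⟩
        refine ⟨⟨h2, h3⟩, ?_⟩
        rintro _ ⟨o', ⟨hne, ho'⟩, rfl⟩
        exact h4 o' ho' hne
    have h2 := congrArg (fun s : Finset (Σ _ : ι, V) => (s.card : ℝ)) h1
    simp only [Finset.card_sigma, Nat.cast_sum] at h2
    refine Eq.trans ?_ (Eq.trans h2.symm ?_)
    · rfl
    · exact congrArg Nat.cast (congrArg Finset.card (by ext j; simp only [Finset.mem_filter])))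
  refine ⟨h.1, h.2.trans ?_⟩
  have h1 : ∀ j ∈ J, (Q j).card = q - 1 := by
    rintro ⟨τ, o⟩ hj
    obtain ⟨h2, h3⟩ := Finset.mem_sigma.1 hj
    simp only [hQ]
    rw [Finset.card_image_of_injective _ (add_right_injective _), Finset.card_erase_of_mem h3,
      hO τ h2]
  rw [Finset.sum_congr rfl fun j hj => by rw [h1 j hj]]
  rw [Finset.sum_const, nsmul_eq_mul, hJ, Finset.card_sigma, Finset.sum_congr rfl hO,
    Finset.sum_const, smul_eq_mul, Fintype.card_fin]
  push_cast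
  ring

end Pool.Agent.SDN
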