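import Pool.Agent.Lib_helper26.SDN.Defs
import Pool.Agent.Lib_helper15.KZF.BD
import Pool.Agent.Lib_helper26.SDN.AV

/-! Block T2 (project SDN). -/

namespace Pool.Agent.SDN

open Finset

open Classical in
theorem T2_aux {V : Type} [Fintype V] [DecidableEq V] (N : ℕ) [NeZero N]
    (l : Fin N) {s r : ℕ} (Q : Fin s → Finset V) (hQ : ∀ z, (Q z).card ≤ r) (Δ : ℝ)
    (hΔ : ∀ i, (((univ : Finset (Fin s)).filter fun j => i ∈ Q j).card : ℝ) ≤ Δ)
    (F : (V → Fin N) → ℝ)
    (hF : ∀ ω, F ω = (((univ : Finset (Fin s)).filter fun j => ∀ i ∈ Q j,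
      ω i ∈ ({l} : Finset (Fin N))).card : ℝ)) :
    KZ.BD (fun _ => Δ) F ∧ (s : ℝ) / (N : ℝ) ^ r ≤ KZ.avg F := by
  have k1 := bd_cnt (V := V) (L := Fin N) univ Q {l} Δ hΔ
  have k2 := avg_cnt (V := V) (L := Fin N) univ Q {l}
  refine ⟨?_, ?_⟩
  · convert k1 using 1
    funext ω
    rw [hF ω]
    congr!
  have k3 : KZ.avg F = ∑ j : Fin s,
      ((({l} : Finset (Fin N)).card : ℝ) / Fintype.card (Fin N)) ^ (Q j).card := by
    rw [← k2]
    congr 1
    funext ω
    rw [hF ω]
    congr!
  rw [k3]
  have hN : (1 : ℝ) ≤ (N : ℝ) := by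
    have := NeZero.one_le (n := N)
    exact_mod_cast this
  have h1 : ∀ j : Fin s, (1 : ℝ) / (N : ℝ) ^ r ≤
      ((({l} : Finset (Fin N)).card : ℝ) / Fintype.card (Fin N)) ^ (Q j).card := by
    intro j
    rw [card_singleton, Fintype.card_fin, Nat.cast_one, div_pow, one_pow]
    apply one_div_le_one_div_of_le
    · positivity
    · exact pow_le_pow_right₀ hN (hQ j)
  calc (s : ℝ) / (N : ℝ) ^ r = ∑ _j : Fin s, (1 : ℝ) / (N : ℝ) ^ r := by
        rw [sum_const, card_univ, Fintype.card_fin, nsmul_eq_mul, mul_one_div]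
    _ ≤ _ := sum_le_sum fun j _ => h1 j

open Classical in
theorem t_link {V : Type} [AddCommGroup V] [Fintype V] [DecidableEq V] (N : ℕ) [NeZero N]
    (l : Fin N) {s r : ℕ} (I : Fin s → Finset V) (hI : ∀ z, (I z).card ≤ r)
    (hI2 : ∀ z z', z ≠ z' → Disjoint (I z) (I z')) (u : V) :
    KZ.BD (fun _ => 1) (fun ω : V → Fin N =>
      ((univ.filter fun z => ∀ i ∈ I z, ω (u + i) = l).card : ℝ)) ∧
    (s : ℝ) / (N : ℝ) ^ r ≤ KZ.avg (fun ω : V → Fin N =>
      ((univ.filter fun z => ∀ i ∈ I z, ω (u + i) = l).card : ℝ)) := by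
  refine T2_aux N l (fun z => (I z).image fun i => u + i)
    (fun z => card_image_le.trans (hI z)) 1 ?_ _ ?_
  · intro w
    have : ((univ : Finset (Fin s)).filter fun j => w ∈ (I j).image fun i => u + i).card ≤ 1 := by
      rw [card_le_one]
      intro a ha b hb
      simp only [mem_filter, mem_univ, true_and, mem_image] at ha hb
      obtain ⟨i, hi, hiw⟩ := ha
      obtain ⟨j, hj, hjw⟩ := hb
      by_contra hab
      have hij : i = j := by
        have := hiw.trans hjw.symm
        exact add_left_cancel this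
      exact (Finset.disjoint_left.mp (hI2 a b hab)) hi (hij ▸ hj)
    exact_mod_cast this
  · intro ω
    have : (univ.filter fun z => ∀ i ∈ I z, ω (u + i) = l) =
        ((univ : Finset (Fin s)).filter fun j => ∀ i ∈ (I j).image (fun i => u + i),
          ω i ∈ ({l} : Finset (Fin N))) := by
      ext z
      simp only [mem_filter, mem_univ, true_and, mem_image, mem_singleton,
        forall_exists_index, and_imp, forall_apply_eq_imp_iff₂]
    exact congrArg (fun t : Finset (Fin s) => ((t.card : ℕ) : ℝ)) this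

open Classical in
theorem t_step {V : Type} [AddCommGroup V] [Fintype V] [DecidableEq V] (N : ℕ) [NeZero N]
    (l : Fin N) {s r m : ℕ} (a : Fin s → V) (ha : Function.Injective a) (b : Fin s → Finset V)
    (hb : ∀ z, (b z).card ≤ r) (hb2 : ∀ z z', z ≠ z' → Disjoint (b z) (b z')) (T : V)
    (c : Fin (m + 1) → V) :
    KZ.BD (fun _ => (m : ℝ) + 2) (fun ω : V → Fin N => ((univ.filter fun z =>
      (∀ i, ω (a z + c i) = l) ∧ ∀ j ∈ b z, ω (T + j) = l).card : ℝ)) ∧
    (s : ℝ) / (N : ℝ) ^ (m + 1 + r) ≤ KZ.avg (fun ω : V → Fin N => ((univ.filter fun z =>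
      (∀ i, ω (a z + c i) = l) ∧ ∀ j ∈ b z, ω (T + j) = l).card : ℝ)) := by
  refine T2_aux N l (fun z => (univ.image fun i => a z + c i) ∪ (b z).image fun j => T + j)
    ?_ ((m : ℝ) + 2) ?_ _ ?_
  · intro z
    refine (card_union_le _ _).trans (add_le_add ?_ (card_image_le.trans (hb z)))
    refine card_image_le.trans ?_
    rw [card_univ, Fintype.card_fin]
  · intro w
    have h1 : ((univ : Finset (Fin s)).filter fun j =>
        w ∈ (univ.image fun i => a j + c i) ∪ (b j).image fun i => T + i).card ≤ (m + 1) + 1 := by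
      have hsub : ((univ : Finset (Fin s)).filter fun j =>
          w ∈ (univ.image fun i => a j + c i) ∪ (b j).image fun i => T + i) ⊆
          ((univ : Finset (Fin s)).filter fun j => w ∈ univ.image fun i => a j + c i) ∪
          ((univ : Finset (Fin s)).filter fun j => w ∈ (b j).image fun i => T + i) := by
        intro j hj
        simp only [mem_filter, mem_univ, true_and, mem_union] at hj ⊢
        exact hj
      refine (card_le_card hsub).trans ((card_union_le _ _).trans (add_le_add ?_ ?_))
      · have hs2 : ((univ : Finset (Fin s)).filter fun j => w ∈ univ.image fun i => a j + c i) ⊆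
            (univ : Finset (Fin (m + 1))).biUnion fun i =>
              (univ : Finset (Fin s)).filter fun j => a j + c i = w := by
          intro j hj
          simp only [mem_filter, mem_univ, true_and, mem_image, mem_biUnion] at hj ⊢
          exact hj
        refine (card_le_card hs2).trans (card_biUnion_le.trans ?_)
        have : ∀ i ∈ (univ : Finset (Fin (m + 1))),
            ((univ : Finset (Fin s)).filter fun j => a j + c i = w).card ≤ 1 := by
          intro i _
          rw [card_le_one]
          intro x hx y hy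
          simp only [mem_filter, mem_univ, true_and] at hx hy
          exact ha (add_right_cancel (hx.trans hy.symm))
        refine (sum_le_sum this).trans ?_
        rw [sum_const, card_univ, Fintype.card_fin, smul_eq_mul, mul_one]
      · rw [card_le_one]
        intro x hx y hy
        simp only [mem_filter, mem_univ, true_and, mem_image] at hx hy
        obtain ⟨i, hi, hiw⟩ := hx
        obtain ⟨j, hj, hjw⟩ := hy
        by_contra hab
        have hij : i = j := add_left_cancel (hiw.trans hjw.symm)
        exact (Finset.disjoint_left.mp (hb2 x y hab)) hi (hij ▸ hj)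
    have h2 : (((univ : Finset (Fin s)).filter fun j =>
        w ∈ (univ.image fun i => a j + c i) ∪ (b j).image fun i => T + i).card : ℝ) ≤
        (((m + 1) + 1 : ℕ) : ℝ) := by exact_mod_cast h1
    refine h2.trans (le_of_eq ?_)
    push_cast
    ring
  · intro ω
    have : (univ.filter fun z => (∀ i, ω (a z + c i) = l) ∧ ∀ j ∈ b z, ω (T + j) = l) =
        ((univ : Finset (Fin s)).filter fun j => ∀ i ∈ (univ.image fun i => a j + c i) ∪
          (b j).image (fun i => T + i), ω i ∈ ({l} : Finset (Fin N))) := by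
      ext z
      simp only [mem_filter, mem_univ, true_and, mem_union, mem_image, mem_singleton]
      constructor
      · rintro ⟨h1, h2⟩ i (⟨j, rfl⟩ | ⟨j, hj, rfl⟩)
        · exact h1 j
        · exact h2 j hj
      · intro h
        exact ⟨fun i => h _ (Or.inl ⟨i, rfl⟩), fun j hj => h _ (Or.inr ⟨j, hj, rfl⟩)⟩
    exact congrArg (fun t : Finset (Fin s) => ((t.card : ℕ) : ℝ)) this

end Pool.Agent.SDN
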