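import Pool.Agent.Lib_helper26.SDN.Defs
import Pool.Agent.Lib_helper15.KZF.BD
import Pool.Agent.Lib_helper26.SDN.T1
import Pool.Agent.Lib_helper26.SDN.T2

/-! Block LB (project SDN). -/

namespace Pool.Agent.SDN

open Finset

open Classical in
theorem labelling {V : Type} [AddCommGroup V] [Fintype V] {ν N q s m r r' s₂ : ℕ} (hN : 2 ≤ N)
    (hq : 1 ≤ q) (Λ : Fin ν → Finset (Fin N)) {ι : Type} [Fintype ι] (𝒢 : Finset ι)
    (O : ι → Finset V) (hO : ∀ τ ∈ 𝒢, (O τ).card = q) (Δ : ℝ) (hΔ0 : 0 < Δ)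
    (hΔ : ∀ y : V, y ≠ 0 →
      (∑ τ ∈ 𝒢, (((O τ ×ˢ O τ).filter fun p => p.2 - p.1 = y).card : ℝ)) ≤ Δ)
    (I : V → Fin s₂ → Finset V) (hI : ∀ y z, (I y z).card ≤ r)
    (hI2 : ∀ y z z', z ≠ z' → Disjoint (I y z) (I y z'))
    (a : Fin s → V) (ha : Function.Injective a) (b : Fin s → Finset V)
    (hb : ∀ z, (b z).card ≤ r') (hb2 : ∀ z z', z ≠ z' → Disjoint (b z) (b z')) (T : V)
    (lam : ℝ) (hlam : 0 < lam)
    (hT : 2 * ((N + ν * Fintype.card ι + ν * Fintype.card V + Fintype.card V ^ 2 +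
      Fintype.card V ^ (m + 1) : ℕ) : ℝ) * Real.exp (-(lam ^ 2 / 2)) < 1) :
    ∃ lab : V → Fin N,
      (∀ l, |((univ.filter fun u => lab u = l).card : ℝ) - (Fintype.card V : ℝ) / N| ≤
        lam * √(Fintype.card V : ℝ)) ∧
      (∀ κ, ∀ τ ∈ 𝒢, |((univ.filter fun v => ∀ o ∈ O τ, lab (v + o) ∈ Λ κ).card : ℝ) -
        (((Λ κ).card : ℝ) / N) ^ q * Fintype.card V| ≤
          lam * (q * √(Fintype.card V : ℝ))) ∧
      (∀ κ u, (∑ τ ∈ 𝒢, (((O τ).filter fun o => ∀ o' ∈ O τ, o' ≠ o →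
        lab (u - o + o') ∈ Λ κ).card : ℝ)) ≤
          (((Λ κ).card : ℝ) / N) ^ (q - 1) * (q * 𝒢.card) +
            lam * (Δ * √(Fintype.card V : ℝ))) ∧
      (∀ u y, (s₂ : ℝ) / (N : ℝ) ^ r - lam * √(Fintype.card V : ℝ) ≤
        ((univ.filter fun z => ∀ i ∈ I y z, ((lab (u + i) : Fin N) : ℕ) = 1).card : ℝ)) ∧
      (∀ c : Fin (m + 1) → V,
        (s : ℝ) / (N : ℝ) ^ (m + 1 + r') - lam * ((m + 2) * √(Fintype.card V : ℝ)) ≤
        ((univ.filter fun z => (∀ i, ((lab (a z + c i) : Fin N) : ℕ) = 0) ∧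
          ∀ j ∈ b z, ((lab (T + j) : Fin N) : ℕ) = 0).card : ℝ)) := by
  have : NeZero N := ⟨by omega⟩
  have : Nonempty (Fin N) := ⟨⟨0, by omega⟩⟩
  have hV : (0 : ℝ) < Fintype.card V := by
    exact_mod_cast Fintype.card_pos
  have hsq : (0 : ℝ) < √(Fintype.card V : ℝ) := Real.sqrt_pos.2 hV
  have hsq2 : √(Fintype.card V : ℝ) ^ 2 = (Fintype.card V : ℝ) := Real.sq_sqrt hV.le
  set one : Fin N := ⟨1, by omega⟩ with hone
  set zer : Fin N := ⟨0, by omega⟩ with hzer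
  let F : (Fin N ⊕ (Fin ν × ι) ⊕ (Fin ν × V) ⊕ (V × V) ⊕ (Fin (m + 1) → V)) →
      (V → Fin N) → ℝ := fun t => match t with
    | Sum.inl l => fun ω => ((univ.filter fun u => ω u = l).card : ℝ)
    | Sum.inr (Sum.inl (κ, τ)) => fun ω => if τ ∈ 𝒢 then
        ((univ.filter fun v => ∀ o ∈ O τ, ω (v + o) ∈ Λ κ).card : ℝ) else 0
    | Sum.inr (Sum.inr (Sum.inl (κ, u))) => fun ω => ∑ τ ∈ 𝒢,
        (((O τ).filter fun o => ∀ o' ∈ O τ, o' ≠ o → ω (u - o + o') ∈ Λ κ).card : ℝ)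
    | Sum.inr (Sum.inr (Sum.inr (Sum.inl (u, y)))) => fun ω =>
        ((univ.filter fun z => ∀ i ∈ I y z, ω (u + i) = one).card : ℝ)
    | Sum.inr (Sum.inr (Sum.inr (Sum.inr c))) => fun ω => ((univ.filter fun z =>
        (∀ i, ω (a z + c i) = zer) ∧ ∀ j ∈ b z, ω (T + j) = zer).card : ℝ)
  let C : (Fin N ⊕ (Fin ν × ι) ⊕ (Fin ν × V) ⊕ (V × V) ⊕ (Fin (m + 1) → V)) → ℝ :=
    fun t => match t with
    | Sum.inl _ => 1
    | Sum.inr (Sum.inl _) => q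
    | Sum.inr (Sum.inr (Sum.inl _)) => Δ
    | Sum.inr (Sum.inr (Sum.inr (Sum.inl _))) => 1
    | Sum.inr (Sum.inr (Sum.inr (Sum.inr _))) => (m : ℝ) + 2
  have hC : ∀ t, 0 < C t := by
    rintro (l | ⟨κ, τ⟩ | ⟨κ, u⟩ | ⟨u, y⟩ | c)
    · exact one_pos
    · show (0 : ℝ) < q
      exact_mod_cast hq
    · exact hΔ0
    · exact one_pos
    · show (0 : ℝ) < (m : ℝ) + 2
      positivity
  have hF : ∀ t, KZ.BD (fun _ => C t) (F t) := by
    rintro (l | ⟨κ, τ⟩ | ⟨κ, u⟩ | ⟨u, y⟩ | c)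
    · exact (t_size N l).1
    · show KZ.BD (fun _ => (q : ℝ)) (fun ω => if τ ∈ 𝒢 then
        ((univ.filter fun v => ∀ o ∈ O τ, ω (v + o) ∈ Λ κ).card : ℝ) else 0)
      by_cases hτ : τ ∈ 𝒢
      · simp only [hτ, if_true]
        have := (t_pat N (Λ κ) (O τ)).1
        rwa [hO τ hτ] at this
      · simp only [hτ, if_false]
        intro i ω l
        simp
    · exact (t_load N (Λ κ) 𝒢 O q hO Δ hΔ0.le hΔ u).1
    · exact (t_link N one (I y) (hI y) (hI2 y) u).1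
    · exact (t_step N zer a ha b hb hb2 T c).1
  obtain ⟨lab, hlab⟩ := KZ.exists_good F (fun t _ => C t) hF
    (fun t => C t * √(Fintype.card V : ℝ)) (fun t => mul_pos (hC t) hsq)
    (fun t => by
      rw [Finset.sum_const, Finset.card_univ, nsmul_eq_mul, mul_pow, hsq2, mul_comm])
    lam hlam (by
      refine lt_of_le_of_lt (le_of_eq ?_) hT
      congr 2
      norm_cast
      simp only [Fintype.card_sum, Fintype.card_prod, Fintype.card_fin, Fintype.card_fun]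
      ring)
  refine ⟨lab, ?_, ?_, ?_, ?_, ?_⟩
  · intro l
    have h := hlab (Sum.inl l)
    have e : KZ.avg (F (Sum.inl l)) = (Fintype.card V : ℝ) / N := (t_size N l).2
    rw [e] at h
    have : C (Sum.inl l) = 1 := rfl
    rw [this, one_mul] at h
    exact h
  · intro κ τ hτ
    have h := hlab (Sum.inr (Sum.inl (κ, τ)))
    have e0 : F (Sum.inr (Sum.inl (κ, τ))) = fun ω =>
        ((univ.filter fun v => ∀ o ∈ O τ, ω (v + o) ∈ Λ κ).card : ℝ) := by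
      funext ω
      show (if τ ∈ 𝒢 then _ else _) = _
      rw [if_pos hτ]
    rw [e0, (t_pat N (Λ κ) (O τ)).2, hO τ hτ] at h
    exact h
  · intro κ u
    have h := hlab (Sum.inr (Sum.inr (Sum.inl (κ, u))))
    have e : KZ.avg (F (Sum.inr (Sum.inr (Sum.inl (κ, u))))) =
      (((Λ κ).card : ℝ) / N) ^ (q - 1) * (q * 𝒢.card) :=
      (t_load N (Λ κ) 𝒢 O q hO Δ hΔ0.le hΔ u).2
    rw [e] at h
    have h2 := (abs_le.1 h).2
    have h3 : F (Sum.inr (Sum.inr (Sum.inl (κ, u)))) lab ≤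
      (((Λ κ).card : ℝ) / N) ^ (q - 1) * (q * 𝒢.card) +
            lam * (Δ * √(Fintype.card V : ℝ)) := by
      have : C (Sum.inr (Sum.inr (Sum.inl (κ, u)))) = Δ := rfl
      rw [this] at h2
      linarith
    exact h3
  · intro u y
    have h := hlab (Sum.inr (Sum.inr (Sum.inr (Sum.inl (u, y)))))
    have e : (s₂ : ℝ) / (N : ℝ) ^ r ≤ KZ.avg (F (Sum.inr (Sum.inr (Sum.inr (Sum.inl (u, y)))))) :=
      (t_link N one (I y) (hI y) (hI2 y) u).2
    have h2 := (abs_le.1 h).1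
    have h3 : (s₂ : ℝ) / (N : ℝ) ^ r - lam * √(Fintype.card V : ℝ) ≤
      F (Sum.inr (Sum.inr (Sum.inr (Sum.inl (u, y))))) lab := by
      have : C (Sum.inr (Sum.inr (Sum.inr (Sum.inl (u, y))))) = 1 := rfl
      rw [this, one_mul] at h2
      linarith
    refine h3.trans (le_of_eq ?_)
    show ((univ.filter fun z => ∀ i ∈ I y z, lab (u + i) = one).card : ℝ) = _
    simp only [Fin.ext_iff, hone]
  · intro c
    have h := hlab (Sum.inr (Sum.inr (Sum.inr (Sum.inr c))))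
    have e : (s : ℝ) / (N : ℝ) ^ (m + 1 + r') ≤
      KZ.avg (F (Sum.inr (Sum.inr (Sum.inr (Sum.inr c))))) :=
      (t_step N zer a ha b hb hb2 T c).2
    have h2 := (abs_le.1 h).1
    have h3 : (s : ℝ) / (N : ℝ) ^ (m + 1 + r') - lam * ((m + 2) * √(Fintype.card V : ℝ)) ≤
      F (Sum.inr (Sum.inr (Sum.inr (Sum.inr c)))) lab := by
      have : C (Sum.inr (Sum.inr (Sum.inr (Sum.inr c)))) = (m : ℝ) + 2 := rfl
      rw [this] at h2
      linarith
    refine h3.trans (le_of_eq ?_)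
    show ((univ.filter fun z =>
        (∀ i, lab (a z + c i) = zer) ∧ ∀ j ∈ b z, lab (T + j) = zer).card : ℝ) = _
    simp only [Fin.ext_iff, hzer]

end Pool.Agent.SDN
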