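import Pool.Agent.Lib_helper26.SDN.Defs
import Pool.Agent.Lib_helper26.SDN.LB
import Pool.Agent.Lib_helper26.SDN.G3
import Pool.Agent.Lib_helper26.SDN.VX

/-! Block LA (project SDN): the labelling, applied to the patterns, the links and the stock sets. -/

namespace Pool.Agent.SDN

open Finset

theorem LA_large (k : ℕ) (A D : ℝ) : ∃ K : ℕ, ∀ n : ℕ, K ≤ n →
    D ≤ (n : ℝ) ^ (1 / 12 : ℝ) ∧ 1 ≤ (n : ℝ) ^ (1 / 12 : ℝ) ∧
      2 * (A * (n : ℝ) ^ k) * Real.exp (-(((n : ℝ) ^ (1 / 12 : ℝ)) ^ 2 / 2)) < 1 := by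
  have hX : Filter.Tendsto (fun n : ℕ => (n : ℝ) ^ (1 / 12 : ℝ)) Filter.atTop Filter.atTop :=
    (tendsto_rpow_atTop (by norm_num : (0 : ℝ) < 1 / 12)).comp tendsto_natCast_atTop_atTop
  have hY : Filter.Tendsto (fun n : ℕ => (1 / 2 : ℝ) * (n : ℝ) ^ (1 / 12 : ℝ))
      Filter.atTop Filter.atTop := hX.const_mul_atTop (by norm_num)
  have h2 := ((Real.tendsto_pow_mul_exp_neg_atTop_nhds_zero (12 * k)).comp hY).const_mul
    (2 * |A| * 2 ^ (12 * k))
  rw [mul_zero] at h2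
  have hev := (hX.eventually_ge_atTop D).and ((hX.eventually_ge_atTop 1).and
    (h2.eventually (gt_mem_nhds (zero_lt_one))))
  obtain ⟨K, hK⟩ := Filter.eventually_atTop.1 hev
  refine ⟨K, fun n hn => ?_⟩
  obtain ⟨h1, h2, h3⟩ := hK n hn
  refine ⟨h1, h2, lt_of_le_of_lt ?_ h3⟩
  set X := (n : ℝ) ^ (1 / 12 : ℝ) with hXdef
  have hn : (n : ℝ) = X ^ 12 := by
    rw [hXdef, ← Real.rpow_natCast, ← Real.rpow_mul (Nat.cast_nonneg n)]
    norm_num
  simp only [Function.comp]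
  rw [← hXdef, hn, ← pow_mul]
  have hX0 : 0 ≤ X ^ (12 * k) := by positivity
  have e1 : Real.exp (-(X ^ 2 / 2)) ≤ Real.exp (-(1 / 2 * X)) := by
    apply Real.exp_le_exp.2
    nlinarith
  have e2 : 2 * (A * X ^ (12 * k)) ≤ 2 * (|A| * X ^ (12 * k)) := by
    have := mul_le_mul_of_nonneg_right (le_abs_self A) hX0
    linarith
  calc 2 * (A * X ^ (12 * k)) * Real.exp (-(X ^ 2 / 2))
      ≤ 2 * (|A| * X ^ (12 * k)) * Real.exp (-(X ^ 2 / 2)) :=
        mul_le_mul_of_nonneg_right e2 (Real.exp_pos _).le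
    _ ≤ 2 * (|A| * X ^ (12 * k)) * Real.exp (-(1 / 2 * X)) :=
        mul_le_mul_of_nonneg_left e1 (by positivity)
    _ = 2 * |A| * 2 ^ (12 * k) * ((1 / 2 * X) ^ (12 * k) * Real.exp (-(1 / 2 * X))) := by
        rw [mul_pow, one_div, inv_pow]
        field_simp

theorem LA_tests (g t m ν N : ℕ) (s n : ℕ) (hs : s ≤ n) (hn : 1 ≤ n) :
    ((N + ν * ((t * s) ^ (g * t) * s ^ g) + ν * n + n ^ 2 + n ^ (m + 1) : ℕ) : ℝ) ≤
      ((N + ν * t ^ (g * t) + ν + 1 + 1 : ℕ) : ℝ) * (n : ℝ) ^ (g * t + g + m + 2) := by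
  have h : N + ν * ((t * s) ^ (g * t) * s ^ g) + ν * n + n ^ 2 + n ^ (m + 1) ≤
      (N + ν * t ^ (g * t) + ν + 1 + 1) * n ^ (g * t + g + m + 2) := by
    have hp : ∀ a b : ℕ, a ≤ b → n ^ a ≤ n ^ b := fun a b h => Nat.pow_le_pow_right hn h
    have h1 : N ≤ N * n ^ (g * t + g + m + 2) := Nat.le_mul_of_pos_right _ (by positivity)
    have h2 : ν * ((t * s) ^ (g * t) * s ^ g) ≤ ν * t ^ (g * t) * n ^ (g * t + g + m + 2) := by
      rw [mul_assoc]
      apply Nat.mul_le_mul_left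
      rw [mul_pow, mul_assoc]
      apply Nat.mul_le_mul_left
      rw [← pow_add]
      exact (Nat.pow_le_pow_left hs _).trans (hp _ _ (by omega))
    have h3 : ν * n ≤ ν * n ^ (g * t + g + m + 2) := by
      apply Nat.mul_le_mul_left
      calc n = n ^ 1 := (pow_one n).symm
        _ ≤ _ := hp _ _ (by omega)
    have h4 := hp 2 (g * t + g + m + 2) (by omega)
    have h5 := hp (m + 1) (g * t + g + m + 2) (by omega)
    calc _ ≤ N * n ^ (g * t + g + m + 2) + ν * t ^ (g * t) * n ^ (g * t + g + m + 2) +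
          ν * n ^ (g * t + g + m + 2) + n ^ (g * t + g + m + 2) + n ^ (g * t + g + m + 2) := by
          omega
      _ = _ := by ring
  exact_mod_cast h

theorem LA_a_inj {V : Type*} [AddCommGroup V] {s m : ℕ} (hm : 3 ≤ m) {B : Finset V}
    {Z : Fin s → Fin m → V} (hZ : Fam B 0 Z) : Function.Injective fun z => P (Z z) 1 := by
  intro z z' h
  by_contra hne
  exact hZ.pre z z' 1 1 hne (by omega) (by omega) (by omega) (by omega) h

open Classical in
theorem labels (g t m ν N M : ℕ) (hg : 2 ≤ g) (ht : 2 ≤ t) (hm : 3 ≤ m) (hN : 2 ≤ N)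
    (Λ : Fin ν → Finset (Fin N)) : ∃ K : ℕ,
    ∀ {V : Type} [AddCommGroup V] [Fintype V] {s s₂ : ℕ} (Z : Fin s → Fin m → V)
      (B : Finset V) (c : Fin (t * s) → V) (R : Finset V) (L : V → Fin s₂ → List V) (T : V),
      K ≤ Fintype.card V → 0 < s → Fam B 0 Z → Function.Injective c → (∀ i, c i ≠ 0) →
      (∀ y, y ≠ 0 → Lnk R y M (L y)) →
      ∃ lab : V → Fin N,
        (∀ l, |((univ.filter fun u => lab u = l).card : ℝ) - (Fintype.card V : ℝ) / N| ≤
          (Fintype.card V : ℝ) ^ (2 / 3 : ℝ)) ∧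
        (∀ κ, ∀ τ : Tp g t (t * s) s, Good c Z τ →
          |((univ.filter fun v => ∀ o ∈ offs c Z τ, lab (v + o) ∈ Λ κ).card : ℝ) -
            (((Λ κ).card : ℝ) / N) ^ (g * t + 1 + g * m) * Fintype.card V| ≤
              (Fintype.card V : ℝ) ^ (2 / 3 : ℝ)) ∧
        (∀ κ u, (∑ τ ∈ (univ.filter fun τ : Tp g t (t * s) s => Good c Z τ),
          (((offs c Z τ).filter fun o => ∀ o' ∈ offs c Z τ, o' ≠ o →
            lab (u - o + o') ∈ Λ κ).card : ℝ)) ≤
            (((Λ κ).card : ℝ) / N) ^ (g * t + g * m) * ((g * t + 1 + g * m : ℕ) *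
              ((t * s : ℕ) : ℝ) ^ (g * t) * (s : ℝ) ^ g) +
              ((t * s : ℕ) : ℝ) ^ (g * t - 1) * (s : ℝ) ^ g *
                (Fintype.card V : ℝ) ^ (2 / 3 : ℝ)) ∧
        (∀ u y, y ≠ 0 → (s₂ : ℝ) / (N : ℝ) ^ (M + m) - (Fintype.card V : ℝ) ^ (2 / 3 : ℝ) ≤
          ((univ.filter fun z => ∀ i ∈ (vs u (L y z)).dropLast,
            ((lab i : Fin N) : ℕ) = 1).card : ℝ)) ∧
        (∀ c' : Fin (m + 1) → V,
          (s : ℝ) / (N : ℝ) ^ (2 * m + 1) - (Fintype.card V : ℝ) ^ (2 / 3 : ℝ) ≤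
          ((univ.filter fun z => (∀ i, ((lab (P (Z z) 1 + c' i) : Fin N) : ℕ) = 0) ∧
            ∀ j, 2 ≤ j → j < m → ((lab (T + P (Z z) j) : Fin N) : ℕ) = 0).card : ℝ)) := by
  obtain ⟨C, hC, hcnt⟩ := good_counts g t m hg ht (by omega)
  obtain ⟨K, hK⟩ := LA_large (g * t + g + m + 2) ((N + ν * t ^ (g * t) + ν + 1 + 1 : ℕ) : ℝ)
    (max C (max (g * t + 1 + g * m : ℕ) (m + 2)))
  refine ⟨max K 1, ?_⟩
  intro V _ _ s s₂ Z B c R L T hKV hs hZ hc hc0 hL
  obtain ⟨hX1, hX2, hX3⟩ := hK (Fintype.card V) (le_of_max_le_left hKV)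
  have hV1 : 1 ≤ Fintype.card V := le_of_max_le_right hKV
  obtain ⟨hc1, -, -, hc4⟩ := hcnt hs (rfl : t * s = t * s) c hc hc0 Z B hZ
  set n : ℝ := (Fintype.card V : ℝ) with hn
  have hn1 : (1 : ℝ) ≤ n := by rw [hn]; exact_mod_cast hV1
  have hn0 : (0 : ℝ) ≤ n := by linarith
  set X : ℝ := n ^ (1 / 12 : ℝ) with hX
  have hXC : C ≤ X := (le_max_left _ _).trans hX1
  have hXq : ((g * t + 1 + g * m : ℕ) : ℝ) ≤ X :=
    (le_max_left _ _).trans ((le_max_right _ _).trans hX1)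
  have hXm : ((m : ℝ) + 2) ≤ X := (le_max_right _ _).trans ((le_max_right _ _).trans hX1)
  have hXpos : 0 < X := by linarith
  -- the powers of `X`
  have hXX : X * (X * √n) = n ^ (2 / 3 : ℝ) := by
    rw [Real.sqrt_eq_rpow, hX, ← Real.rpow_add (by linarith), ← Real.rpow_add (by linarith)]
    norm_num
  have hXs : X * √n ≤ n ^ (2 / 3 : ℝ) := by
    rw [← hXX]
    have : 0 ≤ X * √n := by positivity
    nlinarith
  have hgen : ∀ d : ℝ, d ≤ X → X * (d * √n) ≤ n ^ (2 / 3 : ℝ) := by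
    intro d hd
    rw [← hXX]
    exact mul_le_mul_of_nonneg_left (mul_le_mul_of_nonneg_right hd (Real.sqrt_nonneg _)) hXpos.le
  have hsV : s ≤ Fintype.card V := by
    have := Fintype.card_le_of_injective _ (LA_a_inj hm hZ)
    simpa using this
  have hs' : (0 : ℝ) < s := by exact_mod_cast hs
  have ht' : (0 : ℝ) < ((t * s : ℕ) : ℝ) := by
    have : 0 < t * s := Nat.mul_pos (by omega) hs
    exact_mod_cast this
  have hcardι : Fintype.card (Tp g t (t * s) s) = (t * s) ^ (g * t) * s ^ g := by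
    simp [Tp]
  obtain ⟨lab, h1, h2, h3, h4, h5⟩ := labelling (V := V) (ν := ν) (N := N)
    (q := g * t + 1 + g * m) (s := s) (m := m) (r := M + m) (r' := m) (s₂ := s₂) hN (by omega) Λ
    (univ.filter fun τ : Tp g t (t * s) s => Good c Z τ) (fun τ => offs c Z τ)
    (fun τ hτ => (hc1 τ (Finset.mem_filter.1 hτ).2).2)
    (C * (((t * s : ℕ) : ℝ) ^ (g * t - 1) * (s : ℝ) ^ g)) (by positivity)
    (fun y hy => hc4 y hy)
    (fun y z => if y = 0 then ∅ else (vs 0 (L y z)).dropLast.toFinset)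
    (by
      intro y z
      split_ifs with hy
      · simp
      · refine (List.toFinset_card_le _).trans ?_
        rw [List.length_dropLast, vs_length]
        have := (hL y hy).len z
        omega)
    (by
      intro y z z' hzz
      split_ifs with hy
      · simp
      · rw [Finset.disjoint_left]
        intro a ha ha'
        exact (hL y hy).vdisj z z' hzz (List.mem_toFinset.1 ha) (List.mem_toFinset.1 ha'))
    (fun z => P (Z z) 1) (LA_a_inj hm hZ)
    (fun z => (Ico 2 m).image fun j => P (Z z) j)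
    (by
      intro z
      refine Finset.card_image_le.trans ?_
      rw [Nat.card_Ico]; omega)
    (by
      intro z z' hzz
      rw [Finset.disjoint_left]
      intro a ha ha'
      obtain ⟨i, hi, rfl⟩ := Finset.mem_image.1 ha
      obtain ⟨j, hj, hij⟩ := Finset.mem_image.1 ha'
      rw [Finset.mem_Ico] at hi hj
      exact hZ.pre z z' i j hzz (by omega) hi.2 (by omega) hj.2 hij.symm)
    T X hXpos (by
      refine lt_of_le_of_lt ?_ hX3
      refine mul_le_mul_of_nonneg_right (mul_le_mul_of_nonneg_left ?_ (by norm_num))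
        (Real.exp_pos _).le
      rw [hcardι]
      exact LA_tests g t m ν N s (Fintype.card V) hsV hV1)
  refine ⟨lab, fun l => ?_, fun κ τ hτ => ?_, fun κ u => ?_, fun u y hy => ?_, fun c' => ?_⟩
  · exact (h1 l).trans hXs
  · exact (h2 κ τ (Finset.mem_filter.2 ⟨Finset.mem_univ _, hτ⟩)).trans (hgen _ hXq)
  · refine (h3 κ u).trans ?_
    have e1 : g * t + 1 + g * m - 1 = g * t + g * m := by omega
    rw [e1]
    refine add_le_add ?_ ?_
    · refine mul_le_mul_of_nonneg_left ?_ (by positivity)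
      rw [mul_assoc]
      refine mul_le_mul_of_nonneg_left ?_ (Nat.cast_nonneg _)
      have : (univ.filter fun τ : Tp g t (t * s) s => Good c Z τ).card ≤
          (t * s) ^ (g * t) * s ^ g := by
        rw [← hcardι]; exact Finset.card_filter_le _ _
      exact_mod_cast this
    · have h := hgen C hXC
      have h' : 0 ≤ ((t * s : ℕ) : ℝ) ^ (g * t - 1) * (s : ℝ) ^ g := by positivity
      calc X * (C * (((t * s : ℕ) : ℝ) ^ (g * t - 1) * (s : ℝ) ^ g) * √n)
          = ((t * s : ℕ) : ℝ) ^ (g * t - 1) * (s : ℝ) ^ g * (X * (C * √n)) := by ring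
        _ ≤ _ := mul_le_mul_of_nonneg_left h h'
  · refine le_trans (sub_le_sub_left hXs _) ((h4 u y).trans ?_)
    refine Nat.cast_le.2 (Finset.card_le_card ?_)
    intro z hz
    simp only [Finset.mem_filter, Finset.mem_univ, true_and] at hz ⊢
    intro i hi
    have e : vs u (L y z) = (vs 0 (L y z)).map (· + u) := by
      rw [← vs_translate, zero_add]
    rw [e, ← List.map_dropLast, List.mem_map] at hi
    obtain ⟨j, hj, rfl⟩ := hi
    have := hz j (by simp only [if_neg hy, List.mem_toFinset]; exact hj)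
    rwa [add_comm] at this
  · have e : (s : ℝ) / (N : ℝ) ^ (2 * m + 1) - n ^ (2 / 3 : ℝ) ≤
        (s : ℝ) / (N : ℝ) ^ (m + 1 + m) - X * ((m + 2) * √n) := by
      have : 2 * m + 1 = m + 1 + m := by ring
      rw [this]
      exact sub_le_sub_left (hgen _ hXm) _
    refine e.trans ((h5 c').trans ?_)
    refine Nat.cast_le.2 (Finset.card_le_card ?_)
    intro z hz
    simp only [Finset.mem_filter, Finset.mem_univ, true_and] at hz ⊢
    refine ⟨hz.1, fun j hj hjm => ?_⟩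
    exact hz.2 _ (Finset.mem_image.2 ⟨j, Finset.mem_Ico.2 ⟨hj, hjm⟩, rfl⟩)

end Pool.Agent.SDN
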