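import Pool.Agent.Lib_helper26.SDN.Defs
import Pool.Agent.Lib_helper96.GNib.G6

/-! Block NB (project SDN): the nibble for disjoint systems of paths. -/

namespace Pool.Agent.SDN

open Finset

open Classical in
/-- number of the elements with a property -/
noncomputable def NB_ct {V : Type} [Fintype V] (P : V → Prop) : ℝ := ((univ.filter P).card : ℝ)

theorem NB_ct_eq {V : Type} [Fintype V] (P : V → Prop) [DecidablePred P] :
    ((univ.filter P).card : ℝ) = NB_ct P := by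
  unfold NB_ct
  congr!

theorem NB_ct0 {V : Type} [Fintype V] (P : V → Prop) : 0 ≤ NB_ct P := by
  unfold NB_ct
  positivity

theorem NB_ct_no {V : Type} [Fintype V] (P : V → Prop) (h : ∀ v, ¬ P v) : NB_ct P = 0 := by
  classical
  unfold NB_ct
  rw [Nat.cast_eq_zero, Finset.card_eq_zero, Finset.filter_eq_empty_iff]
  exact fun v _ => h v

open Classical in
/-- sum over the elements with a property -/
noncomputable def NB_sm {E : Type} [Fintype E] (P : E → Prop) (w : E → ℝ) : ℝ :=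
  ∑ e ∈ univ.filter P, w e

theorem NB_sm_eq {E : Type} [Fintype E] (P : E → Prop) [DecidablePred P] (w : E → ℝ) :
    ∑ e ∈ univ.filter P, w e = NB_sm P w := by
  unfold NB_sm
  congr!

open Classical in
theorem NB_gen {ν : ℕ} {V ι : Type} [Fintype V] [Fintype ι] (𝒢 : Finset ι)
    (Val : Fin ν → V → ι → Prop) (g : Fin ν → ℝ) (P : Fin ν × V × ι → Prop) :
    NB_sm P (fun e => if e.2.2 ∈ 𝒢 ∧ Val e.1 e.2.1 e.2.2 then g e.1 else 0) =
      ∑ κ, g κ * ∑ τ ∈ 𝒢, NB_ct fun v => Val κ v τ ∧ P (κ, v, τ) := by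
  unfold NB_sm NB_ct
  rw [Finset.sum_filter, Fintype.sum_prod_type]
  refine Finset.sum_congr rfl fun κ _ => ?_
  rw [Fintype.sum_prod_type, Finset.sum_comm, Finset.mul_sum]
  rw [← Finset.sum_subset (Finset.subset_univ 𝒢)]
  · refine Finset.sum_congr rfl fun τ hτ => ?_
    rw [Finset.card_eq_sum_ones, Nat.cast_sum, Finset.mul_sum, Finset.sum_filter]
    refine Finset.sum_congr rfl fun v _ => ?_
    by_cases h1 : P (κ, v, τ) <;> by_cases h2 : Val κ v τ <;> simp [h1, h2, hτ]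
  · intro τ _ hτ
    refine Finset.sum_eq_zero fun v _ => ?_
    simp [hτ]

open Classical in
theorem NB_q {V ι : Type} [Fintype V] (𝒢 : Finset ι) (Val : V → ι → Prop) (Q : ι → Prop)
    (W x : ℝ) (hN : ∀ τ ∈ 𝒢, |(NB_ct fun v => Val v τ) - W| ≤ W * x) :
    |∑ τ ∈ 𝒢, (NB_ct fun v => Val v τ ∧ Q τ) - (𝒢.filter Q).card * W| ≤
      (𝒢.filter Q).card * (W * x) := by
  have h1 : ∑ τ ∈ 𝒢, (NB_ct fun v => Val v τ ∧ Q τ) =
      ∑ τ ∈ 𝒢.filter Q, NB_ct fun v => Val v τ := by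
    rw [Finset.sum_filter]
    refine Finset.sum_congr rfl fun τ _ => ?_
    by_cases h : Q τ <;> simp [h, NB_ct]
  have h2 : ((𝒢.filter Q).card : ℝ) * W = ∑ _τ ∈ 𝒢.filter Q, W := by
    rw [Finset.sum_const, nsmul_eq_mul]
  have h3 : ((𝒢.filter Q).card : ℝ) * (W * x) = ∑ _τ ∈ 𝒢.filter Q, W * x := by
    rw [Finset.sum_const, nsmul_eq_mul]
  rw [h1, h2, h3, ← Finset.sum_sub_distrib]
  refine (Finset.abs_sum_le_sum_abs _ _).trans (Finset.sum_le_sum fun τ hτ => ?_)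
  exact hN τ (Finset.mem_filter.mp hτ).1

/-- the load of a resource -/
theorem NB_load {ν : ℕ} (f W S : Fin ν → ℝ) (d D x : ℝ) (hD : 0 < D) (hW : ∀ κ, 0 < W κ)
    (hf : ∀ κ, 0 ≤ f κ) (hf1 : ∑ κ, f κ = 1) (hd : |d - D| ≤ D * x)
    (hS : ∀ κ, |S κ - d * W κ| ≤ d * (W κ * x)) :
    |∑ κ, f κ / (D * W κ) * S κ - 1| ≤ x * (d / D) + x := by
  have h1 : ∀ κ, |f κ / (D * W κ) * S κ - f κ * (d / D)| ≤ f κ * (x * (d / D)) := by
    intro κ
    have hW' := hW κ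
    have e1 : f κ / (D * W κ) * S κ - f κ * (d / D) =
        f κ / (D * W κ) * (S κ - d * W κ) := by
      field_simp
    have e2 : f κ * (x * (d / D)) = f κ / (D * W κ) * (d * (W κ * x)) := by
      field_simp
    have hp : 0 ≤ f κ / (D * W κ) := div_nonneg (hf κ) (mul_pos hD hW').le
    rw [e1, e2, abs_mul, abs_of_nonneg hp]
    exact mul_le_mul_of_nonneg_left (hS κ) hp
  have h2 : |∑ κ, f κ / (D * W κ) * S κ - d / D| ≤ x * (d / D) := by
    have e1 : d / D = ∑ κ, f κ * (d / D) := by rw [← Finset.sum_mul, hf1, one_mul]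
    have e2 : x * (d / D) = ∑ κ, f κ * (x * (d / D)) := by rw [← Finset.sum_mul, hf1, one_mul]
    nth_rewrite 1 [e1]
    rw [e2, ← Finset.sum_sub_distrib]
    exact (Finset.abs_sum_le_sum_abs _ _).trans (Finset.sum_le_sum fun κ _ => h1 κ)
  have h3 : |d / D - 1| ≤ x := by
    have e1 : d / D - 1 = (d - D) / D := by field_simp
    rw [e1, abs_div, abs_of_pos hD, div_le_iff₀ hD, mul_comm]
    exact hd
  have e : ∑ κ, f κ / (D * W κ) * S κ - 1 =
      (∑ κ, f κ / (D * W κ) * S κ - d / D) + (d / D - 1) := by ring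
  rw [e]
  exact (abs_add_le _ _).trans (add_le_add h2 h3)

/-- numbers -/
theorem NB_num (n : ℕ) (hn : 1 ≤ n) (h3 : (3 : ℝ) ≤ (n : ℝ) ^ ((1 : ℝ) / 10)) :
    0 ≤ (n : ℝ) ^ (-(1 / 5) : ℝ) ∧ (n : ℝ) ^ (-(1 / 5) : ℝ) ≤ 1 ∧
    (n : ℝ) ^ (-(1 / 5) : ℝ) * (1 + (n : ℝ) ^ (-(1 / 5) : ℝ)) + (n : ℝ) ^ (-(1 / 5) : ℝ) ≤
      (n : ℝ) ^ (-(1 : ℝ) / 10) := by
  have hn0 : (0 : ℝ) < n := by exact_mod_cast hn
  obtain ⟨w, hw⟩ : ∃ w, w = (n : ℝ) ^ (-(1 : ℝ) / 10) := ⟨_, rfl⟩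
  have hw0 : 0 < w := by rw [hw]; exact Real.rpow_pos_of_pos hn0 _
  have h1 : (n : ℝ) ^ (-(1 / 5) : ℝ) = w * w := by
    rw [hw, ← Real.rpow_add hn0]
    norm_num
  have h2 : w * (n : ℝ) ^ ((1 : ℝ) / 10) = 1 := by
    rw [hw, ← Real.rpow_add hn0]
    norm_num
  have h4 : w ≤ 1 / 3 := by
    by_contra hc
    push Not at hc
    nlinarith
  rw [h1, ← hw]
  refine ⟨by positivity, by nlinarith, ?_⟩
  have h5 : w * w ≤ 1 / 9 := by nlinarith
  nlinarith [mul_pos hw0 hw0]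

open Classical in
/-- the load of a vertex -/
theorem NB_ver {V : Type} [AddCommGroup V] [Fintype V] (Os : Finset V) (M : Finset V) (u : V) :
    (NB_ct fun v => (∀ o ∈ Os, v + o ∈ M) ∧ ∃ o ∈ Os, v + o = u) ≤
      if u ∈ M then ((Os.filter fun o => ∀ o' ∈ Os, u - o + o' ∈ M).card : ℝ) else 0 := by
  split_ifs with hu
  · unfold NB_ct
    rw [Nat.cast_le]
    refine (Finset.card_le_card ?_).trans (Finset.card_image_le (f := fun o => u - o))
    intro v hv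
    simp only [mem_filter, mem_univ, true_and, mem_image] at hv ⊢
    obtain ⟨h1, o, ho, hou⟩ := hv
    have e : u - o = v := by rw [← hou]; abel
    refine ⟨o, ⟨ho, ?_⟩, e⟩
    rw [e]; exact h1
  · refine (NB_ct_no _ ?_).le
    rintro v ⟨h1, o, ho, hou⟩
    exact hu (hou ▸ h1 o ho)

open Classical in
theorem NB_ver1 {V : Type} [AddCommGroup V] [Fintype V] (Os : Finset V) (Q : V → Prop) (A : Prop)
    (u : V) : (NB_ct fun v => Q v ∧ A ∧ ∃ o ∈ Os, v + o = u) ≤ if A then (Os.card : ℝ) else 0 := by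
  split_ifs with ha
  · unfold NB_ct
    rw [Nat.cast_le]
    refine (Finset.card_le_card ?_).trans (Finset.card_image_le (s := Os) (f := fun o => u - o))
    intro v hv
    simp only [mem_filter, mem_univ, true_and, mem_image] at hv ⊢
    obtain ⟨_, _, o, ho, hou⟩ := hv
    exact ⟨o, ho, by rw [← hou]; abel⟩
  · refine (NB_ct_no _ ?_).le
    rintro v ⟨_, h1, _⟩
    exact ha h1

open Classical in
theorem NB_ver2 {V : Type} [AddCommGroup V] [Fintype V] (Os : Finset V) (Q : V → Prop)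
    (u u' : V) :
    (NB_ct fun v => Q v ∧ (∃ o ∈ Os, v + o = u) ∧ ∃ o ∈ Os, v + o = u') ≤
      (((Os ×ˢ Os).filter fun p => p.2 - p.1 = u' - u).card : ℝ) := by
  unfold NB_ct
  rw [Nat.cast_le]
  refine (Finset.card_le_card ?_).trans (Finset.card_image_le (f := fun p => u - p.1))
  intro v hv
  simp only [mem_filter, mem_univ, true_and, mem_image, mem_product] at hv ⊢
  obtain ⟨_, ⟨o, ho, hou⟩, ⟨o', ho', hou'⟩⟩ := hv
  refine ⟨(o, o'), ⟨⟨ho, ho'⟩, ?_⟩, ?_⟩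
  · change o' - o = u' - u
    rw [← hou, ← hou']; abel
  · change u - o = v
    rw [← hou]; abel

open Classical in
theorem nib (r₀ q ν : ℕ) (hq : 1 ≤ q) (C : ℝ) (hC : 0 < C) (mu f : Fin ν → ℝ)
    (hmu : ∀ κ, 0 < mu κ) (hmu1 : ∀ κ, mu κ ≤ 1) (hf : ∀ κ, 0 ≤ f κ) (hf1 : ∑ κ, f κ = 1) :
    ∃ κ₀ : ℝ, 0 < κ₀ ∧ ∃ K : ℕ, ∀ {V Res ι : Type} [AddCommGroup V] [Fintype V] [Fintype Res]
      [Fintype ι] (𝒢 : Finset ι) (rs : ι → Finset Res) (O : ι → Finset V)
      (M : Fin ν → Finset V) (D : ℝ),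
      K ≤ Fintype.card V → Fintype.card Res ≤ Fintype.card V → 0 < D →
      (∀ τ ∈ 𝒢, (rs τ).card ≤ r₀ ∧ (O τ).card = q) →
      (∀ a, |((𝒢.filter fun τ => a ∈ rs τ).card : ℝ) - D| ≤
        D * (Fintype.card V : ℝ) ^ (-(1 / 5) : ℝ)) →
      (∀ a a', a ≠ a' → ((𝒢.filter fun τ => a ∈ rs τ ∧ a' ∈ rs τ).card : ℝ) ≤
        C * D / Fintype.card V) →
      (∀ y : V, y ≠ 0 →
        (∑ τ ∈ 𝒢, (((O τ ×ˢ O τ).filter fun p => p.2 - p.1 = y).card : ℝ)) ≤ C * D) →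
      (∀ κ, ∀ τ ∈ 𝒢, |((univ.filter fun v => ∀ o ∈ O τ, v + o ∈ M κ).card : ℝ) -
        mu κ ^ q * Fintype.card V| ≤
          mu κ ^ q * Fintype.card V * (Fintype.card V : ℝ) ^ (-(1 / 5) : ℝ)) →
      (∀ κ, ∀ u ∈ M κ, f κ * (∑ τ ∈ 𝒢,
        (((O τ).filter fun o => ∀ o' ∈ O τ, u - o + o' ∈ M κ).card : ℝ)) ≤
          D * mu κ ^ q * Fintype.card V) →
      ∃ 𝓓 : Finset (Fin ν × V × ι),
        (∀ e ∈ 𝓓, e.2.2 ∈ 𝒢 ∧ ∀ o ∈ O e.2.2, e.2.1 + o ∈ M e.1) ∧
        (∀ e ∈ 𝓓, ∀ e' ∈ 𝓓, e ≠ e' → Disjoint (rs e.2.2) (rs e'.2.2) ∧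
          (e.1 = e'.1 → ∀ o ∈ O e.2.2, ∀ o' ∈ O e'.2.2, e.2.1 + o ≠ e'.2.1 + o')) ∧
        ((univ.filter fun a => ∀ e ∈ 𝓓, a ∉ rs e.2.2).card : ℝ) ≤
          (Fintype.card V : ℝ) ^ (1 - κ₀) := by
  obtain ⟨κ₀, hκ0, _, n₀, hgn⟩ := Pool.Agent.GNib.gnibble (r₀ + q) 2 (by omega)
  obtain ⟨Q, hQ⟩ : ∃ Q : ℝ, Q = 2 * C + ∑ κ, (2 * q + C) / mu κ ^ q := ⟨_, rfl⟩
  have hmuq : ∀ κ, 0 < mu κ ^ q := fun κ => pow_pos (hmu κ) q
  have hQ1 : 2 * C ≤ Q := by
    rw [hQ]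
    have : 0 ≤ ∑ κ, (2 * q + C) / mu κ ^ q :=
      Finset.sum_nonneg fun κ _ => div_nonneg (by positivity) (hmuq κ).le
    linarith
  have hQs : ∀ κ, (2 * q + C) / mu κ ^ q ≤ Q := by
    intro κ
    have h1 := Finset.single_le_sum (f := fun κ => (2 * (q : ℝ) + C) / mu κ ^ q)
      (fun κ _ => div_nonneg (by positivity) (hmuq κ).le) (Finset.mem_univ κ)
    rw [hQ]
    linarith
  have hfle : ∀ κ, f κ ≤ 1 := by
    intro κ
    rw [← hf1]
    exact Finset.single_le_sum (f := f) (fun κ _ => hf κ) (Finset.mem_univ κ)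
  have ev : ∀ᶠ n : ℕ in Filter.atTop, n₀ ≤ n ∧ ν + 1 ≤ n ∧ Q ≤ (n : ℝ) ^ ((1 : ℝ) / 20) ∧
      (3 : ℝ) ≤ (n : ℝ) ^ ((1 : ℝ) / 10) := by
    have t1 := (tendsto_rpow_atTop (by norm_num : (0 : ℝ) < 1 / 20)).comp
      tendsto_natCast_atTop_atTop
    have t2 := (tendsto_rpow_atTop (by norm_num : (0 : ℝ) < 1 / 10)).comp
      tendsto_natCast_atTop_atTop
    filter_upwards [Filter.eventually_ge_atTop n₀, Filter.eventually_ge_atTop (ν + 1),
      t1.eventually_ge_atTop Q, t2.eventually_ge_atTop 3] with n h1 h2 h3 h4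
    exact ⟨h1, h2, h3, h4⟩
  obtain ⟨K, hK⟩ := Filter.eventually_atTop.mp ev
  refine ⟨κ₀, hκ0, K, ?_⟩
  intro V Res ι _ _ _ _ 𝒢 rs O M D hn hRes hD h𝒢 hdeg hpair hdiff hN hload
  obtain ⟨c1, c2, c3, c4⟩ := hK _ hn
  obtain ⟨n, hnd⟩ : ∃ n : ℕ, n = Fintype.card V := ⟨_, rfl⟩
  rw [← hnd] at hn hRes hdeg hpair hN hload c1 c2 c3 c4 ⊢
  have hn1 : 1 ≤ n := by omega
  have hn0 : (0 : ℝ) < n := by exact_mod_cast hn1
  obtain ⟨hx0, hx1, hxw⟩ := NB_num n hn1 c4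
  obtain ⟨x, hx⟩ : ∃ x : ℝ, x = (n : ℝ) ^ (-(1 / 5) : ℝ) := ⟨_, rfl⟩
  rw [← hx] at hx0 hx1 hxw hdeg hN
  obtain ⟨W, hW⟩ : ∃ W : Fin ν → ℝ, ∀ κ, W κ = mu κ ^ q * n := ⟨_, fun _ => rfl⟩
  have hW0 : ∀ κ, 0 < W κ := fun κ => by rw [hW]; exact mul_pos (hmuq κ) hn0
  obtain ⟨gk, hgk⟩ : ∃ gk : Fin ν → ℝ, ∀ κ, gk κ = f κ / (D * W κ) := ⟨_, fun _ => rfl⟩
  have hg0 : ∀ κ, 0 ≤ gk κ := fun κ => by
    rw [hgk]; exact div_nonneg (hf κ) (mul_pos hD (hW0 κ)).le
  have hgle : ∀ κ, gk κ ≤ 1 / (D * W κ) := fun κ => by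
    rw [hgk]; exact div_le_div_of_nonneg_right (hfle κ) (mul_pos hD (hW0 κ)).le
  obtain ⟨inc, hinc⟩ : ∃ inc : Fin ν × V × ι → Finset (Res ⊕ Fin ν × V),
      ∀ e, inc e = (rs e.2.2).image Sum.inl ∪
        (O e.2.2).image (fun o => Sum.inr (e.1, e.2.1 + o)) := ⟨_, fun _ => rfl⟩
  obtain ⟨w, hw⟩ : ∃ w : Fin ν × V × ι → ℝ, ∀ e, w e =
      if e.2.2 ∈ 𝒢 ∧ (∀ o ∈ O e.2.2, e.2.1 + o ∈ M e.1) then gk e.1 else 0 :=
    ⟨_, fun _ => rfl⟩
  have hinl : ∀ e a, Sum.inl a ∈ inc e ↔ a ∈ rs e.2.2 := by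
    intro e a
    rw [hinc]
    simp
  have hinr : ∀ e κ u, Sum.inr (κ, u) ∈ inc e ↔ e.1 = κ ∧ ∃ o ∈ O e.2.2, e.2.1 + o = u := by
    intro e κ u
    rw [hinc]
    simp only [mem_union, mem_image, reduceCtorEq, and_false, exists_false, false_or,
      Sum.inr.injEq, Prod.mk.injEq]
    constructor
    · rintro ⟨o, ho, h1, h2⟩
      exact ⟨h1, o, ho, h2⟩
    · rintro ⟨h1, o, ho, h2⟩
      exact ⟨o, ho, h1, h2⟩
  have hN' : ∀ κ, ∀ τ ∈ 𝒢, |(NB_ct fun v => ∀ o ∈ O τ, v + o ∈ M κ) - W κ| ≤ W κ * x := by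
    intro κ τ hτ
    rw [hW, ← NB_ct_eq]
    exact hN κ τ hτ
  have hsumP : ∀ P : Fin ν × V × ι → Prop, NB_sm P w =
      ∑ κ, gk κ * ∑ τ ∈ 𝒢, NB_ct fun v => (∀ o ∈ O τ, v + o ∈ M κ) ∧ P (κ, v, τ) := by
    intro P
    have h1 := NB_gen 𝒢 (fun κ v τ => ∀ o ∈ O τ, v + o ∈ M κ) gk P
    rw [← h1]
    unfold NB_sm
    refine Finset.sum_congr rfl fun e _ => ?_
    rw [hw e]
    beta_reduce
    congr!
  have hcomm : ∀ u v, NB_sm (fun e => u ∈ inc e ∧ v ∈ inc e) w =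
      NB_sm (fun e => v ∈ inc e ∧ u ∈ inc e) w := by
    intro u v
    simp only [and_comm]
  -- loads of the resources
  have hdegle : ∀ a, ((𝒢.filter fun τ => a ∈ rs τ).card : ℝ) ≤ 2 * D := by
    intro a
    have h1 := (abs_le.mp (hdeg a)).2
    nlinarith
  have hR : ∀ a : Res, |NB_sm (fun e => Sum.inl a ∈ inc e) w - 1| ≤
      (n : ℝ) ^ (-(1 : ℝ) / 10) := by
    intro a
    rw [hsumP]
    have h1 : ∀ κ, |∑ τ ∈ 𝒢, (NB_ct fun v =>
        (∀ o ∈ O τ, v + o ∈ M κ) ∧ Sum.inl a ∈ inc (κ, v, τ)) -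
        (𝒢.filter fun τ => a ∈ rs τ).card * W κ| ≤
        (𝒢.filter fun τ => a ∈ rs τ).card * (W κ * x) := by
      intro κ
      have h2 := NB_q 𝒢 (fun v τ => ∀ o ∈ O τ, v + o ∈ M κ) (fun τ => a ∈ rs τ) (W κ) x
        (hN' κ)
      simp only [hinl]
      convert h2
    have h3 := NB_load f W (fun κ => ∑ τ ∈ 𝒢, NB_ct fun v =>
        (∀ o ∈ O τ, v + o ∈ M κ) ∧ Sum.inl a ∈ inc (κ, v, τ))
        ((𝒢.filter fun τ => a ∈ rs τ).card : ℝ) D x hD hW0 hf hf1 (hdeg a) h1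
    have h4 : ((𝒢.filter fun τ => a ∈ rs τ).card : ℝ) / D ≤ 1 + x := by
      rw [div_le_iff₀ hD]
      have := (abs_le.mp (hdeg a)).2
      linarith
    have h5 : x * (((𝒢.filter fun τ => a ∈ rs τ).card : ℝ) / D) ≤ x * (1 + x) :=
      mul_le_mul_of_nonneg_left h4 hx0
    simp only [hgk]
    exact h3.trans (by linarith)
  -- loads of the vertices
  have hV : ∀ κ u, NB_sm (fun e => Sum.inr (κ, u) ∈ inc e) w ≤ 1 := by
    intro κ u
    rw [hsumP]
    rw [Finset.sum_eq_single κ]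
    · have h1 : ∀ τ ∈ 𝒢, (NB_ct fun v => (∀ o ∈ O τ, v + o ∈ M κ) ∧
          Sum.inr (κ, u) ∈ inc (κ, v, τ)) ≤
          if u ∈ M κ then (((O τ).filter fun o => ∀ o' ∈ O τ, u - o + o' ∈ M κ).card : ℝ)
          else 0 := by
        intro τ _
        simp only [hinr, true_and]
        convert NB_ver (O τ) (M κ) u
      have h2 := Finset.sum_le_sum h1
      by_cases hu : u ∈ M κ
      · simp only [if_pos hu] at h2
        have h3 := hload κ u hu
        refine (mul_le_mul_of_nonneg_left h2 (hg0 κ)).trans ?_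
        have h4 : gk κ * ∑ τ ∈ 𝒢,
              (((O τ).filter fun o => ∀ o' ∈ O τ, u - o + o' ∈ M κ).card : ℝ) =
            (f κ * ∑ τ ∈ 𝒢,
              (((O τ).filter fun o => ∀ o' ∈ O τ, u - o + o' ∈ M κ).card : ℝ)) /
              (D * W κ) := by rw [hgk]; ring
        rw [h4, div_le_one (mul_pos hD (hW0 κ)), hW]
        refine h3.trans (le_of_eq (by ring))
      · simp only [if_neg hu, Finset.sum_const_zero] at h2
        have h3 := mul_le_mul_of_nonneg_left h2 (hg0 κ)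
        linarith
    · intro κ' _ hne
      rw [Finset.sum_eq_zero, mul_zero]
      intro τ _
      refine NB_ct_no _ ?_
      rintro v ⟨_, h1⟩
      rw [hinr] at h1
      exact hne h1.1
    · intro h; exact absurd (Finset.mem_univ _) h
  -- pairs
  have hpRR : ∀ a a' : Res, a ≠ a' →
      NB_sm (fun e => Sum.inl a ∈ inc e ∧ Sum.inl a' ∈ inc e) w ≤ Q / n := by
    intro a a' hne
    rw [hsumP]
    have h1 : ∀ κ, gk κ * ∑ τ ∈ 𝒢, (NB_ct fun v =>
        (∀ o ∈ O τ, v + o ∈ M κ) ∧ Sum.inl a ∈ inc (κ, v, τ) ∧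
          Sum.inl a' ∈ inc (κ, v, τ)) ≤ f κ * (2 * C / n) := by
      intro κ
      have h2 := NB_q 𝒢 (fun v τ => ∀ o ∈ O τ, v + o ∈ M κ)
        (fun τ => a ∈ rs τ ∧ a' ∈ rs τ) (W κ) x (hN' κ)
      have h3 := (abs_le.mp h2).2
      have h4 := hpair a a' hne
      obtain ⟨d, hd⟩ : ∃ d : ℝ, d = ((𝒢.filter fun τ => a ∈ rs τ ∧ a' ∈ rs τ).card : ℝ) :=
        ⟨_, rfl⟩
      have hd' : ((@Finset.filter ι (fun τ => a ∈ rs τ ∧ a' ∈ rs τ)
          (fun _ => Classical.propDecidable _) 𝒢).card : ℝ) = d := by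
        rw [hd]; congr!
      rw [hd'] at h3
      rw [← hd] at h4
      have hd0 : 0 ≤ d := by rw [hd]; positivity
      have h5 : ∑ τ ∈ 𝒢, (NB_ct fun v =>
          (∀ o ∈ O τ, v + o ∈ M κ) ∧ Sum.inl a ∈ inc (κ, v, τ) ∧
          Sum.inl a' ∈ inc (κ, v, τ)) ≤ 2 * d * W κ := by
        simp only [hinl]
        have h6 : d * (W κ * x) ≤ d * W κ := by
          have : W κ * x ≤ W κ * 1 := mul_le_mul_of_nonneg_left hx1 (hW0 κ).le
          exact mul_le_mul_of_nonneg_left (by linarith) hd0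
        linarith
      refine (mul_le_mul_of_nonneg_left h5 (hg0 κ)).trans ?_
      have h6 : gk κ * (2 * d * W κ) = f κ * (2 * d / D) := by
        rw [hgk]
        have := (hW0 κ).ne'
        field_simp
      rw [h6]
      refine mul_le_mul_of_nonneg_left ?_ (hf κ)
      rw [div_le_iff₀ hD]
      have : 2 * C / n * D = 2 * (C * D / n) := by ring
      rw [this]
      linarith
    refine (Finset.sum_le_sum fun κ _ => h1 κ).trans ?_
    rw [← Finset.sum_mul, hf1, one_mul]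
    exact div_le_div_of_nonneg_right hQ1 hn0.le
  have hpRV : ∀ (a : Res) κ u,
      NB_sm (fun e => Sum.inl a ∈ inc e ∧ Sum.inr (κ, u) ∈ inc e) w ≤ Q / n := by
    intro a κ u
    rw [hsumP]
    rw [Finset.sum_eq_single κ]
    · have h1 : ∀ τ ∈ 𝒢, (NB_ct fun v => (∀ o ∈ O τ, v + o ∈ M κ) ∧
          Sum.inl a ∈ inc (κ, v, τ) ∧ Sum.inr (κ, u) ∈ inc (κ, v, τ)) ≤
          if a ∈ rs τ then (q : ℝ) else 0 := by
        intro τ hτ
        simp only [hinr, hinl, true_and]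
        have h2 := NB_ver1 (O τ) (fun v => ∀ o ∈ O τ, v + o ∈ M κ) (a ∈ rs τ) u
        rw [(h𝒢 τ hτ).2] at h2
        convert h2
      have h2 := Finset.sum_le_sum h1
      have h3 : (∑ τ ∈ 𝒢, if a ∈ rs τ then (q : ℝ) else 0) =
          ((𝒢.filter fun τ => a ∈ rs τ).card : ℝ) * q := by
        rw [← Finset.sum_filter, Finset.sum_const, nsmul_eq_mul]
      rw [h3] at h2
      have h4 : ((𝒢.filter fun τ => a ∈ rs τ).card : ℝ) * q ≤ 2 * D * q :=
        mul_le_mul_of_nonneg_right (hdegle a) (Nat.cast_nonneg _)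
      refine (mul_le_mul (hgle κ) (h2.trans h4) (Finset.sum_nonneg fun _ _ => NB_ct0 _)
              (div_nonneg zero_le_one (mul_pos hD (hW0 κ)).le)).trans ?_
      have h5 : 1 / (D * W κ) * (2 * D * q) = (2 * q / mu κ ^ q) / n := by
            rw [hW]
            have := (hmuq κ).ne'
            field_simp
      rw [h5]
      refine div_le_div_of_nonneg_right (le_trans ?_ (hQs κ)) hn0.le
      exact div_le_div_of_nonneg_right (by linarith) (hmuq κ).le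
    · intro κ' _ hne
      rw [Finset.sum_eq_zero, mul_zero]
      intro τ _
      refine NB_ct_no _ ?_
      rintro v ⟨_, _, h1⟩
      rw [hinr] at h1
      exact hne h1.1
    · intro h; exact absurd (Finset.mem_univ _) h
  have hQ0 : 0 ≤ Q := le_trans (by positivity) hQ1
  have hpVV : ∀ κ u κ' u', (κ, u) ≠ (κ', u') →
      NB_sm (fun e => Sum.inr (κ, u) ∈ inc e ∧ Sum.inr (κ', u') ∈ inc e) w ≤ Q / n := by
    intro κ u κ' u' hne
    by_cases hκ : κ = κ'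
    · subst hκ
      have hu : u' - u ≠ 0 := by
        intro h
        apply hne
        rw [sub_eq_zero] at h
        rw [h]
      rw [hsumP]
      rw [Finset.sum_eq_single κ]
      · have h1 : ∀ τ ∈ 𝒢, (NB_ct fun v => (∀ o ∈ O τ, v + o ∈ M κ) ∧
            Sum.inr (κ, u) ∈ inc (κ, v, τ) ∧ Sum.inr (κ, u') ∈ inc (κ, v, τ)) ≤
            (((O τ ×ˢ O τ).filter fun p => p.2 - p.1 = u' - u).card : ℝ) := by
          intro τ _
          simp only [hinr, true_and]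
          convert NB_ver2 (O τ) (fun v => ∀ o ∈ O τ, v + o ∈ M κ) u u'
        have h2 := (Finset.sum_le_sum h1).trans (hdiff _ hu)
        refine (mul_le_mul (hgle κ) h2 (Finset.sum_nonneg fun _ _ => NB_ct0 _)
                (div_nonneg zero_le_one (mul_pos hD (hW0 κ)).le)).trans ?_
        have h5 : 1 / (D * W κ) * (C * D) = (C / mu κ ^ q) / n := by
              rw [hW]
              have := (hmuq κ).ne'
              field_simp
        rw [h5]
        refine div_le_div_of_nonneg_right (le_trans ?_ (hQs κ)) hn0.le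
        exact div_le_div_of_nonneg_right (by
                have : (0 : ℝ) ≤ 2 * q := by positivity
                linarith) (hmuq κ).le
      · intro κ' _ hne
        rw [Finset.sum_eq_zero, mul_zero]
        intro τ _
        refine NB_ct_no _ ?_
        rintro v ⟨_, _, h1⟩
        rw [hinr] at h1
        exact hne h1.1
      · intro h; exact absurd (Finset.mem_univ _) h
    · have h0 : NB_sm (fun e => Sum.inr (κ, u) ∈ inc e ∧ Sum.inr (κ', u') ∈ inc e) w = 0 := by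
        unfold NB_sm
        rw [Finset.sum_eq_zero]
        intro e he
        simp only [mem_filter, mem_univ, true_and, hinr] at he
        exact absurd (he.1.1.symm.trans he.2.1) hκ
      rw [h0]
      positivity
  have hQn : Q / n ≤ (n : ℝ) ^ ((1 : ℝ) / 20) / n := div_le_div_of_nonneg_right c3 hn0.le
  obtain ⟨R, hRd⟩ : ∃ R : Finset (Res ⊕ Fin ν × V), R = univ.image Sum.inl := ⟨_, rfl⟩
  have hmain := hgn n c1 (Res ⊕ Fin ν × V) (Fin ν × V × ι) inc w R {R} ?_ ?_ ?_ ?_ ?_ ?_ ?_ ?_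
  · obtain ⟨𝓓, d1, d2, d3⟩ := hmain
    refine ⟨𝓓, ?_, ?_, ?_⟩
    · intro e he
      have h1 := d1 e he
      rw [hw] at h1
      by_contra hcon
      rw [if_neg hcon] at h1
      exact h1 rfl
    · intro e he e' he' hne
      have h1 := d2 e he e' he' hne
      rw [Finset.disjoint_left] at h1
      constructor
      · rw [Finset.disjoint_left]
        intro a ha ha'
        exact h1 ((hinl e a).mpr ha) ((hinl e' a).mpr ha')
      · intro hee o ho o' ho' heq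
        exact h1 ((hinr e e.1 (e.2.1 + o)).mpr ⟨rfl, o, ho, rfl⟩)
          ((hinr e' e.1 (e.2.1 + o)).mpr ⟨hee.symm, o', ho', heq.symm⟩)
    · have h1 := d3 R (by simp)
      refine le_trans ?_ h1
      have h2 : (univ.filter fun a => ∀ e ∈ 𝓓, a ∉ rs e.2.2).card ≤
          (R \ 𝓓.biUnion inc).card := by
        refine Finset.card_le_card_of_injOn Sum.inl ?_ (Sum.inl_injective.injOn)
        intro a ha
        rw [Finset.mem_coe, mem_filter] at ha
        simp only [Finset.mem_coe, mem_sdiff, mem_biUnion, not_exists, not_and, hRd, mem_image,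
          mem_univ, true_and]
        refine ⟨⟨a, rfl⟩, fun e he hae => ha.2 e he ((hinl e a).mp hae)⟩
      exact_mod_cast h2
  · -- number of vertices
    have h1 : Fintype.card (Res ⊕ Fin ν × V) ≤ n ^ 2 := by
      rw [Fintype.card_sum, Fintype.card_prod, Fintype.card_fin, ← hnd]
      nlinarith
    exact_mod_cast h1
  · rw [Finset.card_singleton]
    have h1 : 1 ≤ n ^ 2 := Nat.one_le_pow _ _ hn1
    exact_mod_cast h1
  · intro S hS
    rw [Finset.mem_singleton] at hS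
    rw [hS]
    refine ⟨Finset.Subset.refl _, ?_⟩
    rw [hRd]
    have h1 : (univ.image (Sum.inl : Res → Res ⊕ Fin ν × V)).card ≤ n :=
      Finset.card_image_le.trans (by rw [Finset.card_univ]; exact hRes)
    exact_mod_cast h1
  · intro e
    rw [hw]
    split_ifs
    · exact hg0 _
    · exact le_rfl
  · intro e he
    have hG : e.2.2 ∈ 𝒢 := by
      rw [hw] at he
      by_contra hcon
      rw [if_neg (fun h => hcon h.1)] at he
      exact he rfl
    obtain ⟨h1, h2⟩ := h𝒢 _ hG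
    constructor
    · have h3 : (O e.2.2).Nonempty := by
        rw [← Finset.card_pos, h2]; omega
      obtain ⟨o, ho⟩ := h3
      exact ⟨Sum.inr (e.1, e.2.1 + o), (hinr e e.1 (e.2.1 + o)).mpr ⟨rfl, o, ho, rfl⟩⟩
    · rw [hinc]
      refine (Finset.card_union_le _ _).trans (Nat.add_le_add
        (Finset.card_image_le.trans h1) (Finset.card_image_le.trans h2.le))
  · rintro (a | ⟨κ, u⟩)
    · rw [NB_sm_eq]
      have h1 := (abs_le.mp (hR a)).2
      linarith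
    · rw [NB_sm_eq]
      have h1 := hV κ u
      have h2 : 0 ≤ (n : ℝ) ^ (-(1 : ℝ) / 10) := Real.rpow_nonneg hn0.le _
      linarith
  · intro v hv
    rw [hRd, mem_image] at hv
    obtain ⟨a, _, rfl⟩ := hv
    rw [NB_sm_eq]
    have h1 := (abs_le.mp (hR a)).1
    linarith
  · rintro (a | ⟨κ, u⟩) (a' | ⟨κ', u'⟩) hne <;> rw [NB_sm_eq]
    · exact (hpRR a a' (fun h => hne (by rw [h]))).trans hQn
    · exact (hpRV a κ' u').trans hQn
    · rw [hcomm]
      exact (hpRV a' κ u).trans hQn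
    · exact (hpVV κ u κ' u' (fun h => hne (by rw [h]))).trans hQn

end Pool.Agent.SDN
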