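import Pool.Agent.Lib_helper26.SDN.Defs
import Pool.Agent.Lib_helper26.SDN.NB
import Pool.Agent.Lib_helper26.SDN.G3

/-! Block PA (project SDN): the paths. -/

namespace Pool.Agent.SDN

open Finset

/-- growth -/
lemma PA_big (A a : ℝ) (ha : 0 < a) : ∃ K : ℕ, ∀ v : ℕ, K ≤ v → A ≤ (v : ℝ) ^ a := by
  have h := (tendsto_rpow_atTop ha).comp tendsto_natCast_atTop_atTop
  have h1 := h.eventually_ge_atTop A
  rw [Filter.eventually_atTop] at h1
  exact h1

open Classical in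
/-- excluding a small set of vertices -/
lemma PA_wy {V : Type} [AddCommGroup V] [Fintype V] {N : ℕ} (O wy : Finset V) (lab : V → Fin N)
    (L : Finset (Fin N)) (q w₀ : ℕ) (hO : O.card = q) (hwy : wy.card ≤ w₀) :
    ((univ.filter fun v => ∀ o ∈ O, lab (v + o) ∈ L).card : ℝ) - q * w₀ ≤
      ((univ.filter fun v => ∀ o ∈ O, lab (v + o) ∈ L ∧ v + o ∉ wy).card : ℝ) := by
  have h1 : (univ.filter fun v => ∀ o ∈ O, lab (v + o) ∈ L) ⊆
      (univ.filter fun v => ∀ o ∈ O, lab (v + o) ∈ L ∧ v + o ∉ wy) ∪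
        (O ×ˢ wy).image fun x => x.2 - x.1 := by
    intro v hv
    simp only [mem_filter, mem_univ, true_and] at hv
    by_cases h : ∀ o ∈ O, v + o ∉ wy
    · refine mem_union_left _ ?_
      simp only [mem_filter, mem_univ, true_and]
      exact fun o ho => ⟨hv o ho, h o ho⟩
    · push Not at h
      obtain ⟨o, ho, hw⟩ := h
      refine mem_union_right _ ?_
      rw [mem_image]
      exact ⟨(o, v + o), mem_product.2 ⟨ho, hw⟩, by simp⟩
  have h2 := (card_le_card h1).trans (card_union_le _ _)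
  have h3 : ((O ×ˢ wy).image fun x => x.2 - x.1).card ≤ q * w₀ := by
    refine card_image_le.trans ?_
    rw [card_product, hO]
    exact Nat.mul_le_mul_left _ hwy
  have h4 := h2.trans (Nat.add_le_add_left h3 _)
  have h5 : ((univ.filter fun v => ∀ o ∈ O, lab (v + o) ∈ L).card : ℝ) ≤
      ((univ.filter fun v => ∀ o ∈ O, lab (v + o) ∈ L ∧ v + o ∉ wy).card : ℝ) + q * w₀ := by
    exact_mod_cast h4
  linarith

open Classical in
theorem paths (g t m ν N w₀ : ℕ) (hg : 2 ≤ g) (ht : 2 ≤ t) (hm : 3 ≤ m) (hN : 2 ≤ N)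
    (Λ : Fin ν → Finset (Fin N)) (hΛ : ∀ κ, (Λ κ).Nonempty) (f : Fin ν → ℝ)
    (hf : ∀ κ, 0 ≤ f κ) (hf1 : ∑ κ, f κ = 1) (c₁ δ : ℝ) (hc₁ : 0 < c₁) (hδ : 0 < δ) :
    ∃ κ₀ : ℝ, 0 < κ₀ ∧ ∃ K : ℕ,
    ∀ {V : Type} [AddCommGroup V] [Fintype V] {s : ℕ} (Z : Fin s → Fin m → V)
      (B : Finset V) (c : Fin (t * s) → V) (lab : V → Fin N) (wy : Finset V),
      K ≤ Fintype.card V → wy.card ≤ w₀ → Fam B 0 Z → Function.Injective c →
      (∀ i, c i ≠ 0) → c₁ * Fintype.card V ≤ s → (t + m) * s ≤ Fintype.card V →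
      (∀ κ, f κ * (t * s + m * s + (s : ℝ) / g) ≤
        (1 - δ) * (((Λ κ).card : ℝ) / N) * Fintype.card V) →
      (∀ κ, ∀ τ : Tp g t (t * s) s, Good c Z τ →
        |((univ.filter fun v => ∀ o ∈ offs c Z τ, lab (v + o) ∈ Λ κ).card : ℝ) -
          (((Λ κ).card : ℝ) / N) ^ (g * t + 1 + g * m) * Fintype.card V| ≤
            (Fintype.card V : ℝ) ^ (2 / 3 : ℝ)) →
      (∀ κ u, (∑ τ ∈ (univ.filter fun τ : Tp g t (t * s) s => Good c Z τ),
        (((offs c Z τ).filter fun o => ∀ o' ∈ offs c Z τ, o' ≠ o →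
          lab (u - o + o') ∈ Λ κ).card : ℝ)) ≤
          (((Λ κ).card : ℝ) / N) ^ (g * t + g * m) * ((g * t + 1 + g * m : ℕ) *
            ((t * s : ℕ) : ℝ) ^ (g * t) * (s : ℝ) ^ g) +
            ((t * s : ℕ) : ℝ) ^ (g * t - 1) * (s : ℝ) ^ g *
              (Fintype.card V : ℝ) ^ (2 / 3 : ℝ)) →
      ∃ 𝓓 : Finset (Fin ν × V × Tp g t (t * s) s),
        (∀ e ∈ 𝓓, Good c Z e.2.2 ∧ ∀ o ∈ offs c Z e.2.2,
          lab (e.2.1 + o) ∈ Λ e.1 ∧ e.2.1 + o ∉ wy) ∧
        (∀ e ∈ 𝓓, ∀ e' ∈ 𝓓, e ≠ e' → Disjoint (res e.2.2) (res e'.2.2) ∧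
          (e.1 = e'.1 → ∀ o ∈ offs c Z e.2.2, ∀ o' ∈ offs c Z e'.2.2,
            e.2.1 + o ≠ e'.2.1 + o')) ∧
        ((univ.filter fun a => ∀ e ∈ 𝓓, a ∉ res e.2.2).card : ℝ) ≤
          (Fintype.card V : ℝ) ^ (1 - κ₀) := by
  obtain ⟨CG, hCG, hG⟩ := good_counts.{0} g t m hg ht (by omega)
  have hgR : (2 : ℝ) ≤ g := by exact_mod_cast hg
  have htR : (2 : ℝ) ≤ t := by exact_mod_cast ht
  have hNR : (2 : ℝ) ≤ N := by exact_mod_cast hN
  have hq1 : 1 ≤ g * t + 1 + g * m := by omega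
  obtain ⟨mu, hmu⟩ : ∃ mu : Fin ν → ℝ, mu = fun κ => ((Λ κ).card : ℝ) / N := ⟨_, rfl⟩
  have hmue : ∀ κ, ((Λ κ).card : ℝ) / N = mu κ := fun κ => by rw [hmu]
  have hmu0 : ∀ κ, 1 / (N : ℝ) ≤ mu κ := by
    intro κ
    have h1 : 1 ≤ (Λ κ).card := (hΛ κ).card_pos
    have h2 : (1 : ℝ) ≤ (Λ κ).card := by exact_mod_cast h1
    rw [← hmue]
    gcongr
  have hmu1 : ∀ κ, mu κ ≤ 1 := by
    intro κ
    have h1 : (Λ κ).card ≤ N := by simpa using card_le_univ (Λ κ)
    have h2 : ((Λ κ).card : ℝ) ≤ N := by exact_mod_cast h1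
    rw [← hmue, div_le_one (by linarith)]
    exact h2
  have hmup : ∀ κ, 0 < mu κ := fun κ => lt_of_lt_of_le (by positivity) (hmu0 κ)
  obtain ⟨ε, hε⟩ : ∃ ε, ε = (1 / (N : ℝ)) ^ (g * t + 1 + g * m) := ⟨_, rfl⟩
  have hε0 : 0 < ε := by rw [hε]; positivity
  have hmuq : ∀ κ, ε ≤ mu κ ^ (g * t + 1 + g * m) := by
    intro κ
    rw [hε]
    exact pow_le_pow_left₀ (by positivity) (hmu0 κ) _
  have hf1' : ∀ κ, f κ ≤ 1 := by
    intro κ
    rw [← hf1]
    exact single_le_sum (fun i _ => hf i) (mem_univ κ)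
  obtain ⟨κ₀, hκ₀, K₁, hnib⟩ := nib (g * t + g) (g * t + 1 + g * m) ν hq1 (CG / c₁ + CG)
    (by positivity) mu f hmup hmu1 hf hf1
  obtain ⟨K₂, hK₂⟩ := PA_big (CG / c₁) (4 / 5) (by norm_num)
  obtain ⟨K₃, hK₃⟩ := PA_big (2 / ε) (2 / 15) (by norm_num)
  obtain ⟨K₄, hK₄⟩ := PA_big (2 * (((g * t + 1 + g * m : ℕ) : ℝ) * w₀) / ε) (4 / 5) (by norm_num)
  obtain ⟨K₅, hK₅⟩ := PA_big (1 / (δ * ε)) (1 / 3) (by norm_num)
  refine ⟨κ₀, hκ₀, K₁ + K₂ + K₃ + K₄ + K₅ + 1, ?_⟩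
  intro V _ _ s Z B c lab wy hK hwy hZ hc hc0 hs hsV hfs hlab hload
  have hb2 := hK₂ (Fintype.card V) (by omega)
  have hb3 := hK₃ (Fintype.card V) (by omega)
  have hb4 := hK₄ (Fintype.card V) (by omega)
  have hb5 := hK₅ (Fintype.card V) (by omega)
  have hV1 : 1 ≤ Fintype.card V := by omega
  have hKn : K₁ ≤ Fintype.card V := by omega
  obtain ⟨w, hw⟩ : ∃ w : ℝ, w = (Fintype.card V : ℝ) := ⟨_, rfl⟩
  have hw1 : (1 : ℝ) ≤ w := by rw [hw]; exact_mod_cast hV1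
  have hw0 : (0 : ℝ) < w := by linarith
  rw [← hw] at hb2 hb3 hb4 hb5 hs
  simp only [← hw, hmue] at hfs hlab hload
  -- powers
  have hp1 : w * w ^ (-(1 / 5) : ℝ) = w ^ (4 / 5 : ℝ) := by
    have : w ^ (1 + -(1 / 5) : ℝ) = w ^ (1 : ℝ) * w ^ (-(1 / 5) : ℝ) :=
      Real.rpow_add hw0 _ _
    rw [Real.rpow_one] at this
    rw [← this]; norm_num
  have hp2 : w ^ (2 / 3 : ℝ) * w ^ (2 / 15 : ℝ) = w ^ (4 / 5 : ℝ) := by
    rw [← Real.rpow_add hw0]; norm_num
  have hp3 : w ^ (2 / 3 : ℝ) * w ^ (1 / 3 : ℝ) = w := by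
    rw [← Real.rpow_add hw0]; norm_num
  have hw23 : 0 < w ^ (2 / 3 : ℝ) := Real.rpow_pos_of_pos hw0 _
  have hw45 : 0 < w ^ (4 / 5 : ℝ) := Real.rpow_pos_of_pos hw0 _
  have hwm : 0 < w ^ (-(1 / 5) : ℝ) := Real.rpow_pos_of_pos hw0 _
  have hsR : (0 : ℝ) < s := lt_of_lt_of_le (by positivity) hs
  have hs0 : 0 < s := by exact_mod_cast hsR
  have hnC : (0 : ℝ) < ((t * s : ℕ) : ℝ) := by push_cast; positivity
  have hA : 2 * w ^ (2 / 3 : ℝ) ≤ ε * w ^ (4 / 5 : ℝ) := by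
    rw [div_le_iff₀ hε0] at hb3
    rw [← hp2]
    nlinarith
  have hB : 2 * ((((g * t + 1 + g * m : ℕ) : ℝ)) * w₀) ≤ ε * w ^ (4 / 5 : ℝ) := by
    rw [div_le_iff₀ hε0] at hb4
    linarith
  have hCC : w ^ (2 / 3 : ℝ) ≤ δ * ε * w := by
    rw [div_le_iff₀ (by positivity)] at hb5
    calc w ^ (2 / 3 : ℝ) = w ^ (2 / 3 : ℝ) * 1 := by ring
      _ ≤ w ^ (2 / 3 : ℝ) * (w ^ (1 / 3 : ℝ) * (δ * ε)) :=
        mul_le_mul_of_nonneg_left hb5 hw23.le
      _ = (w ^ (2 / 3 : ℝ) * w ^ (1 / 3 : ℝ)) * (δ * ε) := by ring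
      _ = δ * ε * w := by rw [hp3]; ring
  have hCs : CG / s ≤ w ^ (-(1 / 5) : ℝ) := by
    have h1 : CG / s ≤ CG / (c₁ * w) := by gcongr
    have h2 : CG / (c₁ * w) = (CG / c₁) / w := by rw [div_div]
    have h3 : (CG / c₁) / w ≤ w ^ (4 / 5 : ℝ) / w := by gcongr
    have h4 : w ^ (4 / 5 : ℝ) / w = w ^ (-(1 / 5) : ℝ) := by
      rw [← hp1]; field_simp
    linarith
  have hCsw : CG / s ≤ CG / c₁ / w := by
    rw [div_div]; gcongr
  obtain ⟨hg1, hg2, hg3, hg4⟩ := hG (V := V) (nC := t * s) (s := s) hs0 rfl c hc hc0 Z B hZ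
  obtain ⟨X, hX⟩ : ∃ X : ℝ, X = ((t * s : ℕ) : ℝ) ^ (g * t - 1) * (s : ℝ) ^ g := ⟨_, rfl⟩
  have hX0 : 0 < X := by rw [hX]; positivity
  rw [← hX] at hg2 hg3 hg4 hload
  have hDX : (g : ℝ) * t * ((t * s : ℕ) : ℝ) ^ (g * t - 1) * (s : ℝ) ^ g = g * t * X := by
    rw [hX]; ring
  rw [hDX] at hg2
  have hgt : (1 : ℝ) ≤ g * t := by nlinarith
  have hXD : X ≤ g * t * X := by nlinarith
  have hD0 : 0 < (g : ℝ) * t * X := by positivity
  have key := hnib (V := V) (Res := Fin (t * s) ⊕ Fin s) (ι := Tp g t (t * s) s)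
    (univ.filter fun τ => Good c Z τ) res (offs c Z)
    (fun κ => univ.filter fun u => lab u ∈ Λ κ ∧ u ∉ wy) (g * t * X) hKn
    (by
      rw [Fintype.card_sum, Fintype.card_fin, Fintype.card_fin]
      refine le_trans ?_ hsV
      nlinarith)
    hD0
    (by
      intro τ hτ
      obtain ⟨h1, h2⟩ := hg1 τ (mem_filter.1 hτ).2
      exact ⟨h1.le, h2⟩)
    (by
      intro a
      have h1 := hg2 a
      refine le_trans (le_of_eq ?_) (h1.trans ?_)
      · congr!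
      · rw [← hw]
        calc CG * X / s = (CG / s) * X := by ring
          _ ≤ w ^ (-(1 / 5) : ℝ) * X := by gcongr
          _ ≤ w ^ (-(1 / 5) : ℝ) * (g * t * X) := by gcongr
          _ = g * t * X * w ^ (-(1 / 5) : ℝ) := by ring)
    (by
      intro a a' haa
      have h1 := hg3 a a' haa
      refine le_trans (le_of_eq ?_) (h1.trans ?_)
      · congr!
      · rw [← hw]
        calc CG * X / s = (CG / s) * X := by ring
          _ ≤ (CG / c₁ / w) * X := by gcongr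
          _ ≤ ((CG / c₁ + CG) / w) * (g * t * X) := by gcongr; linarith
          _ = _ := by ring)
    (by
      intro y hy
      have h1 := hg4 y hy
      refine le_trans (le_of_eq ?_) (h1.trans ?_)
      · congr!
      · have h2 : 0 ≤ CG / c₁ := by positivity
        calc CG * X ≤ (CG / c₁ + CG) * X := by gcongr; linarith
          _ ≤ _ := by gcongr)
    (by
      intro κ τ hτ
      have hgood : Good c Z τ := (mem_filter.1 hτ).2
      have h1 := hlab κ τ hgood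
      have h2 := PA_wy (offs c Z τ) wy lab (Λ κ) (g * t + 1 + g * m) w₀
        (hg1 τ hgood).2 hwy
      have h3 : (univ.filter fun v => ∀ o ∈ offs c Z τ, v + o ∈
          (univ.filter fun u => lab u ∈ Λ κ ∧ u ∉ wy)) =
          (univ.filter fun v => ∀ o ∈ offs c Z τ, lab (v + o) ∈ Λ κ ∧ v + o ∉ wy) := by
        ext v
        simp only [mem_filter, mem_univ, true_and]
      have h4 : ((univ.filter fun v => ∀ o ∈ offs c Z τ, lab (v + o) ∈ Λ κ ∧
          v + o ∉ wy).card : ℝ) ≤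
          ((univ.filter fun v => ∀ o ∈ offs c Z τ, lab (v + o) ∈ Λ κ).card : ℝ) := by
        have : (univ.filter fun v => ∀ o ∈ offs c Z τ, lab (v + o) ∈ Λ κ ∧ v + o ∉ wy) ⊆
            (univ.filter fun v => ∀ o ∈ offs c Z τ, lab (v + o) ∈ Λ κ) := by
          intro v hv
          simp only [mem_filter, mem_univ, true_and] at hv ⊢
          exact fun o ho => (hv o ho).1
        exact_mod_cast card_le_card this
      rw [h3, ← hw]
      have h5 : w ^ (2 / 3 : ℝ) + ((g * t + 1 + g * m : ℕ) : ℝ) * w₀ ≤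
          mu κ ^ (g * t + 1 + g * m) * w * w ^ (-(1 / 5) : ℝ) := by
        rw [mul_assoc, hp1]
        have h6 : ε * w ^ (4 / 5 : ℝ) ≤ mu κ ^ (g * t + 1 + g * m) * w ^ (4 / 5 : ℝ) := by
          gcongr
          exact hmuq κ
        linarith
      refine le_trans ?_ h5
      rw [abs_le] at h1 ⊢
      have h7 : (0 : ℝ) ≤ ((g * t + 1 + g * m : ℕ) : ℝ) * w₀ := by positivity
      constructor
      · linarith [h1.1, h1.2]
      · linarith [h1.1, h1.2])
    (by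
      intro κ u hu
      have h1 := hload κ u
      have h2 : (∑ τ ∈ (univ.filter fun τ : Tp g t (t * s) s => Good c Z τ),
          (((offs c Z τ).filter fun o => ∀ o' ∈ offs c Z τ, u - o + o' ∈
            (univ.filter fun u => lab u ∈ Λ κ ∧ u ∉ wy)).card : ℝ)) ≤
          (∑ τ ∈ (univ.filter fun τ : Tp g t (t * s) s => Good c Z τ),
            (((offs c Z τ).filter fun o => ∀ o' ∈ offs c Z τ, o' ≠ o →
              lab (u - o + o') ∈ Λ κ).card : ℝ)) := by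
        refine sum_le_sum fun τ _ => ?_
        have : ((offs c Z τ).filter fun o => ∀ o' ∈ offs c Z τ, u - o + o' ∈
            (univ.filter fun u => lab u ∈ Λ κ ∧ u ∉ wy)) ⊆
            ((offs c Z τ).filter fun o => ∀ o' ∈ offs c Z τ, o' ≠ o →
              lab (u - o + o') ∈ Λ κ) := by
          intro o ho
          simp only [mem_filter, mem_univ, true_and] at ho ⊢
          exact ⟨ho.1, fun o' ho' _ => (ho.2 o' ho').1⟩
        exact_mod_cast card_le_card this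
      have h3 := mul_le_mul_of_nonneg_left (h2.trans h1) (hf κ)
      refine h3.trans ?_
      rw [← hw]
      have h4 := hfs κ
      have h5 := hmup κ
      have h6 : ((t * s : ℕ) : ℝ) ^ (g * t) = ((t * s : ℕ) : ℝ) ^ (g * t - 1) * (t * s) := by
        have : g * t = (g * t - 1) + 1 := by
          have : 1 ≤ g * t := by nlinarith
          omega
        conv_lhs => rw [this, pow_succ]
        push_cast
        ring
      have h7 : ((g * t + 1 + g * m : ℕ) : ℝ) * ((t * s : ℕ) : ℝ) ^ (g * t) * (s : ℝ) ^ g =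
          X * (g * t) * (t * s + m * s + (s : ℝ) / g) := by
        rw [h6, hX]
        push_cast
        field_simp
        ring
      rw [h7]
      have h8 : f κ * (t * s + m * s + (s : ℝ) / g) * (mu κ ^ (g * t + g * m) * (X * (g * t))) ≤
          (1 - δ) * mu κ * w * (mu κ ^ (g * t + g * m) * (X * (g * t))) :=
        mul_le_mul_of_nonneg_right h4 (by positivity)
      have h9 : mu κ ^ (g * t + 1 + g * m) = mu κ ^ (g * t + g * m) * mu κ := by
        rw [← pow_succ]; congr 1; ring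
      have h10 : f κ * (X * w ^ (2 / 3 : ℝ)) ≤ δ * mu κ ^ (g * t + 1 + g * m) * w *
          (X * (g * t)) := by
        have ha : f κ * (X * w ^ (2 / 3 : ℝ)) ≤ 1 * (X * w ^ (2 / 3 : ℝ)) :=
          mul_le_mul_of_nonneg_right (hf1' κ) (by positivity)
        have hb : X * w ^ (2 / 3 : ℝ) ≤ X * (δ * mu κ ^ (g * t + 1 + g * m) * w) := by
          refine mul_le_mul_of_nonneg_left (hCC.trans ?_) hX0.le
          have := hmuq κ
          gcongr
        have hc : X * (δ * mu κ ^ (g * t + 1 + g * m) * w) ≤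
            X * (δ * mu κ ^ (g * t + 1 + g * m) * w) * (g * t) := by
          have : 0 ≤ X * (δ * mu κ ^ (g * t + 1 + g * m) * w) := by positivity
          nlinarith
        calc _ ≤ _ := ha
          _ = X * w ^ (2 / 3 : ℝ) := by ring
          _ ≤ _ := hb
          _ ≤ _ := hc
          _ = _ := by ring
      rw [h9] at h10 ⊢
      calc f κ * (mu κ ^ (g * t + g * m) * (X * (g * t) * (t * s + m * s + (s : ℝ) / g)) +
            X * w ^ (2 / 3 : ℝ))
          = f κ * (t * s + m * s + (s : ℝ) / g) * (mu κ ^ (g * t + g * m) * (X * (g * t))) +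
            f κ * (X * w ^ (2 / 3 : ℝ)) := by ring
        _ ≤ (1 - δ) * mu κ * w * (mu κ ^ (g * t + g * m) * (X * (g * t))) +
            δ * (mu κ ^ (g * t + g * m) * mu κ) * w * (X * (g * t)) := add_le_add h8 h10
        _ = _ := by ring)
  obtain ⟨𝓓, hd1, hd2, hd3⟩ := key
  refine ⟨𝓓, ?_, ?_, ?_⟩
  · intro e he
    obtain ⟨h1, h2⟩ := hd1 e he
    refine ⟨(mem_filter.1 h1).2, fun o ho => ?_⟩
    have := h2 o ho
    simpa only [mem_filter, mem_univ, true_and] using this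
  · exact hd2
  · refine le_trans (le_of_eq ?_) hd3
    congr!

end Pool.Agent.SDN
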