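import Pool.Agent.Lib_helper26.SDN.Defs

/-! Block CT (project SDN), helper89. -/

namespace Pool.Agent.SDN

open Finset

theorem CT_card {V : Type*} [AddCommGroup V] (R : Finset V) (m : ℕ) (S : Finset (Fin m → V))
    (a b : Fin m) (hab : a ≠ b) (hS : ∀ t ∈ S, ∀ i, t i ∈ R)
    (hinj : ∀ t ∈ S, ∀ t' ∈ S, (∀ i, i ≠ a → i ≠ b → t i = t' i) → t = t') :
    S.card ≤ R.card ^ (m - 2) := by
  classical
  have h1 : (Fintype.piFinset fun i : Fin m =>
      if i ∈ ({a, b} : Finset (Fin m)) then ({0} : Finset V) else R).card = R.card ^ (m - 2) := by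
    rw [Fintype.card_piFinset]
    have h2 : ∀ i : Fin m, (if i ∈ ({a, b} : Finset (Fin m)) then ({0} : Finset V) else R).card =
        if i ∈ ({a, b} : Finset (Fin m)) then 1 else R.card := by
      intro i
      split_ifs
      · rfl
      · rfl
    rw [Finset.prod_congr rfl (fun i _ => h2 i), Finset.prod_ite, Finset.prod_const_one, one_mul,
      Finset.prod_const]
    congr 1
    have h3 : (univ.filter fun i : Fin m => i ∉ ({a, b} : Finset (Fin m))) =
        ({a, b} : Finset (Fin m))ᶜ := by
      ext i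
      simp
    rw [h3, Finset.card_compl, Fintype.card_fin, Finset.card_pair hab]
  rw [← h1]
  apply Finset.card_le_card_of_injOn
    (fun t i => if i ∈ ({a, b} : Finset (Fin m)) then (0 : V) else t i)
  · intro t ht
    simp only [Finset.mem_coe, Fintype.mem_piFinset]
    intro i
    split_ifs with hi
    · exact Finset.mem_singleton_self 0
    · exact hS t ht i
  · intro t ht t' ht' heq
    refine hinj t ht t' ht' fun i hia hib => ?_
    have := congrFun heq i
    simpa [hia, hib] using this

/-- sums which agree off one place -/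
theorem CT_sum {V : Type*} [AddCommGroup V] {m : ℕ} (W : Finset (Fin m)) (t t' : Fin m → V)
    (a : Fin m) (ha : a ∈ W) (h : ∀ i ∈ W, i ≠ a → t i = t' i)
    (hs : ∑ i ∈ W, t i = ∑ i ∈ W, t' i) : t a = t' a := by
  classical
  rw [← Finset.add_sum_erase W t ha, ← Finset.add_sum_erase W t' ha,
    Finset.sum_congr rfl (fun i hi => h i (Finset.mem_of_mem_erase hi)
      (Finset.ne_of_mem_erase hi))] at hs
  exact add_right_cancel hs

open Classical in
theorem count_two {V : Type*} [AddCommGroup V] (R : Finset V) (m : ℕ) (W : Finset (Fin m))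
    (hW : W.Nonempty) (hW' : W ≠ univ) (y c : V) :
    ((Fintype.piFinset fun _ : Fin m => R).filter fun t =>
      ∑ i, t i = y ∧ ∑ i ∈ W, t i = c).card ≤ R.card ^ (m - 2) := by
  obtain ⟨a, ha⟩ := hW
  obtain ⟨b, hb⟩ : ∃ b, b ∉ W := by
    by_contra h
    exact hW' (Finset.eq_univ_iff_forall.2 fun b => not_not.1 fun hb => h ⟨b, hb⟩)
  have hab : a ≠ b := fun h => hb (h ▸ ha)
  refine CT_card R m _ a b hab ?_ ?_
  · intro t ht i
    exact Fintype.mem_piFinset.1 (Finset.mem_filter.1 ht).1 i
  · intro t ht t' ht' h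
    obtain ⟨-, h1, h2⟩ := Finset.mem_filter.1 ht
    obtain ⟨-, h1', h2'⟩ := Finset.mem_filter.1 ht'
    have e1 : t a = t' a := CT_sum W t t' a ha (fun i hi hia => h i hia fun hib => hb (hib ▸ hi))
      (h2.trans h2'.symm)
    have e2 : t b = t' b := CT_sum univ t t' b (Finset.mem_univ b) (fun i _ hib => by
      by_cases hia : i = a
      · rw [hia, e1]
      · exact h i hia hib) (h1.trans h1'.symm)
    funext i
    by_cases hia : i = a
    · rw [hia, e1]
    · by_cases hib : i = b
      · rw [hib, e2]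
      · exact h i hia hib

open Classical in
theorem count_eq {V : Type*} [AddCommGroup V] (R : Finset V) (m : ℕ) (hm : 3 ≤ m)
    (i j : Fin m) (hij : i ≠ j) (y : V) :
    ((Fintype.piFinset fun _ : Fin m => R).filter fun t =>
      ∑ i, t i = y ∧ t i = t j).card ≤ R.card ^ (m - 2) := by
  obtain ⟨l, hl⟩ : ∃ l, l ∉ ({i, j} : Finset (Fin m)) := by
    by_contra h
    have h1 : ({i, j} : Finset (Fin m)) = univ :=
      Finset.eq_univ_iff_forall.2 fun b => not_not.1 fun hb => h ⟨b, hb⟩
    have h2 := congrArg Finset.card h1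
    rw [Finset.card_univ, Fintype.card_fin, Finset.card_pair hij] at h2
    omega
  have hli : l ≠ i := fun h => hl (by simp [h])
  have hlj : l ≠ j := fun h => hl (by simp [h])
  refine CT_card R m _ j l hlj.symm ?_ ?_
  · intro t ht i
    exact Fintype.mem_piFinset.1 (Finset.mem_filter.1 ht).1 i
  · intro t ht t' ht' h
    obtain ⟨-, h1, h2⟩ := Finset.mem_filter.1 ht
    obtain ⟨-, h1', h2'⟩ := Finset.mem_filter.1 ht'
    have e1 : t j = t' j := by rw [← h2, ← h2', h i hij hli.symm]
    have e2 : t l = t' l := CT_sum univ t t' l (Finset.mem_univ l) (fun r _ hrl => by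
      by_cases hrj : r = j
      · rw [hrj, e1]
      · exact h r hrj hrl) (h1.trans h1'.symm)
    funext r
    by_cases hrj : r = j
    · rw [hrj, e1]
    · by_cases hrl : r = l
      · rw [hrl, e2]
      · exact h r hrj hrl

end Pool.Agent.SDN
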