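import Pool.Agent.Lib_helper26.SDN.Defs

/-! Block GR (project SDN), helper89. -/

namespace Pool.Agent.SDN

open Finset

open Classical in
theorem greedy {ι : Type*} (X : Finset ι) (C : ι → ι → Prop) (Δ s : ℕ)
    (hC : ∀ a ∈ X, (X.filter fun b => C a b).card ≤ Δ) (hs : s * (Δ + 1) ≤ X.card) :
    ∃ f : Fin s → ι, (∀ i, f i ∈ X) ∧ Function.Injective f ∧
      ∀ i j, i < j → ¬ C (f i) (f j) := by
  induction s with
  | zero => exact ⟨Fin.elim0, fun i => i.elim0, fun i => i.elim0, fun i => i.elim0⟩
  | succ s ih =>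
    have hs' : s * (Δ + 1) + (Δ + 1) ≤ X.card := by
      rw [← Nat.succ_mul]
      exact hs
    obtain ⟨f, h1, h2, h3⟩ := ih (by omega)
    let F : Finset ι := univ.biUnion fun i : Fin s => insert (f i) (X.filter fun b => C (f i) b)
    have hF : F.card ≤ s * (Δ + 1) := by
      calc F.card ≤ ∑ i : Fin s, (insert (f i) (X.filter fun b => C (f i) b)).card :=
            Finset.card_biUnion_le
        _ ≤ ∑ _i : Fin s, (Δ + 1) := Finset.sum_le_sum fun i _ =>
            (Finset.card_insert_le _ _).trans (Nat.succ_le_succ (hC _ (h1 i)))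
        _ = s * (Δ + 1) := by simp
    obtain ⟨x, hx, hxF⟩ : ∃ x ∈ X, x ∉ F := Finset.exists_mem_notMem_of_card_lt_card (by omega)
    have hx1 : ∀ i, f i ≠ x := fun i h => hxF (Finset.mem_biUnion.2 ⟨i, Finset.mem_univ i,
      Finset.mem_insert.2 (Or.inl h.symm)⟩)
    have hx2 : ∀ i, ¬ C (f i) x := fun i h => hxF (Finset.mem_biUnion.2 ⟨i, Finset.mem_univ i,
      Finset.mem_insert.2 (Or.inr (Finset.mem_filter.2 ⟨hx, h⟩))⟩)
    refine ⟨Fin.snoc f x, fun i => ?_, ?_, fun i j => ?_⟩
    · refine Fin.lastCases ?_ (fun i => ?_) i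
      · rw [Fin.snoc_last]
        exact hx
      · rw [Fin.snoc_castSucc]
        exact h1 i
    · intro i j
      refine Fin.lastCases ?_ (fun i => ?_) i
      · refine Fin.lastCases (fun _ => rfl) (fun j hij => ?_) j
        rw [Fin.snoc_last, Fin.snoc_castSucc] at hij
        exact absurd hij.symm (hx1 j)
      · refine Fin.lastCases (fun hij => ?_) (fun j hij => ?_) j
        · rw [Fin.snoc_last, Fin.snoc_castSucc] at hij
          exact absurd hij (hx1 i)
        · rw [Fin.snoc_castSucc, Fin.snoc_castSucc] at hij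
          rw [h2 hij]
    · refine Fin.lastCases (fun hij => ?_) (fun i => ?_) i
      · exact absurd (Fin.le_last j) (not_le.2 hij)
      · refine Fin.lastCases (fun _ => ?_) (fun j hij => ?_) j
        · rw [Fin.snoc_last, Fin.snoc_castSucc]
          exact hx2 i
        · rw [Fin.snoc_castSucc, Fin.snoc_castSucc]
          exact h3 i j (by simpa using hij)

end Pool.Agent.SDN
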