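import Pool.Agent.Lib_helper26.SDN.Defs
import Pool.Agent.Lib_helper26.SDN.CT
import Pool.Agent.Lib_helper26.SDN.GR

/-! Block FM (project SDN): families of tuples in general position. -/

namespace Pool.Agent.SDN

open Finset

theorem FM_win {V : Type*} [AddCommGroup V] {m : ℕ} (y : Fin m → V) {i j : ℕ} (hij : i ≤ j) :
    P y j - P y i = ∑ k ∈ univ.filter (fun k : Fin m => i ≤ (k : ℕ) ∧ (k : ℕ) < j), y k := by
  classical
  unfold P
  rw [Finset.sum_filter, ← Finset.sum_sub_distrib]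
  refine Finset.sum_congr rfl fun k _ => ?_
  by_cases h1 : (k : ℕ) < i
  · have h2 : (k : ℕ) < j := by omega
    have h3 : ¬ (i ≤ (k : ℕ) ∧ (k : ℕ) < j) := by omega
    rw [if_pos h2, if_pos h1, if_neg h3, sub_self]
  · by_cases h2 : (k : ℕ) < j
    · have h3 : i ≤ (k : ℕ) ∧ (k : ℕ) < j := by omega
      rw [if_pos h2, if_neg h1, if_pos h3, sub_zero]
    · have h3 : ¬ (i ≤ (k : ℕ) ∧ (k : ℕ) < j) := by omega
      rw [if_neg h2, if_neg h1, if_neg h3, sub_zero]

theorem FM_tot {V : Type*} [AddCommGroup V] {m : ℕ} (y : Fin m → V) : P y m = ∑ i, y i := by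
  unfold P
  exact Finset.sum_congr rfl fun k _ => if_pos k.2

theorem FM_zero {V : Type*} [AddCommGroup V] {m : ℕ} (y : Fin m → V) : P y 0 = 0 := by
  unfold P
  exact Finset.sum_eq_zero fun k _ => if_neg (Nat.not_lt_zero _)

open Classical in
theorem FM_cnt {V : Type*} [AddCommGroup V] (R : Finset V) (m : ℕ) (y c : V) (i j : ℕ)
    (hij : i < j) (hj : j ≤ m) (hp : ¬ (i = 0 ∧ j = m)) :
    ((Fintype.piFinset fun _ : Fin m => R).filter fun t =>
      ∑ k, t k = y ∧ P t j - P t i = c).card ≤ R.card ^ (m - 2) := by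
  have hW : (univ.filter (fun k : Fin m => i ≤ (k : ℕ) ∧ (k : ℕ) < j)).Nonempty :=
    ⟨⟨i, by omega⟩, by simp [hij]⟩
  have hW' : (univ.filter (fun k : Fin m => i ≤ (k : ℕ) ∧ (k : ℕ) < j)) ≠ univ := by
    intro h
    rcases Nat.eq_zero_or_pos i with h0 | h0
    · have hjm : j < m := by
        rcases Nat.lt_or_ge j m with h1 | h1
        · exact h1
        · exact absurd ⟨h0, by omega⟩ hp
      have : (⟨j, hjm⟩ : Fin m) ∈ univ.filter (fun k : Fin m => i ≤ (k : ℕ) ∧ (k : ℕ) < j) := by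
        rw [h]; exact mem_univ _
      simp at this
    · have : (⟨0, by omega⟩ : Fin m) ∈ univ.filter (fun k : Fin m => i ≤ (k : ℕ) ∧ (k : ℕ) < j) := by
        rw [h]; exact mem_univ _
      simp at this
      omega
  have h := count_two R m _ hW hW' y c
  refine le_trans (le_of_eq ?_) h
  congr 1
  ext t
  simp only [mem_filter, FM_win t hij.le]

open Classical in
theorem fam {V : Type*} [AddCommGroup V] (R : Finset V) (h0 : (0 : V) ∉ R)
    (hR : R.Nonempty) (y : V) (m s : ℕ) (hm : 3 ≤ m) (hs : (s + 1) * (4 * m ^ 2 * R.card ^ (m - 2)) ≤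
      ((Fintype.piFinset fun _ : Fin m => R).filter fun t => ∑ i, t i = y).card) :
    ∃ Z : Fin s → Fin m → V, Fam R y Z := by
  set n := R.card ^ (m - 2) with hn
  have hn1 : 1 ≤ n := Nat.one_le_pow _ _ (Finset.card_pos.mpr hR)
  set T := (Fintype.piFinset fun _ : Fin m => R).filter fun t => ∑ i, t i = y with hT
  let good : (Fin m → V) → Prop := fun t => Function.Injective t ∧
    ∀ i j, i < j → j ≤ m → ¬ (i = 0 ∧ j = m) → P t i ≠ P t j
  set X := T.filter good with hX
  -- bad tuples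
  let A : Finset (Fin m × Fin m) := univ
  let B : Finset (ℕ × ℕ) := range m ×ˢ range (m + 1)
  let fA : Fin m × Fin m → Finset (Fin m → V) := fun p =>
    T.filter fun t => p.1 ≠ p.2 ∧ t p.1 = t p.2
  let fB : ℕ × ℕ → Finset (Fin m → V) := fun p =>
    T.filter fun t => (p.1 < p.2 ∧ p.2 ≤ m ∧ ¬ (p.1 = 0 ∧ p.2 = m)) ∧ P t p.2 - P t p.1 = 0
  have hA : ∀ p ∈ A, (fA p).card ≤ n := by
    intro p _
    by_cases hp : p.1 = p.2
    · have : fA p = ∅ := by
        ext t; simp [fA, hp]
      rw [this]; simp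
    · refine le_trans (Finset.card_le_card ?_) (count_eq R m hm p.1 p.2 hp y)
      intro t ht
      simp only [fA, hT, mem_filter] at ht ⊢
      exact ⟨ht.1.1, ht.1.2, ht.2.2⟩
  have hB : ∀ p ∈ B, (fB p).card ≤ n := by
    intro p _
    by_cases hp : p.1 < p.2 ∧ p.2 ≤ m ∧ ¬ (p.1 = 0 ∧ p.2 = m)
    · refine le_trans (Finset.card_le_card ?_) (FM_cnt R m y 0 p.1 p.2 hp.1 hp.2.1 hp.2.2)
      intro t ht
      simp only [fB, hT, mem_filter] at ht ⊢
      exact ⟨ht.1.1, ht.1.2, ht.2.2⟩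
    · have : fB p = ∅ := by
        ext t; simp only [fB, mem_filter, Finset.notMem_empty, iff_false]
        exact fun h => hp h.2.1
      rw [this]; simp
  have hcov : T ⊆ X ∪ (A.biUnion fA ∪ B.biUnion fB) := by
    intro t ht
    by_cases hg : good t
    · exact mem_union_left _ (mem_filter.mpr ⟨ht, hg⟩)
    · refine mem_union_right _ ?_
      by_cases hi : Function.Injective t
      · refine mem_union_right _ ?_
        have : ∃ i j, i < j ∧ j ≤ m ∧ ¬ (i = 0 ∧ j = m) ∧ P t i = P t j := by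
          by_contra hcon
          push Not at hcon
          exact hg ⟨hi, fun i j h1 h2 h3 h4 => hcon i j h1 h2 (fun h5 => fun h6 => h3 ⟨h5, h6⟩) h4⟩
        obtain ⟨i, j, h1, h2, h3, h4⟩ := this
        refine mem_biUnion.mpr ⟨(i, j), ?_, ?_⟩
        · simp only [B, mem_product, mem_range]; omega
        · simp only [fB, mem_filter]
          exact ⟨ht, ⟨h1, h2, h3⟩, by rw [h4, sub_self]⟩
      · refine mem_union_left _ ?_
        rw [Function.Injective] at hi
        push Not at hi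
        obtain ⟨i, j, h1, h2⟩ := hi
        refine mem_biUnion.mpr ⟨(i, j), mem_univ _, ?_⟩
        simp only [fA, mem_filter]
        exact ⟨ht, h2, h1⟩
  have hcX : T.card ≤ X.card + (m * m * n + m * (m + 1) * n) := by
    have h1 := Finset.card_le_card hcov
    have h2 := Finset.card_union_le X (A.biUnion fA ∪ B.biUnion fB)
    have h3 := Finset.card_union_le (A.biUnion fA) (B.biUnion fB)
    have h4 := Finset.card_biUnion_le_card_mul A fA n hA
    have h5 := Finset.card_biUnion_le_card_mul B fB n hB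
    have h6 : A.card = m * m := by simp [A]
    have h7 : B.card = m * (m + 1) := by simp [B]
    rw [h6] at h4
    rw [h7] at h5
    omega
  -- conflicts
  let C : (Fin m → V) → (Fin m → V) → Prop := fun t t' =>
    (∃ i i', t i = t' i') ∨
    (∃ i j, i < j ∧ j ≤ m ∧ ¬ (i = 0 ∧ j = m) ∧ P t j - P t i = P t' j - P t' i) ∨
    (∃ i j, 0 < i ∧ i < m ∧ 0 < j ∧ j < m ∧ P t i = P t' j)
  have hCsymm : ∀ t t', C t t' → C t' t := by
    rintro t t' (⟨i, i', h⟩ | ⟨i, j, h1, h2, h3, h4⟩ | ⟨i, j, h1, h2, h3, h4, h5⟩)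
    · exact Or.inl ⟨i', i, h.symm⟩
    · exact Or.inr (Or.inl ⟨i, j, h1, h2, h3, h4.symm⟩)
    · exact Or.inr (Or.inr ⟨j, i, h3, h4, h1, h2, h5.symm⟩)
  have hC : ∀ a ∈ X, (X.filter fun b => C a b).card ≤ (3 * m ^ 2 + m) * n := by
    intro a _
    let gA : Fin m × Fin m → Finset (Fin m → V) := fun p => T.filter fun t => a p.1 = t p.2
    let gB : ℕ × ℕ → Finset (Fin m → V) := fun p =>
      T.filter fun t => (p.1 < p.2 ∧ p.2 ≤ m ∧ ¬ (p.1 = 0 ∧ p.2 = m)) ∧
        P a p.2 - P a p.1 = P t p.2 - P t p.1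
    let D : Finset (ℕ × ℕ) := range m ×ˢ range m
    let gD : ℕ × ℕ → Finset (Fin m → V) := fun p =>
      T.filter fun t => (0 < p.2 ∧ p.2 < m) ∧ P a p.1 = P t p.2
    have hgA : ∀ p ∈ A, (gA p).card ≤ n := by
      intro p _
      have hne : ({p.2} : Finset (Fin m)) ≠ univ := by
        intro h
        have h1 : ({p.2} : Finset (Fin m)).card = (univ : Finset (Fin m)).card := by rw [h]
        simp at h1
        omega
      refine le_trans (Finset.card_le_card ?_)
        (count_two R m {p.2} (singleton_nonempty _) hne y (a p.1))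
      intro t ht
      simp only [gA, hT, mem_filter, sum_singleton] at ht ⊢
      exact ⟨ht.1.1, ht.1.2, ht.2.symm⟩
    have hgB : ∀ p ∈ B, (gB p).card ≤ n := by
      intro p _
      by_cases hp : p.1 < p.2 ∧ p.2 ≤ m ∧ ¬ (p.1 = 0 ∧ p.2 = m)
      · refine le_trans (Finset.card_le_card ?_)
          (FM_cnt R m y (P a p.2 - P a p.1) p.1 p.2 hp.1 hp.2.1 hp.2.2)
        intro t ht
        simp only [gB, hT, mem_filter] at ht ⊢
        exact ⟨ht.1.1, ht.1.2, ht.2.2.symm⟩
      · have : gB p = ∅ := by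
          ext t; simp only [gB, mem_filter, Finset.notMem_empty, iff_false]
          exact fun h => hp h.2.1
        rw [this]; simp
    have hgD : ∀ p ∈ D, (gD p).card ≤ n := by
      intro p _
      by_cases hp : 0 < p.2 ∧ p.2 < m
      · refine le_trans (Finset.card_le_card ?_)
          (FM_cnt R m y (P a p.1) 0 p.2 hp.1 hp.2.le (by omega))
        intro t ht
        simp only [gD, hT, mem_filter] at ht ⊢
        refine ⟨ht.1.1, ht.1.2, ?_⟩
        rw [FM_zero, sub_zero]
        exact ht.2.2.symm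
      · have : gD p = ∅ := by
          ext t; simp only [gD, mem_filter, Finset.notMem_empty, iff_false]
          exact fun h => hp h.2.1
        rw [this]; simp
    have hsub : (X.filter fun b => C a b) ⊆ A.biUnion gA ∪ (B.biUnion gB ∪ D.biUnion gD) := by
      intro b hb
      rw [mem_filter] at hb
      have hbT : b ∈ T := (mem_filter.mp hb.1).1
      rcases hb.2 with ⟨i, i', h⟩ | ⟨i, j, h1, h2, h3, h4⟩ | ⟨i, j, h1, h2, h3, h4, h5⟩
      · refine mem_union_left _ (mem_biUnion.mpr ⟨(i, i'), mem_univ _, ?_⟩)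
        exact mem_filter.mpr ⟨hbT, h⟩
      · refine mem_union_right _ (mem_union_left _ (mem_biUnion.mpr ⟨(i, j), ?_, ?_⟩))
        · simp only [B, mem_product, mem_range]; omega
        · exact mem_filter.mpr ⟨hbT, ⟨h1, h2, h3⟩, h4⟩
      · refine mem_union_right _ (mem_union_right _ (mem_biUnion.mpr ⟨(i, j), ?_, ?_⟩))
        · simp only [D, mem_product, mem_range]; omega
        · exact mem_filter.mpr ⟨hbT, ⟨h3, h4⟩, h5⟩
    have h1 := Finset.card_le_card hsub
    have h2 := Finset.card_union_le (A.biUnion gA) (B.biUnion gB ∪ D.biUnion gD)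
    have h3 := Finset.card_union_le (B.biUnion gB) (D.biUnion gD)
    have h4 := Finset.card_biUnion_le_card_mul A gA n hgA
    have h5 := Finset.card_biUnion_le_card_mul B gB n hgB
    have h6 := Finset.card_biUnion_le_card_mul D gD n hgD
    have h7 : A.card = m * m := by simp [A]
    have h8 : B.card = m * (m + 1) := by simp [B]
    have h9 : D.card = m * m := by simp [D]
    rw [h7] at h4
    rw [h8] at h5
    rw [h9] at h6
    have h10 : (3 * m ^ 2 + m) * n = m * m * n + (m * (m + 1) * n + m * m * n) := by ring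
    omega
  have hsX : s * ((3 * m ^ 2 + m) * n + 1) ≤ X.card := by
    have e0 : m + 1 ≤ m ^ 2 := by nlinarith
    have e1 : (3 * m ^ 2 + m) * n + 1 ≤ 4 * m ^ 2 * n := by
      calc (3 * m ^ 2 + m) * n + 1 ≤ (3 * m ^ 2 + m) * n + n := by omega
        _ = (3 * m ^ 2 + (m + 1)) * n := by ring
        _ ≤ (3 * m ^ 2 + m ^ 2) * n := Nat.mul_le_mul_right _ (by omega)
        _ = 4 * m ^ 2 * n := by ring
    have e2 : s * ((3 * m ^ 2 + m) * n + 1) ≤ s * (4 * m ^ 2 * n) := Nat.mul_le_mul_left _ e1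
    have e3 : m * m * n + m * (m + 1) * n ≤ 4 * m ^ 2 * n := by nlinarith
    have e4 : (s + 1) * (4 * m ^ 2 * n) = s * (4 * m ^ 2 * n) + 4 * m ^ 2 * n := by ring
    omega
  obtain ⟨f, hf1, hf2, hf3⟩ := greedy X C _ s (fun a ha => by convert hC a ha) hsX
  have hno : ∀ z z', z ≠ z' → ¬ C (f z) (f z') := by
    intro z z' hz
    rcases lt_or_gt_of_ne hz with h | h
    · exact hf3 z z' h
    · exact fun hc => hf3 z' z h (hCsymm _ _ hc)
  have hfT : ∀ z, f z ∈ T := fun z => (mem_filter.mp (hf1 z)).1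
  have hfg : ∀ z, good (f z) := fun z => (mem_filter.mp (hf1 z)).2
  refine ⟨f, ⟨?_, ?_, ?_, ?_, ?_, ?_⟩⟩
  · intro z i
    exact Fintype.mem_piFinset.mp (mem_filter.mp (hfT z)).1 i
  · intro z z' i i' h
    by_cases hz : z = z'
    · subst hz
      exact ⟨rfl, (hfg z).1 h⟩
    · exact absurd (Or.inl ⟨i, i', h⟩) (hno z z' hz)
  · intro z
    rw [FM_tot]
    exact (mem_filter.mp (hfT z)).2
  · intro z i j h1 h2 h3
    exact (hfg z).2 i j h1 h2 h3
  · intro z z' i j hz h1 h2 h3 h4
    exact hno z z' hz (Or.inr (Or.inl ⟨i, j, h1, h2, h3, h4⟩))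
  · intro z z' i j hz h1 h2 h3 h4 h5
    exact hno z z' hz (Or.inr (Or.inr ⟨i, j, h1, h2, h3, h4, h5⟩))

end Pool.Agent.SDN
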