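import Pool.Agent.Lib_helper26.SDN.Defs
import Pool.Agent.Lib_helper26.SLD.FR

/-! Block RP (project SDN), helper89. -/

namespace Pool.Agent.SDN

open Finset

open Classical in
theorem rep_coset (α β : ℝ) (hα : 0 < α) (hβ : 0 < β) : ∃ m₀ : ℕ, ∀ m ≥ m₀,
    ∀ {V : Type*} [AddCommGroup V] [Fintype V] (H : AddSubgroup V) (x : V) (B : Finset V),
      (∀ b ∈ B, b - x ∈ H) → α * Nat.card H ≤ B.card → B.Nonempty → Spr H β B →
      ∀ y : V, y - m • x ∈ H → (B.card : ℝ) ^ m / (2 * Nat.card H) ≤
        ((Fintype.piFinset fun _ : Fin m => B).filter fun t => ∑ i, t i = y).card := by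
  obtain ⟨m₀, hm₀⟩ := Pool.Agent.SLD.rep_count α β hα hβ
  refine ⟨m₀, fun m hm {V} _ _ H x B hB hα' hne hsp y hy => ?_⟩
  have hinj : Function.Injective fun a : H => (a : V) + x := by
    intro a b hab
    exact Subtype.ext (add_right_cancel hab)
  let B' : Finset H := (univ : Finset H).filter fun h => (h : V) + x ∈ B
  have hmem : ∀ a : H, a ∈ B' ↔ (a : V) + x ∈ B := by
    intro a
    simp [B']
  have hcard : B'.card = B.card := by
    refine Finset.card_bij (fun h _ => (h : V) + x) (fun a ha => (hmem a).1 ha)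
      (fun a _ b _ hab => hinj hab) (fun b hb => ?_)
    refine ⟨⟨b - x, hB b hb⟩, (hmem _).2 ?_, ?_⟩
    · simpa using hb
    · simp
  have hNH : (Nat.card H : ℝ) = Fintype.card H := by rw [Nat.card_eq_fintype_card]
  have hspr : ∀ (K : AddSubgroup H) (z : H), K ≠ ⊤ →
      β * B'.card ≤ ({a ∈ (B' : Set H) | a - z ∉ K}.ncard : ℝ) := by
    intro K z hK
    have hK' : K.map H.subtype < H := by
      refine lt_of_le_of_ne ?_ fun h => hK ?_
      · rintro _ ⟨a, -, rfl⟩
        exact a.2
      · rw [AddSubgroup.eq_top_iff']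
        intro a
        have ha : (a : V) ∈ K.map H.subtype := by
          rw [h]
          exact a.2
        obtain ⟨b, hb, hba⟩ := ha
        have : b = a := Subtype.ext hba
        exact this ▸ hb
    have h1 := hsp (K.map H.subtype) ((z : V) + x) hK'
    have h2 : {b ∈ (B : Set V) | b - ((z : V) + x) ∉ K.map H.subtype} =
        (fun a : H => (a : V) + x) '' {a ∈ (B' : Set H) | a - z ∉ K} := by
      ext b
      constructor
      · rintro ⟨hb, hb2⟩
        refine ⟨⟨b - x, hB b hb⟩, ⟨?_, ?_⟩, by simp⟩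
        · show (⟨b - x, hB b hb⟩ : H) ∈ B'
          rw [hmem]
          simpa using hb
        · intro hc
          refine hb2 ⟨_, hc, ?_⟩
          simp only [AddSubgroup.coe_subtype, AddSubgroup.coe_sub]
          abel
      · rintro ⟨a, ⟨ha, ha2⟩, rfl⟩
        refine ⟨(hmem a).1 ha, ?_⟩
        rintro ⟨c, hc, hca⟩
        have : c = a - z := by
          refine Subtype.ext ?_
          have h3 : (c : V) = (a : V) + x - ((z : V) + x) := hca
          rw [h3, AddSubgroup.coe_sub]
          abel
        exact ha2 (this ▸ hc)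
    rw [h2, Set.ncard_image_of_injective _ hinj] at h1
    rw [hcard]
    exact h1
  have hmain := hm₀ m hm B' (by rw [hcard, ← hNH]; exact hα')
    (by rw [← Finset.card_pos, hcard]; exact Finset.card_pos.2 hne) hspr ⟨y - m • x, hy⟩
  rw [hcard, ← hNH] at hmain
  refine hmain.trans ?_
  have hle : ((Fintype.piFinset fun _ : Fin m => B').filter fun t =>
      ∑ i, t i = (⟨y - m • x, hy⟩ : H)).card ≤
      ((Fintype.piFinset fun _ : Fin m => B).filter fun t => ∑ i, t i = y).card := by
    refine Finset.card_le_card_of_injOn (fun t i => (t i : V) + x) ?_ ?_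
    · intro t ht
      obtain ⟨h1, h2⟩ := Finset.mem_filter.1 (Finset.mem_coe.1 ht)
      refine Finset.mem_coe.2 (Finset.mem_filter.2 ⟨Fintype.mem_piFinset.2 fun i =>
        (hmem _).1 (Fintype.mem_piFinset.1 h1 i), ?_⟩)
      have h3 := congrArg (fun a : H => (a : V)) h2
      simp only [AddSubgroup.val_finsetSum] at h3
      rw [Finset.sum_add_distrib, h3]
      simp
    · intro t _ t' _ h
      funext i
      exact hinj (congrFun h i)
  exact_mod_cast hle

end Pool.Agent.SDN
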