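import Pool.Agent.Lib_helper26.SDN.Defs
import Pool.Agent.Lib_helper26.SDN.RP
import Pool.Agent.Lib_helper26.SDN.FM

/-! Block P1 (project SDN): the stock. -/

namespace Pool.Agent.SDN

open Finset

/-- the index of `H` is at most `d` -/
lemma P1_card {V : Type} [AddCommGroup V] [Fintype V] (H : AddSubgroup V) (x : V) (d : ℕ)
    (hd : 1 ≤ d) (h1 : ∀ y : V, ∃ j : ℕ, y - j • x ∈ H) (h2 : d • x ∈ H) :
    Fintype.card V ≤ d * Nat.card H := by
  classical
  have h3 : ∀ y : V, ∃ j : Fin d, y - (j : ℕ) • x ∈ H := by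
    intro y
    obtain ⟨j, hj⟩ := h1 y
    refine ⟨⟨j % d, Nat.mod_lt _ hd⟩, ?_⟩
    have h4 : j • x = (j % d) • x + (j / d) • (d • x) := by
      rw [smul_smul, ← add_smul, Nat.mod_add_div']
    have h5 : y - (j % d) • x = (y - j • x) + (j / d) • (d • x) := by
      rw [h4]; abel
    show y - (j % d) • x ∈ H
    rw [h5]
    exact H.add_mem hj (H.nsmul_mem h2 _)
  choose j hj using h3
  have hinj : Function.Injective (fun y : V => (j y, (⟨y - (j y : ℕ) • x, hj y⟩ : H))) := by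
    intro y z hyz
    simp only [Prod.mk.injEq, Subtype.mk.injEq] at hyz
    obtain ⟨ha, hb⟩ := hyz
    rw [ha] at hb
    exact sub_left_injective hb
  have h6 := Fintype.card_le_of_injective _ hinj
  rw [Fintype.card_prod, Fintype.card_fin] at h6
  rwa [Nat.card_eq_fintype_card]

open Classical in
theorem stock_part (d : ℕ) (hd : 1 ≤ d) (α β : ℝ) (hα : 0 < α) (hβ : 0 < β) :
    ∃ m t : ℕ, 3 ≤ m ∧ 2 ≤ t ∧ ∃ c₁ : ℝ, 0 < c₁ ∧ ∃ K : ℕ,
    ∀ {V : Type} [AddCommGroup V] [Fintype V] (H : AddSubgroup V) (x : V) (B : Finset V),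
      K ≤ Fintype.card V → (∀ y : V, ∃ j : ℕ, y - j • x ∈ H) → d • x ∈ H →
      (∀ b ∈ B, b - x ∈ H) → (0 : V) ∉ B → α * Nat.card H ≤ B.card → Spr H β B →
      ∃ (s : ℕ) (Z : Fin s → Fin m → V) (c : Fin (t * s) → V), Fam B 0 Z ∧
        Function.Injective c ∧ (∀ i, c i ∈ B) ∧ (∀ z i j, Z z i ≠ c j) ∧
        c₁ * Fintype.card V ≤ s ∧
        (B.filter fun b => (∀ z i, Z z i ≠ b) ∧ ∀ j, c j ≠ b).card ≤ m + t := by
  obtain ⟨m₀, hm₀⟩ := rep_coset.{0} α β hα hβ
  obtain ⟨m, hm⟩ : ∃ m, m = d * (m₀ + 3) := ⟨_, rfl⟩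
  have hm3 : 3 ≤ m := by nlinarith
  have hmm : m₀ ≤ m := by nlinarith
  have hmR : (3 : ℝ) ≤ m := by exact_mod_cast hm3
  have hdR : (1 : ℝ) ≤ d := by exact_mod_cast hd
  obtain ⟨t, ht⟩ := exists_nat_ge (16 * (m : ℝ) ^ 2 / α + 2)
  have hq0 : (0 : ℝ) ≤ 16 * (m : ℝ) ^ 2 / α := by positivity
  have ht2 : 2 ≤ t := by
    have : (2 : ℝ) ≤ t := by linarith
    exact_mod_cast this
  have htR : 16 * (m : ℝ) ^ 2 / α ≤ t := by linarith
  have ht2R : (2 : ℝ) ≤ t := by exact_mod_cast ht2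
  refine ⟨m, t, hm3, ht2, α / (2 * d * (m + t)), by positivity, ?_⟩
  obtain ⟨K, hK⟩ := exists_nat_ge (16 * (m : ℝ) ^ 2 * d / α ^ 2 + 2 * d * (m + t) / α + 1)
  refine ⟨K, ?_⟩
  intro V _ _ H x B hKV hV hdx hBx h0 hαB hspr
  have hVR : (K : ℝ) ≤ Fintype.card V := by exact_mod_cast hKV
  have hcard := P1_card H x d hd hV hdx
  have hcardR : (Fintype.card V : ℝ) ≤ d * Nat.card H := by exact_mod_cast hcard
  have hHpos : (0 : ℝ) < Nat.card H := by
    have : 0 < Nat.card H := Nat.card_pos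
    exact_mod_cast this
  -- n is large
  have hk1 : 16 * (m : ℝ) ^ 2 * d / α ^ 2 ≤ Fintype.card V := by
    have : (0 : ℝ) ≤ 2 * d * (m + t) / α := by positivity
    linarith
  have hk2 : 2 * (d : ℝ) * (m + t) / α ≤ Fintype.card V := by
    have : (0 : ℝ) ≤ 16 * (m : ℝ) ^ 2 * d / α ^ 2 := by positivity
    linarith
  have hn1 : α * Fintype.card V / d ≤ (B.card : ℝ) := by
    rw [div_le_iff₀ (by linarith)]
    nlinarith
  have hn2 : 16 * (m : ℝ) ^ 2 / α ≤ B.card := by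
    refine le_trans ?_ hn1
    rw [div_le_iff₀ (by positivity)] at hk1
    rw [div_le_div_iff₀ (by positivity) (by linarith)]
    nlinarith
  have hnpos : (0 : ℝ) < B.card := by
    have : (0 : ℝ) < 16 * (m : ℝ) ^ 2 / α := by positivity
    linarith
  have hBne : B.Nonempty := by
    rw [← Finset.card_pos]; exact_mod_cast hnpos
  obtain ⟨s, hs⟩ : ∃ s, s = B.card / (m + t) := ⟨_, rfl⟩
  have hmx : (0 : V) - m • x ∈ H := by
    rw [zero_sub]
    apply H.neg_mem
    rw [hm, mul_comm, mul_smul]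
    exact H.nsmul_mem hdx _
  have hrep := hm₀ m hmm H x B hBx hαB hBne hspr 0 hmx
  have hsle : s * (m + t) ≤ B.card := by
    rw [hs]; exact Nat.div_mul_le_self _ _
  have hslt : B.card < s * (m + t) + (m + t) := by
    rw [hs]
    have := Nat.lt_div_mul_add (a := B.card) (b := m + t) (by omega)
    exact this
  have hsleR : (s : ℝ) * (m + t) ≤ B.card := by exact_mod_cast hsle
  have hsltR : (B.card : ℝ) < s * (m + t) + (m + t) := by exact_mod_cast hslt
  -- the family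
  have hfam : (s + 1) * (4 * m ^ 2 * B.card ^ (m - 2)) ≤
      ((Fintype.piFinset fun _ : Fin m => B).filter fun t => ∑ i, t i = 0).card := by
    have h1 : ((s + 1 : ℕ) : ℝ) * (4 * (m : ℝ) ^ 2) ≤ (B.card : ℝ) ^ 2 / (2 * Nat.card H) := by
      have h2 : α * (B.card : ℝ) / 2 ≤ (B.card : ℝ) ^ 2 / (2 * Nat.card H) := by
        rw [div_le_div_iff₀ (by norm_num) (by positivity)]
        nlinarith [mul_le_mul_of_nonneg_left hαB (le_of_lt hnpos)]
      refine le_trans ?_ h2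
      have h3 : (s : ℝ) * (16 * (m : ℝ) ^ 2 / α) ≤ B.card := by
        have hs0 : (0 : ℝ) ≤ s := Nat.cast_nonneg _
        have : (s : ℝ) * (16 * (m : ℝ) ^ 2 / α) ≤ s * (m + t) :=
          mul_le_mul_of_nonneg_left (by linarith) hs0
        linarith
      have h4 : (s : ℝ) * (16 * (m : ℝ) ^ 2) ≤ α * B.card := by
        have : (s : ℝ) * (16 * (m : ℝ) ^ 2 / α) = (s : ℝ) * (16 * (m : ℝ) ^ 2) / α := by ring
        rw [this, div_le_iff₀ hα] at h3
        linarith
      have h5 : 16 * (m : ℝ) ^ 2 ≤ α * B.card := by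
        rw [div_le_iff₀ hα] at hn2
        linarith
      push_cast
      nlinarith
    have h6 : ((B.card : ℝ)) ^ m = (B.card : ℝ) ^ 2 * (B.card : ℝ) ^ (m - 2) := by
      rw [← pow_add]; congr 1; omega
    have h7 : (((s + 1) * (4 * m ^ 2 * B.card ^ (m - 2)) : ℕ) : ℝ) ≤
        (B.card : ℝ) ^ m / (2 * Nat.card H) := by
      have h8 := mul_le_mul_of_nonneg_right h1
        (show (0 : ℝ) ≤ (B.card : ℝ) ^ (m - 2) by positivity)
      rw [h6]
      calc (((s + 1) * (4 * m ^ 2 * B.card ^ (m - 2)) : ℕ) : ℝ)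
          = ((s + 1 : ℕ) : ℝ) * (4 * (m : ℝ) ^ 2) * (B.card : ℝ) ^ (m - 2) := by
            push_cast; ring
        _ ≤ (B.card : ℝ) ^ 2 / (2 * Nat.card H) * (B.card : ℝ) ^ (m - 2) := h8
        _ = _ := by ring
    have h9 := h7.trans hrep
    exact_mod_cast h9
  obtain ⟨Z, hZ⟩ := fam B h0 hBne 0 m s hm3 hfam
  -- the entries of Z
  have hE : (univ.image fun p : Fin s × Fin m => Z p.1 p.2) ⊆ B := by
    intro b hb
    simp only [mem_image, mem_univ, true_and] at hb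
    obtain ⟨p, rfl⟩ := hb
    exact hZ.mem _ _
  have hEc : (univ.image fun p : Fin s × Fin m => Z p.1 p.2).card = s * m := by
    rw [card_image_of_injective]
    · simp
    · rintro ⟨a, b⟩ ⟨a', b'⟩ h
      have := hZ.inj a a' b b' h
      exact Prod.ext this.1 this.2
  have hBE : (B \ (univ.image fun p : Fin s × Fin m => Z p.1 p.2)).card = B.card - s * m := by
    rw [card_sdiff_of_subset hE, hEc]
  have hts : t * s ≤ (B \ (univ.image fun p : Fin s × Fin m => Z p.1 p.2)).card := by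
    rw [hBE]
    have : s * (m + t) = s * m + t * s := by ring
    omega
  obtain ⟨C, hCsub, hCc⟩ := exists_subset_card_eq hts
  obtain ⟨e⟩ : Nonempty (Fin (t * s) ≃ C) := by
    refine ⟨(Fintype.equivFinOfCardEq ?_).symm⟩
    rw [Fintype.card_coe, hCc]
  refine ⟨s, Z, fun i => (e i : V), hZ, ?_, ?_, ?_, ?_, ?_⟩
  · exact Subtype.val_injective.comp e.injective
  · intro i
    exact (mem_sdiff.1 (hCsub (e i).2)).1
  · intro z i j h
    have h1 := (mem_sdiff.1 (hCsub (e j).2)).2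
    apply h1
    simp only [mem_image, mem_univ, true_and]
    exact ⟨(z, i), h⟩
  · rw [div_mul_eq_mul_div, div_le_iff₀ (by positivity)]
    rw [div_le_iff₀ (by linarith)] at hn1
    rw [div_le_iff₀ hα] at hk2
    nlinarith
  · have hsub : (B.filter fun b => (∀ z i, Z z i ≠ b) ∧ ∀ j, (e j : V) ≠ b) ⊆
        (B \ (univ.image fun p : Fin s × Fin m => Z p.1 p.2)) \ C := by
      intro b hb
      simp only [mem_filter] at hb
      obtain ⟨hbB, h1, h2⟩ := hb
      simp only [mem_sdiff, mem_image, mem_univ, true_and]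
      refine ⟨⟨hbB, ?_⟩, ?_⟩
      · rintro ⟨p, hp⟩
        exact h1 _ _ hp
      · intro hbC
        exact h2 (e.symm ⟨b, hbC⟩) (by simp)
    refine (card_le_card hsub).trans ?_
    rw [card_sdiff_of_subset hCsub, hBE, hCc]
    have : s * (m + t) = s * m + t * s := by ring
    omega

end Pool.Agent.SDN
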