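import Pool.Agent.Lib_helper26.SDN.Defs
import Pool.Agent.Lib_helper26.SDN.VX

/-! Block LF (project SDN): links from families. -/

namespace Pool.Agent.SDN

open Finset

theorem LF_vs_eq {V : Type*} [AddCommGroup V] {m : ℕ} (y : Fin m → V) :
    vs 0 (List.ofFn y) = (List.range m).map fun j => P y (j + 1) := by
  have key : ∀ (l : List V) (c : V), vs c l =
      (List.range l.length).map fun j => c + (l.take (j + 1)).sum := by
    intro l
    induction l with
    | nil => intro c; rfl
    | cons a l ih =>
      intro c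
      rw [vs, ih, List.length_cons, List.range_succ_eq_map, List.map_cons, List.map_map]
      simp [add_assoc, Function.comp_def]
  rw [key, List.length_ofFn]
  refine List.map_congr_left fun j _ => ?_
  rw [take_ofFn_sum, zero_add]

theorem links_of_fam {V : Type*} [AddCommGroup V] {s m M : ℕ} (R : Finset V) (y : V)
    (hy : y ≠ 0) (Z : Fin s → Fin m → V) (hZ : Fam R y Z) (hm : 1 ≤ m) (hM : m ≤ M) :
    Lnk R y M (fun z => List.ofFn (Z z)) := by
  have hP0 : ∀ z, P (Z z) 0 = 0 := by
    intro z; simp [P]
  have hd : ∀ z, (vs 0 (List.ofFn (Z z))).dropLast = (List.range (m - 1)).map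
      fun j => P (Z z) (j + 1) := by
    intro z
    rw [LF_vs_eq]
    obtain ⟨k, rfl⟩ : ∃ k, m = k + 1 := ⟨m - 1, by omega⟩
    rw [List.range_succ, List.map_append, List.map_singleton, List.dropLast_concat]
    simp
  refine ⟨?_, ?_, ?_, ?_, ?_, ?_, ?_, ?_⟩
  · intro z h
    have := congrArg List.length h
    simp at this
    omega
  · intro z; simpa using hM
  · intro z
    have h1 := take_ofFn_sum (Z z) m
    rw [hZ.tot z, List.take_of_length_le (by simp)] at h1
    exact h1
  · intro z a ha
    rw [List.mem_ofFn] at ha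
    obtain ⟨i, rfl⟩ := ha
    exact hZ.mem z i
  · intro z
    rw [List.nodup_ofFn]
    intro i i' h
    exact (hZ.inj z z i i' h).2
  · intro z
    rw [LF_vs_eq]
    refine List.Nodup.map_on ?_ List.nodup_range
    intro i hi j hj h
    rw [List.mem_range] at hi hj
    by_contra hne
    rcases lt_or_gt_of_ne hne with hl | hl
    · exact hZ.win z (i + 1) (j + 1) (by omega) (by omega) (by omega) h
    · exact hZ.win z (j + 1) (i + 1) (by omega) (by omega) (by omega) h.symm
  · intro z z' hzz
    rw [List.disjoint_left]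
    intro a ha ha'
    rw [List.mem_ofFn] at ha ha'
    obtain ⟨i, rfl⟩ := ha
    obtain ⟨i', h⟩ := ha'
    exact hzz (hZ.inj z z' i i' h.symm).1
  · intro z z' hzz
    rw [List.disjoint_left]
    intro a ha ha'
    rw [hd, List.mem_map] at ha ha'
    obtain ⟨i, hi, rfl⟩ := ha
    obtain ⟨j, hj, h⟩ := ha'
    rw [List.mem_range] at hi hj
    exact hZ.pre z z' (i + 1) (j + 1) hzz (by omega) (by omega) (by omega) (by omega) h.symm

end Pool.Agent.SDN
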