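import Pool.Agent.Lib_helper26.SDN.Defs
import Pool.Agent.Lib_helper26.SDN.RP
import Pool.Agent.Lib_helper26.SDN.FM
import Pool.Agent.Lib_helper26.SDN.LF

/-! Block P2 (project SDN): families of links. -/

namespace Pool.Agent.SDN

open Finset

theorem P2_mod {V : Type*} [AddCommGroup V] (H : AddSubgroup V) (x y : V) (d j μ : ℕ)
    (hx : d • x ∈ H) (hy : y - j • x ∈ H) (hμ : μ % d = j % d) : y - μ • x ∈ H := by
  have e : ∀ n : ℕ, n • x - (n % d) • x ∈ H := by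
    intro n
    have h1 : n • x = (n / d) • (d • x) + (n % d) • x := by
      rw [← mul_smul, ← add_smul]
      congr 1
      rw [mul_comm]
      exact (Nat.div_add_mod n d).symm
    rw [h1, add_sub_cancel_right]
    exact H.nsmul_mem hx _
  have h1 := e μ
  have h2 := e j
  rw [hμ] at h1
  have h3 : y - μ • x = (y - j • x) + (j • x - (j % d) • x) - (μ • x - (j % d) • x) := by abel
  rw [h3]
  exact H.sub_mem (H.add_mem hy h2) h1

theorem P2_card {V : Type*} [AddCommGroup V] [Fintype V] (H : AddSubgroup V) (x : V) (d : ℕ)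
    (hd : 1 ≤ d) (h1 : ∀ y : V, ∃ j : ℕ, y - j • x ∈ H) (hx : d • x ∈ H) :
    Fintype.card V ≤ d * Nat.card H := by
  have hs : Function.Surjective (fun p : Fin d × H => (p.1 : ℕ) • x + (p.2 : V)) := by
    intro y
    obtain ⟨j, hj⟩ := h1 y
    have h2 : y - (j % d) • x ∈ H := P2_mod H x y d j (j % d) hx hj (Nat.mod_mod _ _)
    refine ⟨(⟨j % d, Nat.mod_lt _ hd⟩, ⟨y - (j % d) • x, h2⟩), ?_⟩
    simp
  have h3 := Nat.card_le_card_of_surjective _ hs
  rw [Nat.card_prod, Nat.card_fin, Nat.card_eq_fintype_card] at h3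
  exact h3

theorem P2_mu (d m j : ℕ) (hd : 1 ≤ d) : ∃ μ, m ≤ μ ∧ μ < m + d ∧ μ % d = j % d := by
  refine ⟨m + (j + (d - 1) * m) % d, by omega, ?_, ?_⟩
  · have := Nat.mod_lt (j + (d - 1) * m) hd
    omega
  · rw [Nat.add_mod_mod]
    have h1 : m + (j + (d - 1) * m) = j + d * m := by
      obtain ⟨e, rfl⟩ := Nat.exists_eq_add_of_le hd
      simp only [Nat.add_sub_cancel_left]
      ring
    rw [h1, Nat.add_mul_mod_self_left]

theorem link_part (d : ℕ) (hd : 1 ≤ d) (α β : ℝ) (hα : 0 < α) (hβ : 0 < β) :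
    ∃ M : ℕ, 1 ≤ M ∧ ∃ c₂ : ℝ, 0 < c₂ ∧ ∃ K : ℕ,
    ∀ {V : Type} [AddCommGroup V] [Fintype V] (H : AddSubgroup V) (x : V) (R : Finset V),
      K ≤ Fintype.card V → (∀ y : V, ∃ j : ℕ, y - j • x ∈ H) → d • x ∈ H →
      (∀ b ∈ R, b - x ∈ H) → (0 : V) ∉ R → α * Nat.card H ≤ R.card → Spr H β R →
      ∃ (s : ℕ) (L : V → Fin s → List V), c₂ * Fintype.card V ≤ s ∧
        ∀ y, y ≠ 0 → Lnk R y M (L y) := by
  classical
  obtain ⟨m₀, hm₀⟩ := rep_coset α β hα hβ
  set m := max m₀ 3 with hm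
  set M := m + d with hM
  have hMpos : (0 : ℝ) < M := by
    have : 0 < M := by omega
    exact_mod_cast this
  have hdpos : (0 : ℝ) < d := by exact_mod_cast hd
  set c : ℝ := α ^ 2 / (16 * (M : ℝ) ^ 2 * d) with hc
  have hcpos : 0 < c := by positivity
  refine ⟨M, by omega, c, hcpos, ⌈2 / c⌉₊, ?_⟩
  intro V _ _ H x R hK hgen hx hR h0 hα' hspr
  have hVH := P2_card H x d hd hgen hx
  set v : ℝ := (Fintype.card V : ℝ) with hv
  set h : ℝ := (Nat.card H : ℝ) with hh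
  have hvh : v ≤ d * h := by
    rw [hv, hh]; exact_mod_cast hVH
  have hh1 : (1 : ℝ) ≤ h := by
    rw [hh]
    have : 0 < Nat.card H := Nat.card_pos
    exact_mod_cast this
  have hRpos : (0 : ℝ) < R.card := lt_of_lt_of_le (by positivity) hα'
  have hRne : R.Nonempty := by
    rw [← Finset.card_pos]
    exact_mod_cast hRpos
  have hvc : 2 ≤ c * v := by
    have h1 : 2 / c ≤ v := le_trans (Nat.le_ceil _) (by rw [hv]; exact_mod_cast hK)
    rw [div_le_iff₀ hcpos] at h1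
    linarith
  set s := ⌈c * v⌉₊ with hs
  have hs1 : c * v ≤ s := Nat.le_ceil _
  have hs2 : (s : ℝ) + 1 ≤ 2 * (c * v) := by
    have := Nat.ceil_lt_add_one (a := c * v) (by linarith)
    have h2 : (s : ℝ) < c * v + 1 := this
    linarith
  have key : ∀ y : V, ∃ L : Fin s → List V, y ≠ 0 → Lnk R y M L := by
    intro y
    by_cases hy : y = 0
    · exact ⟨fun _ => [], fun h => absurd hy h⟩
    obtain ⟨j, hj⟩ := hgen y
    obtain ⟨μ, hμ1, hμ2, hμ3⟩ := P2_mu d m j hd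
    have hyμ := P2_mod H x y d j μ hx hj hμ3
    have hμ0 : m₀ ≤ μ := le_trans (le_max_left _ _) hμ1
    have hμ3' : 3 ≤ μ := le_trans (le_max_right _ _) hμ1
    have hrep := hm₀ μ hμ0 H x R hR hα' hRne hspr y hyμ
    have hμM : (μ : ℝ) ≤ M := by
      have : μ ≤ M := by omega
      exact_mod_cast this
    have hmain : ((s : ℝ) + 1) * (4 * (μ : ℝ) ^ 2 * (R.card : ℝ) ^ (μ - 2)) ≤
        (R.card : ℝ) ^ μ / (2 * h) := by
      rw [le_div_iff₀ (by positivity)]
      have e1 : (R.card : ℝ) ^ μ = (R.card : ℝ) ^ (μ - 2) * (R.card : ℝ) ^ 2 := by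
        rw [← pow_add]; congr 1; omega
      have e2 : ((s : ℝ) + 1) * (8 * (μ : ℝ) ^ 2 * h) ≤ (R.card : ℝ) ^ 2 := by
        have f1 : (μ : ℝ) ^ 2 ≤ (M : ℝ) ^ 2 := pow_le_pow_left₀ (by positivity) hμM 2
        have f2 : ((s : ℝ) + 1) * (8 * (μ : ℝ) ^ 2 * h) ≤ (2 * (c * v)) * (8 * (M : ℝ) ^ 2 * h) := by
          apply mul_le_mul hs2 _ (by positivity) (by linarith)
          nlinarith
        have f3 : (2 * (c * v)) * (8 * (M : ℝ) ^ 2 * h) = α ^ 2 * (v * h) / d := by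
          rw [hc]; field_simp; ring
        have f4 : α ^ 2 * (v * h) / d ≤ (α * h) ^ 2 := by
          rw [div_le_iff₀ hdpos]
          have : v * h ≤ d * h * h := mul_le_mul_of_nonneg_right hvh (by linarith)
          nlinarith [sq_nonneg α]
        have f5 : (α * h) ^ 2 ≤ (R.card : ℝ) ^ 2 := pow_le_pow_left₀ (by positivity) hα' 2
        linarith
      have e3 : (0 : ℝ) ≤ (R.card : ℝ) ^ (μ - 2) := by positivity
      rw [e1]
      calc ((s : ℝ) + 1) * (4 * (μ : ℝ) ^ 2 * (R.card : ℝ) ^ (μ - 2)) * (2 * h)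
          = (R.card : ℝ) ^ (μ - 2) * (((s : ℝ) + 1) * (8 * (μ : ℝ) ^ 2 * h)) := by ring
        _ ≤ (R.card : ℝ) ^ (μ - 2) * (R.card : ℝ) ^ 2 := mul_le_mul_of_nonneg_left e2 e3
    have hnat : (s + 1) * (4 * μ ^ 2 * R.card ^ (μ - 2)) ≤
        ((Fintype.piFinset fun _ : Fin μ => R).filter fun t => ∑ i, t i = y).card := by
      have := le_trans hmain hrep
      exact_mod_cast this
    obtain ⟨Z, hZ⟩ := fam R h0 hRne y μ s hμ3' (by convert hnat)
    exact ⟨_, fun hy' => links_of_fam R y hy' Z hZ (by omega) (by omega)⟩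
  choose L hL using key
  exact ⟨s, L, hs1, hL⟩

end Pool.Agent.SDN
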