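import Pool.Agent.Lib_helper26.SDN.Defs
import Pool.Agent.Lib_helper15.KZF.BD

/-! Block RC (project SDN): a random subset of a well spread set is well spread. -/

namespace Pool.Agent.SDN

open Finset

theorem RC_ne {N : ℕ} (hN : 2 ≤ N) : Nonempty (Fin N) := ⟨⟨0, by omega⟩⟩

/-- the indicator function of `ω b = 0` -/
noncomputable def RC_ind {I : Type} {N : ℕ} (b : I) (ω : I → Fin N) : ℝ :=
  if ((ω b : Fin N) : ℕ) = 0 then 1 else 0

open Classical in
theorem RC_avg_ind {I : Type} [Fintype I] {N : ℕ} (hN : 2 ≤ N) [Nonempty (Fin N)] (b : I) :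
    KZ.avg (RC_ind (N := N) b) = 1 / N := by
  rw [← KZ.avg_av1 b]
  have h : KZ.av1 b (RC_ind (N := N) b) = fun _ => 1 / (N : ℝ) := by
    funext ω
    unfold KZ.av1 RC_ind
    simp only [Function.update_self, Fintype.card_fin]
    congr 1
    have : ∀ l : Fin N, (if (l : ℕ) = 0 then (1 : ℝ) else 0) =
        if l = ⟨0, by omega⟩ then 1 else 0 := by
      intro l
      simp only [Fin.ext_iff]
    simp only [this, Finset.sum_ite_eq', Finset.mem_univ, if_true]
  rw [h, KZ.avg_const]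

open Classical in
theorem RC_cnt {I : Type} [Fintype I] {N : ℕ} (S : Finset I) (ω : I → Fin N) :
    ((S.filter fun b => ((ω b : Fin N) : ℕ) = 0).card : ℝ) = ∑ b ∈ S, RC_ind b ω := by
  unfold RC_ind
  rw [Finset.card_filter]
  push_cast
  rfl

open Classical in
theorem RC_avg {I : Type} [Fintype I] {N : ℕ} (hN : 2 ≤ N) [Nonempty (Fin N)] (S : Finset I) :
    KZ.avg (fun ω : I → Fin N => ((S.filter fun b => ((ω b : Fin N) : ℕ) = 0).card : ℝ)) =
      (S.card : ℝ) / N := by
  simp only [RC_cnt]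
  rw [KZ.avg_sum]
  have : ∀ b ∈ S, KZ.avg (fun ω : I → Fin N => RC_ind b ω) = 1 / (N : ℝ) := by
    intro b _
    exact RC_avg_ind hN b
  rw [Finset.sum_congr rfl this, Finset.sum_const, nsmul_eq_mul]
  ring

open Classical in
theorem RC_bd {I : Type} [Fintype I] {N : ℕ} (S B : Finset I) (hS : S ⊆ B) :
    KZ.BD (fun i => if i ∈ B then (1 : ℝ) else 0)
      (fun ω : I → Fin N => ((S.filter fun b => ((ω b : Fin N) : ℕ) = 0).card : ℝ)) := by
  intro i ω l
  simp only [RC_cnt]
  rw [← Finset.sum_sub_distrib]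
  have h1 : ∀ b ∈ S, b ≠ i → RC_ind b (Function.update ω i l) - RC_ind b ω = 0 := by
    intro b _ hb
    unfold RC_ind
    rw [Function.update_of_ne hb, sub_self]
  by_cases hi : i ∈ S
  · rw [Finset.sum_eq_single_of_mem i hi (fun b hb hbi => h1 b hb hbi), if_pos (hS hi)]
    unfold RC_ind
    split_ifs <;> simp
  · rw [Finset.sum_eq_zero (fun b hb => h1 b hb (fun h => hi (h ▸ hb))), abs_zero]
    split_ifs <;> norm_num

open Classical in
/-- a random subset meets finitely many subsets in about the expected numbers -/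
theorem RC_random {I : Type} [Fintype I] {N : ℕ} (hN : 2 ≤ N) (B : Finset I) (hB : B.Nonempty)
    {T : Type*} [Fintype T] (S : T → Finset I) (hS : ∀ t, S t ⊆ B) (lam : ℝ) (hlam : 0 < lam)
    (hT : 2 * (Fintype.card T : ℝ) * Real.exp (-(lam ^ 2 / 2)) < 1) :
    ∃ R ⊆ B, ∀ t, |((R ∩ S t).card : ℝ) - ((S t).card : ℝ) / N| ≤ lam * √(B.card : ℝ) := by
  have := RC_ne hN
  have hBpos : (0 : ℝ) < (B.card : ℝ) := by exact_mod_cast hB.card_pos
  obtain ⟨ω, hω⟩ := KZ.exists_good (I := I) (L := Fin N)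
    (fun t (ω : I → Fin N) => (((S t).filter fun b => ((ω b : Fin N) : ℕ) = 0).card : ℝ))
    (fun _ i => if i ∈ B then (1 : ℝ) else 0) (fun t => RC_bd (S t) B (hS t))
    (fun _ => √(B.card : ℝ)) (fun _ => Real.sqrt_pos.2 hBpos)
    (fun _ => by
      rw [Real.sq_sqrt hBpos.le]
      simp) lam hlam hT
  refine ⟨B.filter fun b => ((ω b : Fin N) : ℕ) = 0, Finset.filter_subset _ _, fun t => ?_⟩
  have h := hω t
  rw [RC_avg hN] at h
  have e : (B.filter fun b => ((ω b : Fin N) : ℕ) = 0) ∩ S t =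
      (S t).filter fun b => ((ω b : Fin N) : ℕ) = 0 := by
    ext b
    simp only [Finset.mem_inter, Finset.mem_filter]
    constructor
    · rintro ⟨⟨_, h1⟩, h2⟩; exact ⟨h2, h1⟩
    · rintro ⟨h1, h2⟩; exact ⟨⟨hS t h1, h2⟩, h1⟩
  rw [e]
  exact h

/-- a character separating a proper subgroup -/
theorem RC_char {V : Type} [AddCommGroup V] [Finite V] (H K : AddSubgroup V) (hK : K < H) :
    ∃ ψ : AddChar H ℂ, (∃ h, ψ h ≠ 1) ∧ ∀ h : H, (h : V) ∈ K → ψ h = 1 := by
  obtain ⟨a, haH, haK⟩ := SetLike.exists_of_lt hK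
  let K' : AddSubgroup H := K.comap H.subtype
  have h1 : (QuotientAddGroup.mk (⟨a, haH⟩ : H) : H ⧸ K') ≠ 0 := by
    intro h
    rw [QuotientAddGroup.eq_zero_iff] at h
    exact haK h
  obtain ⟨ψ, hψ⟩ := AddChar.exists_apply_ne_zero.2 h1
  refine ⟨ψ.compAddMonoidHom (QuotientAddGroup.mk' K'), ⟨⟨a, haH⟩, hψ⟩, fun h hh => ?_⟩
  have : (QuotientAddGroup.mk' K') h = 0 := (QuotientAddGroup.eq_zero_iff h).2 hh
  rw [AddChar.compAddMonoidHom_apply, this, AddChar.map_zero_eq_one]

theorem RC_large (α β : ℝ) (hα : 0 < α) (hβ : 0 < β) (N : ℕ) (hN : 2 ≤ N) : ∃ K : ℕ, 1 ≤ K ∧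
    ∀ n : ℕ, K ≤ n → 2 * (((n : ℝ) / α) ^ 2 + 1) *
      Real.exp (-((β * √(n : ℝ) / (2 * N)) ^ 2 / 2)) < 1 := by
  have hN' : (0 : ℝ) < N := by exact_mod_cast (by omega : 0 < N)
  set c : ℝ := β ^ 2 / (8 * N ^ 2) with hc
  have hcpos : 0 < c := by positivity
  have h2 := Real.tendsto_pow_mul_exp_neg_atTop_nhds_zero 2
  have h0 := Real.tendsto_pow_mul_exp_neg_atTop_nhds_zero 0
  have hlin : Filter.Tendsto (fun n : ℕ => c * (n : ℝ)) Filter.atTop Filter.atTop :=
    (tendsto_natCast_atTop_atTop).const_mul_atTop hcpos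
  have h2' := (h2.comp hlin).const_mul (2 / (α ^ 2 * c ^ 2))
  have h0' := (h0.comp hlin).const_mul 2
  have hsum := h2'.add h0'
  rw [mul_zero, mul_zero, add_zero] at hsum
  have hev := hsum.eventually (gt_mem_nhds (zero_lt_one))
  obtain ⟨K, hK⟩ := Filter.eventually_atTop.1 hev
  refine ⟨max K 1, le_max_right _ _, fun n hn => ?_⟩
  have h := hK n (le_of_max_le_left hn)
  simp only [Function.comp, pow_zero, one_mul] at h
  have e1 : (β * √(n : ℝ) / (2 * N)) ^ 2 / 2 = c * n := by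
    rw [div_pow, mul_pow, Real.sq_sqrt (Nat.cast_nonneg n), hc]
    field_simp
    norm_num
  rw [e1]
  refine lt_of_eq_of_lt ?_ h
  field_simp

theorem reserve (α β : ℝ) (hα : 0 < α) (hβ : 0 < β) (N : ℕ) (hN : 2 ≤ N) : ∃ K : ℕ,
    ∀ {V : Type} [AddCommGroup V] [Fintype V] (H : AddSubgroup V) (x : V) (B : Finset V),
      (∀ b ∈ B, b - x ∈ H) → α * Nat.card H ≤ B.card → K ≤ B.card → Spr H β B →
      ∃ R ⊆ B, (B.card : ℝ) / (2 * N) ≤ R.card ∧ (R.card : ℝ) ≤ 2 * B.card / N ∧
        Spr H (β / 4) R := by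
  classical
  obtain ⟨K, hK1, hK⟩ := RC_large α (min β 1) hα (lt_min hβ one_pos) N hN
  refine ⟨K, ?_⟩
  intro V _ _ H x B hBx hBα hKB hspr
  have hN' : (0 : ℝ) < N := by exact_mod_cast (by omega : 0 < N)
  have hBn : B.Nonempty := Finset.card_pos.1 (by omega)
  have hBpos : (0 : ℝ) < (B.card : ℝ) := by exact_mod_cast hBn.card_pos
  set β' := min β 1 with hβ'
  have hβ'pos : 0 < β' := lt_min hβ one_pos
  set lam : ℝ := β' * √(B.card : ℝ) / (2 * N) with hlam
  have hlampos : 0 < lam := by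
    have := Real.sqrt_pos.2 hBpos
    positivity
  let S : Option (AddChar H ℂ × H) → Finset V := fun o =>
    match o with
    | none => B
    | some p => B.filter fun b => ∀ hb : b - x ∈ H, p.1 (⟨b - x, hb⟩ - p.2) ≠ 1
  have hS : ∀ t, S t ⊆ B := by
    rintro (_ | p)
    · exact subset_rfl
    · exact Finset.filter_subset _ _
  have hcard : (Fintype.card (Option (AddChar H ℂ × H)) : ℝ) ≤ ((B.card : ℝ) / α) ^ 2 + 1 := by
    have h1 : Fintype.card (AddChar H ℂ) = Fintype.card H := AddChar.card_eq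
    rw [Fintype.card_option, Fintype.card_prod, h1]
    push_cast
    have h2 : (Fintype.card H : ℝ) ≤ (B.card : ℝ) / α := by
      rw [le_div_iff₀ hα, mul_comm, ← Nat.card_eq_fintype_card]
      exact hBα
    have h3 : (0 : ℝ) ≤ (Fintype.card H : ℝ) := Nat.cast_nonneg _
    nlinarith [mul_le_mul h2 h2 h3 (h3.trans h2)]
  have hT : 2 * (Fintype.card (Option (AddChar H ℂ × H)) : ℝ) * Real.exp (-(lam ^ 2 / 2)) < 1 := by
    refine lt_of_le_of_lt ?_ (hK B.card hKB)
    exact mul_le_mul_of_nonneg_right (mul_le_mul_of_nonneg_left hcard (by norm_num))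
      (Real.exp_pos _).le
  obtain ⟨R, hRB, hR⟩ := RC_random hN B hBn S hS lam hlampos hT
  have hdev : lam * √(B.card : ℝ) = β' * B.card / (2 * N) := by
    rw [hlam]
    have := Real.mul_self_sqrt hBpos.le
    calc β' * √(B.card : ℝ) / (2 * N) * √(B.card : ℝ) =
        β' * (√(B.card : ℝ) * √(B.card : ℝ)) / (2 * N) := by ring
      _ = _ := by rw [this]
  rw [hdev] at hR
  have hβ'1 : β' ≤ 1 := min_le_right _ _
  have hβ'β : β' ≤ β := min_le_left _ _
  have hR0 := hR none
  have eR : R ∩ S none = R := Finset.inter_eq_left.2 hRB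
  rw [eR] at hR0
  have hS0 : S none = B := rfl
  rw [hS0] at hR0
  have hhalf : β' * B.card / (2 * N) ≤ (B.card : ℝ) / (2 * N) := by
    apply div_le_div_of_nonneg_right _ (by positivity)
    nlinarith
  have hBN : (B.card : ℝ) / N = (B.card : ℝ) / (2 * N) + (B.card : ℝ) / (2 * N) := by
    field_simp; norm_num
  have h2BN : 2 * (B.card : ℝ) / N = (B.card : ℝ) / N + ((B.card : ℝ) / (2 * N) +
    (B.card : ℝ) / (2 * N)) := by
    field_simp; norm_num
  have hq : 0 ≤ (B.card : ℝ) / (2 * N) := by positivity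
  have hRl : (B.card : ℝ) / (2 * N) ≤ R.card := by
    have := (abs_le.1 hR0).1
    linarith
  have hRu : (R.card : ℝ) ≤ 2 * B.card / N := by
    have := (abs_le.1 hR0).2
    linarith
  refine ⟨R, hRB, hRl, hRu, ?_⟩
  intro K₁ y hK₁
  have hfin : ({b ∈ (R : Set V) | b - y ∉ K₁}).Finite := (R.finite_toSet).subset fun b hb => hb.1
  -- `β ≤ 1`
  have hβ1 : β ≤ 1 := by
    have h1 := hspr K₁ y hK₁
    have h2 : ({b ∈ (B : Set V) | b - y ∉ K₁}.ncard : ℝ) ≤ B.card := by
      have := Set.ncard_le_ncard (s := {b ∈ (B : Set V) | b - y ∉ K₁}) (t := (B : Set V))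
        (fun b hb => hb.1) B.finite_toSet
      rw [Set.ncard_coe_finset] at this
      exact_mod_cast this
    have h3 : β * B.card ≤ 1 * B.card := by linarith
    exact le_of_mul_le_mul_right h3 hBpos
  by_cases hy : y - x ∈ H
  · obtain ⟨ψ, ⟨h₀, hh₀⟩, hψ⟩ := RC_char H K₁ hK₁
    -- the kernel of `ψ` as a subgroup of `V`
    let K₂ : AddSubgroup V :=
      { carrier := {v | ∃ hv : v ∈ H, ψ ⟨v, hv⟩ = 1}
        add_mem' := by
          rintro u v ⟨hu, hu1⟩ ⟨hv, hv1⟩
          refine ⟨H.add_mem hu hv, ?_⟩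
          have : (⟨u + v, H.add_mem hu hv⟩ : H) = ⟨u, hu⟩ + ⟨v, hv⟩ := rfl
          rw [this, AddChar.map_add_eq_mul, hu1, hv1, one_mul]
        zero_mem' := ⟨H.zero_mem, AddChar.map_zero_eq_one ψ⟩
        neg_mem' := by
          rintro u ⟨hu, hu1⟩
          refine ⟨H.neg_mem hu, ?_⟩
          have h1 : ψ ((⟨-u, H.neg_mem hu⟩ : H) + ⟨u, hu⟩) = 1 := by
            have : ((⟨-u, H.neg_mem hu⟩ : H) + ⟨u, hu⟩) = 0 := by
              apply Subtype.ext; simp
            rw [this, AddChar.map_zero_eq_one]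
          rw [AddChar.map_add_eq_mul, hu1, mul_one] at h1
          exact h1 }
    have hK₂ : K₂ < H := by
      refine lt_of_le_of_ne (fun v hv => hv.1) fun h => ?_
      have : (h₀ : V) ∈ K₂ := by rw [h]; exact h₀.2
      obtain ⟨_, h1⟩ := this
      exact hh₀ h1
    have h1 := hspr K₂ y hK₂
    have e2 : {b ∈ (B : Set V) | b - y ∉ K₂} = (S (some (ψ, ⟨y - x, hy⟩)) : Set V) := by
      ext b
      simp only [Set.mem_ofPred_eq, S, Finset.coe_filter, Finset.mem_coe]
      constructor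
      · rintro ⟨hb, hb2⟩
        refine ⟨hb, fun hbx h => hb2 ?_⟩
        have e : b - y = (b - x) - (y - x) := by abel
        have hby : b - y ∈ H := by rw [e]; exact H.sub_mem hbx hy
        refine ⟨hby, ?_⟩
        have e3 : (⟨b - y, hby⟩ : H) = ⟨b - x, hbx⟩ - ⟨y - x, hy⟩ := Subtype.ext e
        rw [e3]; exact h
      · rintro ⟨hb, hb2⟩
        refine ⟨hb, ?_⟩
        rintro ⟨hby, hby1⟩
        refine hb2 (hBx b hb) ?_
        have e : b - y = (b - x) - (y - x) := by abel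
        have e3 : (⟨b - y, hby⟩ : H) = ⟨b - x, hBx b hb⟩ - ⟨y - x, hy⟩ := Subtype.ext e
        rw [← e3]; exact hby1
    rw [e2, Set.ncard_coe_finset] at h1
    have h2 := (abs_le.1 (hR (some (ψ, ⟨y - x, hy⟩)))).1
    have h3 : ((R ∩ S (some (ψ, ⟨y - x, hy⟩))).card : ℝ) ≤
        ({b ∈ (R : Set V) | b - y ∉ K₁}.ncard : ℝ) := by
      have : ((R ∩ S (some (ψ, ⟨y - x, hy⟩)) : Finset V) : Set V) ⊆
          {b ∈ (R : Set V) | b - y ∉ K₁} := by
        intro b hb
        rw [Finset.coe_inter] at hb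
        obtain ⟨hbR, hbS⟩ := hb
        refine ⟨hbR, fun hb1 => ?_⟩
        simp only [S, Finset.coe_filter, Set.mem_ofPred_eq] at hbS
        refine hbS.2 (hBx b hbS.1) (hψ _ ?_)
        have e : b - y = (b - x) - (y - x) := by abel
        have : (((⟨b - x, hBx b hbS.1⟩ : H) - ⟨y - x, hy⟩ : H) : V) = b - y := by
          rw [e]; rfl
        rw [this]; exact hb1
      have h4 := Set.ncard_le_ncard this hfin
      rw [Set.ncard_coe_finset] at h4
      exact_mod_cast h4
    have h5 : (β * B.card) / N ≤ ((S (some (ψ, ⟨y - x, hy⟩))).card : ℝ) / N :=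
      div_le_div_of_nonneg_right h1 hN'.le
    have h6 : β' * B.card / (2 * N) ≤ β * B.card / (2 * N) := by
      apply div_le_div_of_nonneg_right _ (by positivity)
      exact mul_le_mul_of_nonneg_right hβ'β hBpos.le
    have h7 : β * B.card / N = β * B.card / (2 * N) + β * B.card / (2 * N) := by
      field_simp; norm_num
    have h8 : β / 4 * R.card ≤ β * B.card / (2 * N) := by
      have : β / 4 * R.card ≤ β / 4 * (2 * B.card / N) :=
        mul_le_mul_of_nonneg_left hRu (by positivity)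
      refine this.trans (le_of_eq ?_)
      field_simp; norm_num
    linarith
  · -- all elements count
    have e : {b ∈ (R : Set V) | b - y ∉ K₁} = (R : Set V) := by
      ext b
      simp only [Set.mem_ofPred_eq, Finset.mem_coe, and_iff_left_iff_imp]
      intro hb hb1
      have h1 : b - y ∈ H := hK₁.le hb1
      have h2 := hBx b (hRB hb)
      apply hy
      have : y - x = (b - x) - (b - y) := by abel
      rw [this]
      exact H.sub_mem h2 h1
    rw [e, Set.ncard_coe_finset]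
    have : (0 : ℝ) ≤ R.card := Nat.cast_nonneg _
    nlinarith

end Pool.Agent.SDN
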