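import Pool.Agent.Lib_helper26.SDN.Defs
import Pool.Agent.Lib_helper26.SDN.P1
import Pool.Agent.Lib_helper26.SDN.P2
import Pool.Agent.Lib_helper26.SDN.RC

/-! Block PR (project SDN). -/

namespace Pool.Agent.SDN

open Finset

lemma PR_card_le {V : Type} [AddCommGroup V] [Fintype V] (d : ℕ) (hd : 1 ≤ d)
    (H : AddSubgroup V) (x : V) (hx : ∀ y : V, ∃ j : ℕ, y - j • x ∈ H) (hdx : d • x ∈ H) :
    Fintype.card V ≤ d * Nat.card H := by
  classical
  have hs : Function.Surjective (fun p : Fin d × H => (p.1 : ℕ) • x + (p.2 : V)) := by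
    intro y
    obtain ⟨j, hj⟩ := hx y
    have hr : y - (j % d) • x ∈ H := by
      have e : y - (j % d) • x = (y - j • x) + (j / d) • (d • x) := by
        have h1 : j • x = (j % d) • x + (j / d) • (d • x) := by
          rw [← mul_smul, ← add_smul, mul_comm (j / d) d, Nat.mod_add_div]
        rw [h1]; abel
      rw [e]
      exact H.add_mem hj (H.nsmul_mem hdx _)
    refine ⟨(⟨j % d, Nat.mod_lt _ (by omega)⟩, ⟨_, hr⟩), ?_⟩
    show (j % d) • x + (y - (j % d) • x) = y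
    abel
  have h2 : Nat.card V ≤ Nat.card (Fin d × H) := by
    exact Nat.card_le_card_of_surjective _ hs
  rw [Nat.card_prod, Nat.card_fin, Nat.card_eq_fintype_card] at h2
  exact h2

lemma PR_spr {V : Type} [AddCommGroup V] [DecidableEq V] (H : AddSubgroup V) (β γ : ℝ)
    (hβ : 0 ≤ β) (B R : Finset V)
    (hS : Spr H β B) (hR : (R.card : ℝ) ≤ γ * B.card) (hγ : γ ≤ β / 2) :
    Spr H (β / 2) (B \ R) := by
  intro K y hK
  have h1 := hS K y hK
  have h2 : ({b ∈ (B : Set V) | b - y ∉ K}.ncard : ℝ) ≤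
      ({b ∈ ((B \ R : Finset V) : Set V) | b - y ∉ K}.ncard : ℝ) + R.card := by
    have h3 : {b ∈ (B : Set V) | b - y ∉ K} ⊆
        {b ∈ ((B \ R : Finset V) : Set V) | b - y ∉ K} ∪ (R : Set V) := by
      intro b hb
      by_cases hbR : b ∈ R
      · exact Or.inr hbR
      · refine Or.inl ⟨?_, hb.2⟩
        simp only [coe_sdiff, Set.mem_sdiff, mem_coe]
        exact ⟨hb.1, hbR⟩
    have h4 : ({b ∈ ((B \ R : Finset V) : Set V) | b - y ∉ K} ∪ (R : Set V)).Finite := by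
      refine Set.Finite.union ((Finset.finite_toSet (B \ R)).subset ?_) (Finset.finite_toSet R)
      intro b hb
      exact hb.1
    have h5 := Set.ncard_le_ncard h3 h4
    have h6 := h5.trans (Set.ncard_union_le _ _)
    rw [Set.ncard_coe_finset] at h6
    exact_mod_cast h6
  have h7 : ((B \ R).card : ℝ) ≤ B.card := by
    exact_mod_cast Finset.card_le_card Finset.sdiff_subset
  have h8 : (0 : ℝ) ≤ B.card := Nat.cast_nonneg _
  have h9 : γ * B.card ≤ β / 2 * B.card := mul_le_mul_of_nonneg_right hγ h8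
  have h10 : β / 2 * ((B \ R).card : ℝ) ≤ β / 2 * B.card :=
    mul_le_mul_of_nonneg_left h7 (by linarith)
  linarith

open Classical in
theorem prep (d : ℕ) (hd : 1 ≤ d) (α β : ℝ) (hα : 0 < α) (hβ : 0 < β) :
    ∃ m t : ℕ, 3 ≤ m ∧ 2 ≤ t ∧ ∃ c₁ : ℝ, 0 < c₁ ∧ ∀ η : ℝ, 0 < η →
    ∃ M : ℕ, 1 ≤ M ∧ ∃ c₂ : ℝ, 0 < c₂ ∧ ∃ K : ℕ,
    ∀ {V : Type} [AddCommGroup V] [Fintype V] (H : AddSubgroup V) (x : V) (B : Finset V),
      K ≤ Fintype.card V → (∀ y : V, ∃ j : ℕ, y - j • x ∈ H) → d • x ∈ H →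
      (∀ b ∈ B, b - x ∈ H) → (0 : V) ∉ B → α * Nat.card H ≤ B.card → Spr H β B →
      ∃ (s : ℕ) (Z : Fin s → Fin m → V) (c : Fin (t * s) → V) (R : Finset V) (s₂ : ℕ)
        (L : V → Fin s₂ → List V), Fam B 0 Z ∧
        Function.Injective c ∧ (∀ i, c i ∈ B) ∧ (∀ z i j, Z z i ≠ c j) ∧
        R ⊆ B ∧ (∀ z i, Z z i ∉ R) ∧ (∀ i, c i ∉ R) ∧ (R.card : ℝ) ≤ η * Fintype.card V ∧
        c₁ * Fintype.card V ≤ s ∧ c₂ * Fintype.card V ≤ s₂ ∧
        (∀ y, y ≠ 0 → Lnk R y M (L y)) ∧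
        (B.filter fun b => b ∉ R ∧ (∀ z i, Z z i ≠ b) ∧ ∀ j, c j ≠ b).card ≤ m + t := by
  obtain ⟨m, t, hm, ht, c₁, hc₁, K₁, hP1⟩ := stock_part d hd (α / 2) (β / 2) (by positivity)
    (by positivity)
  refine ⟨m, t, hm, ht, c₁, hc₁, ?_⟩
  intro η hη
  obtain ⟨N, hN⟩ := exists_nat_ge (max 4 (max (2 / η) (4 / β)))
  have hN4 : (4 : ℝ) ≤ N := (le_max_left _ _).trans hN
  have hNη : 2 / η ≤ N := ((le_max_left _ _).trans (le_max_right _ _)).trans hN
  have hNβ : 4 / β ≤ N := ((le_max_right _ _).trans (le_max_right _ _)).trans hN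
  have hN0 : (0 : ℝ) < N := by linarith
  have hN2 : 2 ≤ N := by
    have : (4 : ℕ) ≤ N := by exact_mod_cast hN4
    omega
  obtain ⟨M, hM, c₂, hc₂, K₂, hP2⟩ := link_part d hd (α / (2 * N)) (β / 4) (by positivity)
    (by positivity)
  obtain ⟨K₃, hRC⟩ := reserve α β hα hβ N hN2
  obtain ⟨K₄, hK₄⟩ := exists_nat_ge ((K₃ : ℝ) * d / α)
  refine ⟨M, hM, c₂, hc₂, max K₁ (max K₂ K₄), ?_⟩
  intro V _ _ H x B hK hx hdx hB h0 hcard hS
  have hK1 : K₁ ≤ Fintype.card V := (le_max_left _ _).trans hK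
  have hK2 : K₂ ≤ Fintype.card V := ((le_max_left _ _).trans (le_max_right _ _)).trans hK
  have hK4 : K₄ ≤ Fintype.card V := ((le_max_right _ _).trans (le_max_right _ _)).trans hK
  have hVH : (Fintype.card V : ℝ) ≤ d * Nat.card H := by
    exact_mod_cast PR_card_le d hd H x hx hdx
  have hd0 : (0 : ℝ) < d := by exact_mod_cast hd
  have hK3 : K₃ ≤ B.card := by
    have h1 : (K₃ : ℝ) * d / α ≤ d * Nat.card H := by
      refine (hK₄.trans ?_).trans hVH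
      exact_mod_cast hK4
    have h2 : (K₃ : ℝ) * d ≤ (α * Nat.card H) * d := by
      rw [div_le_iff₀ hα] at h1
      calc (K₃ : ℝ) * d ≤ d * Nat.card H * α := h1
        _ = (α * Nat.card H) * d := by ring
    have h3 : (K₃ : ℝ) ≤ α * Nat.card H := le_of_mul_le_mul_right h2 hd0
    exact_mod_cast h3.trans hcard
  obtain ⟨R, hRB, hR1, hR2, hRS⟩ := hRC H x B hB hcard hK3 hS
  have hBc : (0 : ℝ) ≤ B.card := Nat.cast_nonneg _
  have hRle : (R.card : ℝ) ≤ 2 / N * B.card := by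
    refine hR2.trans (le_of_eq ?_)
    ring
  have hgβ : 2 / (N : ℝ) ≤ β / 2 := by
    rw [div_le_iff₀ hβ] at hNβ
    rw [div_le_iff₀ hN0]
    linarith
  have hg2 : 2 / (N : ℝ) ≤ 1 / 2 := by
    rw [div_le_iff₀ hN0]
    linarith
  have hgη : 2 / (N : ℝ) ≤ η := by
    rw [div_le_iff₀ hη] at hNη
    rw [div_le_iff₀ hN0]
    linarith
  have hS1 : Spr H (β / 2) (B \ R) := PR_spr H β (2 / N) hβ.le B R hS hRle hgβ
  have hc1 : α / 2 * Nat.card H ≤ ((B \ R).card : ℝ) := by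
    have h1 : ((B \ R).card : ℝ) = B.card - R.card := by
      rw [Finset.card_sdiff_of_subset hRB, Nat.cast_sub (Finset.card_le_card hRB)]
    have h2 : 2 / (N : ℝ) * B.card ≤ 1 / 2 * B.card := mul_le_mul_of_nonneg_right hg2 hBc
    rw [h1]
    linarith
  obtain ⟨s, Z, c, hZ, hcinj, hcmem, hZc, hs, hleft⟩ := hP1 H x (B \ R) hK1 hx hdx
    (fun b hb => hB b (Finset.mem_sdiff.1 hb).1) (fun h => h0 (Finset.mem_sdiff.1 h).1) hc1 hS1
  have hc2 : α / (2 * N) * Nat.card H ≤ (R.card : ℝ) := by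
    refine le_trans ?_ hR1
    rw [div_mul_eq_mul_div]
    exact div_le_div_of_nonneg_right hcard (by positivity)
  obtain ⟨s₂, L, hs₂, hL⟩ := hP2 H x R hK2 hx hdx (fun b hb => hB b (hRB hb))
    (fun h => h0 (hRB h)) hc2 hRS
  refine ⟨s, Z, c, R, s₂, L, ?_, hcinj, fun i => (Finset.mem_sdiff.1 (hcmem i)).1, hZc, hRB,
    fun z i => (Finset.mem_sdiff.1 (hZ.mem z i)).2, fun i => (Finset.mem_sdiff.1 (hcmem i)).2,
    ?_, hs, hs₂, hL, ?_⟩
  · exact ⟨fun z i => (Finset.mem_sdiff.1 (hZ.mem z i)).1, hZ.inj, hZ.tot, hZ.win, hZ.cross,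
      hZ.pre⟩
  · have h1 : (B.card : ℝ) ≤ Fintype.card V := by exact_mod_cast Finset.card_le_univ B
    calc (R.card : ℝ) ≤ 2 / N * B.card := hRle
      _ ≤ η * B.card := mul_le_mul_of_nonneg_right hgη hBc
      _ ≤ η * Fintype.card V := mul_le_mul_of_nonneg_left h1 hη.le
  · refine le_trans (Finset.card_le_card ?_) hleft
    intro b hb
    rw [Finset.mem_filter] at hb
    rw [Finset.mem_filter, Finset.mem_sdiff]
    exact ⟨⟨hb.1, hb.2.1⟩, hb.2.2⟩

end Pool.Agent.SDN
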