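import Pool.Agent.Lib_helper26.SDN.Defs
import Pool.Agent.Lib_helper26.SDN.PR
import Pool.Agent.Lib_helper26.SDN.LA
import Pool.Agent.Lib_helper26.SDN.PA
import Pool.Agent.Lib_helper26.SDN.CN
import Pool.Agent.Lib_helper26.SDN.G3

/-! Block CO (project SDN): the dense core. -/

namespace Pool.Agent.SDN

open Finset

theorem CO_small (κ ε : ℝ) (hκ : 0 < κ) (hε : 0 < ε) :
    ∃ K : ℕ, ∀ v : ℕ, K ≤ v → (v : ℝ) ^ (1 - κ) ≤ ε * v := by
  have h1 : Filter.Tendsto (fun v : ℕ => (v : ℝ) ^ (-κ)) Filter.atTop (nhds 0) :=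
    (tendsto_rpow_neg_atTop hκ).comp tendsto_natCast_atTop_atTop
  have h2 := (h1.eventually (gt_mem_nhds hε)).and (Filter.eventually_ge_atTop 1)
  obtain ⟨K, hK⟩ := Filter.eventually_atTop.1 h2
  refine ⟨K, fun v hv => ?_⟩
  obtain ⟨h3, h4⟩ := hK v hv
  have h5 : (0 : ℝ) < v := by exact_mod_cast h4
  have h6 : (v : ℝ) ^ (1 - κ) = (v : ℝ) ^ (-κ) * v := by
    rw [sub_eq_neg_add, Real.rpow_add h5, Real.rpow_one]
  rw [h6]
  exact mul_le_mul_of_nonneg_right (le_of_lt h3) h5.le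

theorem CO_const (C ε : ℝ) (hε : 0 < ε) : ∃ K : ℕ, ∀ v : ℕ, K ≤ v → C ≤ ε * v := by
  obtain ⟨K, hK⟩ := exists_nat_ge (C / ε)
  refine ⟨K, fun v hv => ?_⟩
  have h1 : C / ε ≤ v := hK.trans (by exact_mod_cast hv)
  rw [div_le_iff₀ hε] at h1
  linarith

theorem CO_vs {V : Type*} [AddCommGroup V] (c : V) (l : List V) :
    vs c l = (vs 0 l).map (fun x => c + x) := by
  have key : ∀ (l : List V) (c d : V), vs (c + d) l = (vs d l).map (fun x => c + x) := by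
    intro l
    induction l with
    | nil => intro c d; rfl
    | cons a l ih =>
      intro c d
      simp only [vs, List.map_cons]
      rw [add_assoc, ih]
  have := key l c 0
  rwa [add_zero] at this

theorem CO_mem {α : Type*} {p : α → Prop} (inst : DecidablePred p) {s : Finset α} {a : α} :
    a ∈ @Finset.filter α p inst s ↔ a ∈ s ∧ p a := @Finset.mem_filter α p inst s a

theorem CO_excl {ι V : Type*} [Fintype ι] (Q : ι → V → Prop) (W : Finset V)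
    [DecidablePred fun z => ∃ w ∈ W, Q z w] (h : ∀ z z' w, Q z w → Q z' w → z = z') :
    (univ.filter fun z => ∃ w ∈ W, Q z w).card ≤ W.card := by
  classical
  refine Finset.card_le_card_of_forall_subsingleton Q ?_ ?_
  · intro z hz
    exact (Finset.mem_filter.1 hz).2
  · intro w _ z hz z' hz'
    exact h z z' w hz.2 hz'.2

theorem CO_link {V : Type} [AddCommGroup V] {s₂ N : ℕ} {R : Finset V} {y : V} {M : ℕ}
    {L : Fin s₂ → List V} (hL : Lnk R y M L) (lab : V → Fin N) (wy : Finset V) (u : V)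
    {F1 F2 : Finset (Fin s₂)}
    (h1 : ∀ z ∈ F1, ∀ i ∈ (vs u (L z)).dropLast, ((lab i : Fin N) : ℕ) = 1)
    (h2 : ∀ z, (∀ i ∈ (vs u (L z)).dropLast, ((lab i : Fin N) : ℕ) = 1 ∧ i ∉ wy) → z ∈ F2) :
    F1.card ≤ F2.card + wy.card := by
  classical
  have h3 := CO_excl (fun (z : Fin s₂) w => w ∈ (vs u (L z)).dropLast) wy (by
    intro z z' w h h'
    by_contra hne
    have hd := hL.vdisj z z' hne
    rw [CO_vs, ← List.map_dropLast] at h h'
    obtain ⟨a, ha, hae⟩ := List.mem_map.1 h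
    obtain ⟨b, hb, hbe⟩ := List.mem_map.1 h'
    have : a = b := add_left_cancel (hae.trans hbe.symm)
    subst this
    exact hd ha hb)
  refine le_trans (Finset.card_le_card ?_) ((Finset.card_union_le _ _).trans
    (Nat.add_le_add_left h3 _))
  intro z hz
  rw [Finset.mem_union, Finset.mem_filter]
  by_cases hw : ∃ w ∈ wy, w ∈ (vs u (L z)).dropLast
  · exact Or.inr ⟨Finset.mem_univ _, hw⟩
  · left
    exact h2 z fun i hi => ⟨h1 z hz i hi, fun hi' => hw ⟨i, hi', hi⟩⟩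

/-- number of edges of the nibble -/
theorem CO_D {V : Type} {ν g t nC s : ℕ} (𝓓 : Finset (Fin ν × V × Tp g t nC s))
    (h1 : ∀ e ∈ 𝓓, Function.Injective e.2.2.2)
    (h2 : ∀ e ∈ 𝓓, ∀ e' ∈ 𝓓, e ≠ e' → ∀ j j', e.2.2.2 j ≠ e'.2.2.2 j') :
    𝓓.card * g ≤ s := by
  classical
  have h := Finset.card_le_card_of_injOn (s := 𝓓 ×ˢ (univ : Finset (Fin g)))
    (t := (univ : Finset (Fin s))) (fun p => p.1.2.2.2 p.2) (fun _ _ => Finset.mem_univ _) (by
      rintro ⟨e, j⟩ he ⟨e', j'⟩ he' hee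
      have me : e ∈ 𝓓 := (Finset.mem_product.1 he).1
      have me' : e' ∈ 𝓓 := (Finset.mem_product.1 he').1
      by_cases hne : e = e'
      · subst hne
        exact Prod.ext rfl (h1 e me hee)
      · exact absurd hee (h2 e me e' me' hne j j'))
  simpa [Finset.card_product] using h

theorem CO_cnt {V : Type} [AddCommGroup V] {s m nC : ℕ} {B : Finset V} {Z : Fin s → Fin m → V}
    (hZ : Fam B 0 Z) {c : Fin nC → V} (hc : Function.Injective c) (hcB : ∀ i, c i ∈ B)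
    (hZc : ∀ z i j, Z z i ≠ c j) : nC + s * m ≤ B.card := by
  classical
  have h := Finset.card_le_card_of_injOn (s := (univ : Finset (Fin nC ⊕ (Fin s × Fin m))))
    (t := B) (fun p => Sum.elim c (fun q => Z q.1 q.2) p) (by
      intro p _
      rcases p with i | q
      · exact hcB i
      · exact hZ.mem q.1 q.2) (by
      intro p _ p' _ hpp
      rcases p with i | q <;> rcases p' with i' | q'
      · exact congrArg Sum.inl (hc hpp)
      · exact absurd hpp.symm (hZc _ _ _)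
      · exact absurd hpp (hZc _ _ _)
      · obtain ⟨h1, h2⟩ := hZ.inj _ _ _ _ hpp
        exact congrArg Sum.inr (Prod.ext h1 h2))
  simpa using h

theorem CO_P1 {V : Type*} [AddCommGroup V] {m : ℕ} (hm : 0 < m) (y : Fin m → V) :
    P y 1 = y ⟨0, hm⟩ := by
  unfold P
  rw [Finset.sum_eq_single (⟨0, hm⟩ : Fin m)]
  · simp
  · intro i _ hi
    rw [if_neg]
    intro h
    exact hi (Fin.ext (by simpa using (Nat.lt_one_iff.1 h)))
  · intro h
    exact absurd (Finset.mem_univ _) h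

open Classical in
/-- the leftover elements -/
theorem CO_left {V : Type} [AddCommGroup V] {s m nC ν k : ℕ} (hm : 1 ≤ m) {B R : Finset V}
    {Z : Fin s → Fin m → V} {c : Fin nC → V} {C : Fin ν → List V} {S : Finset (Fin s)}
    {U : Finset (Fin nC ⊕ Fin s)}
    (h0 : (B.filter fun b => b ∉ R ∧ (∀ z i, Z z i ≠ b) ∧ ∀ j, c j ≠ b).card ≤ k)
    (h1 : ∀ i, (∀ κ, c i ∉ C κ) → Sum.inl i ∈ U) (h2 : ∀ z, z ∉ S → Sum.inr z ∈ U) :
    (B.filter fun b => (∀ κ, b ∉ C κ) ∧ ∀ z ∈ S, ∀ i, Z z i ≠ b).card ≤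
      k + R.card + m * U.card := by
  have h3 : (U.biUnion fun a => Sum.elim (fun i => ({c i} : Finset V))
      (fun z => univ.image (Z z)) a).card ≤ m * U.card := by
    refine Finset.card_biUnion_le.trans ?_
    calc ∑ a ∈ U, (Sum.elim (fun i => ({c i} : Finset V)) (fun z => univ.image (Z z)) a).card ≤
          ∑ _a ∈ U, m := by
            refine Finset.sum_le_sum fun a _ => ?_
            rcases a with i | z
            · simpa using hm
            · exact Finset.card_image_le.trans (by simp)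
      _ = m * U.card := by
          rw [Finset.sum_const, smul_eq_mul, mul_comm]
  refine le_trans (Finset.card_le_card (t := ((B.filter fun b => b ∉ R ∧ (∀ z i, Z z i ≠ b) ∧
    ∀ j, c j ≠ b) ∪ R) ∪ U.biUnion fun a => Sum.elim (fun i => ({c i} : Finset V))
      (fun z => univ.image (Z z)) a) ?_) ((Finset.card_union_le _ _).trans
        (Nat.add_le_add ((Finset.card_union_le _ _).trans (Nat.add_le_add_right h0 _)) h3))
  intro b hb
  rw [Finset.mem_filter] at hb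
  obtain ⟨hbB, hb1, hb2⟩ := hb
  rw [Finset.mem_union, Finset.mem_union, Finset.mem_filter, Finset.mem_biUnion]
  by_cases hR : b ∈ R
  · exact Or.inl (Or.inr hR)
  by_cases hZb : ∃ z i, Z z i = b
  · obtain ⟨z, i, hzi⟩ := hZb
    right
    have hz : z ∉ S := fun hz => hb2 z hz i hzi
    refine ⟨Sum.inr z, h2 z hz, ?_⟩
    exact Finset.mem_image.2 ⟨i, Finset.mem_univ _, hzi⟩
  by_cases hcb : ∃ i, c i = b
  · obtain ⟨i, hi⟩ := hcb
    right
    refine ⟨Sum.inl i, h1 i fun κ => hi ▸ hb1 κ, ?_⟩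
    exact Finset.mem_singleton.2 hi.symm
  · left
    left
    exact ⟨hbB, hR, fun z i h => hZb ⟨z, i, h⟩, fun j h => hcb ⟨j, h⟩⟩

open Classical in
/-- the stock sets which are good for the stepping -/
theorem CO_S {V : Type} [AddCommGroup V] {s m nC N : ℕ} (hm : 1 ≤ m) {B : Finset V}
    {Z : Fin s → Fin m → V} (hZ : Fam B 0 Z) {S : Finset (Fin s)}
    {U : Finset (Fin nC ⊕ Fin s)} (h2 : ∀ z, z ∉ S → Sum.inr z ∈ U) (lab : V → Fin N)
    (wy : Finset V) (T : V) (c : Fin (m + 1) → V) :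
    (univ.filter fun z => (∀ i, ((lab (P (Z z) 1 + c i) : Fin N) : ℕ) = 0) ∧
        ∀ j, 2 ≤ j → j < m → ((lab (T + P (Z z) j) : Fin N) : ℕ) = 0).card ≤
      (S.filter fun z => (∀ i, ((lab (P (Z z) 1 + c i) : Fin N) : ℕ) = 0 ∧
          P (Z z) 1 + c i ∉ wy) ∧
          ∀ j, 2 ≤ j → j < m → ((lab (T + P (Z z) j) : Fin N) : ℕ) = 0 ∧
            T + P (Z z) j ∉ wy).card + U.card + (2 * m + 1) * wy.card := by
  have hU : (univ.filter fun z : Fin s => z ∉ S).card ≤ U.card := by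
    refine Finset.card_le_card_of_injOn Sum.inr (fun z hz => ?_) (fun _ _ _ _ h => Sum.inr_injective h)
    exact h2 z (Finset.mem_filter.1 hz).2
  have hA : ∀ i : Fin (m + 1), (univ.filter fun z : Fin s => ∃ w ∈ wy,
      P (Z z) 1 + c i = w).card ≤ wy.card := by
    intro i
    refine CO_excl (fun (z : Fin s) w => P (Z z) 1 + c i = w) wy ?_
    intro z z' w h h'
    have h3 : P (Z z) 1 = P (Z z') 1 := add_right_cancel (h.trans h'.symm)
    rw [CO_P1 hm, CO_P1 hm] at h3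
    exact (hZ.inj _ _ _ _ h3).1
  have hB : ∀ j ∈ Ico 2 m, (univ.filter fun z : Fin s => ∃ w ∈ wy,
      T + P (Z z) j = w).card ≤ wy.card := by
    intro j hj
    rw [Finset.mem_Ico] at hj
    refine CO_excl (fun (z : Fin s) w => T + P (Z z) j = w) wy ?_
    intro z z' w h h'
    by_contra hne
    exact hZ.pre z z' j j hne (by omega) hj.2 (by omega) hj.2 (add_left_cancel (h.trans h'.symm))
  have hAA : ((univ : Finset (Fin (m + 1))).biUnion fun i => univ.filter fun z : Fin s =>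
      ∃ w ∈ wy, P (Z z) 1 + c i = w).card ≤ (m + 1) * wy.card := by
    refine Finset.card_biUnion_le.trans ((Finset.sum_le_sum fun i _ => hA i).trans ?_)
    simp
  have hBB : ((Ico 2 m).biUnion fun j => univ.filter fun z : Fin s =>
      ∃ w ∈ wy, T + P (Z z) j = w).card ≤ m * wy.card := by
    refine Finset.card_biUnion_le.trans ((Finset.sum_le_sum hB).trans ?_)
    rw [Finset.sum_const, smul_eq_mul, Nat.card_Ico]
    exact Nat.mul_le_mul_right _ (Nat.sub_le _ _)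
  refine le_trans (Finset.card_le_card (t := (((S.filter fun z =>
      (∀ i, ((lab (P (Z z) 1 + c i) : Fin N) : ℕ) = 0 ∧ P (Z z) 1 + c i ∉ wy) ∧
          ∀ j, 2 ≤ j → j < m → ((lab (T + P (Z z) j) : Fin N) : ℕ) = 0 ∧
            T + P (Z z) j ∉ wy) ∪ (univ.filter fun z : Fin s => z ∉ S)) ∪
      ((univ : Finset (Fin (m + 1))).biUnion fun i => univ.filter fun z : Fin s =>
      ∃ w ∈ wy, P (Z z) 1 + c i = w)) ∪ ((Ico 2 m).biUnion fun j => univ.filter fun z : Fin s =>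
      ∃ w ∈ wy, T + P (Z z) j = w)) ?_) ?_
  · intro z hz
    obtain ⟨-, hz1, hz2⟩ := (CO_mem _).1 hz
    rw [Finset.mem_union, Finset.mem_union, Finset.mem_union, Finset.mem_biUnion,
      Finset.mem_biUnion]
    by_cases hS : z ∈ S
    · by_cases hw1 : ∃ i, P (Z z) 1 + c i ∈ wy
      · obtain ⟨i, hi⟩ := hw1
        exact Or.inl (Or.inr ⟨i, Finset.mem_univ _, Finset.mem_filter.2
          ⟨Finset.mem_univ _, _, hi, rfl⟩⟩)
      by_cases hw2 : ∃ j ∈ Ico 2 m, T + P (Z z) j ∈ wy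
      · obtain ⟨j, hj, hj'⟩ := hw2
        exact Or.inr ⟨j, hj, Finset.mem_filter.2 ⟨Finset.mem_univ _, _, hj', rfl⟩⟩
      refine Or.inl (Or.inl (Or.inl ((CO_mem _).2
        ⟨hS, fun i => ⟨hz1 i, fun h => hw1 ⟨i, h⟩⟩,
          fun j hj hjm => ⟨hz2 j hj hjm, fun h => hw2 ⟨j, Finset.mem_Ico.2 ⟨hj, hjm⟩, h⟩⟩⟩)))
    · exact Or.inl (Or.inl (Or.inr ((CO_mem _).2 ⟨Finset.mem_univ _, hS⟩)))
  · refine (Finset.card_union_le _ _).trans ?_
    refine (Nat.add_le_add_right (Finset.card_union_le _ _) _).trans ?_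
    refine (Nat.add_le_add_right (Nat.add_le_add_right (Finset.card_union_le _ _) _) _).trans ?_
    have e : (2 * m + 1) * wy.card = (m + 1) * wy.card + m * wy.card := by ring
    rw [e]
    omega

theorem CO_g (δ a : ℝ) (hδ : 0 < δ) (ha : 0 < a) (M : ℕ) : ∃ g : ℕ, 2 ≤ g ∧
    1 / (g : ℝ) ≤ δ / 2 ∧ 2 * M / (g : ℝ) ≤ a / 4 := by
  obtain ⟨g₀, hg₀⟩ := exists_nat_ge (2 / δ + 8 * M / a)
  have h0 : (0 : ℝ) ≤ 8 * M / a := by positivity
  have h0' : (0 : ℝ) < 2 / δ := by positivity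
  refine ⟨g₀ + 2, by omega, ?_, ?_⟩
  · have h1 : 2 / δ ≤ ((g₀ + 2 : ℕ) : ℝ) := by
      push_cast
      linarith
    rw [div_le_iff₀ hδ] at h1
    rw [div_le_div_iff₀ (by positivity) (by norm_num)]
    linarith
  · have h1 : 8 * M / a ≤ ((g₀ + 2 : ℕ) : ℝ) := by
      push_cast
      linarith
    rw [div_le_iff₀ ha] at h1
    rw [div_le_div_iff₀ (by positivity) (by norm_num)]
    linarith

theorem CO_f {f δ lam n b ts ms s g : ℝ} (hf : 0 ≤ f) (hδ : 0 < δ) (hs : 0 ≤ s) (hts : s ≤ ts)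
    (hms : 0 ≤ ms) (h1 : ts + ms ≤ b) (hlam : 0 ≤ lam) (hn : 0 ≤ n) (hg : 1 / g ≤ δ / 2)
    (hg0 : 0 < g) (h : f * b ≤ (1 - δ) * lam * n) :
    f * (ts + ms + s / g) ≤ (1 - δ / 2) * lam * n := by
  have h2 : s / g ≤ b * (δ / 2) := by
    calc s / g = s * (1 / g) := by ring
      _ ≤ b * (δ / 2) := by
          refine mul_le_mul (by linarith) hg (by positivity) (by linarith)
  have h3 : f * (ts + ms + s / g) ≤ f * b * (1 + δ / 2) := by
    calc f * (ts + ms + s / g) ≤ f * (b + b * (δ / 2)) :=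
          mul_le_mul_of_nonneg_left (by linarith) hf
      _ = f * b * (1 + δ / 2) := by ring
  have h4 : f * b * (1 + δ / 2) ≤ (1 - δ) * lam * n * (1 + δ / 2) :=
    mul_le_mul_of_nonneg_right h (by linarith)
  have h5 : (1 - δ) * lam * n * (1 + δ / 2) ≤ (1 - δ / 2) * lam * n := by
    have h6 : 0 ≤ lam * n := mul_nonneg hlam hn
    nlinarith [mul_nonneg h6 (sq_nonneg δ)]
  linarith

theorem CO_inr {g t nC s : ℕ} (τ : Tp g t nC s) (j : Fin g) : Sum.inr (τ.2 j) ∈ res τ := by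
  unfold res
  exact Finset.mem_union_right _ (Finset.mem_image_of_mem _ (Finset.mem_univ _))

open Classical in
/-- the dense core: everything except the stepping part -/
theorem core (d : ℕ) (hd : 1 ≤ d) (α β δ : ℝ) (hα : 0 < α) (hβ : 0 < β) (hδ : 0 < δ)
    (ν N : ℕ) (hN : 2 ≤ N) (Λ : Fin ν → Finset (Fin N)) (hΛ0 : ∀ κ, (Λ κ).Nonempty)
    (hΛ : ∀ κ, ∀ l ∈ Λ κ, 2 ≤ (l : ℕ)) (f : Fin ν → ℝ) (hf : ∀ κ, 0 ≤ f κ)
    (hf1 : ∑ κ, f κ = 1) :
    ∃ m : ℕ, 3 ≤ m ∧ ∃ ρ : ℝ, 0 < ρ ∧ ∀ η : ℝ, 0 < η → ∃ K : ℕ,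
    ∀ {V : Type} [AddCommGroup V] [Fintype V] (H : AddSubgroup V) (x : V) (B : Finset V)
      (T : V) (A0 A1 : Fin ν → V),
      K ≤ Fintype.card V → (∀ y : V, ∃ j : ℕ, y - j • x ∈ H) → d • x ∈ H →
      (∀ b ∈ B, b - x ∈ H) → (0 : V) ∉ B → α * Nat.card H ≤ B.card → Spr H β B →
      (∀ κ, f κ * B.card ≤ (1 - δ) * (((Λ κ).card : ℝ) / N) * Fintype.card V) →
      (∀ κ, A0 κ ≠ A1 κ) →
      ∃ (s : ℕ) (Z : Fin s → Fin m → V) (S : Finset (Fin s)) (lab : V → Fin N)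
        (Tm : Fin ν → List (V × Option (Fin s))) (wy : Finset V),
        wy = insert T (univ.image A0 ∪ univ.image A1) ∧
        Fam B 0 Z ∧
        (∀ κ, Tm κ ≠ [] ∧ (cl (Tm κ)).sum = A1 κ - A0 κ ∧
          (rv Z (A0 κ) (Tm κ)).dropLast.Nodup ∧
          ∀ u ∈ (rv Z (A0 κ) (Tm κ)).dropLast,
            (lab u ∈ Λ κ ∨ ((lab u : Fin N) : ℕ) = 1) ∧ u ∉ wy) ∧
        (∀ κ κ', κ ≠ κ' → ∀ u ∈ (rv Z (A0 κ) (Tm κ)).dropLast,
          u ∈ (rv Z (A0 κ') (Tm κ')).dropLast → ((lab u : Fin N) : ℕ) ≠ 1) ∧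
        (∀ κ, (cl (Tm κ)).Nodup ∧ (sk (Tm κ)).Nodup ∧
          ∀ a ∈ cl (Tm κ), a ∈ B ∧ ∀ z i, a ≠ Z z i) ∧
        (∀ κ κ', κ ≠ κ' → List.Disjoint (cl (Tm κ)) (cl (Tm κ')) ∧
          List.Disjoint (sk (Tm κ)) (sk (Tm κ'))) ∧
        (∀ z, (∃ κ, z ∈ sk (Tm κ)) ↔ z ∈ S) ∧
        ((B.filter fun b => (∀ κ, b ∉ cl (Tm κ)) ∧ ∀ z ∈ S, ∀ i, Z z i ≠ b).card : ℝ) ≤
          η * Fintype.card V ∧
        (∀ c : Fin (m + 1) → V, ρ * Fintype.card V ≤ ((S.filter fun z =>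
          (∀ i, ((lab (P (Z z) 1 + c i) : Fin N) : ℕ) = 0 ∧ P (Z z) 1 + c i ∉ wy) ∧
          ∀ j, 2 ≤ j → j < m → ((lab (T + P (Z z) j) : Fin N) : ℕ) = 0 ∧
            T + P (Z z) j ∉ wy).card : ℝ)) ∧
        (∀ l, |((univ.filter fun u => lab u = l).card : ℝ) - (Fintype.card V : ℝ) / N| ≤
          η * Fintype.card V) := by
  obtain ⟨m, t, hm, ht, c₁, hc₁, hprep⟩ := prep d hd α β hα hβ
  have hNR : (0 : ℝ) < N := by
    have : 0 < N := by omega
    exact_mod_cast this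
  have hmR : (0 : ℝ) < m := by
    have : 0 < m := by omega
    exact_mod_cast this
  refine ⟨m, hm, c₁ / (2 * (N : ℝ) ^ (2 * m + 1)), by positivity, fun η hη => ?_⟩
  obtain ⟨M, hM, c₂, hc₂, K₁, h₁⟩ := hprep (η / 4) (by positivity)
  obtain ⟨a, ha⟩ : ∃ a : ℝ, a = c₂ / (N : ℝ) ^ (M + m) := ⟨_, rfl⟩
  obtain ⟨b, hb⟩ : ∃ b : ℝ, b = c₁ / (N : ℝ) ^ (2 * m + 1) := ⟨_, rfl⟩
  have ha0 : 0 < a := by rw [ha]; positivity
  have hb0 : 0 < b := by rw [hb]; positivity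
  obtain ⟨g, hg, hgδ, hga⟩ := CO_g δ a hδ ha0 M
  obtain ⟨K₂, h₂⟩ := labels g t m ν N M hg ht hm hN Λ
  obtain ⟨κ₀, hκ₀, K₃, h₃⟩ := paths g t m ν N (2 * ν + 1) hg ht hm hN Λ hΛ0 f hf hf1 c₁ (δ / 2)
    hc₁ (by positivity)
  obtain ⟨K₄, h₄⟩ := CO_small (1 / 3) (min (a / 4) (min (b / 6) η)) (by norm_num) (by positivity)
  obtain ⟨K₅, h₅⟩ := CO_small κ₀ (min (η / (4 * m)) (b / 6)) hκ₀ (by positivity)
  obtain ⟨K₆, h₆⟩ := CO_const (((2 * ν + 1) + 1 + (2 * M * ν + 1) + (m + t) +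
    (2 * m + 1) * (2 * ν + 1) : ℕ) : ℝ) (min (a / 4) (min (η / 4) (b / 6))) (by positivity)
  refine ⟨K₁ + K₂ + K₃ + K₄ + K₅ + K₆ + 1, ?_⟩
  intro V _ _ H x B T A0 A1 hK hx hdx hB hB0 hαB hS hfB hA
  obtain ⟨s, Z, c, R, s₂, L, hZ, hc, hcB, hZc, hRB, hZR, hcR, hR, hs, hs₂, hL, hleft⟩ :=
    h₁ H x B (by omega) hx hdx hB hB0 hαB hS
  have hv4 := h₄ (Fintype.card V) (by omega)
  have hv5 := h₅ (Fintype.card V) (by omega)
  have hv6 := h₆ (Fintype.card V) (by omega)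
  have hv1 : 1 ≤ Fintype.card V := by omega
  have e23 : (1 - 1 / 3 : ℝ) = 2 / 3 := by norm_num
  rw [e23] at hv4
  have hcnt := CO_cnt hZ hc hcB hZc
  have hBv : B.card ≤ Fintype.card V := Finset.card_le_univ B
  have hc0 : ∀ i, c i ≠ 0 := fun i h => hB0 (h ▸ hcB i)
  have hn1 : (1 : ℝ) ≤ Fintype.card V := by exact_mod_cast hv1
  have hs0 : 0 < s := by
    have : (0 : ℝ) < s := lt_of_lt_of_le (by positivity) hs
    exact_mod_cast this
  obtain ⟨lab, l1, l2, l3, l4, l5⟩ := h₂ Z B c R L T (by omega) hs0 hZ hc hc0 hL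
  obtain ⟨wy, hwy⟩ : ∃ wy : Finset V, wy = insert T (univ.image A0 ∪ univ.image A1) := ⟨_, rfl⟩
  have hwyc : wy.card ≤ 2 * ν + 1 := by
    rw [hwy]
    refine (Finset.card_insert_le _ _).trans (Nat.succ_le_succ ((Finset.card_union_le _ _).trans ?_))
    have i0 : (univ.image A0).card ≤ ν := Finset.card_image_le.trans (by simp)
    have i1 : (univ.image A1).card ≤ ν := Finset.card_image_le.trans (by simp)
    omega
  have hsz : (t + m) * s ≤ Fintype.card V := by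
    calc (t + m) * s = t * s + s * m := by ring
      _ ≤ Fintype.card V := hcnt.trans hBv
  obtain ⟨𝓓, d1, d2, d3⟩ := h₃ Z B c lab wy (by omega) hwyc hZ hc hc0 hs hsz (by
    intro κ
    refine CO_f (b := (B.card : ℝ)) (hf κ) hδ (Nat.cast_nonneg s) ?_ (by positivity) ?_
      (by positivity) (by positivity) hgδ ?_ (hfB κ)
    · have : s ≤ t * s := Nat.le_mul_of_pos_left _ (by omega)
      exact_mod_cast this
    · have : t * s + m * s ≤ B.card := by
        rw [Nat.mul_comm m s]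
        exact hcnt
      exact_mod_cast this
    · have : 0 < g := by omega
      exact_mod_cast this) l2 l3
  have hg0 : (0 : ℝ) < g := by
    have : 0 < g := by omega
    exact_mod_cast this
  have hDg : 𝓓.card * g ≤ s := CO_D 𝓓 (fun e he => (d1 e he).1.2.1)
    (fun e he e' he' hne j j' h => by
      have h7 := (d2 e he e' he' hne).1
      have m1 := CO_inr e.2.2 j
      rw [h] at m1
      exact Finset.disjoint_left.1 h7 m1 (CO_inr e'.2.2 j'))
  have hsv : s ≤ Fintype.card V := (Nat.le_mul_of_pos_left _ (by omega)).trans hsz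
  have hDR : (𝓓.card : ℝ) ≤ Fintype.card V / g := by
    rw [le_div_iff₀ hg0]
    exact_mod_cast hDg.trans hsv
  -- the small terms
  obtain ⟨n, hn⟩ : ∃ n : ℝ, n = Fintype.card V := ⟨_, rfl⟩
  rw [← hn] at hv4 hv5 hv6 hn1 hs hs₂ hR hDR
  have hn0 : 0 < n := by linarith
  have v4a : n ^ (2 / 3 : ℝ) ≤ a / 4 * n := hv4.trans
    (mul_le_mul_of_nonneg_right (min_le_left _ _) hn0.le)
  have v4b : n ^ (2 / 3 : ℝ) ≤ b / 6 * n := hv4.trans
    (mul_le_mul_of_nonneg_right ((min_le_right _ _).trans (min_le_left _ _)) hn0.le)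
  have v4c : n ^ (2 / 3 : ℝ) ≤ η * n := hv4.trans
    (mul_le_mul_of_nonneg_right ((min_le_right _ _).trans (min_le_right _ _)) hn0.le)
  have v5a : n ^ (1 - κ₀) ≤ η / (4 * m) * n := hv5.trans
    (mul_le_mul_of_nonneg_right (min_le_left _ _) hn0.le)
  have v5b : n ^ (1 - κ₀) ≤ b / 6 * n := hv5.trans
    (mul_le_mul_of_nonneg_right (min_le_right _ _) hn0.le)
  push_cast at hv6
  have v6a : (2 * (ν : ℝ) + 1) + 1 + (2 * M * ν + 1) + (m + t) + (2 * m + 1) * (2 * ν + 1) ≤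
      a / 4 * n := hv6.trans (mul_le_mul_of_nonneg_right (min_le_left _ _) hn0.le)
  have v6b : (2 * (ν : ℝ) + 1) + 1 + (2 * M * ν + 1) + (m + t) + (2 * m + 1) * (2 * ν + 1) ≤
      η / 4 * n := hv6.trans
    (mul_le_mul_of_nonneg_right ((min_le_right _ _).trans (min_le_left _ _)) hn0.le)
  have v6c : (2 * (ν : ℝ) + 1) + 1 + (2 * M * ν + 1) + (m + t) + (2 * m + 1) * (2 * ν + 1) ≤
      b / 6 * n := hv6.trans
    (mul_le_mul_of_nonneg_right ((min_le_right _ _).trans (min_le_right _ _)) hn0.le)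
  have p1 : (0 : ℝ) ≤ ν := Nat.cast_nonneg _
  have p2 : (0 : ℝ) ≤ 2 * M * ν := by positivity
  have p3 : (0 : ℝ) ≤ (m : ℝ) + t := by positivity
  have p4 : (0 : ℝ) ≤ (2 * (m : ℝ) + 1) * (2 * ν + 1) := by positivity
  have hwyR : (wy.card : ℝ) ≤ 2 * ν + 1 := by exact_mod_cast hwyc
  -- the links
  have hk : ∀ u y, y ≠ 0 → ⌈a * n / 2⌉₊ ≤ (univ.filter fun z => ∀ i ∈ (vs u (L y z)).dropLast,
      ((lab i : Fin N) : ℕ) = 1 ∧ i ∉ wy).card := by
    intro u y hy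
    rw [Nat.ceil_le]
    suffices hsuf : ∀ F2 : Finset (Fin s₂), (∀ z, (∀ i ∈ (vs u (L y z)).dropLast,
        ((lab i : Fin N) : ℕ) = 1 ∧ i ∉ wy) → z ∈ F2) → a * n / 2 ≤ (F2.card : ℝ) from
      hsuf _ fun z hz => (CO_mem _).2 ⟨Finset.mem_univ _, hz⟩
    intro F2 hF2
    obtain ⟨F1, hF1, q1⟩ : ∃ F1 : Finset (Fin s₂),
        (∀ z ∈ F1, ∀ i ∈ (vs u (L y z)).dropLast, ((lab i : Fin N) : ℕ) = 1) ∧
        (s₂ : ℝ) / (N : ℝ) ^ (M + m) - (Fintype.card V : ℝ) ^ (2 / 3 : ℝ) ≤ (F1.card : ℝ) := by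
      refine ⟨_, ?_, l4 u y hy⟩
      intro z hz
      exact ((CO_mem _).1 hz).2
    have q2 := CO_link (hL y hy) lab wy u hF1 hF2
    have q2' := (Nat.cast_le (α := ℝ)).2 q2
    push_cast at q2'
    have q3 : a * n ≤ (s₂ : ℝ) / (N : ℝ) ^ (M + m) := by
      rw [ha, div_mul_eq_mul_div]
      exact div_le_div_of_nonneg_right hs₂ (by positivity)
    rw [← hn] at q1
    linarith
  obtain ⟨Tm, t1, t2, t3, t4, t5, t6⟩ := chains g t m ν N M ⌈a * n / 2⌉₊ hg ht hm Λ hΛ Z B hZ c hc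
    hc0 R hcR L hL lab wy hk A0 A1
    (fun κ => by
      rw [hwy]
      exact Finset.mem_insert_of_mem (Finset.mem_union_left _
        (Finset.mem_image_of_mem _ (Finset.mem_univ _))))
    (fun κ => by
      rw [hwy]
      exact Finset.mem_insert_of_mem (Finset.mem_union_right _
        (Finset.mem_image_of_mem _ (Finset.mem_univ _)))) hA 𝓓 d1 d2 (by
      rw [Nat.lt_ceil]
      push_cast
      have q1 : 2 * (M : ℝ) * 𝓓.card ≤ a / 4 * n := by
        calc 2 * (M : ℝ) * 𝓓.card ≤ 2 * M * (n / g) :=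
              mul_le_mul_of_nonneg_left hDR (by positivity)
          _ = 2 * M / g * n := by ring
          _ ≤ a / 4 * n := mul_le_mul_of_nonneg_right hga hn0.le
      have q2 : 2 * (M : ℝ) * (𝓓.card + ν) = 2 * M * 𝓓.card + 2 * M * ν := by ring
      rw [q2]
      linarith)
  -- the uncovered elements
  obtain ⟨U, hU1, hU2⟩ : ∃ U : Finset (Fin (t * s) ⊕ Fin s),
      (∀ a, a ∈ U ↔ ∀ e ∈ 𝓓, a ∉ res e.2.2) ∧ (U.card : ℝ) ≤ n ^ (1 - κ₀) := by
    refine ⟨_, ?_, hn ▸ d3⟩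
    intro a
    rw [CO_mem]
    simp
  obtain ⟨S, hSd⟩ : ∃ S : Finset (Fin s), ∀ z, z ∈ S ↔ ∃ e ∈ 𝓓, Sum.inr z ∈ res e.2.2 :=
    ⟨univ.filter fun z => ∃ e ∈ 𝓓, Sum.inr z ∈ res e.2.2, fun z => by simp⟩
  have hSU : ∀ z, z ∉ S → Sum.inr z ∈ U := by
    intro z hz
    rw [hU1]
    intro e he h
    exact hz ((hSd z).2 ⟨e, he, h⟩)
  refine ⟨s, Z, S, lab, Tm, wy, hwy, hZ, t1, t2, fun κ => ⟨(t3 κ).1, (t3 κ).2.1, ?_⟩, t4,
    fun z => (t6 z).trans (hSd z).symm, ?_, ?_, ?_⟩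
  · intro a ha
    rcases (t3 κ).2.2 a ha with h | ⟨i, hi⟩
    · exact ⟨hRB h, fun z i he => hZR z i (he ▸ h)⟩
    · exact ⟨hi ▸ hcB i, fun z j he => hZc z j i (he.symm.trans hi)⟩
  · have h7 := CO_left (C := fun κ => cl (Tm κ)) (S := S) (U := U) (by omega : 1 ≤ m) hleft
      (by
        intro i hi
        rw [hU1]
        intro e he h
        obtain ⟨κ, hκ⟩ := t5 i ⟨e, he, h⟩
        exact hi κ hκ) hSU
    have h7' := (Nat.cast_le (α := ℝ)).2 h7
    push_cast at h7'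
    rw [← hn]
    have h8 : (m : ℝ) * U.card ≤ η / 4 * n := by
      calc (m : ℝ) * U.card ≤ m * (η / (4 * m) * n) :=
            mul_le_mul_of_nonneg_left (hU2.trans v5a) hmR.le
        _ = η / 4 * n := by field_simp
    linarith
  · intro c'
    have h7 := CO_S (by omega : 1 ≤ m) hZ hSU lab wy T c'
    have h7' := (Nat.cast_le (α := ℝ)).2 h7
    push_cast at h7'
    have h8 := l5 c'
    rw [← hn] at h8 ⊢
    have h9 : b * n ≤ (s : ℝ) / (N : ℝ) ^ (2 * m + 1) := by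
      rw [hb, div_mul_eq_mul_div]
      exact div_le_div_of_nonneg_right hs (by positivity)
    have h10 : c₁ / (2 * (N : ℝ) ^ (2 * m + 1)) * n = b * n / 2 := by
      rw [hb]
      field_simp
    have h11 : (2 * (m : ℝ) + 1) * wy.card ≤ (2 * m + 1) * (2 * ν + 1) :=
      mul_le_mul_of_nonneg_left hwyR (by positivity)
    rw [h10]
    linarith
  · intro l
    have h7 := l1 l
    rw [← hn] at h7 ⊢
    exact h7.trans v4c

end Pool.Agent.SDN
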