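import Mathlib

/-!
Definitions for the dense case of the Alspach-Liversidge conjecture (MP_b4ec45_co), project SDN.
-/

namespace Pool.Agent.SDN

open Finset

variable {V : Type*} [AddCommGroup V]

/-- sum of the first `j` entries of a tuple -/
def P {m : ℕ} (y : Fin m → V) (j : ℕ) : V := ∑ i : Fin m, if (i : ℕ) < j then y i else 0

/-- a family of `s` tuples of length `m` with entries in `R` and sum `y`, in general position -/
structure Fam {s m : ℕ} (R : Finset V) (y : V) (Z : Fin s → Fin m → V) : Prop where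
  mem : ∀ z i, Z z i ∈ R
  inj : ∀ z z' i i', Z z i = Z z' i' → z = z' ∧ i = i'
  tot : ∀ z, P (Z z) m = y
  win : ∀ z i j, i < j → j ≤ m → ¬ (i = 0 ∧ j = m) → P (Z z) i ≠ P (Z z) j
  cross : ∀ z z' i j, z ≠ z' → i < j → j ≤ m → ¬ (i = 0 ∧ j = m) →
    P (Z z) j - P (Z z) i ≠ P (Z z') j - P (Z z') i
  pre : ∀ z z' i j, z ≠ z' → 0 < i → i < m → 0 < j → j < m → P (Z z) i ≠ P (Z z') j

/-- every coset of every proper subgroup of `H` misses at least `β |B|` elements of `B` -/
def Spr (H : AddSubgroup V) (β : ℝ) (B : Finset V) : Prop :=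
  ∀ (K : AddSubgroup V) (y : V), K < H →
    β * B.card ≤ ({b ∈ (B : Set V) | b - y ∉ K}.ncard : ℝ)

/-- the vertices visited by the steps `l`, starting at `c` (without `c`) -/
def vs : V → List V → List V
  | _, [] => []
  | c, a :: l => (c + a) :: vs (c + a) l

/-- the reserved vertices of a template, starting at `c` (without `c`): a step `a`, possibly with a
stock set which may be inserted -/
def rv {s m : ℕ} (Z : Fin s → Fin m → V) : V → List (V × Option (Fin s)) → List V
  | _, [] => []
  | c, (a, none) :: l => (c + a) :: rv Z (c + a) l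
  | c, (a, some z) :: l => (List.range (m - 1)).map (fun j => c + P (Z z) (j + 1)) ++
      ((c + a + P (Z z) (m - 1)) :: (c + a) :: rv Z (c + a) l)

/-- the steps of a template when the stock sets in `U` are inserted -/
def ex {s m : ℕ} (Z : Fin s → Fin m → V) (U : Finset (Fin s)) :
    List (V × Option (Fin s)) → List V
  | [] => []
  | (a, none) :: l => a :: ex Z U l
  | (a, some z) :: l => (if z ∈ U then (List.ofFn (Z z)).take (m - 1) ++
      (a :: (List.ofFn (Z z)).drop (m - 1)) else [a]) ++ ex Z U l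

/-- the colours of a template -/
def cl {s : ℕ} (L : List (V × Option (Fin s))) : List V := L.map Prod.fst

/-- the stock sets of a template -/
def sk {s : ℕ} (L : List (V × Option (Fin s))) : List (Fin s) := L.filterMap Prod.snd

/-! ### Patterns of the nibble: `g` blocks of `t` colours and one stock set -/

/-- patterns: colours and stock sets -/
abbrev Tp (g t nC s : ℕ) : Type := (Fin (g * t) → Fin nC) × (Fin g → Fin s)

/-- index set of the offsets: `(A, j, l)` stands for the sum of the first `A` colours plus the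
`l`-th partial sum of the `j`-th stock set -/
def ix (g t m : ℕ) : Finset (ℕ × ℕ × ℕ) :=
  (range (g * t + 1)).image (fun i => (i, 0, 0)) ∪
    ((range g ×ˢ Ico 1 m).image fun p => (t * p.1, p.1, p.2)) ∪
    (range g).image fun j => (t * j + 1, j, m - 1)

/-- offsets -/
def off {g t nC s m : ℕ} (c : Fin nC → V) (Z : Fin s → Fin m → V) (τ : Tp g t nC s)
    (p : ℕ × ℕ × ℕ) : V :=
  (∑ i : Fin (g * t), if (i : ℕ) < p.1 then c (τ.1 i) else 0) +
    (if h : p.2.1 < g then P (Z (τ.2 ⟨p.2.1, h⟩)) p.2.2 else 0)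

open Classical in
/-- the set of the offsets -/
noncomputable def offs {g t nC s m : ℕ} (c : Fin nC → V) (Z : Fin s → Fin m → V)
    (τ : Tp g t nC s) : Finset V := (ix g t m).image (off c Z τ)

/-- good patterns -/
def Good {g t nC s m : ℕ} (c : Fin nC → V) (Z : Fin s → Fin m → V) (τ : Tp g t nC s) : Prop :=
  Function.Injective τ.1 ∧ Function.Injective τ.2 ∧
    Set.InjOn (off c Z τ) (ix g t m : Set (ℕ × ℕ × ℕ))

/-- the resources of a pattern: colours and stock sets -/
def res {g t nC s : ℕ} (τ : Tp g t nC s) : Finset (Fin nC ⊕ Fin s) :=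
  (univ.image fun i => Sum.inl (τ.1 i)) ∪ (univ.image fun j => Sum.inr (τ.2 j))

/-- the template of a pattern -/
def tpl {g t nC s : ℕ} (c : Fin nC → V) (τ : Tp g t nC s) : List (V × Option (Fin s)) :=
  (List.finRange (g * t)).map fun i =>
    (c (τ.1 i), if h : (i : ℕ) / t < g ∧ t ∣ (i : ℕ) then some (τ.2 ⟨(i : ℕ) / t, h.1⟩) else none)

/-- links: lists of elements of `R` with sum `y`, interior vertices in general position -/
structure Lnk {s : ℕ} (R : Finset V) (y : V) (M : ℕ) (L : Fin s → List V) : Prop where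
  ne : ∀ z, L z ≠ []
  len : ∀ z, (L z).length ≤ M
  sum : ∀ z, (L z).sum = y
  mem : ∀ z, ∀ a ∈ L z, a ∈ R
  nodup : ∀ z, (L z).Nodup
  vnodup : ∀ z, (vs 0 (L z)).Nodup
  disj : ∀ z z', z ≠ z' → List.Disjoint (L z) (L z')
  vdisj : ∀ z z', z ≠ z' → List.Disjoint (vs 0 (L z)).dropLast (vs 0 (L z')).dropLast

end Pool.Agent.SDN
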