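import Pool.Agent.Lib_helper26.SDN.Defs

/-! Block LO (project SDN): from lists to functions on `Fin`; helper99. -/

namespace Pool.Agent.SDN

open Finset

theorem LO_vs_length {V : Type*} [AddCommGroup V] (c : V) (l : List V) :
    (vs c l).length = l.length := by
  induction l generalizing c with
  | nil => rfl
  | cons a l ih => simp only [vs, List.length_cons, ih]

theorem LO_vs_get {V : Type*} [AddCommGroup V] (l : List V) : ∀ (c : V) (j : ℕ)
    (h : j < (vs c l).length), (vs c l)[j] = c + (l.take (j + 1)).sum := by
  induction l with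
  | nil => intro c j h; simp [vs] at h
  | cons a l ih =>
    intro c j h
    cases j with
    | zero => simp [vs]
    | succ j =>
      simp only [vs, List.getElem_cons_succ, List.take_succ_cons, List.sum_cons]
      rw [ih, add_assoc]

theorem fun_of_list {G : Type*} [AddCommGroup G] (A : Finset G) (l : List G)
    (hl : l.Nodup) (hA : ∀ a, a ∈ l ↔ a ∈ A) :
    ∃ a : Fin A.card → G, Function.Injective a ∧ Set.range a = (A : Set G) ∧
      ∀ i ≤ A.card, ∑ m : Fin A.card with m.val < i, a m = (l.take i).sum := by
  classical
  have hAl : A = l.toFinset := by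
    ext a
    rw [List.mem_toFinset, hA]
  have hc : A.card = l.length := by
    rw [hAl, List.toFinset_card_of_nodup hl]
  refine ⟨fun i => l.get (Fin.cast hc i), ?_, ?_, ?_⟩
  · exact (List.nodup_iff_injective_get.1 hl).comp (Fin.cast_injective hc)
  · ext a
    simp only [Set.mem_range, mem_coe]
    rw [← hA]
    constructor
    · rintro ⟨i, rfl⟩
      exact List.get_mem l _
    · intro ha
      obtain ⟨i, hi⟩ := List.mem_iff_get.1 ha
      exact ⟨Fin.cast hc.symm i, by rw [← hi]; rfl⟩
  · intro i hi
    induction i with
    | zero => simp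
    | succ i ih =>
      have hi' : i < A.card := hi
      have hs : (univ.filter fun m : Fin A.card => m.val < i + 1) =
          insert ⟨i, hi'⟩ (univ.filter fun m : Fin A.card => m.val < i) := by
        ext m
        simp only [mem_filter, mem_univ, true_and, mem_insert, Fin.ext_iff]
        omega
      rw [hs, Finset.sum_insert (by simp), ih (by omega), List.sum_take_succ l i (by omega),
        add_comm]
      rfl

theorem ordering_of_list {G : Type*} [AddCommGroup G] (A : Finset G) (l : List G)
    (hl : l.Nodup) (hA : ∀ a, a ∈ l ↔ a ∈ A) (h1 : (vs 0 l).Nodup)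
    (h2 : (0 : G) ∉ (vs 0 l).dropLast) :
    ∃ a : Fin A.card → G, Function.Injective a ∧ Set.range a = (A : Set G) ∧
      ∀ i j : ℕ, i < j → j ≤ A.card → ¬ (i = 0 ∧ j = A.card) →
        ∑ m : Fin A.card with m.val < i, a m ≠ ∑ m : Fin A.card with m.val < j, a m := by
  classical
  obtain ⟨a, ha, hr, hs⟩ := fun_of_list A l hl hA
  refine ⟨a, ha, hr, ?_⟩
  have hAl : A = l.toFinset := by
    ext a
    rw [List.mem_toFinset, hA]
  have hc : A.card = l.length := by
    rw [hAl, List.toFinset_card_of_nodup hl]
  intro i j hij hj hne heq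
  rw [hs i (by omega), hs j hj] at heq
  have hlen := LO_vs_length 0 l
  obtain ⟨j', rfl⟩ : ∃ j', j = j' + 1 := ⟨j - 1, by omega⟩
  have hj1 : j' < (vs 0 l).length := by omega
  have ej := LO_vs_get l 0 j' hj1
  rw [zero_add] at ej
  rcases Nat.eq_zero_or_pos i with rfl | hi
  · rw [List.take_zero, List.sum_nil] at heq
    apply h2
    have hj2 : j' < (vs 0 l).dropLast.length := by
      rw [List.length_dropLast]
      omega
    have hm := List.getElem_mem hj2
    rw [List.getElem_dropLast, ej, ← heq] at hm
    exact hm
  · obtain ⟨i', rfl⟩ : ∃ i', i = i' + 1 := ⟨i - 1, by omega⟩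
    have hi1 : i' < (vs 0 l).length := by omega
    have ei := LO_vs_get l 0 i' hi1
    rw [zero_add] at ei
    have : i' = j' := (List.Nodup.getElem_inj_iff h1).1 (ei.trans (heq.trans ej.symm))
    omega

end Pool.Agent.SDN
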