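import Pool.Agent.Lib_helper26.SDN.Defs
import Pool.Agent.Lib_helper26.SDN.VX

/-! Block QS (project SDN), helper58. -/

namespace Pool.Agent.SDN

open Finset

section
variable {G : Type*} [AddCommGroup G]

theorem QS_P_zero {m : ℕ} (y : Fin m → G) : P y 0 = 0 := by
  unfold P; simp

theorem QS_P_succ {m : ℕ} (y : Fin m → G) (i : ℕ) (h : i < m) :
    P y (i + 1) = P y i + y ⟨i, h⟩ := by
  unfold P
  have h1 : ∀ k : Fin m, (if (k : ℕ) < i + 1 then y k else 0) =
      (if (k : ℕ) < i then y k else 0) + (if k = ⟨i, h⟩ then y k else 0) := by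
    intro k
    by_cases hk : (k : ℕ) < i
    · have : k ≠ ⟨i, h⟩ := by
        intro e; rw [e] at hk; simp at hk
      simp [hk, this, Nat.lt_succ_of_lt hk]
    · by_cases hk2 : (k : ℕ) = i
      · have : k = ⟨i, h⟩ := Fin.ext hk2
        simp [this]
      · have h3 : ¬ (k : ℕ) < i + 1 := by omega
        have : k ≠ ⟨i, h⟩ := by
          intro e; apply hk2; rw [e]
        simp [hk, h3, this]
  rw [Finset.sum_congr rfl fun k _ => h1 k, Finset.sum_add_distrib]
  congr 1
  simp

theorem QS_vs_drop {m : ℕ} (y : Fin m → G) (d : G) (k : ℕ) : ∀ i, i + k = m →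
    vs (d + P y i) ((List.ofFn y).drop i) =
      (List.range k).map fun j => d + P y (i + 1 + j) := by
  induction k with
  | zero =>
    intro i hi
    have : (List.ofFn y).drop i = [] := by
      apply List.drop_eq_nil_of_le
      simp; omega
    rw [this]; simp [vs]
  | succ k ih =>
    intro i hi
    have hlt : i < m := by omega
    have h1 : (List.ofFn y).drop i = y ⟨i, hlt⟩ :: (List.ofFn y).drop (i + 1) := by
      rw [List.drop_eq_getElem_cons (by simpa using hlt)]
      simp
    rw [h1]
    simp only [vs]
    have h2 : d + P y i + y ⟨i, hlt⟩ = d + P y (i + 1) := by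
      rw [QS_P_succ y i hlt]; abel
    rw [h2, ih (i + 1) (by omega), List.range_succ_eq_map]
    simp only [List.map_cons, List.map_map]
    congr 1
    apply List.map_congr_left
    intro j _
    simp only [Function.comp]
    congr 2
    omega

theorem QS_pick {s : ℕ} {ι : Type*} [DecidableEq ι] (A D : Finset (Fin s)) (I : Finset ι)
    (f : ι → Fin s → G) (Y : ι → Finset G) (hf : ∀ i ∈ I, Function.Injective (f i))
    (h : D.card + ∑ i ∈ I, (Y i).card < A.card) :
    ∃ z ∈ A, z ∉ D ∧ ∀ i ∈ I, f i z ∉ Y i := by
  classical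
  by_contra hcon
  push Not at hcon
  have hsub : A ⊆ D ∪ I.biUnion fun i => Finset.univ.filter fun z => f i z ∈ Y i := by
    intro z hz
    by_cases hD : z ∈ D
    · exact Finset.mem_union_left _ hD
    · obtain ⟨i, hi, hiY⟩ := hcon z hz hD
      apply Finset.mem_union_right
      rw [Finset.mem_biUnion]
      exact ⟨i, hi, by simp [hiY]⟩
  have hc := Finset.card_le_card hsub
  have h2 : (D ∪ I.biUnion fun i => Finset.univ.filter fun z => f i z ∈ Y i).card ≤
      D.card + ∑ i ∈ I, (Y i).card := by
    refine (Finset.card_union_le _ _).trans ?_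
    apply Nat.add_le_add_left
    refine Finset.card_biUnion_le.trans ?_
    apply Finset.sum_le_sum
    intro i hi
    apply Finset.card_le_card_of_injOn (f i)
    · intro z hz
      simpa using hz
    · exact (hf i hi).injOn
  omega

theorem QS_flat {s : ℕ} (U : Finset (Fin s)) (f : Fin s → List G) :
    ((U.toList.flatMap f : List G) : Multiset G) = ∑ z ∈ U, (f z : Multiset G) := by
  rw [← Finset.sum_map_toList]
  induction U.toList with
  | nil => simp
  | cons a l ih =>
    rw [List.flatMap_cons, List.map_cons, List.sum_cons, ← ih, Multiset.coe_add]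

theorem QS_head {m : ℕ} (y : Fin m → G) (hm : 0 < m) :
    List.ofFn y = y ⟨0, hm⟩ :: (List.ofFn y).drop 1 := by
  have h := List.drop_eq_getElem_cons (l := List.ofFn y) (i := 0) (by simpa using hm)
  simpa using h

theorem QS_drop_sum {m : ℕ} (y : Fin m → G) (hy : P y m = 0) :
    ((List.ofFn y).drop 1).sum = - P y 1 := by
  have h1 := List.sum_take_add_sum_drop (List.ofFn y) 1
  have h2 : (List.ofFn y).sum = P y m := by
    rw [← take_ofFn_sum y m, List.take_of_length_le (by simp)]
  rw [take_ofFn_sum, h2, hy] at h1
  exact eq_neg_of_add_eq_zero_right h1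

/-- the vertices of one round -/
theorem QS_round' {m : ℕ} (hm : 0 < m) (y y' : Fin m → G) (hy : P y m = 0) (b : G)
    (l : List G) : vs (b + P y 1) (y' ⟨0, hm⟩ :: ((List.ofFn y).drop 1 ++ l)) =
      ((List.range m).map fun j => b + P y' 1 + P y (1 + j)) ++ vs (b + P y' 1) l := by
  have h1 : P y' 1 = y' ⟨0, hm⟩ := by
    have := QS_P_succ y' 0 hm
    rw [QS_P_zero] at this
    simpa using this
  have h2 : P y 1 = y ⟨0, hm⟩ := by
    have := QS_P_succ y 0 hm
    rw [QS_P_zero] at this
    simpa using this
  simp only [vs]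
  have e1 : b + P y 1 + y' ⟨0, hm⟩ = b + P y' 1 + P y 1 := by rw [h1]; abel
  rw [e1, vs_append, QS_drop_sum y hy]
  have e2 : b + P y' 1 + P y 1 + -P y 1 = b + P y' 1 := by abel
  rw [e2]
  have h3 := QS_vs_drop y (b + P y' 1) m 0 (by omega)
  rw [List.drop_zero, QS_head y hm, QS_P_zero, add_zero] at h3
  simp only [vs] at h3
  rw [← h2] at h3
  have h4 : ((List.range m).map fun j => b + P y' 1 + P y (0 + 1 + j)) =
      (List.range m).map fun j => b + P y' 1 + P y (1 + j) := by
    apply List.map_congr_left
    intro j _
    have : 0 + 1 + j = 1 + j := by omega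
    rw [this]
  rw [h4] at h3
  rw [← h3]
  rfl

theorem QS_round {m : ℕ} (hm : 0 < m) (y y' : Fin m → G) (hy : P y m = 0) (b a : G)
    (l : List G) : vs (b + P y 1) (y' ⟨0, hm⟩ :: ((List.ofFn y).drop 1 ++ (a :: l))) =
      ((List.range m).map fun j => b + P y' 1 + P y (1 + j)) ++
        ((b + P y' 1 + a) :: vs (b + a + P y' 1) l) := by
  rw [QS_round' hm y y' hy]
  simp only [vs]
  have e3 : b + P y' 1 + a = b + a + P y' 1 := by abel
  rw [e3]

open Classical in
theorem QS_aux {s m : ℕ} (hm : 3 ≤ m) (Z : Fin s → Fin m → G)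
    (B : Finset G) (hZ : Fam B 0 Z) (S : Finset (Fin s)) (W : Finset G) (T : G) (R K : ℕ)
    (hSP : ∀ c : Fin (m + 1) → G, R ≤ (S.filter fun z => (∀ i, P (Z z) 1 + c i ∉ W) ∧
      ∀ j, 2 ≤ j → j < m → T + P (Z z) j ∉ W).card)
    (hK : 10 * (m + 2) * K ≤ R) (hK1 : m + 2 ≤ K) :
    ∀ (Λ : List G) (b : G) (z : Fin s) (X : Finset G) (D : Finset (Fin s)),
      (∀ a ∈ Λ, a ≠ 0) → b + Λ.sum = T → z ∈ D → X.card + (m + 1) * Λ.length ≤ K →
      D.card + Λ.length ≤ K → (∀ a ∈ Λ.head?, ∀ j, 1 ≤ j → j < m → a ≠ P (Z z) j) →
      ∃ (U : Finset (Fin s)) (l q : List G), U ⊆ S ∧ U.card ≤ Λ.length + 1 ∧ Disjoint U D ∧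
        (l : Multiset G) = (Λ : Multiset G) + ((List.ofFn (Z z)).drop 1 : Multiset G) +
          ∑ z' ∈ U, (List.ofFn (Z z') : Multiset G) ∧
        vs (b + P (Z z) 1) l = q ++ [T] ∧ (q ++ [T]).Nodup ∧ ∀ u ∈ q, u ∉ W ∧ u ∉ X := by
  have hm0 : 0 < m := by omega
  have htot : ∀ z, P (Z z) m = 0 := hZ.tot
  have hinj1 : ∀ j, 0 < j → j < m → Function.Injective fun z => P (Z z) j := by
    intro j hj hj2 z z' h
    by_contra hne
    exact hZ.pre z z' j j hne hj hj2 hj hj2 h
  have hP1 : ∀ z, P (Z z) 1 = Z z ⟨0, hm0⟩ := by
    intro z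
    have := QS_P_succ (Z z) 0 hm0
    rw [QS_P_zero] at this
    simpa using this
  intro Λ
  induction Λ with
  | nil =>
    intro b z X D _ hb hzD hX hD _
    have hbT : b = T := by simpa using hb
    subst hbT
    simp only [List.length_nil, mul_zero, add_zero] at hX hD
    -- choose the last stock set
    have hpick := QS_pick (G := G)
      (S.filter fun z' => (∀ i : Fin (m + 1), P (Z z') 1 + (b + P (Z z) ((i : ℕ) + 1)) ∉ W) ∧
        ∀ j, 2 ≤ j → j < m → b + P (Z z') j ∉ W) D
      ((Finset.range m).disjSum ((Finset.Ico 2 m).disjSum (Finset.Ico 2 m)))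
      (Sum.elim (fun i z' => P (Z z') 1 + (b + P (Z z) (1 + i)))
        (Sum.elim (fun j z' => b + P (Z z') j) (fun j z' => P (Z z') j - P (Z z') 1)))
      (Sum.elim (fun _ => insert b X) (Sum.elim (fun _ => X)
        (fun _ => (Finset.range m).image fun i => P (Z z) (1 + i)))) ?_ ?_
    · obtain ⟨z', hz'A, hz'D, hz'⟩ := hpick
      rw [Finset.mem_filter] at hz'A
      obtain ⟨hz'S, hW1, hW2⟩ := hz'A
      have c1 : ∀ i, i < m → P (Z z') 1 + (b + P (Z z) (1 + i)) ∉ insert b X := by
        intro i hi
        exact hz' (Sum.inl i) (by simpa using hi)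
      have c2 : ∀ j, 2 ≤ j → j < m → b + P (Z z') j ∉ X := by
        intro j h1 h2
        exact hz' (Sum.inr (Sum.inl j)) (by simpa using ⟨h1, h2⟩)
      have c3 : ∀ j, 2 ≤ j → j < m → ∀ i, i < m → P (Z z') j - P (Z z') 1 ≠ P (Z z) (1 + i) := by
        intro j h1 h2 i hi he
        apply hz' (Sum.inr (Sum.inr j)) (by simpa using ⟨h1, h2⟩)
        simp only [Sum.elim_inr]
        rw [Finset.mem_image]
        exact ⟨i, by simpa using hi, he.symm⟩
      obtain ⟨m', rfl⟩ : ∃ m', m = m' + 2 := ⟨m - 2, by omega⟩
      refine ⟨{z'}, Z z' ⟨0, hm0⟩ :: ((List.ofFn (Z z)).drop 1 ++ (List.ofFn (Z z')).drop 1),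
        ((List.range (m' + 2)).map fun j => b + P (Z z') 1 + P (Z z) (1 + j)) ++
          (List.range m').map fun j => b + P (Z z') (2 + j), ?_, ?_, ?_, ?_, ?_, ?_, ?_⟩
      · simpa using hz'S
      · simp
      · simpa using hz'D
      · rw [Finset.sum_singleton]
        conv_rhs => rw [QS_head (Z z') hm0]
        rw [← Multiset.cons_coe, ← Multiset.coe_add, ← Multiset.cons_coe]
        simp only [Multiset.coe_nil, zero_add]
        rw [Multiset.add_cons]
      · have hr : List.range (m' + 1) = List.range m' ++ [m'] := List.range_succ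
        rw [QS_round' hm0 _ _ (htot z), QS_vs_drop (Z z') b (m' + 1) 1 (by omega),
          hr, List.map_append, List.map_cons, List.map_nil, List.append_assoc]
        have e1 : b + P (Z z') (1 + 1 + m') = b := by
          have : 1 + 1 + m' = m' + 2 := by omega
          rw [this, htot, add_zero]
        rw [e1]
      · rw [List.append_assoc, List.nodup_append]
        refine ⟨?_, ?_, ?_⟩
        · refine List.Nodup.map_on ?_ List.nodup_range
          intro i hi j hj h
          rw [List.mem_range] at hi hj
          have h' := add_left_cancel h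
          by_contra hne
          rcases lt_or_gt_of_ne hne with hlt | hlt
          · exact hZ.win z (1 + i) (1 + j) (by omega) (by omega) (by omega) h'
          · exact hZ.win z (1 + j) (1 + i) (by omega) (by omega) (by omega) h'.symm
        · rw [List.nodup_append]
          refine ⟨?_, by simp, ?_⟩
          · refine List.Nodup.map_on ?_ List.nodup_range
            intro i hi j hj h
            rw [List.mem_range] at hi hj
            have h' := add_left_cancel h
            by_contra hne
            rcases lt_or_gt_of_ne hne with hlt | hlt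
            · exact hZ.win z' (2 + i) (2 + j) (by omega) (by omega) (by omega) h'
            · exact hZ.win z' (2 + j) (2 + i) (by omega) (by omega) (by omega) h'.symm
          · intro u hu v hv huv
            rw [List.mem_singleton] at hv
            rw [List.mem_map] at hu
            obtain ⟨j, hj, rfl⟩ := hu
            rw [List.mem_range] at hj
            have h0 : P (Z z') (2 + j) = 0 := by
              have : b + P (Z z') (2 + j) = b + 0 := by rw [huv, hv, add_zero]
              exact add_left_cancel this
            apply hZ.win z' 0 (2 + j) (by omega) (by omega) (by omega)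
            rw [QS_P_zero, h0]
        · intro u hu v hv huv
          subst huv
          rw [List.mem_map] at hu
          obtain ⟨i, hi, rfl⟩ := hu
          rw [List.mem_range] at hi
          rw [List.mem_append, List.mem_singleton, List.mem_map] at hv
          rcases hv with ⟨j, hj, hv⟩ | hv
          · rw [List.mem_range] at hj
            apply c3 (2 + j) (by omega) (by omega) i hi
            have : b + (P (Z z') 1 + P (Z z) (1 + i)) = b + P (Z z') (2 + j) := by
              rw [hv]; abel
            have h' := add_left_cancel this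
            rw [← h']; abel
          · apply c1 i hi
            rw [Finset.mem_insert]; left
            calc P (Z z') 1 + (b + P (Z z) (1 + i)) = b + P (Z z') 1 + P (Z z) (1 + i) := by abel
              _ = b := hv
      · intro u hu
        rw [List.mem_append, List.mem_map, List.mem_map] at hu
        rcases hu with ⟨i, hi, rfl⟩ | ⟨j, hj, rfl⟩
        · rw [List.mem_range] at hi
          have e1 : b + P (Z z') 1 + P (Z z) (1 + i) = P (Z z') 1 + (b + P (Z z) (1 + i)) := by
            abel
          rw [e1]
          refine ⟨?_, fun hx => c1 i hi (Finset.mem_insert_of_mem hx)⟩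
          have h := hW1 ⟨i, by omega⟩
          simp only [add_comm i 1] at h
          exact h
        · rw [List.mem_range] at hj
          exact ⟨hW2 (2 + j) (by omega) (by omega), c2 (2 + j) (by omega) (by omega)⟩
    · intro i hi
      rcases i with i | i | i
      · intro z1 z2 h
        exact hinj1 1 (by omega) (by omega) (add_right_cancel h)
      · have hi' : i ∈ Finset.Ico 2 m := by simpa using hi
        rw [Finset.mem_Ico] at hi'
        intro z1 z2 h
        exact hinj1 i (by omega) (by omega) (add_left_cancel h)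
      · have hi' : i ∈ Finset.Ico 2 m := by simpa using hi
        rw [Finset.mem_Ico] at hi'
        intro z1 z2 h
        by_contra hne
        exact hZ.cross z1 z2 1 i hne (by omega) (by omega) (by omega) h
    · rw [Finset.sum_disjSum, Finset.sum_disjSum]
      simp only [Sum.elim_inl, Sum.elim_inr, Finset.sum_const, Finset.card_range, Nat.card_Ico,
        smul_eq_mul]
      have hR := hSP fun i => b + P (Z z) ((i : ℕ) + 1)
      refine lt_of_lt_of_le ?_ hR
      refine lt_of_lt_of_le ?_ hK
      have h1 : (insert b X).card ≤ K + 1 := (Finset.card_insert_le _ _).trans (by omega)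
      have h2 : ((Finset.range m).image fun i => P (Z z) (1 + i)).card ≤ m := by
        refine Finset.card_image_le.trans ?_
        rw [Finset.card_range]
      have h3 : m * (insert b X).card ≤ m * (K + 1) := Nat.mul_le_mul_left _ h1
      have h4 : (m - 2) * X.card ≤ m * K := Nat.mul_le_mul (by omega) hX
      have h5 : (m - 2) * ((Finset.range m).image fun i => P (Z z) (1 + i)).card ≤ m * m :=
        Nat.mul_le_mul (by omega) h2
      nlinarith
  | cons a Λ' ih =>
    intro b z X D hΛ hb hzD hX hD hhd
    simp only [List.length_cons] at hX hD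
    have ha0 : a ≠ 0 := hΛ a (by simp)
    have hb' : b + a + Λ'.sum = T := by rw [← hb, List.sum_cons]; abel
    have hX' : X.card ≤ K := by
      refine le_trans ?_ hX
      exact Nat.le_add_right _ _
    have hD' : D.card ≤ K := by omega
    let c : ℕ → G := fun i => if i < m then b + P (Z z) (i + 1) else b + a
    have hpick := QS_pick (G := G)
      (S.filter fun z' => (∀ i : Fin (m + 1), P (Z z') 1 + c (i : ℕ) ∉ W) ∧
        ∀ j, 2 ≤ j → j < m → T + P (Z z') j ∉ W) D
      ((Finset.range (m + 1)).disjSum (Finset.Ico 1 m))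
      (Sum.elim (fun i z' => P (Z z') 1 + c i) (fun j z' => P (Z z') j))
      (Sum.elim (fun _ => insert T X) (fun _ => Λ'.head?.toFinset)) ?_ ?_
    · obtain ⟨z', hz'A, hz'D, hz'⟩ := hpick
      rw [Finset.mem_filter] at hz'A
      obtain ⟨hz'S, hW1, -⟩ := hz'A
      have c1 : ∀ i, i < m + 1 → P (Z z') 1 + c i ∉ insert T X := by
        intro i hi
        exact hz' (Sum.inl i) (by simpa using hi)
      have c2 : ∀ a' ∈ Λ'.head?, ∀ j, 1 ≤ j → j < m → a' ≠ P (Z z') j := by
        intro a' ha' j h1 h2 he
        apply hz' (Sum.inr j) (by simpa using ⟨h1, h2⟩)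
        simp only [Sum.elim_inr]
        rw [← he, Option.mem_toFinset]
        exact ha'
      let N : Finset G := (Finset.range (m + 1)).image fun i => P (Z z') 1 + c i
      have hN : N.card ≤ m + 1 := by
        refine Finset.card_image_le.trans ?_
        rw [Finset.card_range]
      obtain ⟨U, l, q, hUS, hUc, hUD, hl, hv, hnd, hq⟩ := ih (b + a) z' (X ∪ N) (insert z' D)
        (fun x hx => hΛ x (by simp [hx])) hb' (by simp)
        (by
          have h1 := Finset.card_union_le X N
          have h2 : (m + 1) * (Λ'.length + 1) = (m + 1) * Λ'.length + (m + 1) := by ring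
          omega)
        (by
          have h1 := Finset.card_insert_le z' D
          omega) c2
      have hz'U : z' ∉ U := by
        intro h
        exact (Finset.disjoint_left.mp hUD) h (Finset.mem_insert_self _ _)
      -- the new vertices
      have hcE : ∀ j, j < m → b + P (Z z') 1 + P (Z z) (1 + j) = P (Z z') 1 + c j := by
        intro j hj
        simp only [c, hj, if_true]
        rw [add_comm j 1]; abel
      have hcA : b + P (Z z') 1 + a = P (Z z') 1 + c m := by
        simp only [c, lt_irrefl, if_false]
        abel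
      have hnew : ∀ j, j < m + 1 → P (Z z') 1 + c j ∉ q ++ [T] := by
        intro j hj h
        rw [List.mem_append, List.mem_singleton] at h
        rcases h with h | h
        · apply (hq _ h).2
          apply Finset.mem_union_right
          rw [Finset.mem_image]
          exact ⟨j, by simpa using hj, rfl⟩
        · apply c1 j hj
          rw [Finset.mem_insert]; left; exact h
      refine ⟨insert z' U, Z z' ⟨0, hm0⟩ :: ((List.ofFn (Z z)).drop 1 ++ (a :: l)),
        ((List.range m).map fun j => b + P (Z z') 1 + P (Z z) (1 + j)) ++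
          ((b + P (Z z') 1 + a) :: q), ?_, ?_, ?_, ?_, ?_, ?_, ?_⟩
      · intro x hx
        rw [Finset.mem_insert] at hx
        rcases hx with rfl | hx
        · exact hz'S
        · exact hUS hx
      · have := Finset.card_insert_le z' U
        rw [List.length_cons]
        omega
      · rw [Finset.disjoint_left]
        intro x hx hxD
        rw [Finset.mem_insert] at hx
        rcases hx with rfl | hx
        · exact hz'D hxD
        · exact (Finset.disjoint_left.mp hUD) hx (Finset.mem_insert_of_mem hxD)
      · rw [Finset.sum_insert hz'U]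
        conv_rhs => rw [QS_head (Z z') hm0]
        rw [← Multiset.cons_coe, ← Multiset.coe_add, ← Multiset.cons_coe, hl,
          ← Multiset.cons_coe, ← Multiset.cons_coe]
        simp only [← Multiset.singleton_add]
        abel
      · rw [QS_round hm0 _ _ (htot z), hv]
        simp
      · have e0 : (((List.range m).map fun j => b + P (Z z') 1 + P (Z z) (1 + j)) ++
            ((b + P (Z z') 1 + a) :: q)) ++ [T] =
            ((List.range m).map fun j => b + P (Z z') 1 + P (Z z) (1 + j)) ++
            ((b + P (Z z') 1 + a) :: (q ++ [T])) := by simp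
        rw [e0, List.nodup_append]
        refine ⟨?_, ?_, ?_⟩
        · refine List.Nodup.map_on ?_ List.nodup_range
          intro i hi j hj h
          rw [List.mem_range] at hi hj
          have h' := add_left_cancel h
          by_contra hne
          rcases lt_or_gt_of_ne hne with hlt | hlt
          · exact hZ.win z (1 + i) (1 + j) (by omega) (by omega) (by omega) h'
          · exact hZ.win z (1 + j) (1 + i) (by omega) (by omega) (by omega) h'.symm
        · rw [List.nodup_cons]
          refine ⟨?_, hnd⟩
          rw [hcA]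
          exact hnew m (by omega)
        · intro u hu v hv' huv
          subst huv
          rw [List.mem_map] at hu
          obtain ⟨i, hi, rfl⟩ := hu
          rw [List.mem_range] at hi
          rw [List.mem_cons] at hv'
          rcases hv' with hv' | hv'
          · have h' := add_left_cancel hv'
            by_cases him : 1 + i < m
            · exact hhd a (by simp) (1 + i) (by omega) him h'.symm
            · have : 1 + i = m := by omega
              rw [this, htot] at h'
              exact ha0 h'.symm
          · rw [hcE i hi] at hv'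
            exact hnew i (by omega) hv'
      · intro u hu
        rw [List.mem_append, List.mem_cons, List.mem_map] at hu
        rcases hu with ⟨i, hi, rfl⟩ | rfl | hu
        · rw [List.mem_range] at hi
          rw [hcE i hi]
          exact ⟨hW1 ⟨i, by omega⟩, fun h => c1 i (by omega) (Finset.mem_insert_of_mem h)⟩
        · rw [hcA]
          exact ⟨hW1 ⟨m, by omega⟩, fun h => c1 m (by omega) (Finset.mem_insert_of_mem h)⟩
        · exact ⟨(hq u hu).1, fun h => (hq u hu).2 (Finset.mem_union_left _ h)⟩
    · intro i hi
      rcases i with i | i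
      · intro z1 z2 h
        exact hinj1 1 (by omega) (by omega) (add_right_cancel h)
      · have hi' : i ∈ Finset.Ico 1 m := by simpa using hi
        rw [Finset.mem_Ico] at hi'
        exact hinj1 i (by omega) (by omega)
    · rw [Finset.sum_disjSum]
      simp only [Sum.elim_inl, Sum.elim_inr, Finset.sum_const, Finset.card_range, Nat.card_Ico,
        smul_eq_mul]
      have hR := hSP fun i => c (i : ℕ)
      refine lt_of_lt_of_le ?_ hR
      refine lt_of_lt_of_le ?_ hK
      have h1 : (insert T X).card ≤ K + 1 := (Finset.card_insert_le _ _).trans (by omega)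
      have h2 : (Λ'.head?.toFinset).card ≤ 1 := by
        cases Λ'.head? <;> simp
      have h3 : (m + 1) * (insert T X).card ≤ (m + 1) * (K + 1) := Nat.mul_le_mul_left _ h1
      have h4 : (m - 1) * (Λ'.head?.toFinset).card ≤ m * 1 := Nat.mul_le_mul (by omega) h2
      nlinarith

end

open Classical in
theorem stepping {G : Type*} [AddCommGroup G] {s m : ℕ} (hm : 3 ≤ m) (Z : Fin s → Fin m → G)
    (B : Finset G) (hZ : Fam B 0 Z) (S : Finset (Fin s)) (W : Finset G) (T b : G) (Λ : List G)
    (hΛ0 : ∀ a ∈ Λ, a ≠ 0) (hT : b + Λ.sum = T) (R : ℕ)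
    (hSP : ∀ c : Fin (m + 1) → G, R ≤ (S.filter fun z => (∀ i, P (Z z) 1 + c i ∉ W) ∧
      ∀ j, 2 ≤ j → j < m → T + P (Z z) j ∉ W).card)
    (hR : 10 * (m + 2) ^ 2 * (Λ.length + 3) ≤ R) :
    ∃ (U : Finset (Fin s)) (l : List G), U ⊆ S ∧ U.card ≤ Λ.length + 2 ∧
      l.Perm (Λ ++ U.toList.flatMap fun z => List.ofFn (Z z)) ∧ (vs b l).Nodup ∧
      vs b l = (vs b l).dropLast ++ [T] ∧ ∀ u ∈ (vs b l).dropLast, u ∉ W ∧ u ≠ T := by
  have hm0 : 0 < m := by omega
  have hP1 : ∀ z, P (Z z) 1 = Z z ⟨0, hm0⟩ := by
    intro z
    have := QS_P_succ (Z z) 0 hm0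
    rw [QS_P_zero] at this
    simpa using this
  have hpick := QS_pick (G := G)
    (S.filter fun z' => (∀ i : Fin (m + 1), P (Z z') 1 + b ∉ W) ∧
      ∀ j, 2 ≤ j → j < m → T + P (Z z') j ∉ W) ∅
    ((Finset.range 1).disjSum (Finset.Ico 1 m))
    (Sum.elim (fun _ z' => P (Z z') 1 + b) (fun j z' => P (Z z') j))
    (Sum.elim (fun _ => {T}) (fun _ => Λ.head?.toFinset)) ?_ ?_
  · obtain ⟨z, hzA, -, hz⟩ := hpick
    rw [Finset.mem_filter] at hzA
    obtain ⟨hzS, hW1, -⟩ := hzA
    have c0 : b + P (Z z) 1 ≠ T := by
      have h := hz (Sum.inl 0) (by simp)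
      simp only [Sum.elim_inl, Finset.mem_singleton] at h
      rwa [add_comm]
    have cW : b + P (Z z) 1 ∉ W := by
      rw [add_comm]; exact hW1 0
    have c2 : ∀ a' ∈ Λ.head?, ∀ j, 1 ≤ j → j < m → a' ≠ P (Z z) j := by
      intro a' ha' j h1 h2 he
      apply hz (Sum.inr j) (by simpa using ⟨h1, h2⟩)
      simp only [Sum.elim_inr]
      rw [← he, Option.mem_toFinset]
      exact ha'
    obtain ⟨U, l, q, hUS, hUc, hUD, hl, hv, hnd, hq⟩ := QS_aux hm Z B hZ S W T R
      ((m + 2) * (Λ.length + 3)) hSP (le_trans (le_of_eq (by ring)) hR) (by nlinarith) Λ b z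
      {b + P (Z z) 1} {z} hΛ0 hT (by simp) (by simp; nlinarith) (by simp; nlinarith) c2
    have hzU : z ∉ U := fun h => (Finset.disjoint_left.mp hUD) h (Finset.mem_singleton_self _)
    have hvs : vs b (Z z ⟨0, hm0⟩ :: l) = ((b + P (Z z) 1) :: q) ++ [T] := by
      simp only [vs]
      rw [← hP1, hv]
      rfl
    have hdl : (vs b (Z z ⟨0, hm0⟩ :: l)).dropLast = (b + P (Z z) 1) :: q := by
      rw [hvs, List.dropLast_concat]
    have hnot : b + P (Z z) 1 ∉ q ++ [T] := by
      intro h
      rw [List.mem_append, List.mem_singleton] at h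
      rcases h with h | h
      · exact (hq _ h).2 (Finset.mem_singleton_self _)
      · exact c0 h
    have hnd2 : (((b + P (Z z) 1) :: q) ++ [T]).Nodup := by
      rw [List.cons_append, List.nodup_cons]
      exact ⟨hnot, hnd⟩
    refine ⟨insert z U, Z z ⟨0, hm0⟩ :: l, ?_, ?_, ?_, ?_, ?_, ?_⟩
    · intro x hx
      rw [Finset.mem_insert] at hx
      rcases hx with rfl | hx
      · exact hzS
      · exact hUS hx
    · have := Finset.card_insert_le z U
      omega
    · rw [← Multiset.coe_eq_coe, ← Multiset.coe_add, QS_flat, Finset.sum_insert hzU]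
      conv_rhs => rw [QS_head (Z z) hm0]
      rw [← Multiset.cons_coe, hl, ← Multiset.cons_coe]
      simp only [← Multiset.singleton_add]
      abel
    · rw [hvs]; exact hnd2
    · rw [hdl, hvs]
    · rw [hdl]
      intro u hu
      rw [List.mem_cons] at hu
      rcases hu with rfl | hu
      · exact ⟨cW, c0⟩
      · refine ⟨(hq u hu).1, ?_⟩
        intro h
        rw [List.nodup_append] at hnd
        exact hnd.2.2 u hu T (by simp) h
  · intro i hi
    rcases i with i | i
    · intro z1 z2 h
      by_contra hne
      exact hZ.pre z1 z2 1 1 hne (by omega) (by omega) (by omega) (by omega)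
        (add_right_cancel h)
    · have hi' : i ∈ Finset.Ico 1 m := by simpa using hi
      rw [Finset.mem_Ico] at hi'
      intro z1 z2 h
      by_contra hne
      exact hZ.pre z1 z2 i i hne (by omega) (by omega) (by omega) (by omega) h
  · rw [Finset.sum_disjSum]
    simp only [Sum.elim_inl, Sum.elim_inr, Finset.sum_const, Finset.card_range, Nat.card_Ico,
      smul_eq_mul, Finset.card_empty, Finset.card_singleton]
    have hR' := hSP fun _ => b
    refine lt_of_lt_of_le ?_ hR'
    refine lt_of_lt_of_le ?_ hR
    have h2 : (Λ.head?.toFinset).card ≤ 1 := by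
      cases Λ.head? <;> simp
    have h4 : (m - 1) * (Λ.head?.toFinset).card ≤ m * 1 := Nat.mul_le_mul (by omega) h2
    nlinarith

end Pool.Agent.SDN
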