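import Pool.Agent.Lib_helper26.SDN.Defs

/-! Block TR (project SDN): transport; helper99. -/

namespace Pool.Agent.SDN

open Finset

theorem transport {G : Type*} [AddCommGroup G] (V : AddSubgroup G)
    (hV : (V : Set G).Finite) : ∃ (V₀ : Type) (_ : AddCommGroup V₀) (_ : Fintype V₀)
      (φ : V₀ →+ G), Function.Injective φ ∧ Set.range φ = (V : Set G) := by
  have hf : Finite V := hV.to_subtype
  let f : Shrink.{0} V ≃+ V := Shrink.addEquiv
  refine ⟨Shrink.{0} V, inferInstance, Fintype.ofFinite _,
    V.subtype.comp f.toAddMonoidHom, ?_, ?_⟩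
  · exact Subtype.val_injective.comp f.injective
  · ext x
    constructor
    · rintro ⟨y, rfl⟩
      exact (f y).2
    · intro hx
      obtain ⟨y, hy⟩ := f.surjective ⟨x, hx⟩
      exact ⟨y, congrArg Subtype.val hy⟩

theorem P_map {V G : Type*} [AddCommGroup V] [AddCommGroup G] {m : ℕ} (φ : V →+ G)
    (y : Fin m → V) (j : ℕ) : P (fun i => φ (y i)) j = φ (P y j) := by
  simp only [P, map_sum]
  refine Finset.sum_congr rfl fun i _ => ?_
  split_ifs
  · rfl
  · exact (map_zero φ).symm

theorem fam_map {V G : Type*} [AddCommGroup V] [AddCommGroup G] {s m : ℕ} (φ : V →+ G)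
    (hφ : Function.Injective φ) (B : Finset V) (y : V) (Z : Fin s → Fin m → V)
    (hZ : Fam B y Z) (B' : Finset G) (hB : ∀ b ∈ B, φ b ∈ B') :
    Fam B' (φ y) (fun z i => φ (Z z i)) where
  mem z i := hB _ (hZ.mem z i)
  inj z z' i i' h := hZ.inj z z' i i' (hφ h)
  tot z := by rw [P_map, hZ.tot]
  win z i j hij hj hne := by
    rw [P_map, P_map]
    exact fun h => hZ.win z i j hij hj hne (hφ h)
  cross z z' i j hz hij hj hne := by
    rw [P_map, P_map, P_map, P_map, ← map_sub, ← map_sub]
    exact fun h => hZ.cross z z' i j hz hij hj hne (hφ h)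
  pre z z' i j hz h1 h2 h3 h4 := by
    rw [P_map, P_map]
    exact fun h => hZ.pre z z' i j hz h1 h2 h3 h4 (hφ h)

theorem vs_map {V G : Type*} [AddCommGroup V] [AddCommGroup G] (φ : V →+ G) (c : V)
    (l : List V) : vs (φ c) (l.map φ) = (vs c l).map φ := by
  induction l generalizing c with
  | nil => rfl
  | cons a l ih => simp only [List.map_cons, vs, ← map_add, ih]

end Pool.Agent.SDN
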